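import Pool.Agent.H61.PO.Taut

/-!
# PO-03: gluing

`glueCob`: `r x = s x` for `x ∈ A`, `r x = t x + c` for `x ∉ A`.  On `A ∩ B`: `t x + c = s x`, so `r = t + c` on `B`
and `r = s` on `A`.  Near `x ∈ A \ B`: all points of `A ∪ B` near `x` are in `A` (`B` closed); `x ∈ B \ A` likewise.
Near `x ∈ A ∩ B`: for `a ∈ A`, `b ∈ B`: `g a b = g a x + g x b = (s a + s x) + (t x + t b) = r a + r b`.
`glueCob_conn`: by `LCob.const`.
`glue`: if `A` or `B` is empty trivial.  By `taut1` we may assume `g1` is a cocycle on an open `W1 ⊇ A`, `g2` on an open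
`W2 ⊇ B` (the values on `A × A`, `B × B` do not change).  By `taut2` (for `A ∩ B ⊆ W1 ∩ W2`) there are `s` and an open
`W0 ⊇ A ∩ B`, `W0 ⊆ W1 ∩ W2`, with `g1 + g2` locally equal to the coboundary of `s` on `W0`.
Replace `g2` by `g2' a b = g2 a b + s a + s b`; then `g1 = g2'` locally on `W0`.  `A1 = A \ W0` and `B1 = B \ W0` are
closed and disjoint; choose an open `N` with `B1 ⊆ N`, `closure N ∩ A1 = ∅` (normal space).
`g a b = g2' a b` if `a ∈ N` or `b ∈ N`, otherwise `g1 a b`.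
Check at `x ∈ A ∪ B`: `x ∈ N`: near `x` `g = g2'`; `x ∈ B`, or `x ∈ A \ B`, then `x ∉ A1` so `x ∈ W0 ⊆ W2`.
`x ∉ closure N`: near `x` `g = g1`; `x ∈ A` or `x ∈ B \ A`, `x ∉ B1`, `x ∈ W0 ⊆ W1`.  `x ∈ closure N \ N`: `x ∉ A1`,
`x ∉ B1`, so `x ∈ W0` and near `x` `g1 = g2'`.
`g + g1` is a coboundary on `A`: near points of `A` it is `0` (primitive `0`): on `A ∩ N`, `x ∈ W0`, `g = g2' = g1`.
`g + g2` on `B`: primitive `s`.
-/

namespace Pool.Agent.H61.PO

open Set Filter Topology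

private theorem glue_two : (2 : ZMod 2) = 0 := by decide

theorem glueCob {X : Type*} [TopologicalSpace X] {A B : Set X} (hA : IsClosed A)
    (hB : IsClosed B) {g : X → X → ZMod 2} (hg : Coc (A ∪ B) g) {s t : X → ZMod 2}
    (hs : LCob A g s) (ht : LCob B g t) {c : ZMod 2} (hc : ∀ x ∈ A ∩ B, s x + t x = c) :
    Cob (A ∪ B) g := by
  classical
  have h2 := glue_two
  refine ⟨fun x => if x ∈ A then s x else t x + c, ?_⟩
  have rA : ∀ a ∈ A, (if a ∈ A then s a else t a + c) = s a := fun a ha => if_pos ha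
  have rB : ∀ a ∈ B, (if a ∈ A then s a else t a + c) = t a + c := by
    intro a ha
    by_cases haA : a ∈ A
    · rw [if_pos haA]
      linear_combination hc a ⟨haA, ha⟩ - t a * h2
    · rw [if_neg haA]
  intro x hx
  by_cases hxA : x ∈ A
  · obtain ⟨U, hU, hUs⟩ := hs x hxA
    by_cases hxB : x ∈ B
    · obtain ⟨V, hV, hVt⟩ := ht x hxB
      obtain ⟨W, hW, hWg⟩ := hg x hx
      refine ⟨U ∩ V ∩ W, inter_mem (inter_mem hU hV) hW, ?_⟩
      have hxU := mem_of_mem_nhds hU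
      have hxV := mem_of_mem_nhds hV
      have hxW := mem_of_mem_nhds hW
      rintro a ⟨⟨⟨haU, haV⟩, haW⟩, ha⟩ b ⟨⟨⟨hbU, hbV⟩, hbW⟩, hb⟩
      show g a b = (if a ∈ A then s a else t a + c) + (if b ∈ A then s b else t b + c)
      have hgab := hWg a ⟨haW, ha⟩ x ⟨hxW, hx⟩ b ⟨hbW, hb⟩
      have hcx := hc x ⟨hxA, hxB⟩
      rcases ha with ha | ha
      · rcases hb with hb | hb
        · rw [rA a ha, rA b hb]
          exact hUs a ⟨haU, ha⟩ b ⟨hbU, hb⟩
        · rw [rA a ha, rB b hb]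
          have e1 := hUs a ⟨haU, ha⟩ x ⟨hxU, hxA⟩
          have e2 := hVt x ⟨hxV, hxB⟩ b ⟨hbV, hb⟩
          linear_combination -hgab + e1 + e2 + hcx
      · rcases hb with hb | hb
        · rw [rB a ha, rA b hb]
          have e1 := hVt a ⟨haV, ha⟩ x ⟨hxV, hxB⟩
          have e2 := hUs x ⟨hxU, hxA⟩ b ⟨hbU, hb⟩
          linear_combination -hgab + e1 + e2 + hcx
        · rw [rB a ha, rB b hb]
          have e1 := hVt a ⟨haV, ha⟩ b ⟨hbV, hb⟩
          linear_combination e1 - c * h2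
    · refine ⟨U ∩ Bᶜ, inter_mem hU (hB.isOpen_compl.mem_nhds hxB), ?_⟩
      rintro a ⟨⟨haU, haB⟩, ha⟩ b ⟨⟨hbU, hbB⟩, hb⟩
      show g a b = (if a ∈ A then s a else t a + c) + (if b ∈ A then s b else t b + c)
      have haA : a ∈ A := ha.resolve_right haB
      have hbA : b ∈ A := hb.resolve_right hbB
      rw [rA a haA, rA b hbA]
      exact hUs a ⟨haU, haA⟩ b ⟨hbU, hbA⟩
  · have hxB : x ∈ B := hx.resolve_left hxA
    obtain ⟨V, hV, hVt⟩ := ht x hxB
    refine ⟨V ∩ Aᶜ, inter_mem hV (hA.isOpen_compl.mem_nhds hxA), ?_⟩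
    rintro a ⟨⟨haV, haA⟩, ha⟩ b ⟨⟨hbV, hbA⟩, hb⟩
    show g a b = (if a ∈ A then s a else t a + c) + (if b ∈ A then s b else t b + c)
    have haB : a ∈ B := ha.resolve_left haA
    have hbB : b ∈ B := hb.resolve_left hbA
    rw [rB a haB, rB b hbB]
    have e1 := hVt a ⟨haV, haB⟩ b ⟨hbV, hbB⟩
    linear_combination e1 - c * h2

theorem glueCob_conn {X : Type*} [TopologicalSpace X] {A B : Set X} (hA : IsClosed A)
    (hB : IsClosed B) {g : X → X → ZMod 2} (hg : Coc (A ∪ B) g) (hgA : Cob A g) (hgB : Cob B g)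
    (hAB : IsPreconnected (A ∩ B)) : Cob (A ∪ B) g := by
  obtain ⟨s, hs⟩ := hgA
  obtain ⟨t, ht⟩ := hgB
  obtain ⟨c, hc⟩ := (hs.mono inter_subset_left).const (ht.mono inter_subset_right) hAB
  exact glueCob hA hB hg hs ht hc

theorem glue {X : Type*} [MetricSpace X] {A B : Set X} (hA : IsClosed A) (hB : IsClosed B)
    {g1 g2 : X → X → ZMod 2} (h1 : Coc A g1) (h2 : Coc B g2) (h : Cob (A ∩ B) (g1 + g2)) :
    ∃ g : X → X → ZMod 2, Coc (A ∪ B) g ∧ Cob A (g + g1) ∧ Cob B (g + g2) := by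
  classical
  have two := glue_two
  obtain ⟨k1, W1, hW1, hAW1, hk1, he1⟩ := taut1 hA h1
  obtain ⟨k2, W2, hW2, hBW2, hk2, he2⟩ := taut1 hB h2
  have h' : Cob (A ∩ B) (k1 + k2) := by
    refine h.of_eqOn fun a ha b hb => ?_
    show g1 a b + g2 a b = k1 a b + k2 a b
    rw [he1 a ha.1 b hb.1, he2 a ha.2 b hb.2]
  have hcoc : Coc (W1 ∩ W2) (k1 + k2) :=
    (hk1.mono inter_subset_left).add (hk2.mono inter_subset_right)
  obtain ⟨W0, hW0, hABW0, hW0W, s, hs⟩ := taut2 (hA.inter hB) (hW1.inter hW2)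
    (inter_subset_inter hAW1 hBW2) hcoc h'
  have hB1 : IsClosed (B \ W0) := hB.sdiff hW0
  have hA1 : IsClosed (A \ W0) := hA.sdiff hW0
  obtain ⟨N, hN, hBN, hNA⟩ := normal_exists_closure_subset hB1 hA1.isOpen_compl (by
    rintro x ⟨hxB, hx0⟩ ⟨hxA, -⟩
    exact hx0 (hABW0 ⟨hxA, hxB⟩))
  -- near points of `W0` the two cocycles agree
  have hE : ∀ x ∈ W0, ∃ U ∈ 𝓝 x, U ⊆ W0 ∧ ∀ a ∈ U, ∀ b ∈ U, k1 a b = k2 a b + (s a + s b) := by
    intro x hx
    obtain ⟨U, hU, hUs⟩ := hs x hx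
    refine ⟨U ∩ W0, inter_mem hU (hW0.mem_nhds hx), inter_subset_right, ?_⟩
    intro a ha b hb
    have h3 : k1 a b + k2 a b = s a + s b := hUs a ha b hb
    linear_combination h3 - k2 a b * two
  -- the new cocycle
  obtain ⟨g, hgdef⟩ : ∃ g : X → X → ZMod 2, g = fun a b =>
    if a ∈ N ∨ b ∈ N then k2 a b + (s a + s b) else k1 a b := ⟨_, rfl⟩
  have gN : ∀ a b, a ∈ N → g a b = k2 a b + (s a + s b) := by
    intro a b ha
    rw [hgdef]
    exact if_pos (Or.inl ha)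
  have gN' : ∀ a b, a ∉ N → b ∉ N → g a b = k1 a b := by
    intro a b ha hb
    rw [hgdef]
    exact if_neg (by push Not; exact ⟨ha, hb⟩)
  have gE : ∀ a b, k1 a b = k2 a b + (s a + s b) → g a b = k1 a b := by
    intro a b hab
    rw [hgdef]
    by_cases hh : a ∈ N ∨ b ∈ N
    · exact (if_pos hh).trans hab.symm
    · exact if_neg hh
  have xA : ∀ x ∈ A, x ∈ closure N → x ∈ W0 := by
    intro x hxA hxN
    by_contra hx0
    exact hNA hxN ⟨hxA, hx0⟩
  have xB : ∀ x ∈ B, x ∉ N → x ∈ W0 := by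
    intro x hxB hxN
    by_contra hx0
    exact hxN (hBN ⟨hxB, hx0⟩)
  refine ⟨g, ?_, ⟨fun _ => 0, ?_⟩, ⟨s, ?_⟩⟩
  · intro x hx
    by_cases hxN : x ∈ N
    · have hxW2 : x ∈ W2 := by
        rcases hx with hx | hx
        · exact (hW0W (xA x hx (subset_closure hxN))).2
        · exact hBW2 hx
      obtain ⟨U, hU, hUk⟩ := hk2 x hxW2
      refine ⟨U ∩ W2 ∩ N, inter_mem (inter_mem hU (hW2.mem_nhds hxW2)) (hN.mem_nhds hxN), ?_⟩
      rintro a ⟨⟨ha, haN⟩, -⟩ b ⟨⟨hb, hbN⟩, -⟩ c ⟨⟨hc, hcN⟩, -⟩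
      rw [gN a b haN, gN b c hbN, gN a c haN]
      linear_combination hUk a ha b hb c hc + s b * two
    · by_cases hxN' : x ∈ closure N
      · have hx0 : x ∈ W0 := by
          rcases hx with hx | hx
          · exact xA x hx hxN'
          · exact xB x hx hxN
        obtain ⟨U, hU, hUW, hUe⟩ := hE x hx0
        obtain ⟨V, hV, hVk⟩ := hk1 x (hW0W hx0).1
        refine ⟨U ∩ V, inter_mem hU hV, ?_⟩
        rintro a ⟨⟨haU, haV⟩, -⟩ b ⟨⟨hbU, hbV⟩, -⟩ c ⟨⟨hcU, hcV⟩, -⟩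
        rw [gE a b (hUe a haU b hbU), gE b c (hUe b hbU c hcU), gE a c (hUe a haU c hcU)]
        exact hVk a ⟨haV, (hW0W (hUW haU)).1⟩ b ⟨hbV, (hW0W (hUW hbU)).1⟩ c
          ⟨hcV, (hW0W (hUW hcU)).1⟩
      · have hxW1 : x ∈ W1 := by
          rcases hx with hx | hx
          · exact hAW1 hx
          · exact (hW0W (xB x hx hxN)).1
        obtain ⟨U, hU, hUk⟩ := hk1 x hxW1
        refine ⟨U ∩ W1 ∩ (closure N)ᶜ, inter_mem (inter_mem hU (hW1.mem_nhds hxW1))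
          (isClosed_closure.isOpen_compl.mem_nhds hxN'), ?_⟩
        rintro a ⟨⟨ha, haN⟩, -⟩ b ⟨⟨hb, hbN⟩, -⟩ c ⟨⟨hc, hcN⟩, -⟩
        have haN' : a ∉ N := fun h3 => haN (subset_closure h3)
        have hbN' : b ∉ N := fun h3 => hbN (subset_closure h3)
        have hcN' : c ∉ N := fun h3 => hcN (subset_closure h3)
        rw [gN' a b haN' hbN', gN' b c hbN' hcN', gN' a c haN' hcN']
        exact hUk a ha b hb c hc
  · intro x hx
    by_cases hxN' : x ∈ closure N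
    · obtain ⟨U, hU, hUW, hUe⟩ := hE x (xA x hx hxN')
      refine ⟨U, hU, ?_⟩
      rintro a ⟨haU, haA⟩ b ⟨hbU, hbA⟩
      show g a b + g1 a b = 0 + 0
      rw [gE a b (hUe a haU b hbU), he1 a haA b hbA]
      linear_combination g1 a b * two
    · refine ⟨(closure N)ᶜ, isClosed_closure.isOpen_compl.mem_nhds hxN', ?_⟩
      rintro a ⟨haN, haA⟩ b ⟨hbN, hbA⟩
      show g a b + g1 a b = 0 + 0
      rw [gN' a b (fun h3 => haN (subset_closure h3)) (fun h3 => hbN (subset_closure h3)),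
        he1 a haA b hbA]
      linear_combination g1 a b * two
  · intro x hx
    by_cases hxN : x ∈ N
    · refine ⟨N, hN.mem_nhds hxN, ?_⟩
      rintro a ⟨haN, haB⟩ b ⟨hbN, hbB⟩
      show g a b + g2 a b = s a + s b
      rw [gN a b haN, he2 a haB b hbB]
      linear_combination g2 a b * two
    · obtain ⟨U, hU, hUW, hUe⟩ := hE x (xB x hx hxN)
      refine ⟨U, hU, ?_⟩
      rintro a ⟨haU, haB⟩ b ⟨hbU, hbB⟩
      show g a b + g2 a b = s a + s b
      rw [gE a b (hUe a haU b hbU), hUe a haU b hbU, he2 a haB b hbB]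
      linear_combination g2 a b * two

end Pool.Agent.H61.PO
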