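import Pool.Agent.H61.PO.Coc

/-!
# PO-02: tautness

`ret`: for `A` closed nonempty in a metric space there is `r : X → X` with `r a ∈ A`, `dist a (r a) ≤ 2 * infDist a A`
(so `r = id` on `A`, as `A` is closed).  For `x ∈ A`: `dist (r a) x ≤ 3 * dist a x`
(`Metric.infDist_le_dist_of_mem`), so `r a` is near `x` if `a` is.
`taut1`: `g' a b = g (r a) (r b)`; it is a cocycle on a neighbourhood of each point of `A`; `W` = union of the
interiors of these neighbourhoods.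
`taut2`: `s' a = s (r a) + g a (r a)`: near `x ∈ A`, `g a b = g a (r a) + g (r a) (r b) + g (r b) b` and
`g (r a) (r b) = s (r a) + s (r b)`; `W' = W ∩` union of the interiors of the neighbourhoods.
-/

namespace Pool.Agent.H61.PO

open Set Filter Topology

variable {X : Type*} [MetricSpace X]

theorem ret {A : Set X} (hA : IsClosed A) (hne : A.Nonempty) :
    ∃ r : X → X, (∀ a, r a ∈ A) ∧ (∀ a ∈ A, r a = a) ∧
      ∀ x ∈ A, ∀ a, dist (r a) x ≤ 3 * dist a x := by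
  have key : ∀ a, ∃ b ∈ A, (a ∈ A → b = a) ∧ dist a b ≤ 2 * Metric.infDist a A := by
    intro a
    by_cases ha : a ∈ A
    · refine ⟨a, ha, fun _ => rfl, ?_⟩
      rw [dist_self]
      exact mul_nonneg (by norm_num) Metric.infDist_nonneg
    · have h1 : 0 < Metric.infDist a A := (hA.notMem_iff_infDist_pos hne).1 ha
      obtain ⟨b, hb, h2⟩ := (Metric.infDist_lt_iff hne).1
        (show Metric.infDist a A < 2 * Metric.infDist a A by linarith)
      exact ⟨b, hb, fun h => absurd h ha, h2.le⟩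
  choose r hr1 hr2 hr3 using key
  refine ⟨r, hr1, hr2, fun x hx a => ?_⟩
  have h1 := Metric.infDist_le_dist_of_mem (x := a) hx
  have h2 := dist_triangle (r a) a x
  have h3 := hr3 a
  rw [dist_comm] at h3
  linarith

theorem taut1 {A : Set X} (hA : IsClosed A) {g : X → X → ZMod 2} (hg : Coc A g) :
    ∃ (g' : X → X → ZMod 2) (W : Set X), IsOpen W ∧ A ⊆ W ∧ Coc W g' ∧
      ∀ a ∈ A, ∀ b ∈ A, g' a b = g a b := by
  rcases A.eq_empty_or_nonempty with rfl | hne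
  · exact ⟨g, ∅, isOpen_empty, Subset.rfl, fun x hx => absurd hx (notMem_empty x),
      fun a ha => absurd ha (notMem_empty a)⟩
  obtain ⟨r, hr1, hr2, hr3⟩ := ret hA hne
  have key : ∀ x : A, ∃ ε : ℝ, 0 < ε ∧ ∀ a ∈ Metric.ball (x : X) ε ∩ A,
      ∀ b ∈ Metric.ball (x : X) ε ∩ A, ∀ c ∈ Metric.ball (x : X) ε ∩ A,
      g a b + g b c = g a c := by
    rintro ⟨x, hx⟩
    obtain ⟨U, hU, h⟩ := hg x hx
    obtain ⟨ε, hε, hεU⟩ := Metric.mem_nhds_iff.1 hU
    exact ⟨ε, hε, fun a ha b hb c hc => h a ⟨hεU ha.1, ha.2⟩ b ⟨hεU hb.1, hb.2⟩ c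
      ⟨hεU hc.1, hc.2⟩⟩
  choose ε hε hcoc using key
  refine ⟨fun a b => g (r a) (r b), ⋃ x : A, Metric.ball (x : X) (ε x / 3),
    isOpen_iUnion fun x => Metric.isOpen_ball, ?_, ?_, ?_⟩
  · intro x hx
    exact mem_iUnion.2 ⟨⟨x, hx⟩, Metric.mem_ball_self (by have := hε ⟨x, hx⟩; linarith)⟩
  · intro y hy
    obtain ⟨x, hyx⟩ := mem_iUnion.1 hy
    refine ⟨Metric.ball (x : X) (ε x / 3), Metric.isOpen_ball.mem_nhds hyx, ?_⟩
    have hb : ∀ a ∈ Metric.ball (x : X) (ε x / 3), r a ∈ Metric.ball (x : X) (ε x) ∩ A := by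
      intro a ha
      refine ⟨?_, hr1 a⟩
      rw [Metric.mem_ball] at ha ⊢
      have := hr3 x x.2 a
      linarith
    intro a ha b hb' c hc
    exact hcoc x _ (hb a ha.1) _ (hb b hb'.1) _ (hb c hc.1)
  · intro a ha b hb
    show g (r a) (r b) = g a b
    rw [hr2 a ha, hr2 b hb]

theorem taut2 {A W : Set X} (hA : IsClosed A) (hW : IsOpen W) (hAW : A ⊆ W)
    {g : X → X → ZMod 2} (hg : Coc W g) (h : Cob A g) :
    ∃ W' : Set X, IsOpen W' ∧ A ⊆ W' ∧ W' ⊆ W ∧ Cob W' g := by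
  rcases A.eq_empty_or_nonempty with rfl | hne
  · exact ⟨∅, isOpen_empty, Subset.rfl, empty_subset _, fun _ => 0,
      fun x hx => absurd hx (notMem_empty x)⟩
  obtain ⟨r, hr1, hr2, hr3⟩ := ret hA hne
  obtain ⟨s, hs⟩ := h
  have key : ∀ x : A, ∃ ε : ℝ, 0 < ε ∧ Metric.ball (x : X) ε ⊆ W ∧
      (∀ a ∈ Metric.ball (x : X) ε, ∀ b ∈ Metric.ball (x : X) ε, g a b = g b a) ∧
      (∀ a ∈ Metric.ball (x : X) ε, ∀ b ∈ Metric.ball (x : X) ε,
        ∀ c ∈ Metric.ball (x : X) ε, g a b + g b c = g a c) ∧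
      ∀ a ∈ Metric.ball (x : X) ε ∩ A, ∀ b ∈ Metric.ball (x : X) ε ∩ A, g a b = s a + s b := by
    rintro ⟨x, hx⟩
    obtain ⟨U, hU, -, h1, h2⟩ := hg.refl_symm (hAW hx)
    obtain ⟨V, hV, h3⟩ := hs x hx
    obtain ⟨ε, hε, hεU⟩ := Metric.mem_nhds_iff.1
      (inter_mem (inter_mem hU hV) (hW.mem_nhds (hAW hx)))
    have e1 : ∀ a ∈ Metric.ball x ε, a ∈ U ∩ W := fun a ha =>
      ⟨(hεU ha).1.1, (hεU ha).2⟩
    refine ⟨ε, hε, fun a ha => (hεU ha).2, fun a ha b hb => h1 a (e1 a ha) b (e1 b hb),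
      fun a ha b hb c hc => h2 a (e1 a ha) b (e1 b hb) c (e1 c hc), fun a ha b hb => ?_⟩
    exact h3 a ⟨(hεU ha.1).1.2, ha.2⟩ b ⟨(hεU hb.1).1.2, hb.2⟩
  choose ε hε hεW hsy hco hst using key
  refine ⟨⋃ x : A, Metric.ball (x : X) (ε x / 3), isOpen_iUnion fun x => Metric.isOpen_ball,
    ?_, ?_, fun a => s (r a) + g a (r a), ?_⟩
  · intro x hx
    exact mem_iUnion.2 ⟨⟨x, hx⟩, Metric.mem_ball_self (by have := hε ⟨x, hx⟩; linarith)⟩
  · intro y hy
    obtain ⟨x, hyx⟩ := mem_iUnion.1 hy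
    refine hεW x (Metric.ball_subset_ball ?_ hyx)
    have := hε x
    linarith
  · intro y hy
    obtain ⟨x, hyx⟩ := mem_iUnion.1 hy
    refine ⟨Metric.ball (x : X) (ε x / 3), Metric.isOpen_ball.mem_nhds hyx, ?_⟩
    have hb1 : ∀ a ∈ Metric.ball (x : X) (ε x / 3), r a ∈ Metric.ball (x : X) (ε x) := by
      intro a ha
      rw [Metric.mem_ball] at ha ⊢
      have := hr3 x x.2 a
      linarith
    have hb2 : ∀ a ∈ Metric.ball (x : X) (ε x / 3), a ∈ Metric.ball (x : X) (ε x) := by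
      intro a ha
      refine Metric.ball_subset_ball ?_ ha
      have := hε x
      linarith
    rintro a ⟨ha, -⟩ b ⟨hb, -⟩
    have e1 := hco x a (hb2 a ha) (r a) (hb1 a ha) b (hb2 b hb)
    have e2 := hco x (r a) (hb1 a ha) (r b) (hb1 b hb) b (hb2 b hb)
    have e3 := hsy x (r b) (hb1 b hb) b (hb2 b hb)
    have e4 := hst x (r a) ⟨hb1 a ha, hr1 a⟩ (r b) ⟨hb1 b hb, hr1 b⟩
    show g a b = s (r a) + g a (r a) + (s (r b) + g b (r b))
    rw [← e1, ← e2, e3, e4]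
    ring

end Pool.Agent.H61.PO
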