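import Pool.Agent.H61.PO.Homot
import Pool.Agent.H61.PO.Taut

/-!
# PO-05: trivial sets: arcs, compact subsets of the line, proper closed subsets of a circle

`triv_real`: `C` compact in `ℝ`: extend by `taut1` to an open `W ⊇ C`.  Lebesgue number `δ > 0`: the cocycle identity
holds for all triples of points of `W` (or of `C`) at mutual distance `< δ`.  Cut `ℝ` into intervals `[kδ', (k+1)δ')`,
... or: define `s` on `C` going from left to right: simplest is: let `P` be the set of `b ∈ ℝ` such that `g` is a coboundary on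
`C ∩ (-∞, b]`; `P` contains everything below `C`; if `b ∈ P` (`b` a supremum of `P`) use the cocycle neighbourhood of `b` and
`glueCob`-like extension: near `b` take the primitive `t a = g b a` if `b ∈ C`, and if `b ∉ C` there is nothing near `b`.
`triv_circle`: `a ↦ arg (-a / z)` is continuous and injective on the circle minus `z`; its image of `C` is a compact subset of `ℝ`;
`Triv.image` for the inverse map `t ↦ -z * exp (i t)`.
-/

namespace Pool.Agent.H61.PO

open Set Filter Topology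

private theorem triv_lebesgue {C : Set ℝ} (hC : IsCompact C) {g : ℝ → ℝ → ZMod 2} (hg : Coc C g) :
    ∃ δ > 0, ∀ a ∈ C, ∀ b ∈ C, ∀ c ∈ C, |b - a| < δ → |c - a| < δ → g a b + g b c = g a c := by
  choose! U hU1 hU2 using hg
  obtain ⟨δ, hδ, h⟩ := lebesgue_number_lemma_of_metric (s := C) (ι := C)
    (c := fun i => interior (U i)) hC (fun _ => isOpen_interior) (by
      intro x hx
      exact Set.mem_iUnion.2 ⟨⟨x, hx⟩, mem_interior_iff_mem_nhds.2 (hU1 x hx)⟩)
  refine ⟨δ, hδ, ?_⟩
  intro a ha b hb c hc h1 h2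
  obtain ⟨i, hi⟩ := h a ha
  have hsub : ∀ y ∈ C, |y - a| < δ → y ∈ U i ∩ C := fun y hy h3 =>
    ⟨interior_subset (hi (by rw [Metric.mem_ball, Real.dist_eq]; exact h3)), hy⟩
  exact hU2 i i.2 a (hsub a ha (by simpa using hδ)) b (hsub b hb h1) c (hsub c hc h2)

theorem triv_real {C : Set ℝ} (hC : IsCompact C) : Triv C := by
  intro g hg
  obtain ⟨δ, hδ, hloc⟩ := triv_lebesgue hC hg
  obtain ⟨m, hm⟩ := hC.bddBelow
  set h : ℝ := δ / 2 with hh
  have hh0 : 0 < h := by positivity
  have key : ∀ a ∈ C, ∀ b ∈ C, ∀ c ∈ C, |b - a| < 2 * h → |c - a| < 2 * h →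
      g a b + g b c = g a c := by
    intro a ha b hb c hc h1 h2
    exact hloc a ha b hb c hc (by linarith) (by linarith)
  have hzero : ∀ a ∈ C, g a a = 0 := by
    intro a ha
    have := key a ha a ha a ha (by simpa using hh0) (by simpa using hh0)
    simpa using this
  have hsymm : ∀ a ∈ C, ∀ b ∈ C, |b - a| < 2 * h → g b a = g a b := by
    intro a ha b hb h1
    have h2 := key a ha b hb a ha h1 (by simpa using hh0)
    rw [hzero a ha] at h2
    rw [CharTwo.add_eq_zero] at h2
    exact h2.symm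
  let k : ℝ → ℕ := fun a => ⌊(a - m) / h⌋₊
  have hk1 : ∀ a ∈ C, m + k a * h ≤ a := by
    intro a ha
    have h1 : 0 ≤ (a - m) / h := div_nonneg (by linarith [hm ha]) hh0.le
    have h2 : (k a : ℝ) ≤ (a - m) / h := Nat.floor_le h1
    have h3 := mul_le_mul_of_nonneg_right h2 hh0.le
    rw [div_mul_cancel₀ _ hh0.ne'] at h3
    linarith
  have hk2 : ∀ a, a < m + (k a + 1) * h := by
    intro a
    have h2 : (a - m) / h < (k a : ℝ) + 1 := Nat.lt_floor_add_one _
    have h3 := mul_lt_mul_of_pos_right h2 hh0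
    rw [div_mul_cancel₀ _ hh0.ne'] at h3
    linarith
  have hrep : ∀ n : ℕ, ∃ c : ℝ, ∀ a ∈ C, k a = n → c ∈ C ∧ k c = n := by
    intro n
    by_cases hex : ∃ c ∈ C, k c = n
    · obtain ⟨c, hc, hcn⟩ := hex
      exact ⟨c, fun _ _ _ => ⟨hc, hcn⟩⟩
    · exact ⟨0, fun a ha hn => absurd ⟨a, ha, hn⟩ hex⟩
  choose c hc using hrep
  let σ : ℕ → ZMod 2 := fun n => ∑ i ∈ Finset.range n, g (c i) (c (i + 1))
  have hσ : ∀ n, σ (n + 1) = σ n + g (c n) (c (n + 1)) := fun n => Finset.sum_range_succ _ _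
  -- two points at distance less than `h`
  have main : ∀ a ∈ C, ∀ b ∈ C, k a = k b ∨ k b = k a + 1 →
      g a b = (g (c (k a)) a + σ (k a)) + (g (c (k b)) b + σ (k b)) := by
    intro a ha b hb hab
    obtain ⟨ca, cak⟩ := hc (k a) a ha rfl
    obtain ⟨cb, cbk⟩ := hc (k b) b hb rfl
    have a1 := hk1 a ha
    have a2 := hk2 a
    have b1 := hk1 b hb
    have b2 := hk2 b
    have ca1 := hk1 _ ca
    have ca2 := hk2 (c (k a))
    have cb1 := hk1 _ cb
    have cb2 := hk2 (c (k b))
    rw [cak] at ca1 ca2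
    rw [cbk] at cb1 cb2
    rcases hab with hab | hab
    · rw [← hab] at b1 b2
      rw [← hab]
      have e1 := key a ha (c (k a)) ca b hb (by rw [abs_lt]; constructor <;> nlinarith)
        (by rw [abs_lt]; constructor <;> nlinarith)
      rw [hsymm a ha (c (k a)) ca (by rw [abs_lt]; constructor <;> nlinarith)]
      rw [← e1]
      have : σ (k a) + σ (k a) = 0 := CharTwo.add_self_eq_zero _
      linear_combination -this
    · rw [hab] at b1 b2 cb1 cb2
      rw [hab] at cb
      rw [hab, hσ]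
      push_cast at b1 b2 cb1 cb2
      have e1 := key a ha (c (k a)) ca (c (k a + 1)) cb (by rw [abs_lt]; constructor <;> nlinarith)
        (by rw [abs_lt]; constructor <;> nlinarith)
      have e2 := key a ha (c (k a + 1)) cb b hb (by rw [abs_lt]; constructor <;> nlinarith)
        (by rw [abs_lt]; constructor <;> nlinarith)
      rw [hsymm a ha (c (k a)) ca (by rw [abs_lt]; constructor <;> nlinarith)]
      rw [← e2, ← e1]
      have : σ (k a) + σ (k a) = 0 := CharTwo.add_self_eq_zero _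
      linear_combination -this
  refine ⟨fun a => g (c (k a)) a + σ (k a), fun x hx => ⟨Metric.ball x (h / 2),
    Metric.ball_mem_nhds x (by positivity), ?_⟩⟩
  rintro a ⟨ha1, ha⟩ b ⟨hb1, hb⟩
  have hab : |a - b| < h := by
    rw [Metric.mem_ball, Real.dist_eq] at ha1 hb1
    rw [abs_lt] at ha1 hb1 ⊢
    constructor <;> linarith
  rw [abs_lt] at hab
  have a1 := hk1 a ha
  have a2 := hk2 a
  have b1 := hk1 b hb
  have b2 := hk2 b
  have hle : ∀ x y : ℕ, ((x : ℝ) * h < (y + 2) * h) → x ≤ y + 1 := by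
    intro x y hxy
    have h3 : (x : ℝ) < y + 2 := lt_of_mul_lt_mul_right hxy hh0.le
    have h4 : x < y + 2 := by exact_mod_cast h3
    omega
  have l1 : k a ≤ k b + 1 := hle _ _ (by linarith)
  have l2 : k b ≤ k a + 1 := hle _ _ (by linarith)
  rcases Nat.lt_or_ge (k b) (k a) with hlt | hge
  · have h5 := main b hb a ha (Or.inr (by omega))
    have h6 : g a b = g b a := hsymm b hb a ha (by rw [abs_lt]; constructor <;> linarith)
    rw [h6, h5, add_comm]
  · exact main a ha b hb (by omega)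

theorem triv_circle {C : Set ℂ} (hC : IsClosed C) (hs : C ⊆ Metric.sphere 0 1) {z : ℂ}
    (hz : z ∈ Metric.sphere (0 : ℂ) 1) (hzC : z ∉ C) : Triv C := by
  have hz1 : ‖z‖ = 1 := by simpa using hz
  have hz0 : z ≠ 0 := by
    intro h
    rw [h, norm_zero] at hz1
    exact zero_ne_one hz1
  let φ : ℝ → ℂ := fun t => -z * Complex.exp (t * Complex.I)
  have hφ : Continuous φ := by fun_prop
  let K : Set ℝ := Icc (-Real.pi) Real.pi ∩ φ ⁻¹' C
  have hK : IsCompact K := isCompact_Icc.inter_right (hC.preimage hφ)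
  have hne : ∀ t ∈ K, -Real.pi < t := by
    intro t ht
    rcases eq_or_lt_of_le ht.1.1 with h | h
    · exfalso
      apply hzC
      have h1 : φ t ∈ C := ht.2
      have h2 : φ t = z := by
        show -z * Complex.exp (t * Complex.I) = z
        rw [← h]
        push_cast
        rw [neg_mul, neg_mul, Complex.exp_neg, Complex.exp_pi_mul_I]
        norm_num
      rwa [h2] at h1
    · exact h
  have hinj : InjOn φ K := by
    intro s hs t ht hst
    have h1 : Complex.exp (s * Complex.I) = Complex.exp (t * Complex.I) :=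
      mul_left_cancel₀ (neg_ne_zero.2 hz0) hst
    have h2 := Complex.exp_inj_of_neg_pi_lt_of_le_pi (x := s * Complex.I) (y := t * Complex.I)
      (by simpa using hne s hs) (by simpa using hs.1.2) (by simpa using hne t ht)
      (by simpa using ht.1.2) h1
    have h3 : (s : ℂ) = t := mul_right_cancel₀ Complex.I_ne_zero h2
    exact_mod_cast h3
  have himg : φ '' K = C := by
    ext w
    constructor
    · rintro ⟨t, ht, rfl⟩
      exact ht.2
    · intro hw
      have hw1 : ‖w‖ = 1 := by simpa using hs hw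
      have hu : ‖-w / z‖ = 1 := by rw [norm_div, norm_neg, hw1, hz1, div_one]
      have h1 := Complex.norm_mul_exp_arg_mul_I (-w / z)
      rw [hu] at h1
      have h2 : φ (Complex.arg (-w / z)) = w := by
        show -z * Complex.exp (Complex.arg (-w / z) * Complex.I) = w
        have h3 : Complex.exp (Complex.arg (-w / z) * Complex.I) = -w / z := by
          rw [Complex.ofReal_one, one_mul] at h1
          exact h1
        rw [h3]
        field_simp
      refine ⟨Complex.arg (-w / z), ⟨⟨(Complex.neg_pi_lt_arg _).le, Complex.arg_le_pi _⟩, ?_⟩, h2⟩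
      show φ _ ∈ C
      rw [h2]
      exact hw
  have h := Triv.image hK (triv_real hK) hφ.continuousOn hinj
  rwa [himg] at h

theorem IsArc.triv {X : Type*} [TopologicalSpace X] [T2Space X] {σ : Set X} {p q : X}
    (h : IsArc σ p q) : Triv σ := by
  obtain ⟨α, h1, h2, rfl, -, -⟩ := h
  exact Triv.image isCompact_Icc (triv_real isCompact_Icc) h1 h2

theorem IsArc.compact {X : Type*} [TopologicalSpace X] {σ : Set X} {p q : X}
    (h : IsArc σ p q) : IsCompact σ := by
  obtain ⟨α, h1, h2, rfl, -, -⟩ := h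
  exact isCompact_Icc.image_of_continuousOn h1

theorem IsArc.preconn {X : Type*} [TopologicalSpace X] {σ : Set X} {p q : X}
    (h : IsArc σ p q) : IsPreconnected σ := by
  obtain ⟨α, h1, h2, rfl, -, -⟩ := h
  exact isPreconnected_Icc.image α h1

theorem IsArc.mem {X : Type*} [TopologicalSpace X] {σ : Set X} {p q : X}
    (h : IsArc σ p q) : p ∈ σ ∧ q ∈ σ ∧ p ≠ q := by
  obtain ⟨α, h1, h2, rfl, rfl, rfl⟩ := h
  have m0 : (0 : ℝ) ∈ Icc (0 : ℝ) 1 := ⟨le_rfl, zero_le_one⟩
  have m1 : (1 : ℝ) ∈ Icc (0 : ℝ) 1 := ⟨zero_le_one, le_rfl⟩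
  exact ⟨⟨0, m0, rfl⟩, ⟨1, m1, rfl⟩, fun h3 => zero_ne_one (h2 m0 m1 h3)⟩

theorem IsArc.symm {X : Type*} [TopologicalSpace X] {σ : Set X} {p q : X}
    (h : IsArc σ p q) : IsArc σ q p := by
  obtain ⟨α, h1, h2, rfl, rfl, rfl⟩ := h
  have hm : MapsTo (fun t : ℝ => 1 - t) (Icc 0 1) (Icc 0 1) := by
    intro t ht
    exact ⟨by linarith [ht.2], by linarith [ht.1]⟩
  refine ⟨fun t => α (1 - t), h1.comp (by fun_prop) hm, ?_, ?_, by simp, by simp⟩
  · intro s hs t ht hst
    have := h2 (hm hs) (hm ht) hst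
    linarith
  · ext x
    constructor
    · rintro ⟨t, ht, rfl⟩
      exact ⟨1 - t, hm ht, by simp⟩
    · rintro ⟨t, ht, rfl⟩
      exact ⟨1 - t, hm ht, rfl⟩

theorem IsArc.image {X Z : Type*} [TopologicalSpace X] [TopologicalSpace Z] {σ : Set X} {p q : X}
    (h : IsArc σ p q) {φ : X → Z} (hφ : ContinuousOn φ σ) (hi : InjOn φ σ) :
    IsArc (φ '' σ) (φ p) (φ q) := by
  obtain ⟨α, h1, h2, rfl, rfl, rfl⟩ := h
  refine ⟨fun t => φ (α t), hφ.comp h1 (mapsTo_image _ _), ?_, ?_, rfl, rfl⟩
  · intro s hs t ht hst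
    exact h2 hs ht (hi (mem_image_of_mem _ hs) (mem_image_of_mem _ ht) hst)
  · rw [image_image]

theorem SCC.image {X Z : Type*} [TopologicalSpace X] [TopologicalSpace Z] {γ : Set X}
    (h : SCC γ) {φ : X → Z} (hφ : ContinuousOn φ γ) (hi : InjOn φ γ) : SCC (φ '' γ) := by
  obtain ⟨p, q, σ, τ, h1, h2, h3, rfl⟩ := h
  have s1 : σ ⊆ σ ∪ τ := subset_union_left
  have s2 : τ ⊆ σ ∪ τ := subset_union_right
  refine ⟨φ p, φ q, φ '' σ, φ '' τ, h1.image (hφ.mono s1) (hi.mono s1),
    h2.image (hφ.mono s2) (hi.mono s2), ?_, image_union _ _ _⟩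
  rw [← hi.image_inter s1 s2, h3, image_pair]

theorem SCC.compact {X : Type*} [TopologicalSpace X] {γ : Set X} (h : SCC γ) : IsCompact γ := by
  obtain ⟨p, q, σ, τ, h1, h2, h3, rfl⟩ := h
  exact h1.compact.union h2.compact

theorem SCC.preconn {X : Type*} [TopologicalSpace X] {γ : Set X} (h : SCC γ) :
    IsPreconnected γ := by
  obtain ⟨p, q, σ, τ, h1, h2, h3, rfl⟩ := h
  exact h1.preconn.union p h1.mem.1 h2.mem.1 h2.preconn

private theorem scc_inj {s t : ℝ} (hs : s ∈ Icc (0 : ℝ) 1) (ht : t ∈ Icc (0 : ℝ) 1)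
    (h : Complex.exp ((Real.pi * s : ℝ) * Complex.I) = Complex.exp ((Real.pi * t : ℝ) * Complex.I)) :
    s = t := by
  have hpi := Real.pi_pos
  have key : ∀ u ∈ Icc (0 : ℝ) 1, -Real.pi < Real.pi * u ∧ Real.pi * u ≤ Real.pi := by
    intro u hu
    constructor
    · nlinarith [hu.1]
    · nlinarith [hu.2]
  have h2 := Complex.exp_inj_of_neg_pi_lt_of_le_pi
    (x := (Real.pi * s : ℝ) * Complex.I) (y := (Real.pi * t : ℝ) * Complex.I)
    (by rw [Complex.mul_I_im, Complex.ofReal_re]; exact (key s hs).1)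
    (by rw [Complex.mul_I_im, Complex.ofReal_re]; exact (key s hs).2)
    (by rw [Complex.mul_I_im, Complex.ofReal_re]; exact (key t ht).1)
    (by rw [Complex.mul_I_im, Complex.ofReal_re]; exact (key t ht).2) h
  have h3 : ((Real.pi * s : ℝ) : ℂ) = ((Real.pi * t : ℝ) : ℂ) :=
    mul_right_cancel₀ Complex.I_ne_zero h2
  have h4 : Real.pi * s = Real.pi * t := by exact_mod_cast h3
  exact mul_left_cancel₀ hpi.ne' h4

private theorem scc_neg (t : ℝ) : Complex.exp ((Real.pi * (-t) : ℝ) * Complex.I) =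
    (Complex.exp ((Real.pi * t : ℝ) * Complex.I))⁻¹ := by
  rw [← Complex.exp_neg]
  congr 1
  push_cast
  ring

/-- upper and lower half circle -/
theorem scc_sphere {c : ℂ} {r : ℝ} (hr : 0 < r) : SCC (Metric.sphere c r) := by
  have hr0 : (r : ℂ) ≠ 0 := by exact_mod_cast hr.ne'
  have hpi := Real.pi_pos
  let f : ℝ → ℂ := fun t => c + r * Complex.exp ((Real.pi * t : ℝ) * Complex.I)
  have hf : Continuous f := by fun_prop
  have hf' : Continuous (fun t => f (-t)) := by fun_prop
  have hfe : ∀ s t, f s = f t → Complex.exp ((Real.pi * s : ℝ) * Complex.I) =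
      Complex.exp ((Real.pi * t : ℝ) * Complex.I) := by
    intro s t h
    exact mul_left_cancel₀ hr0 (add_left_cancel h)
  have m0 : (0 : ℝ) ∈ Icc (0 : ℝ) 1 := ⟨le_rfl, zero_le_one⟩
  have m1 : (1 : ℝ) ∈ Icc (0 : ℝ) 1 := ⟨zero_le_one, le_rfl⟩
  have hf0 : f (-0) = f 0 := by rw [neg_zero]
  have hf1 : f (-1) = f 1 := by
    show c + r * Complex.exp ((Real.pi * (-1) : ℝ) * Complex.I) =
      c + r * Complex.exp ((Real.pi * 1 : ℝ) * Complex.I)
    rw [scc_neg, mul_one, Complex.exp_pi_mul_I]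
    norm_num
  have hsp : ∀ t, f t ∈ Metric.sphere c r := by
    intro t
    rw [Metric.mem_sphere, dist_eq_norm]
    show ‖c + r * Complex.exp ((Real.pi * t : ℝ) * Complex.I) - c‖ = r
    rw [add_sub_cancel_left, norm_mul, Complex.norm_exp_ofReal_mul_I, mul_one]
    simp [abs_of_pos hr]
  refine ⟨f 0, f 1, f '' Icc 0 1, (fun t => f (-t)) '' Icc 0 1,
    ⟨f, hf.continuousOn, ?_, rfl, rfl, rfl⟩, ⟨fun t => f (-t), hf'.continuousOn, ?_, rfl, hf0, hf1⟩,
    ?_, ?_⟩
  · intro s hs t ht hst
    exact scc_inj hs ht (hfe _ _ hst)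
  · intro s hs t ht hst
    have h1 := hfe _ _ hst
    rw [scc_neg, scc_neg] at h1
    exact scc_inj hs ht (inv_injective h1)
  · ext w
    constructor
    · rintro ⟨⟨s, hs, rfl⟩, ⟨t, ht, hst⟩⟩
      have h1 := congrArg Complex.im (hfe _ _ hst)
      rw [Complex.exp_ofReal_mul_I_im, Complex.exp_ofReal_mul_I_im] at h1
      have h2 : Real.sin (Real.pi * (-t)) = - Real.sin (Real.pi * t) := by
        rw [mul_neg, Real.sin_neg]
      rw [h2] at h1
      have h3 : 0 ≤ Real.sin (Real.pi * t) :=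
        Real.sin_nonneg_of_nonneg_of_le_pi (mul_nonneg hpi.le ht.1) (by nlinarith [ht.2])
      have h4 : Real.sin (Real.pi * s) ≤ 0 := by linarith
      rcases eq_or_lt_of_le hs.1 with h5 | h5
      · left
        rw [h5]
      · rcases eq_or_lt_of_le hs.2 with h6 | h6
        · right
          rw [h6]
          rfl
        · exfalso
          have h7 : 0 < Real.sin (Real.pi * s) :=
            Real.sin_pos_of_pos_of_lt_pi (by positivity) (by nlinarith)
          linarith
    · rintro (rfl | rfl)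
      · exact ⟨⟨0, m0, rfl⟩, ⟨0, m0, hf0⟩⟩
      · exact ⟨⟨1, m1, rfl⟩, ⟨1, m1, hf1⟩⟩
  · ext w
    constructor
    · intro hw
      have hw1 : ‖w - c‖ = r := by
        rw [← dist_eq_norm]
        exact hw
      have h1 := Complex.norm_mul_exp_arg_mul_I (w - c)
      rw [hw1] at h1
      have h2 : ∀ u : ℝ, Real.pi * u = Complex.arg (w - c) → f u = w := by
        intro u hu
        show c + r * Complex.exp ((Real.pi * u : ℝ) * Complex.I) = w
        rw [hu, h1]
        ring
      rcases le_or_gt 0 (Complex.arg (w - c)) with h3 | h3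
      · left
        refine ⟨Complex.arg (w - c) / Real.pi, ⟨by positivity, ?_⟩, h2 _ ?_⟩
        · rw [div_le_one hpi]
          exact Complex.arg_le_pi _
        · field_simp
      · right
        refine ⟨-Complex.arg (w - c) / Real.pi, ⟨?_, ?_⟩, h2 _ ?_⟩
        · apply div_nonneg _ hpi.le
          linarith
        · rw [div_le_one hpi]
          linarith [Complex.neg_pi_lt_arg (w - c)]
        · field_simp
    · rintro (⟨t, -, rfl⟩ | ⟨t, -, rfl⟩)
      · exact hsp t
      · exact hsp (-t)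

end Pool.Agent.H61.PO
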