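import Pool.Agent.H61.PO.Radial
import Pool.Agent.H61.PO.Glue
import Pool.Agent.H61.PO.Triv

/-!
# PO-10: extension of a cocycle over the complement of a disc

`ext_step`: let `S = e '' sphere 0 1` (compact).  First extend `g` to `Z' ∪ S`: if `S ⊆ Z'` nothing to do, otherwise `Z' ∩ S` is the
image of a closed subset `C` of the circle missing a point, trivial by `triv_circle` and `Triv.image`, and `glue` with `g2 = 0` on `S` gives `g1`,
`Coc (Z' ∪ S) g1`, `Cob Z' (g1 + g)`.  Then let `ϱ x = e (π z)` if `x = e z` with `z ∈ closedBall 0 1 \ ball o ρ`, `ϱ x = x` otherwise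
(`π` from `radial` with `R = 1`); `ϱ = id` on `Z'` (a point of `Z'` in the closed disc is on `S`, `π = id` there), `ϱ` is continuous on each of the two
closed sets `Z'`, `e '' (closedBall 0 1 \ ball o ρ)` (compact), so on their union, and maps it to `Z' ∪ S`.  `g' a b = g1 (ϱ a) (ϱ b)`.
`ext_main`: let `g` be a cocycle on an open `W ⊇ Z \ U` (`taut1`; the values on `Z \ U` do not change; `Z \ U` is closed).
Let `Chain V` be the inductive predicate: `Chain D1` (`D1 = e1 '' ball 0 1`), and `Chain V → Chain (V ∪ D)` for every disc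
`D = e '' ball 0 1` (`e` an open embedding) with `e '' closedBall 0 1 ⊆ U` and `(D ∩ V).Nonempty`.
(a) a chain set is open, `D1 ⊆ V ⊆ U`.  (b) `Chain V, Chain V' → Chain (V ∪ V')` (induction on `V'`).
(c) `Chain V`, `Coc (Z \ V) h` → there is `h'` with `Coc (Z \ D1) h'` and `Cob (Z \ V) (h + h')`: induction; for `V ∪ D` pick `o`, `ρ` with
`e o ∈ V`, `o ∈ ball 0 1` and `closedBall o ρ ⊆ ball 0 1 ∩ e ⁻¹' V`; `ext_step` with `Z' = Z \ (V ∪ D)`; then `Z \ V ⊆ Z' ∪ e '' (closedBall 0 1 \ ball o ρ)`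
(a point of `Z \ V` in `D` is `e z`, `z ∈ ball 0 1`, `z ∉ ball o ρ`).  (d) the union of all chain sets contains `U`: it is open,
meets `U`, and is closed in `U`: for `x ∈ U` in the closure take a disc `D` with centre `x` and closed disc in `U` (`Surf`); it meets some chain set `V`; so
`x ∈ V ∪ D`.  (`IsPreconnected.subset_of_closure_inter_subset` or similar.)  (e) `C = Z \ W` is compact, `C ⊆ U`, so `C ⊆ V` for one chain set
(`IsCompact.elim_directed_cover`, directed by (b)).  Then `Z \ V ⊆ W`, (c) with `h = g`, restrict to `Z \ U ⊆ Z \ V`.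
-/

namespace Pool.Agent.H61.PO

open Set Filter Topology Metric

variable {X : Type*} [MetricSpace X]

/-- extension to the boundary circle -/
private theorem ext_circle {e : ℂ → X} (he : IsOpenEmbedding e) {Z' : Set X} (hZ : IsClosed Z')
    {g : X → X → ZMod 2} (hg : Coc Z' g) :
    ∃ g1 : X → X → ZMod 2, Coc (Z' ∪ e '' sphere 0 1) g1 ∧ Cob Z' (g1 + g) := by
  have hSc : IsCompact (e '' sphere (0 : ℂ) 1) :=
    (isCompact_sphere (0 : ℂ) 1).image he.continuous
  by_cases hsub : e '' sphere (0 : ℂ) 1 ⊆ Z'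
  · refine ⟨g, ?_, ?_⟩
    · rw [union_eq_self_of_subset_right hsub]
      exact hg
    · rw [add_self]
      exact Cob.zero Z'
  · obtain ⟨x, hx, hxZ⟩ := not_subset.mp hsub
    obtain ⟨z, hz, rfl⟩ := hx
    have hCc : IsClosed (sphere (0 : ℂ) 1 ∩ e ⁻¹' Z') :=
      isClosed_sphere.inter (hZ.preimage he.continuous)
    have hT : Triv (sphere (0 : ℂ) 1 ∩ e ⁻¹' Z') :=
      triv_circle hCc inter_subset_left hz (fun h => hxZ h.2)
    have hCk : IsCompact (sphere (0 : ℂ) 1 ∩ e ⁻¹' Z') :=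
      (isCompact_sphere (0 : ℂ) 1).inter_right (hZ.preimage he.continuous)
    have hTi : Triv (e '' (sphere (0 : ℂ) 1 ∩ e ⁻¹' Z')) :=
      hT.image hCk he.continuous.continuousOn he.injective.injOn
    have hset : e '' (sphere (0 : ℂ) 1 ∩ e ⁻¹' Z') = Z' ∩ e '' sphere (0 : ℂ) 1 := by
      rw [image_inter_preimage, inter_comm]
    rw [hset] at hTi
    have h0 : Cob (Z' ∩ e '' sphere (0 : ℂ) 1) (g + fun _ _ => 0) := by
      have h1 : (g + fun _ _ => (0 : ZMod 2)) = g := by
        funext a b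
        simp
      rw [h1]
      exact hTi g (hg.mono inter_subset_left)
    obtain ⟨G, hG1, hG2, -⟩ := glue hZ hSc.isClosed hg (Coc.zero _) h0
    exact ⟨G, hG1, hG2⟩

theorem ext_step {e : ℂ → X} (he : IsOpenEmbedding e) {Z' : Set X} (hZ : IsClosed Z')
    (hd : Disjoint Z' (e '' ball 0 1)) {o : ℂ} {ρ : ℝ} (hρ : 0 < ρ)
    (ho : closedBall o ρ ⊆ ball (0 : ℂ) 1) {g : X → X → ZMod 2} (hg : Coc Z' g) :
    ∃ g' : X → X → ZMod 2, Coc (Z' ∪ e '' (closedBall 0 1 \ ball o ρ)) g' ∧
      Cob Z' (g + g') := by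
  classical
  obtain ⟨g1, hg1, hc1⟩ := ext_circle he hZ hg
  have ho1 : o ∈ ball (0 : ℂ) 1 := ho (mem_closedBall_self hρ.le)
  obtain ⟨π, hπc, hπS, hπi, -⟩ := radial ho1
  set K : Set ℂ := closedBall 0 1 \ ball o ρ with hK
  have hKc : IsCompact K := (isCompact_closedBall (0 : ℂ) 1).diff isOpen_ball
  have hLc : IsCompact (e '' K) := hKc.image he.continuous
  have hKo : ∀ z ∈ K, z ≠ o := by
    rintro z hz rfl
    exact hz.2 (mem_ball_self hρ)
  have hinv : ∀ z, Function.invFun e (e z) = z := Function.leftInverse_invFun he.injective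
  let r : X → X := fun x => if x ∈ e '' K then e (π (Function.invFun e x)) else x
  have hrL : ∀ z ∈ K, r (e z) = e (π z) := by
    intro z hz
    change (if e z ∈ e '' K then e (π (Function.invFun e (e z))) else e z) = _
    rw [if_pos (mem_image_of_mem e hz), hinv]
  have hrZ : ∀ x ∈ Z', r x = x := by
    intro x hx
    by_cases hxL : x ∈ e '' K
    · obtain ⟨z, hz, rfl⟩ := hxL
      rw [hrL z hz]
      have hzb : z ∉ ball (0 : ℂ) 1 := fun h =>
        (disjoint_left.mp hd hx) (mem_image_of_mem e h)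
      have hzs : z ∈ sphere (0 : ℂ) 1 := by
        have h1 := hz.1
        rw [mem_closedBall] at h1
        rw [mem_ball, not_lt] at hzb
        rw [mem_sphere]
        exact le_antisymm h1 hzb
      rw [hπi z hzs]
    · change (if x ∈ e '' K then e (π (Function.invFun e x)) else x) = x
      rw [if_neg hxL]
  have hcZ : ContinuousOn r Z' := continuousOn_id.congr hrZ
  have hcL : ContinuousOn r (e '' K) := by
    rintro x ⟨z, hz, rfl⟩
    change Tendsto r (𝓝[e '' K] (e z)) (𝓝 (r (e z)))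
    rw [← he.isEmbedding.map_nhdsWithin_eq K z, tendsto_map'_iff, hrL z hz]
    have h1 : ContinuousOn (fun w => e (π w)) K :=
      he.continuous.comp_continuousOn (hπc.mono fun w hw => hKo w hw)
    refine (h1 z hz).congr' ?_
    filter_upwards [self_mem_nhdsWithin] with w hw
    exact (hrL w hw).symm
  have hcont : ContinuousOn r (Z' ∪ e '' K) := hcZ.union_of_isClosed hcL hZ hLc.isClosed
  have hmaps : MapsTo r (Z' ∪ e '' K) (Z' ∪ e '' sphere 0 1) := by
    rintro x (hx | ⟨z, hz, rfl⟩)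
    · rw [hrZ x hx]
      exact Or.inl hx
    · rw [hrL z hz]
      exact Or.inr (mem_image_of_mem e (hπS z (hKo z hz)))
  refine ⟨fun a b => g1 (r a) (r b), hg1.pullback hcont hmaps, ?_⟩
  refine hc1.symm.of_eqOn ?_
  intro a ha b hb
  change g a b + g1 a b = g a b + g1 (r a) (r b)
  rw [hrZ a ha, hrZ b hb]

/-- finite unions of discs, starting with `D1`, each new disc meeting the union of the previous
ones -/
private inductive ExtChain (U D1 : Set X) : Set X → Prop
  | base : ExtChain U D1 D1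
  | step {V : Set X} {e : ℂ → X} (hV : ExtChain U D1 V) (he : IsOpenEmbedding e)
      (heU : e '' closedBall 0 1 ⊆ U) (hne : (e '' ball 0 1 ∩ V).Nonempty) :
      ExtChain U D1 (V ∪ e '' ball 0 1)

private theorem extChain_basic {U D1 : Set X} (hD : IsOpen D1) (hDU : D1 ⊆ U) {V : Set X}
    (hV : ExtChain U D1 V) : IsOpen V ∧ D1 ⊆ V ∧ V ⊆ U := by
  induction hV with
  | base => exact ⟨hD, Subset.rfl, hDU⟩
  | step hV he heU hne ih =>
    refine ⟨ih.1.union (he.isOpenMap _ isOpen_ball), ih.2.1.trans subset_union_left,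
      union_subset ih.2.2 ((image_mono ball_subset_closedBall).trans heU)⟩

private theorem extChain_union {U D1 : Set X} (hD : IsOpen D1) (hDU : D1 ⊆ U) {V V' : Set X}
    (hV : ExtChain U D1 V) (hV' : ExtChain U D1 V') : ExtChain U D1 (V ∪ V') := by
  induction hV' with
  | base =>
    rw [union_eq_self_of_subset_right (extChain_basic hD hDU hV).2.1]
    exact hV
  | step hV1 he heU hne ih =>
    rw [← union_assoc]
    exact ExtChain.step ih he heU (hne.mono (inter_subset_inter_right _ subset_union_right))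

private theorem extChain_ext {Z U D1 : Set X} (hZ : IsClosed Z) (hD : IsOpen D1) (hDU : D1 ⊆ U)
    {V : Set X} (hV : ExtChain U D1 V) : ∀ h : X → X → ZMod 2, Coc (Z \ V) h →
      ∃ h' : X → X → ZMod 2, Coc (Z \ D1) h' ∧ Cob (Z \ V) (h + h') := by
  induction hV with
  | base =>
    intro h hh
    refine ⟨h, hh, ?_⟩
    rw [add_self]
    exact Cob.zero _
  | @step V e hV he heU hne ih =>
    intro h hh
    obtain ⟨x, ⟨o, ho, rfl⟩, hoV⟩ := hne
    have hVo : IsOpen V := (extChain_basic hD hDU hV).1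
    have hnh : ball (0 : ℂ) 1 ∩ e ⁻¹' V ∈ 𝓝 o :=
      (isOpen_ball.inter (hVo.preimage he.continuous)).mem_nhds ⟨ho, hoV⟩
    obtain ⟨ρ, hρ, hρs⟩ := nhds_basis_closedBall.mem_iff.1 hnh
    have hcl : IsClosed (Z \ (V ∪ e '' ball 0 1)) :=
      hZ.sdiff (hVo.union (he.isOpenMap _ isOpen_ball))
    have hdj : Disjoint (Z \ (V ∪ e '' ball 0 1)) (e '' ball 0 1) := by
      rw [Set.disjoint_left]
      intro y hy hy'
      exact hy.2 (Or.inr hy')
    obtain ⟨g1, hg1, hg1'⟩ := ext_step he hcl hdj hρ (hρs.trans inter_subset_left) hh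
    have hsub : Z \ V ⊆ (Z \ (V ∪ e '' ball 0 1)) ∪ e '' (closedBall 0 1 \ ball o ρ) := by
      intro y hy
      by_cases hyD : y ∈ e '' ball 0 1
      · obtain ⟨z, hz, rfl⟩ := hyD
        refine Or.inr ⟨z, ⟨ball_subset_closedBall hz, fun hzo => ?_⟩, rfl⟩
        exact hy.2 (hρs (ball_subset_closedBall hzo)).2
      · exact Or.inl ⟨hy.1, fun hh => hh.elim hy.2 hyD⟩
    obtain ⟨h', hh', hh''⟩ := ih g1 (hg1.mono hsub)
    refine ⟨h', hh', hg1'.trans (hh''.mono ?_)⟩
    exact sdiff_subset_sdiff_right subset_union_left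

theorem ext_main (hX : Surf X) {Z U : Set X} (hZ : IsCompact Z) (hU : IsOpen U) (hUZ : U ⊆ Z)
    (hc : IsPreconnected U) {e : ℂ → X} (he : IsOpenEmbedding e)
    (heU : e '' closedBall 0 1 ⊆ U) {g : X → X → ZMod 2} (hg : Coc (Z \ U) g) :
    ∃ g' : X → X → ZMod 2, Coc (Z \ e '' ball 0 1) g' ∧ Cob (Z \ U) (g + g') := by
  obtain ⟨g0, W, hW, hAW, hcW, heq⟩ := taut1 (hZ.isClosed.sdiff hU) hg
  set D1 : Set X := e '' ball 0 1 with hD1
  have hD : IsOpen D1 := he.isOpenMap _ isOpen_ball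
  have hDU : D1 ⊆ U := (image_mono ball_subset_closedBall).trans heU
  have hUA : U ⊆ ⋃ V : {V : Set X // ExtChain U D1 V}, (V : Set X) := by
    refine hc.subset_of_closure_inter_subset ?_ ?_ ?_
    · exact isOpen_iUnion fun V => (extChain_basic hD hDU V.2).1
    · refine ⟨e 0, hDU ⟨0, by simp, rfl⟩, mem_iUnion.2 ⟨⟨D1, ExtChain.base⟩, ⟨0, by simp, rfl⟩⟩⟩
    · rintro x ⟨hxA, hxU⟩
      obtain ⟨f, hf, hf0, hfr⟩ := hX x U (hU.mem_nhds hxU)
      have hfo : IsOpen (f '' ball 0 1) := hf.isOpenMap _ isOpen_ball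
      have hxf : x ∈ f '' ball 0 1 := ⟨0, by simp, hf0⟩
      obtain ⟨y, hyf, hyA⟩ := mem_closure_iff.1 hxA _ hfo hxf
      obtain ⟨V, hyV⟩ := mem_iUnion.1 hyA
      refine mem_iUnion.2 ⟨⟨(V : Set X) ∪ f '' ball 0 1, ExtChain.step V.2 hf
        ((image_subset_range _ _).trans hfr) ⟨y, hyf, hyV⟩⟩, Or.inr hxf⟩
  have hcov : Z \ W ⊆ ⋃ V : {V : Set X // ExtChain U D1 V}, (V : Set X) := by
    rintro x ⟨hxZ, hxW⟩
    refine hUA (by_contra fun hxU => hxW (hAW ⟨hxZ, hxU⟩))
  have : Nonempty {V : Set X // ExtChain U D1 V} := ⟨⟨D1, ExtChain.base⟩⟩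
  obtain ⟨V, hV⟩ := (hZ.diff hW).elim_directed_cover
    (fun V : {V : Set X // ExtChain U D1 V} => (V : Set X))
    (fun V => (extChain_basic hD hDU V.2).1) hcov
    (fun V V' => ⟨⟨(V : Set X) ∪ V', extChain_union hD hDU V.2 V'.2⟩, subset_union_left,
      subset_union_right⟩)
  have hVU : (V : Set X) ⊆ U := (extChain_basic hD hDU V.2).2.2
  have hZV : Z \ (V : Set X) ⊆ W := by
    rintro x ⟨hxZ, hxV⟩
    exact by_contra fun hxW => hxV (hV ⟨hxZ, hxW⟩)
  obtain ⟨h', hh', hh''⟩ := extChain_ext hZ.isClosed hD hDU V.2 g0 (hcW.mono hZV)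
  refine ⟨h', hh', ?_⟩
  refine (hh''.mono (sdiff_subset_sdiff_right hVU)).of_eqOn fun a ha b hb => ?_
  show g0 a b + h' a b = g a b + h' a b
  rw [heq a ha b hb]

end Pool.Agent.H61.PO
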