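import Pool.Agent.H61.PO.FinB
import Pool.Agent.H61.PO.Ext
import Pool.Agent.H61.PO.Circ

/-!
# PO-23: few pairwise non separating families of simple closed curves

`SCC.interior_empty`: suppose `V` is open, nonempty, `V ⊆ γ = σ ∪ τ`, arcs from `p` to `q`.  There is a point `y ∈ V` different from `p`, `q`
(an open embedding `e : ℂ → M` with `range e ⊆ V` is injective, infinite range), say `y ∈ σ`, `y ∉ τ` (`σ ∩ τ = {p,q}`).  `V ∩ τᶜ` is an open neighbourhood of `y`
contained in `σ`; `e : ℂ → M` open embedding with `e 0 = y` and range in it.  `O = range e` is open, connected, and `O \ {y} = e '' {0}ᶜ` is connected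
(`isConnected_compl_singleton_of_one_lt_rank`); `O \ {z}` is connected for every `z ∈ O`.  Pull back to `[0,1]` by the inverse of `α : [0,1] → σ` (homeomorphism):
a connected subset `I` of `[0,1]` with more than two points such that `I \ {u}` is connected for every `u ∈ I`: impossible (three points
`u1 < u2 < u3` of `I`, remove `u2`; `I` is an interval, `OrdConnected`).
`few`: `N0` from `fin_disc`, `N = 2 ^ N0`.  Let `c : ι → Set M` be such a family.  There is an open embedding `e` with `e '' closedBall 0 1` disjoint from all `c i`: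
the union of the `c i` is closed and not everything (otherwise one of them has nonempty interior: finite union of closed sets with empty
interior has empty interior: `IsClosed.interior_union_left` by induction, or Baire).  `data` from `fin_disc` for `e`.
`Σ i = {n | ∃ g, Coc (e '' ball 0 1)ᶜ g ∧ ¬ Cob (c i) g ∧ data g = n}`, a subset of `Fin N0`.  For `i ≠ j`, `Σ i ≠ Σ j`:
let `g1` be a class on `c i`, not a coboundary (`SCC.class`); `c i ∩ c j` is trivial so `glue` with `0` on `c j` gives `h`: `Coc (c i ∪ c j) h`, `¬ Cob (c i) h`,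
`Cob (c j) h`.  `ext_main` with `Z = univ`, `U = (c i ∪ c j)ᶜ`: `h'` with `Coc (e '' ball 0 1)ᶜ h'`, `¬ Cob (c i) h'`, `Cob (c j) h'`.  So `data h' ∈ Σ i`.  If
`data h' ∈ Σ j`: `g` with `data g = data h'`, `Cob (e '' ball 0 1)ᶜ (g + h')`, so on `c j`; `¬ Cob (c j) g`: contradiction to `Cob (c j) h'`.
So `i ↦ Σ i` is injective: `card ι ≤ 2 ^ N0`.  (If `ι` is empty or a singleton nothing to do; the existence of `e` uses only finiteness of `ι`.)
-/

namespace Pool.Agent.H61.PO

open Set Filter Topology Metric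

private theorem few_arc {M : Type*} [TopologicalSpace M] [T2Space M] (hM : Surf M) {σ : Set M}
    {p q : M} (h : IsArc σ p q) : interior σ = ∅ := by
  by_contra hne
  obtain ⟨x, hx⟩ := nonempty_iff_ne_empty.2 hne
  obtain ⟨e, he, -, hr⟩ := hM x (interior σ) (isOpen_interior.mem_nhds hx)
  obtain ⟨α, hc, hi, hσ, -, -⟩ := h
  let f : Icc (0 : ℝ) 1 → M := fun u => α u
  have hf : Continuous f := hc.comp_continuous continuous_subtype_val (fun u => u.2)
  have hfi : Function.Injective f := fun u v h => Subtype.ext (hi u.2 v.2 h)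
  have hfe := hf.isClosedEmbedding hfi
  have hex : ∀ z, ∃ u : Icc (0 : ℝ) 1, f u = e z := by
    intro z
    have h1 : e z ∈ σ := interior_subset (hr ⟨z, rfl⟩)
    rw [hσ] at h1
    obtain ⟨u, hu, hue⟩ := h1
    exact ⟨⟨u, hu⟩, hue⟩
  choose β hβ using hex
  have hβc : Continuous β := by
    refine hfe.isEmbedding.continuous_iff.2 ?_
    have : f ∘ β = e := funext hβ
    rw [this]
    exact he.continuous
  have hβi : Function.Injective β := by
    intro z z' h
    apply he.injective
    rw [← hβ z, ← hβ z', h]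
  let b : ℂ → ℝ := fun z => (β z : ℝ)
  have hbc : Continuous b := continuous_subtype_val.comp hβc
  have hbi : Function.Injective b := fun z z' h => hβi (Subtype.ext h)
  have main : ∀ z z' : ℂ, b z < b z' → False := by
    intro z z' hlt
    have hoc : (range b).OrdConnected := (isPreconnected_range hbc).ordConnected
    obtain ⟨w, hw⟩ := hoc.out ⟨z, rfl⟩ ⟨z', rfl⟩
      (show (b z + b z') / 2 ∈ Icc (b z) (b z') from ⟨by linarith, by linarith⟩)
    have hzw : z ≠ w := by
      rintro rfl
      linarith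
    have hzw' : z' ≠ w := by
      rintro rfl
      linarith
    have hpre : IsPreconnected ({w}ᶜ : Set ℂ) :=
      (isConnected_compl_singleton_of_one_lt_rank (by
        rw [Complex.rank_real_complex]
        norm_num) w).isPreconnected
    have hoc2 : (b '' {w}ᶜ).OrdConnected := (hpre.image b hbc.continuousOn).ordConnected
    obtain ⟨w', hw', hww⟩ := hoc2.out ⟨z, hzw, rfl⟩ ⟨z', hzw', rfl⟩
      (show b w ∈ Icc (b z) (b z') from ⟨by linarith, by linarith⟩)
    exact hw' (hbi hww)
  rcases lt_trichotomy (b 0) (b 1) with h | h | h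
  · exact main 0 1 h
  · exact zero_ne_one (hbi h)
  · exact main 1 0 h

theorem SCC.interior_empty {M : Type*} [MetricSpace M] (hM : Surf M) {γ : Set M} (h : SCC γ) :
    interior γ = ∅ := by
  obtain ⟨p, q, σ, τ, hσ, hτ, -, rfl⟩ := h
  have h1 := few_arc hM hσ
  have h2 := few_arc hM hτ
  rw [interior_union_isClosed_of_interior_empty hσ.compact.isClosed h2, h1]

theorem few {M : Type*} [MetricSpace M] [CompactSpace M] [Nonempty M] (hM : Surf M) :
    ∃ N : ℕ, ∀ (ι : Type) [Fintype ι] (c : ι → Set M), (∀ i, SCC (c i)) →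
      (∀ i j, i ≠ j → Triv (c i ∩ c j)) → (∀ i j, i ≠ j → IsPreconnected (c i ∪ c j)ᶜ) →
        Fintype.card ι ≤ N := by
  classical
  obtain ⟨N0, hN0⟩ := fin_disc hM
  refine ⟨2 ^ N0, ?_⟩
  intro ι _ c hc hct hcp
  have hcl : ∀ i, IsClosed (c i) := fun i => (hc i).compact.isClosed
  have hcov : (⋃ i, c i) ≠ univ := by
    intro h
    obtain ⟨i, hi⟩ := nonempty_interior_of_iUnion_of_closed hcl h
    rw [SCC.interior_empty hM (hc i)] at hi
    exact Set.not_nonempty_empty hi
  obtain ⟨x, hx⟩ := (ne_univ_iff_exists_notMem _).1 hcov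
  have hF : IsClosed (⋃ i, c i) := isClosed_iUnion_of_finite hcl
  obtain ⟨e, he, -, her⟩ := hM x _ (hF.isOpen_compl.mem_nhds hx)
  obtain ⟨data, hdata⟩ := hN0 e he
  have hdis : ∀ i, ∀ y ∈ c i, ∀ z, e z ≠ y := by
    intro i y hy z hz
    exact her ⟨z, hz⟩ (mem_iUnion.2 ⟨i, hy⟩)
  have hsub : ∀ i, c i ⊆ (e '' ball 0 1)ᶜ := by
    rintro i y hy ⟨z, -, hz⟩
    exact hdis i y hy z hz
  have hinj : Function.Injective (fun i : ι =>
      {n : Fin N0 | ∃ g, Coc (e '' ball 0 1)ᶜ g ∧ ¬ Cob (c i) g ∧ data g = n}) := by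
    intro i j hij
    by_contra hne
    obtain ⟨g1, hg1, hg1n⟩ := (hc i).class
    have hz : Coc (c j) (0 : M → M → ZMod 2) := Coc.zero _
    have ht : Cob (c i ∩ c j) (g1 + 0) := by
      rw [add_zero]
      exact hct i j hne g1 (hg1.mono inter_subset_left)
    obtain ⟨h, hh, hh1, hh2⟩ := glue (hcl i) (hcl j) hg1 hz ht
    rw [add_zero] at hh2
    have hh3 : ¬ Cob (c i) h := fun h4 => hg1n (hh1.congr.1 h4)
    have hU : IsOpen (c i ∪ c j)ᶜ := ((hcl i).union (hcl j)).isOpen_compl
    have heU : e '' closedBall 0 1 ⊆ (c i ∪ c j)ᶜ := by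
      rintro _ ⟨z, -, rfl⟩ hz
      rcases hz with hz | hz
      · exact hdis i _ hz z rfl
      · exact hdis j _ hz z rfl
    have hun : (univ : Set M) \ (c i ∪ c j)ᶜ = c i ∪ c j := by
      ext y
      constructor
      · rintro ⟨-, hy⟩
        exact not_not.1 hy
      · intro hy
        exact ⟨mem_univ _, fun h => h hy⟩
    obtain ⟨h', hh', hc'⟩ := ext_main hM isCompact_univ hU (subset_univ _) (hcp i j hne) he heU
      (g := h) (by rw [hun]; exact hh)
    rw [hun] at hc'
    have hun2 : (univ : Set M) \ e '' ball 0 1 = (e '' ball 0 1)ᶜ := by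
      ext y
      constructor
      · rintro ⟨-, hy⟩
        exact hy
      · intro hy
        exact ⟨mem_univ _, hy⟩
    rw [hun2] at hh'
    have h5 : ¬ Cob (c i) h' := fun h6 => hh3 ((hc'.mono subset_union_left).congr.2 h6)
    have h6 : Cob (c j) h' := (hc'.mono subset_union_right).congr.1 hh2
    have h7 : data h' ∈ {n : Fin N0 | ∃ g, Coc (e '' ball 0 1)ᶜ g ∧ ¬ Cob (c i) g ∧ data g = n} :=
      ⟨h', hh', h5, rfl⟩
    have hij' : {n : Fin N0 | ∃ g, Coc (e '' ball 0 1)ᶜ g ∧ ¬ Cob (c i) g ∧ data g = n} =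
      {n : Fin N0 | ∃ g, Coc (e '' ball 0 1)ᶜ g ∧ ¬ Cob (c j) g ∧ data g = n} := hij
    rw [hij'] at h7
    obtain ⟨g, hg, hgn, hgd⟩ := h7
    have h8 := hdata g h' hg hh' hgd
    exact hgn ((h8.mono (hsub j)).congr.2 h6)
  have hcard := Fintype.card_le_of_injective _ hinj
  rw [Fintype.card_set, Fintype.card_fin] at hcard
  exact hcard

end Pool.Agent.H61.PO
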