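import Pool.Agent.H61.PO.SA

/-!
# PO-38: separating pairs are flat if the span is small (S2)

`L = affineSpan (F ∪ G)`, `C = convexHull (F ∪ G) ⊆ L`.  `L ≠ ⊤` (dimension), so there is `p` with `f p ∉ L` (`hfull`); `p ∉ cv f F ∪ cv f G` (`f` maps these into `F ∪ G`).
`Q` = component of `p`.  For `b ∉ L` let `L_b = affineSpan (insert b L)`, dimension `dim L + 1`.
(1) if `f b ∉ L` and `y ∉ L`-curves is not in the component of `b` then `f y ∈ L_(f b)`: by `seg_meets` there is `v ∈ segment (f b) (f y)`, `v ∈ C ⊆ L`, `v ≠ f b`, so `f y` is on the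
line through `f b` and `v`.
(2) suppose `q ∉ Q`, `q` not on the curves, `f q ∉ L`.  Then `f q ∈ L_(f p)` by (1), so `L_(f q) = L_(f p)` (`⊆` and equal dimension).  For every `y ∈ M`: on the curves: `f y ∈ L`; `y ∉ Q`:
`f y ∈ L_(f p)`; `y ∈ Q`: then `y` is not in the component of `q`, so `f y ∈ L_(f q) = L_(f p)`.  So `range f ⊆ L_(f p)`, dimension `≤ dimc (F ∪ G) + 1 < finrank E`:
contradiction to `hfull`.
(3) so `f y ∈ L` for all `y ∉ Q` not on the curves; by `seg_meets` the segment from `f p` to `f y` meets `C ⊆ L`; it meets `L` only in `f y` (`f p ∉ L`), so `f y ∈ C`.  For `y` on the curves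
`f y ∈ F ∪ G ⊆ C`.  So `p` is the point required in `Flat`.
-/

namespace Pool.Agent.H61.PO

open Set Filter Topology

variable {M : Type*} [MetricSpace M] [CompactSpace M] [Nonempty M]
  {E : Type*} [NormedAddCommGroup E] [NormedSpace ℝ E] [FiniteDimensional ℝ E] {f : M → E}
  {F G : Set E}

omit [CompactSpace M] [Nonempty M] [FiniteDimensional ℝ E] [MetricSpace M] in
private theorem SB_top (hfull : affineSpan ℝ (range f) = ⊤) (o : E) (U : Submodule ℝ E)
    (h : ∀ y, f y - o ∈ U) : U = ⊤ := by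
  have h1 : vectorSpan ℝ (range f) = ⊤ := by
    rw [← direction_affineSpan, hfull, AffineSubspace.direction_top]
  rw [eq_top_iff, ← h1, vectorSpan_def, Submodule.span_le]
  rintro _ ⟨_, ⟨a, rfl⟩, _, ⟨b, rfl⟩, rfl⟩
  have h2 := U.sub_mem (h a) (h b)
  have e : f a - o - (f b - o) = f a - f b := by abel
  rw [e] at h2
  exact h2

omit [FiniteDimensional ℝ E] in
private theorem SB_hull {o v : E} (ho : o ∈ F ∪ G) (hv : v ∈ convexHull ℝ (F ∪ G)) :
    v - o ∈ vectorSpan ℝ (F ∪ G) := by
  rw [← direction_affineSpan, ← vsub_eq_sub]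
  exact AffineSubspace.vsub_mem_direction (convexHull_subset_affineSpan _ hv)
    (subset_affineSpan ℝ _ ho)

theorem flat_of_dim (hf : Tight f) (hfull : affineSpan ℝ (range f) = ⊤) (hF : Two f F)
    (hG : Two f G) (hd : dimc (F ∪ G) + 2 ≤ Module.finrank ℝ E) (hs : Sep f F G) :
    Flat f F G := by
  obtain ⟨⟨-, hFc, hFk, hFn⟩, -⟩ := id hF
  obtain ⟨⟨-, hGc, hGk, -⟩, -⟩ := id hG
  obtain ⟨o, ho⟩ := hFn
  have hoU : o ∈ F ∪ G := Or.inl ho
  set S := cv f F ∪ cv f G with hS
  set W := vectorSpan ℝ (F ∪ G) with hW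
  have hWd : Module.finrank ℝ W = dimc (F ∪ G) := rfl
  -- points of the curves
  have hSFG : ∀ y ∈ S, f y ∈ F ∪ G := by
    intro y hy
    rcases hy with hy | hy
    · exact Or.inl ((rb_iff hFc hFk).1 hy).1
    · exact Or.inr ((rb_iff hGc hGk).1 hy).1
  have hSW : ∀ y ∈ S, f y - o ∈ W := fun y hy =>
    SB_hull hoU (subset_convexHull ℝ _ (hSFG y hy))
  -- (1)
  have key : ∀ b y, f b - o ∉ W → y ∉ S → y ∉ connectedComponentIn Sᶜ b →
      f y - o ∈ W ⊔ Submodule.span ℝ {f b - o} := by
    intro b y hb hy hyb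
    have hbS : b ∉ S := fun h => hb (hSW b h)
    obtain ⟨v, hv1, hv2⟩ := seg_meets hf hF hG hbS hy hyb
    have hvW := SB_hull hoU hv2
    obtain ⟨r, t, hr, ht, hrt, rfl⟩ := hv1
    have ht0 : t ≠ 0 := by
      rintro rfl
      have hr1 : r = 1 := by linarith
      rw [hr1, one_smul, zero_smul, add_zero] at hvW
      exact hb hvW
    have e : f y - o = t⁻¹ • (r • f b + t • f y - o) + (-(t⁻¹ * r)) • (f b - o) := by
      have hr' : r = 1 - t := by linarith
      rw [hr']
      have e1 : t⁻¹ * t = 1 := inv_mul_cancel₀ ht0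
      have e2 : t⁻¹ • ((1 - t) • f b + t • f y - o) + (-(t⁻¹ * (1 - t))) • (f b - o) =
          (t⁻¹ * t) • (f y - o) := by
        module
      rw [e2, e1, one_smul]
    rw [e]
    apply Submodule.add_mem
    · exact Submodule.mem_sup_left (W.smul_mem _ hvW)
    · exact Submodule.mem_sup_right (Submodule.smul_mem _ _ (Submodule.mem_span_singleton_self _))
  -- (0)
  obtain ⟨p, hp⟩ : ∃ p, f p - o ∉ W := by
    by_contra hcon
    push Not at hcon
    have h1 := SB_top hfull o W hcon
    have h2 : Module.finrank ℝ W = Module.finrank ℝ E := by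
      rw [h1, finrank_top]
    omega
  have hpS : p ∉ S := fun h => hp (hSW p h)
  -- (2)
  have h2 : ∀ q, q ∉ S → q ∉ connectedComponentIn Sᶜ p → f q - o ∈ W := by
    intro q hqS hqp
    by_contra hq
    have hle : Submodule.span ℝ {f q - o} ≤ W ⊔ Submodule.span ℝ {f p - o} := by
      rw [Submodule.span_singleton_le_iff_mem]
      exact key p q hp hqS hqp
    have hall : ∀ y, f y - o ∈ W ⊔ Submodule.span ℝ {f p - o} := by
      intro y
      by_cases hy : y ∈ S
      · exact Submodule.mem_sup_left (hSW y hy)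
      by_cases hyp : y ∈ connectedComponentIn Sᶜ p
      · have hyq : y ∉ connectedComponentIn Sᶜ q := by
          intro hyq
          have e1 := connectedComponentIn_eq hyp
          have e2 := connectedComponentIn_eq hyq
          apply hqp
          rw [e1, ← e2]
          exact mem_connectedComponentIn hqS
        exact (sup_le le_sup_left hle) (key q y hq hy hyq)
      · exact key p y hp hy hyp
    have h3 := SB_top hfull o _ hall
    have h4 : Module.finrank ℝ (W ⊔ Submodule.span ℝ {f p - o} : Submodule ℝ E) =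
        Module.finrank ℝ E := by
      rw [h3, finrank_top]
    have h5 := Submodule.finrank_add_le_finrank_add_finrank W (Submodule.span ℝ {f p - o})
    have h6 : Module.finrank ℝ (Submodule.span ℝ ({f p - o} : Set E)) ≤ 1 := by
      have := finrank_span_le_card (R := ℝ) ({f p - o} : Set E)
      simpa using this
    omega
  -- (3)
  refine ⟨p, hpS, fun y hy => ?_⟩
  by_cases hyS : y ∈ S
  · exact subset_convexHull ℝ _ (hSFG y hyS)
  have hyW := h2 y hyS hy
  obtain ⟨v, hv1, hv2⟩ := seg_meets hf hF hG hpS hyS hy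
  have hvW := SB_hull hoU hv2
  obtain ⟨r, t, hr, ht, hrt, rfl⟩ := hv1
  have hr0 : r = 0 := by
    by_contra hr0
    apply hp
    have e : f p - o = r⁻¹ • ((r • f p + t • f y - o) - t • (f y - o)) := by
      have ht' : t = 1 - r := by linarith
      rw [ht']
      have e1 : r⁻¹ * r = 1 := inv_mul_cancel₀ hr0
      have e2 : r⁻¹ • ((r • f p + (1 - r) • f y - o) - (1 - r) • (f y - o)) =
          (r⁻¹ * r) • (f p - o) := by
        module
      rw [e2, e1, one_smul]
    rw [e]
    exact W.smul_mem _ (W.sub_mem hvW (W.smul_mem _ hyW))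
  have ht1 : t = 1 := by linarith
  rw [hr0, ht1, zero_smul, one_smul, zero_add] at hv2
  exact hv2

end Pool.Agent.H61.PO
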