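import Pool.Agent.H61.PO.SA

/-!
# PO-39: separating pairs which are not flat and span a hyperplane (S3)

`C = convexHull (F ∪ G)`, `L = affineSpan (F ∪ G)`, of dimension `finrank E - 1`: `L = {v | ℓ v = κ}` for a nonzero functional `ℓ` (`F` nonempty).
`range f` is not in `L` (`hfull`): there is `p` with `ℓ (f p) ≠ κ`; replacing `(ℓ, κ)` by `(-ℓ, -κ)` we may assume `κ < ℓ (f p)`.  Not flat: there is `q` not in the component of `p` with
`f q ∉ C`; `q` is not on the curves (they map into `F ∪ G`).  `seg_meets`: a point `v ∈ C` on the segment from `f p` to `f q`, `ℓ v = κ`; so `ℓ (f q) ≤ κ`; if `ℓ (f q) = κ` the segment meets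
`{ℓ = κ}` only in `f q`, so `f q = v ∈ C`: contradiction.  So `ℓ (f q) < κ`.
(iii) `y` in the component of `p`: then `y` is not in the component of `q`; `seg_meets` for `q, y`: `ℓ (f y) ≥ κ`.  Symmetric.
(iv) `y` in neither, not on the curves: `ℓ (f y) ≥ κ` (by `q`) and `≤ κ` (by `p`), so `= κ`, and the crossing point of the segment from `f p` is `f y`, in `C`.
(v) `ℓ (f y) = κ`: if `y` is on the curves clear; otherwise `y` is not in the component of `p` or not in that of `q`; the segment from `f p` resp. `f q` meets `L` only in `f y`.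
(vi) `v ∈ hul f`, `ℓ v = κ`, suppose `v ∉ C`.  Separate: functional `z`, `c`, `z ≤ c` on `C`, `c < z v`.  For `y` with `ℓ (f y) > κ` (so `y` in the component of `p`, by (iii), (iv)) put
`up y = (c - z (f y)) / (ℓ (f y) - κ)`; for `y'` with `ℓ (f y') < κ` put `lo y' = (z (f y') - c) / (κ - ℓ (f y'))`.  `lo y' ≤ up y`: the two points are in different components, the
crossing point of the segment with `{ℓ = κ}` is in `C` (`seg_meets`; unique crossing point), where `z ≤ c`.  So there is `t` with `lo y' ≤ t ≤ up y` for all `y, y'` (both families are nonempty;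
`t = sSup`).  Then `z + t (ℓ - κ) ≤ c` at all points `f y` (for `ℓ (f y) = κ` by (v)), so on `hul f`, so at `v`: `z v ≤ c`: contradiction.
-/

namespace Pool.Agent.H61.PO

open Set Filter Topology

variable {M : Type*} [MetricSpace M] [CompactSpace M] [Nonempty M]
  {E : Type*} [NormedAddCommGroup E] [NormedSpace ℝ E] [FiniteDimensional ℝ E] {f : M → E}
  {F G : Set E}

omit [MetricSpace M] [CompactSpace M] [Nonempty M] in
private theorem sc_fun {A : Set E} {f : M → E} (hfull : affineSpan ℝ (range f) = ⊤)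
    (hA : A.Nonempty) (hd : dimc A + 1 = Module.finrank ℝ E) :
    ∃ (ℓ : E →L[ℝ] ℝ) (κ : ℝ), (∀ v, v ∈ affineSpan ℝ A ↔ ℓ v = κ) ∧ ∃ p, κ < ℓ (f p) := by
  obtain ⟨x₀, hx₀⟩ := hA
  have hd' : Module.finrank ℝ (vectorSpan ℝ A) + 1 = Module.finrank ℝ E := hd
  have hlt : vectorSpan ℝ A < ⊤ := by
    rw [lt_top_iff_ne_top]
    intro h
    rw [h, finrank_top] at hd'
    omega
  obtain ⟨g, hg, hle⟩ := Submodule.exists_le_ker_of_lt_top _ hlt
  have hker : vectorSpan ℝ A = LinearMap.ker g := by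
    refine Submodule.eq_of_le_of_finrank_le hle ?_
    have h1 := LinearMap.finrank_range_add_finrank_ker g
    have h2 : 1 ≤ Module.finrank ℝ (LinearMap.range g) := by
      rw [Nat.one_le_iff_ne_zero]
      intro h3
      rw [Submodule.finrank_eq_zero, LinearMap.range_eq_bot] at h3
      exact hg h3
    omega
  have hmem : ∀ v, v ∈ affineSpan ℝ A ↔ g v = g x₀ := by
    intro v
    rw [← AffineSubspace.vsub_right_mem_direction_iff_mem (subset_affineSpan ℝ A hx₀) v,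
      direction_affineSpan, hker, LinearMap.mem_ker, vsub_eq_sub, map_sub, sub_eq_zero]
  have hp : ∃ p, g (f p) ≠ g x₀ := by
    by_contra hcon
    push Not at hcon
    have h1 : affineSpan ℝ (range f) ≤ affineSpan ℝ A := by
      rw [affineSpan_le]
      rintro _ ⟨p, rfl⟩
      exact (hmem _).2 (hcon p)
    rw [hfull, top_le_iff] at h1
    have h2 := direction_affineSpan ℝ A
    rw [h1, AffineSubspace.direction_top] at h2
    exact hlt.ne h2.symm
  obtain ⟨p, hp⟩ := hp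
  rcases lt_or_gt_of_ne hp with h | h
  · refine ⟨-LinearMap.toContinuousLinearMap g, -g x₀, fun v => ?_, p, ?_⟩
    · rw [hmem]
      show g v = g x₀ ↔ -g v = -g x₀
      rw [neg_inj]
    · show -g x₀ < -g (f p)
      linarith
  · exact ⟨LinearMap.toContinuousLinearMap g, g x₀, fun v => hmem v, p, h⟩

private theorem sc_cpt {A B : Set E} (hA : Convex ℝ A) (hB : Convex ℝ B) (hAc : IsCompact A)
    (hBc : IsCompact B) (hAn : A.Nonempty) (hBn : B.Nonempty) :
    IsCompact (convexHull ℝ (A ∪ B)) := by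
  rw [hA.convexHull_union hB hAn hBn]
  have h1 : convexJoin ℝ A B =
      (fun x : E × E × ℝ => x.1 + x.2.2 • (x.2.1 - x.1)) '' (A ×ˢ B ×ˢ Icc (0 : ℝ) 1) := by
    ext v
    rw [mem_convexJoin]
    constructor
    · rintro ⟨a, ha, b, hb, hv⟩
      rw [segment_eq_image'] at hv
      obtain ⟨t, ht, rfl⟩ := hv
      exact ⟨(a, b, t), ⟨ha, hb, ht⟩, rfl⟩
    · rintro ⟨⟨a, b, t⟩, ⟨ha, hb, ht⟩, rfl⟩
      refine ⟨a, ha, b, hb, ?_⟩
      rw [segment_eq_image']
      exact ⟨t, ht, rfl⟩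
  rw [h1]
  exact (hAc.prod (hBc.prod isCompact_Icc)).image (by fun_prop)

private theorem sc_seg (hf : Tight f) (hF : Two f F) (hG : Two f G) {ℓ : E →L[ℝ] ℝ} {κ : ℝ}
    (hℓ : ∀ v ∈ convexHull ℝ (F ∪ G), ℓ v = κ) {p q : M}
    (hp : p ∉ cv f F ∪ cv f G) (hq : q ∉ cv f F ∪ cv f G)
    (h : q ∉ connectedComponentIn (cv f F ∪ cv f G)ᶜ p) :
    ∃ s t : ℝ, 0 ≤ s ∧ 0 ≤ t ∧ s + t = 1 ∧ s • f p + t • f q ∈ convexHull ℝ (F ∪ G) ∧
      s * (ℓ (f p) - κ) + t * (ℓ (f q) - κ) = 0 := by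
  obtain ⟨v, ⟨s, t, hs, ht, hst, rfl⟩, hv⟩ := seg_meets hf hF hG hp hq h
  refine ⟨s, t, hs, ht, hst, hv, ?_⟩
  have h1 := hℓ _ hv
  rw [map_add, map_smul, map_smul, smul_eq_mul, smul_eq_mul] at h1
  have h2 : s * (ℓ (f p) - κ) + t * (ℓ (f q) - κ) = s * ℓ (f p) + t * ℓ (f q) - (s + t) * κ := by
    ring
  rw [h2, hst, h1]
  ring

private theorem sc_eq {s t a b : ℝ} (hs : 0 ≤ s) (ht : 0 ≤ t) (hst : s + t = 1)
    (h : s * a + t * b = 0) (ha : 0 < a) : b ≤ 0 ∧ (b = 0 → s = 0) := by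
  constructor
  · by_contra hb
    rw [not_le] at hb
    rcases hs.eq_or_lt with h0 | h0
    · have h1 : t = 1 := by linarith
      rw [← h0, h1] at h
      linarith
    · have h1 := mul_pos h0 ha
      have h2 := mul_nonneg ht hb.le
      linarith
  · intro hb
    rw [hb, mul_zero, add_zero] at h
    rcases mul_eq_zero.1 h with h1 | h1
    · exact h1
    · exact absurd h1 ha.ne'

theorem hyper (hf : Tight f) (hfull : affineSpan ℝ (range f) = ⊤) (hF : Two f F)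
    (hG : Two f G) (hd : dimc (F ∪ G) + 1 = Module.finrank ℝ E) (hs : Sep f F G)
    (hn : ¬ Flat f F G) :
    ∃ (ℓ : E →L[ℝ] ℝ) (κ : ℝ) (p q : M),
      (∀ v, v ∈ affineSpan ℝ (F ∪ G) ↔ ℓ v = κ) ∧
      p ∉ cv f F ∪ cv f G ∧ q ∉ cv f F ∪ cv f G ∧
      q ∉ connectedComponentIn (cv f F ∪ cv f G)ᶜ p ∧
      κ < ℓ (f p) ∧ ℓ (f q) < κ ∧
      (∀ y ∈ connectedComponentIn (cv f F ∪ cv f G)ᶜ p, κ ≤ ℓ (f y)) ∧
      (∀ y ∈ connectedComponentIn (cv f F ∪ cv f G)ᶜ q, ℓ (f y) ≤ κ) ∧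
      (∀ y, y ∉ connectedComponentIn (cv f F ∪ cv f G)ᶜ p →
        y ∉ connectedComponentIn (cv f F ∪ cv f G)ᶜ q → f y ∈ convexHull ℝ (F ∪ G)) ∧
      (∀ y, ℓ (f y) = κ → f y ∈ convexHull ℝ (F ∪ G)) ∧
      ∀ v ∈ hul f, ℓ v = κ → v ∈ convexHull ℝ (F ∪ G) := by
  have hFn : (F ∪ G).Nonempty := hF.1.2.2.2.mono subset_union_left
  obtain ⟨ℓ, κ, hℓ, p, hp⟩ := sc_fun hfull hFn hd
  have hCℓ : ∀ v ∈ convexHull ℝ (F ∪ G), ℓ v = κ := fun v hv =>
    (hℓ v).1 (convexHull_subset_affineSpan _ hv)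
  have hrbF : rb F ⊆ F := intrinsicFrontier_subset hF.1.2.2.1.isClosed
  have hrbG : rb G ⊆ G := intrinsicFrontier_subset hG.1.2.2.1.isClosed
  have hcv : ∀ y, y ∈ cv f F ∪ cv f G → f y ∈ convexHull ℝ (F ∪ G) := by
    rintro y (hy | hy)
    · exact subset_convexHull ℝ _ (Or.inl (hrbF hy))
    · exact subset_convexHull ℝ _ (Or.inr (hrbG hy))
  have hpc : p ∉ cv f F ∪ cv f G := fun h => by
    have h1 := hCℓ _ (hcv p h)
    linarith
  obtain ⟨q, hqp, hqC⟩ : ∃ q, q ∉ connectedComponentIn (cv f F ∪ cv f G)ᶜ p ∧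
      f q ∉ convexHull ℝ (F ∪ G) := by
    by_contra hcon
    push Not at hcon
    exact hn ⟨p, hpc, hcon⟩
  have hqc : q ∉ cv f F ∪ cv f G := fun h => hqC (hcv q h)
  have seg0 : ∀ {a b : M}, a ∉ cv f F ∪ cv f G → b ∉ cv f F ∪ cv f G →
      b ∉ connectedComponentIn (cv f F ∪ cv f G)ᶜ a → ∃ s t : ℝ, 0 ≤ s ∧ 0 ≤ t ∧ s + t = 1 ∧
      s • f a + t • f b ∈ convexHull ℝ (F ∪ G) ∧
      s * (ℓ (f a) - κ) + t * (ℓ (f b) - κ) = 0 := fun ha hb h => sc_seg hf hF hG hCℓ ha hb h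
  -- from a point above the hyperplane
  have up1 : ∀ {a b : M}, a ∉ cv f F ∪ cv f G → b ∉ cv f F ∪ cv f G →
      b ∉ connectedComponentIn (cv f F ∪ cv f G)ᶜ a → κ < ℓ (f a) →
      ℓ (f b) ≤ κ ∧ (ℓ (f b) = κ → f b ∈ convexHull ℝ (F ∪ G)) := by
    intro a b ha hb hab hκ
    obtain ⟨s, t, hs0, ht0, hst, hmem, h0⟩ := seg0 ha hb hab
    obtain ⟨h1, h2⟩ := sc_eq hs0 ht0 hst h0 (by linarith)
    refine ⟨by linarith, fun h3 => ?_⟩
    have h4 := h2 (by linarith)
    have h5 : t = 1 := by linarith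
    rw [h4, h5, zero_smul, one_smul, zero_add] at hmem
    exact hmem
  have dn1 : ∀ {a b : M}, a ∉ cv f F ∪ cv f G → b ∉ cv f F ∪ cv f G →
      b ∉ connectedComponentIn (cv f F ∪ cv f G)ᶜ a → ℓ (f a) < κ →
      κ ≤ ℓ (f b) ∧ (ℓ (f b) = κ → f b ∈ convexHull ℝ (F ∪ G)) := by
    intro a b ha hb hab hκ
    obtain ⟨s, t, hs0, ht0, hst, hmem, h0⟩ := seg0 ha hb hab
    have h0' : s * (κ - ℓ (f a)) + t * (κ - ℓ (f b)) = 0 := by linarith
    obtain ⟨h1, h2⟩ := sc_eq hs0 ht0 hst h0' (by linarith)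
    refine ⟨by linarith, fun h3 => ?_⟩
    have h4 := h2 (by linarith)
    have h5 : t = 1 := by linarith
    rw [h4, h5, zero_smul, one_smul, zero_add] at hmem
    exact hmem
  have hqκ : ℓ (f q) < κ := by
    obtain ⟨h1, h2⟩ := up1 hpc hqc hqp hp
    exact lt_of_le_of_ne h1 fun h3 => hqC (h2 h3)
  have hsub : ∀ {a y : M}, y ∈ connectedComponentIn (cv f F ∪ cv f G)ᶜ a →
      y ∉ cv f F ∪ cv f G := fun {a y} hy => connectedComponentIn_subset _ _ hy
  have hceq : ∀ {a y : M}, y ∈ connectedComponentIn (cv f F ∪ cv f G)ᶜ a →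
      connectedComponentIn (cv f F ∪ cv f G)ᶜ y = connectedComponentIn (cv f F ∪ cv f G)ᶜ a :=
    fun {a y} hy => (connectedComponentIn_eq hy).symm
  have hqself : q ∈ connectedComponentIn (cv f F ∪ cv f G)ᶜ q := mem_connectedComponentIn hqc
  have hdisj : ∀ y, y ∈ connectedComponentIn (cv f F ∪ cv f G)ᶜ p →
      y ∉ connectedComponentIn (cv f F ∪ cv f G)ᶜ q := by
    intro y h1 h2
    apply hqp
    rw [← hceq h1, hceq h2]
    exact hqself
  have h3p : ∀ y ∈ connectedComponentIn (cv f F ∪ cv f G)ᶜ p, κ ≤ ℓ (f y) := fun y hy =>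
    (dn1 hqc (hsub hy) (hdisj y hy) hqκ).1
  have h3q : ∀ y ∈ connectedComponentIn (cv f F ∪ cv f G)ᶜ q, ℓ (f y) ≤ κ := fun y hy =>
    (up1 hpc (hsub hy) (fun h => hdisj y h hy) hp).1
  have h4 : ∀ y, y ∉ connectedComponentIn (cv f F ∪ cv f G)ᶜ p →
      y ∉ connectedComponentIn (cv f F ∪ cv f G)ᶜ q → f y ∈ convexHull ℝ (F ∪ G) := by
    intro y hyp hyq
    by_cases hy : y ∈ cv f F ∪ cv f G
    · exact hcv y hy
    · obtain ⟨a1, a2⟩ := up1 hpc hy hyp hp
      obtain ⟨b1, _⟩ := dn1 hqc hy hyq hqκ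
      exact a2 (le_antisymm a1 b1)
  have h5 : ∀ y, ℓ (f y) = κ → f y ∈ convexHull ℝ (F ∪ G) := by
    intro y hy
    by_cases hyc : y ∈ cv f F ∪ cv f G
    · exact hcv y hyc
    · by_cases hyp : y ∈ connectedComponentIn (cv f F ∪ cv f G)ᶜ p
      · exact (dn1 hqc hyc (hdisj y hyp) hqκ).2 hy
      · exact (up1 hpc hyc hyp hp).2 hy
  refine ⟨ℓ, κ, p, q, hℓ, hpc, hqc, hqp, hp, hqκ, h3p, h3q, h4, h5, ?_⟩
  intro v hv hvκ
  by_contra hvC
  have hCc : IsCompact (convexHull ℝ (F ∪ G)) := sc_cpt hF.1.2.1 hG.1.2.1 hF.1.2.2.1 hG.1.2.2.1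
    hF.1.2.2.2 hG.1.2.2.2
  obtain ⟨z, c, hz1, hz2⟩ := geometric_hahn_banach_closed_point (convex_convexHull ℝ (F ∪ G))
    hCc.isClosed hvC
  have inP : ∀ y, κ < ℓ (f y) → y ∈ connectedComponentIn (cv f F ∪ cv f G)ᶜ p := by
    intro y hy
    by_contra h6
    by_cases h7 : y ∈ connectedComponentIn (cv f F ∪ cv f G)ᶜ q
    · have h8 := h3q y h7
      linarith
    · have h8 := hCℓ _ (h4 y h6 h7)
      linarith
  have inQ : ∀ y, ℓ (f y) < κ → y ∈ connectedComponentIn (cv f F ∪ cv f G)ᶜ q := by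
    intro y hy
    by_contra h6
    by_cases h7 : y ∈ connectedComponentIn (cv f F ∪ cv f G)ᶜ p
    · have h8 := h3p y h7
      linarith
    · have h8 := hCℓ _ (h4 y h7 h6)
      linarith
  obtain ⟨t, ht1, ht2⟩ := exists_between_of_forall_le
    (s := {r : ℝ | ∃ y, ℓ (f y) < κ ∧ r = (z (f y) - c) / (κ - ℓ (f y))})
    (t := {r : ℝ | ∃ y, κ < ℓ (f y) ∧ r = (c - z (f y)) / (ℓ (f y) - κ)})
    ⟨_, q, hqκ, rfl⟩ ⟨_, p, hp, rfl⟩ (by
      rintro _ ⟨b, hb, rfl⟩ _ ⟨a, ha, rfl⟩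
      have ha1 := inP a ha
      have hb1 := inQ b hb
      have hba : b ∉ connectedComponentIn (cv f F ∪ cv f G)ᶜ a := by
        rw [hceq ha1]
        exact fun h6 => hdisj b h6 hb1
      obtain ⟨s, r, hs0, hr0, hsr, hmem, h0⟩ := seg0 (hsub ha1) (hsub hb1) hba
      have hzm := hz1 _ hmem
      rw [map_add, map_smul, map_smul, smul_eq_mul, smul_eq_mul] at hzm
      have hA : 0 < ℓ (f a) - κ := by linarith
      have hB : 0 < κ - ℓ (f b) := by linarith
      rw [div_le_div_iff₀ hB hA]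
      have e1 : s * (z (f a) - c) + r * (z (f b) - c) ≤ 0 := by
        have e2 : s * (z (f a) - c) + r * (z (f b) - c) =
            s * z (f a) + r * z (f b) - (s + r) * c := by ring
        rw [e2, hsr]
        linarith
      have e3 : s * (ℓ (f a) - κ) = r * (κ - ℓ (f b)) := by linarith
      -- s = B / (A + B), r = A / (A + B)
      have e4 : s * ((ℓ (f a) - κ) + (κ - ℓ (f b))) = κ - ℓ (f b) := by
        have e5 : r = 1 - s := by linarith
        rw [e5] at e3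
        linarith
      have e6 : r * ((ℓ (f a) - κ) + (κ - ℓ (f b))) = ℓ (f a) - κ := by
        have e5 : s = 1 - r := by linarith
        rw [e5] at e3
        linarith
      have e7 : ((ℓ (f a) - κ) + (κ - ℓ (f b))) *
          (s * (z (f a) - c) + r * (z (f b) - c)) ≤ 0 :=
        mul_nonpos_of_nonneg_of_nonpos (by linarith) e1
      have e8 : ((ℓ (f a) - κ) + (κ - ℓ (f b))) *
          (s * (z (f a) - c) + r * (z (f b) - c)) =
          (κ - ℓ (f b)) * (z (f a) - c) + (ℓ (f a) - κ) * (z (f b) - c) := by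
        calc _ = (s * ((ℓ (f a) - κ) + (κ - ℓ (f b)))) * (z (f a) - c) +
              (r * ((ℓ (f a) - κ) + (κ - ℓ (f b)))) * (z (f b) - c) := by ring
          _ = _ := by rw [e4, e6]
      rw [e8] at e7
      linarith)
  have hall : ∀ y, (z + t • ℓ) (f y) ≤ c + t * κ := by
    intro y
    show z (f y) + t • ℓ (f y) ≤ c + t * κ
    rw [smul_eq_mul]
    rcases lt_trichotomy (ℓ (f y)) κ with h6 | h6 | h6
    · have h7 := ht1 ⟨y, h6, rfl⟩
      rw [div_le_iff₀ (by linarith)] at h7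
      linarith
    · have h7 := (hz1 _ (h5 y h6)).le
      rw [h6]
      linarith
    · have h7 := ht2 ⟨y, h6, rfl⟩
      rw [le_div_iff₀ (by linarith)] at h7
      linarith
  have hhul : hul f ⊆ {x | (z + t • ℓ) x ≤ c + t * κ} := by
    refine convexHull_min ?_ (convex_halfSpace_le (z + t • ℓ).toLinearMap.isLinear _)
    rintro _ ⟨y, rfl⟩
    exact hall y
  have h9 := hhul hv
  have h10 : z v + t * ℓ v ≤ c + t * κ := h9
  rw [hvκ] at h10
  linarith

end Pool.Agent.H61.PO
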