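import Pool.Agent.H61.PO.Local

/-!
# PO-18: consequences of `free_arc`

`adj_two`: `U, a, b` from `free_arc`; each `connectedComponentIn Xᶜ wi` meets `U` (open neighbourhood of `x ∈ closure`), in a point of
`U \ X`, which is in the component of `a` or of `b`; so the component of `wi` is equal to that of `a` or of `b` (`connectedComponentIn_eq`); pigeonhole.
`adj_const`: `{y ∈ τ | y ∈ closure W}` (`W` = component of `w`) is closed in `τ`; it is open in `τ`: for `y` in it take `U, a, b`; `W` meets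
`U \ X`, so `W` is the component of `a` or `b`, and all points of `U ∩ X ⊇ U ∩ τ` are in `closure W`.  `τ` is preconnected.
`comp_clopen`: a component `W` of `Xᶜ` is open (`Surf.locallyConnected`), and `closure W ⊆ W ∪ X`.
-/

namespace Pool.Agent.H61.PO

open Set Filter Topology Metric

variable {M : Type*} [MetricSpace M]

private theorem LocalB_key (hM : Surf M) {X : Set M} (hX : IsClosed X) {x : M} (hx : ArcPt X x) :
    ∃ (U : Set M) (a b : M), IsOpen U ∧ x ∈ U ∧
      (∀ w, x ∈ closure (connectedComponentIn Xᶜ w) → w ∈ connectedComponentIn Xᶜ w ∧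
        (connectedComponentIn Xᶜ w = connectedComponentIn Xᶜ a ∨
          connectedComponentIn Xᶜ w = connectedComponentIn Xᶜ b)) ∧
      ∀ y ∈ U ∩ X, y ∈ closure (connectedComponentIn Xᶜ a) ∧
        y ∈ closure (connectedComponentIn Xᶜ b) := by
  obtain ⟨U, a, b, hU, hxU, _, _, h1, h2⟩ := free_arc hM hX hx
  refine ⟨U, a, b, hU, hxU, ?_, h2⟩
  intro w hw
  obtain ⟨y, hyU, hyW⟩ := mem_closure_iff.1 hw U hU hxU
  have hyX : y ∈ Xᶜ := connectedComponentIn_subset _ _ hyW
  have hwX : w ∈ Xᶜ := connectedComponentIn_nonempty_iff.1 ⟨y, hyW⟩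
  refine ⟨mem_connectedComponentIn hwX, ?_⟩
  rcases h1 y ⟨hyU, hyX⟩ with h | h
  · left
    rw [connectedComponentIn_eq hyW, connectedComponentIn_eq h]
  · right
    rw [connectedComponentIn_eq hyW, connectedComponentIn_eq h]

theorem adj_two (hM : Surf M) {X : Set M} (hX : IsClosed X) {x : M} (hx : ArcPt X x)
    {w1 w2 w3 : M} (h1 : x ∈ closure (connectedComponentIn Xᶜ w1))
    (h2 : x ∈ closure (connectedComponentIn Xᶜ w2))
    (h3 : x ∈ closure (connectedComponentIn Xᶜ w3)) :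
    w2 ∈ connectedComponentIn Xᶜ w1 ∨ w3 ∈ connectedComponentIn Xᶜ w1 ∨
      w3 ∈ connectedComponentIn Xᶜ w2 := by
  obtain ⟨U, a, b, _, _, hk, _⟩ := LocalB_key hM hX hx
  obtain ⟨m1, e1⟩ := hk w1 h1
  obtain ⟨m2, e2⟩ := hk w2 h2
  obtain ⟨m3, e3⟩ := hk w3 h3
  rcases e1 with e1 | e1 <;> rcases e2 with e2 | e2 <;> rcases e3 with e3 | e3
  · left; rw [e1, ← e2]; exact m2
  · left; rw [e1, ← e2]; exact m2
  · right; left; rw [e1, ← e3]; exact m3
  · right; right; rw [e2, ← e3]; exact m3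
  · right; right; rw [e2, ← e3]; exact m3
  · right; left; rw [e1, ← e3]; exact m3
  · left; rw [e1, ← e2]; exact m2
  · left; rw [e1, ← e2]; exact m2

theorem adj_const (hM : Surf M) {X : Set M} (hX : IsClosed X) {τ : Set M} (hτX : τ ⊆ X)
    (hτ : IsPreconnected τ) (ha : ∀ y ∈ τ, ArcPt X y) {w : M}
    (hw : (closure (connectedComponentIn Xᶜ w) ∩ τ).Nonempty) :
    τ ⊆ closure (connectedComponentIn Xᶜ w) := by
  have hloc : ∀ y ∈ τ, y ∈ closure (connectedComponentIn Xᶜ w) → ∃ U : Set M, IsOpen U ∧ y ∈ U ∧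
      U ∩ X ⊆ closure (connectedComponentIn Xᶜ w) := by
    intro y hy hyW
    obtain ⟨U, a, b, hU, hyU, hk, h2⟩ := LocalB_key hM hX (ha y hy)
    refine ⟨U, hU, hyU, ?_⟩
    intro z hz
    rcases (hk w hyW).2 with e | e
    · rw [e]; exact (h2 z hz).1
    · rw [e]; exact (h2 z hz).2
  choose! U hUo hyU hUX using hloc
  intro z hzτ
  by_contra hz
  have hne : (τ ∩ ⋃ y ∈ τ ∩ closure (connectedComponentIn Xᶜ w), U y).Nonempty := by
    obtain ⟨y, hy1, hy2⟩ := hw
    exact ⟨y, hy2, mem_biUnion (show y ∈ τ ∩ closure (connectedComponentIn Xᶜ w) from ⟨hy2, hy1⟩)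
      (hyU y hy2 hy1)⟩
  have hcov : τ ⊆ (⋃ y ∈ τ ∩ closure (connectedComponentIn Xᶜ w), U y) ∪
      (closure (connectedComponentIn Xᶜ w))ᶜ := by
    intro y hy
    by_cases hyW : y ∈ closure (connectedComponentIn Xᶜ w)
    · left
      exact mem_biUnion (show y ∈ τ ∩ closure (connectedComponentIn Xᶜ w) from ⟨hy, hyW⟩)
        (hyU y hy hyW)
    · right; exact hyW
  obtain ⟨v, hv1, hv2, hv3⟩ := hτ _ _
    (isOpen_biUnion (fun y (hy : y ∈ τ ∩ closure (connectedComponentIn Xᶜ w)) =>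
      hUo y hy.1 hy.2)) isClosed_closure.isOpen_compl hcov hne ⟨z, hzτ, hz⟩
  rw [mem_iUnion₂] at hv2
  obtain ⟨y, hy, hvy⟩ := hv2
  exact hv3 (hUX y hy.1 hy.2 ⟨hvy, hτX hv1⟩)

theorem comp_isOpen (hM : Surf M) {X : Set M} (hX : IsClosed X) (w : M) :
    IsOpen (connectedComponentIn Xᶜ w) := by
  have := hM.locallyConnected
  exact hX.isOpen_compl.connectedComponentIn

theorem comp_closure (hM : Surf M) {X : Set M} (hX : IsClosed X) (w : M) :
    closure (connectedComponentIn Xᶜ w) ⊆ connectedComponentIn Xᶜ w ∪ X := by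
  intro y hy
  by_cases hyX : y ∈ X
  · right; exact hyX
  · left
    obtain ⟨z, hz1, hz2⟩ := mem_closure_iff.1 hy _ (comp_isOpen hM hX y)
      (mem_connectedComponentIn (show y ∈ Xᶜ from hyX))
    rw [connectedComponentIn_eq hz2, ← connectedComponentIn_eq hz1]
    exact mem_connectedComponentIn (show y ∈ Xᶜ from hyX)

end Pool.Agent.H61.PO
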