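import Pool.Agent.H61.PO.Defs

/-!
# PO-11: discs in the plane and on surfaces

`surf_complex`: `OpenPartialHomeomorph.univBall x r` (source `univ`, target `ball x r ⊆ V`) gives `e : ℂ → ℂ` with `e 0 = x`.
`surf_charted`: let `c` be the chart at `x`, `L : ℂ ≃L[ℝ] EuclideanSpace ℝ (Fin 2)` (a continuous linear equivalence exists: same finite dimension 2, or
transport `univBall` in `EuclideanSpace ℝ (Fin 2)` directly: it works in every normed space), `c.target` is open,
`c.symm` is continuous on it, and `c.symm '' W` is open for `W` open in the target (`OpenPartialHomeomorph` API), so for a small ball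
`ball (c x) r ⊆ c.target ∩ c.symm ⁻¹' V` the composition `ℂ → ball (c x) r → M` is an open embedding
(`OpenPartialHomeomorph.to_isOpenEmbedding` for an `OpenPartialHomeomorph` with source `univ`: compose `univBall.trans c.symm`).
`affine_disc`: `z ↦ c + r * z` is a homeomorphism.
`surf_sub`: small discs inside a given disc (used to pick discs with closed disc inside an open set): from `Surf`, take `e` with `range e ⊆ U`.
-/

namespace Pool.Agent.H61.PO

open Set Filter Topology Metric

theorem surf_complex : Surf ℂ := by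
  intro x V hV
  obtain ⟨r, hr, hrV⟩ := Metric.mem_nhds_iff.1 hV
  refine ⟨OpenPartialHomeomorph.univBall x r,
    OpenPartialHomeomorph.isOpenEmbedding _ (OpenPartialHomeomorph.univBall_source x r),
    OpenPartialHomeomorph.univBall_apply_zero x r, ?_⟩
  rintro _ ⟨z, rfl⟩
  apply hrV
  have h1 : z ∈ (OpenPartialHomeomorph.univBall (E := ℂ) x r).source := by
    rw [OpenPartialHomeomorph.univBall_source]
    exact mem_univ z
  have h2 := (OpenPartialHomeomorph.univBall (E := ℂ) x r).map_source h1
  rwa [OpenPartialHomeomorph.univBall_target x hr] at h2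

theorem surf_charted {M : Type*} [TopologicalSpace M]
    [ChartedSpace (EuclideanSpace ℝ (Fin 2)) M] : Surf M := by
  intro x V hV
  let c := chartAt (EuclideanSpace ℝ (Fin 2)) x
  have hx : x ∈ c.source := mem_chart_source _ x
  have hW : IsOpen (c.target ∩ c.symm ⁻¹' interior V) :=
    c.isOpen_inter_preimage_symm isOpen_interior
  have hcx : c x ∈ c.target ∩ c.symm ⁻¹' interior V := by
    refine ⟨c.map_source hx, ?_⟩
    show c.symm (c x) ∈ interior V
    rw [c.left_inv hx]
    exact mem_interior_iff_mem_nhds.2 hV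
  obtain ⟨r, hr, hrV⟩ := Metric.mem_nhds_iff.1 (hW.mem_nhds hcx)
  let ub : OpenPartialHomeomorph (EuclideanSpace ℝ (Fin 2)) (EuclideanSpace ℝ (Fin 2)) :=
    OpenPartialHomeomorph.univBall (c x) r
  have hub : ∀ z, ub z ∈ ball (c x) r := by
    intro z
    have h1 : z ∈ ub.source := by
      rw [OpenPartialHomeomorph.univBall_source]
      exact mem_univ z
    have h2 := ub.map_source h1
    rwa [OpenPartialHomeomorph.univBall_target _ hr] at h2
  let L : ℂ ≃ₜ EuclideanSpace ℝ (Fin 2) := Complex.orthonormalBasisOneI.repr.toHomeomorph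
  let Φ : OpenPartialHomeomorph ℂ M :=
    L.toOpenPartialHomeomorph.trans (ub.trans c.symm)
  have hs : Φ.source = univ := by
    apply eq_univ_of_forall
    intro z
    refine ⟨mem_univ z, ?_⟩
    show L z ∈ (ub.trans c.symm).source
    refine ⟨?_, ?_⟩
    · show L z ∈ ub.source
      rw [OpenPartialHomeomorph.univBall_source]
      exact mem_univ _
    · show ub (L z) ∈ c.target
      exact (hrV (hub (L z))).1
  refine ⟨Φ, Φ.isOpenEmbedding hs, ?_, ?_⟩
  · show c.symm (ub (L 0)) = x
    have h0 : L 0 = 0 := map_zero Complex.orthonormalBasisOneI.repr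
    rw [h0]
    show c.symm (OpenPartialHomeomorph.univBall (c x) r 0) = x
    rw [OpenPartialHomeomorph.univBall_apply_zero, c.left_inv hx]
  · rintro _ ⟨z, rfl⟩
    show c.symm (ub (L z)) ∈ V
    exact interior_subset (hrV (hub (L z))).2

/-- affine discs in the plane -/
theorem affine_disc (c : ℂ) {r : ℝ} (hr : 0 < r) :
    IsOpenEmbedding (fun z : ℂ => c + r * z) ∧
    (fun z : ℂ => c + r * z) '' ball 0 1 = ball c r ∧
    (fun z : ℂ => c + r * z) '' closedBall 0 1 = closedBall c r ∧
    (fun z : ℂ => c + r * z) '' sphere 0 1 = sphere c r := by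
  have hr0 : (r : ℂ) ≠ 0 := by exact_mod_cast hr.ne'
  have hn : ∀ z : ℂ, dist (c + r * z) c = r * dist z 0 := by
    intro z
    rw [dist_eq_norm, dist_zero_right, add_sub_cancel_left, norm_mul, Complex.norm_real,
      Real.norm_of_nonneg hr.le]
  have hinv : ∀ w : ℂ, c + r * ((w - c) / r) = w := by
    intro w
    rw [mul_div_cancel₀ _ hr0]
    ring
  have hd : ∀ w : ℂ, dist w c = r * dist ((w - c) / r) 0 := by
    intro w
    rw [← hn, hinv]
  refine ⟨?_, ?_, ?_, ?_⟩
  · have h : (fun z : ℂ => c + r * z) =
        ((Homeomorph.mulLeft₀ (r : ℂ) hr0).trans (Homeomorph.addLeft c)) := by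
      ext z
      rfl
    rw [h]
    exact Homeomorph.isOpenEmbedding _
  · ext w
    constructor
    · rintro ⟨z, hz, rfl⟩
      rw [mem_ball] at hz ⊢
      show dist (c + r * z) c < r
      rw [hn]
      nlinarith
    · intro hw
      refine ⟨(w - c) / r, ?_, hinv w⟩
      rw [mem_ball] at hw ⊢
      rw [hd] at hw
      by_contra hcon
      push Not at hcon
      nlinarith
  · ext w
    constructor
    · rintro ⟨z, hz, rfl⟩
      rw [mem_closedBall] at hz ⊢
      show dist (c + r * z) c ≤ r
      rw [hn]
      nlinarith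
    · intro hw
      refine ⟨(w - c) / r, ?_, hinv w⟩
      rw [mem_closedBall] at hw ⊢
      rw [hd] at hw
      by_contra hcon
      push Not at hcon
      nlinarith
  · ext w
    constructor
    · rintro ⟨z, hz, rfl⟩
      rw [mem_sphere] at hz ⊢
      show dist (c + r * z) c = r
      rw [hn, hz, mul_one]
    · intro hw
      refine ⟨(w - c) / r, ?_, hinv w⟩
      rw [mem_sphere] at hw ⊢
      rw [hd] at hw
      have h1 : r * dist ((w - c) / r) 0 = r * 1 := by rw [hw, mul_one]
      exact mul_left_cancel₀ hr.ne' h1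

/-- a surface is locally connected -/
theorem Surf.locallyConnected {X : Type*} [TopologicalSpace X] (h : Surf X) :
    LocallyConnectedSpace X := by
  rw [locallyConnectedSpace_iff_subsets_isOpen_isConnected]
  intro x U hU
  obtain ⟨e, he, he0, heU⟩ := h x U hU
  exact ⟨range e, heU, he.isOpen_range, ⟨0, he0⟩, isConnected_range he.continuous⟩

end Pool.Agent.H61.PO
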