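import Pool.Agent.H61.PO.InvDom
import Pool.Agent.H61.PO.Discs

/-!
# PO-20: invariance of domain in dimension two (2): surfaces

`invdom`: for `x ∈ O` choose an open embedding `e : ℂ → M` with `e 0 = φ x` (`Surf`), and `r > 0` with `closedBall x r ⊆ O`,
`φ '' closedBall x r ⊆ range e`; `ψ = e⁻¹ ∘ φ` (inverse of an open embedding is continuous on the range) is continuous and injective on
`closedBall x r`; `invdom_plane`: `ψ '' ball x r` is open, so `φ '' ball x r = e '' (ψ '' ball x r)` is open.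
`no_ball3`: suppose `φ` is continuous and injective on `closedBall 0 1` in `EuclideanSpace ℝ (Fin 3)`.  Let `ι : ℂ → EuclideanSpace ℝ (Fin 3)`,
`ι z = (re z, im z, 0)`.  `φ ∘ ι` restricted to `ball 0 1` is continuous injective, so `O = φ (ι (ball 0 1))` is open in `M` by `invdom`.  The points
`y_n = (0, 0, 1/(n+2))` tend to `0 = ι 0`, so `φ y_n → φ 0 ∈ O`, so `φ y_n ∈ O` for large `n`: `φ y_n = φ (ι z)`, `y_n = ι z`: contradiction (third coordinate).
-/

namespace Pool.Agent.H61.PO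

open Set Filter Topology Metric

variable {M : Type*} [TopologicalSpace M] [T2Space M]

theorem invdom (hM : Surf M) {O : Set ℂ} (hO : IsOpen O) {φ : ℂ → M} (hφ : ContinuousOn φ O)
    (hi : InjOn φ O) : IsOpen (φ '' O) := by
  rw [isOpen_iff_mem_nhds]
  rintro _ ⟨x, hx, rfl⟩
  obtain ⟨e, he, he0, -⟩ := hM (φ x) univ univ_mem
  have hc : ContinuousAt φ x := hφ.continuousAt (hO.mem_nhds hx)
  have hr0 : range e ∈ 𝓝 (φ x) := he.isOpen_range.mem_nhds ⟨0, he0⟩
  have h1 : O ∩ φ ⁻¹' range e ∈ 𝓝 x := inter_mem (hO.mem_nhds hx) (hc hr0)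
  obtain ⟨r, hr, hrs⟩ := Metric.nhds_basis_closedBall.mem_iff.1 h1
  have hψ : ∀ z ∈ closedBall x r, e (Function.invFun e (φ z)) = φ z := fun z hz =>
    Function.invFun_eq (hrs hz).2
  have hcont : ContinuousOn (fun z => Function.invFun e (φ z)) (closedBall x r) := by
    rw [he.isInducing.continuousOn_iff]
    exact (hφ.mono (fun z hz => (hrs hz).1)).congr hψ
  have hinj : InjOn (fun z => Function.invFun e (φ z)) (closedBall x r) := by
    intro z hz w hw hzw
    have h2 : e (Function.invFun e (φ z)) = e (Function.invFun e (φ w)) := congrArg e hzw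
    rw [hψ z hz, hψ w hw] at h2
    exact hi (hrs hz).1 (hrs hw).1 h2
  have h3 := invdom_plane hr hcont hinj
  have h4 := he.isOpenMap _ h3
  refine mem_of_superset (h4.mem_nhds ⟨Function.invFun e (φ x), ⟨x, mem_ball_self hr, rfl⟩,
    hψ x (mem_closedBall_self hr.le)⟩) ?_
  rintro _ ⟨_, ⟨z, hz, rfl⟩, rfl⟩
  exact ⟨z, (hrs (ball_subset_closedBall hz)).1, (hψ z (ball_subset_closedBall hz)).symm⟩

/-- the plane `z = 0` in the three dimensional space -/
private noncomputable def inc3 (z : ℂ) : EuclideanSpace ℝ (Fin 3) := !₂[z.re, z.im, 0]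

/-- the third axis -/
private noncomputable def ax3 (t : ℝ) : EuclideanSpace ℝ (Fin 3) := !₂[0, 0, t]

private theorem norm_inc3 (z : ℂ) : ‖inc3 z‖ = ‖z‖ := by
  rw [EuclideanSpace.norm_eq, Complex.norm_def, Complex.normSq_apply]
  simp [Fin.sum_univ_three, inc3, sq]

private theorem norm_ax3 (t : ℝ) : ‖ax3 t‖ = |t| := by
  rw [EuclideanSpace.norm_eq]
  simp [Fin.sum_univ_three, ax3, Real.sqrt_sq_eq_abs]

private theorem inc3_inj : Function.Injective inc3 := by
  intro z w h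
  have h0 := congrArg (fun v : EuclideanSpace ℝ (Fin 3) => v 0) h
  have h1 := congrArg (fun v : EuclideanSpace ℝ (Fin 3) => v 1) h
  simp [inc3] at h0 h1
  exact Complex.ext h0 h1

private theorem inc3_cont : Continuous inc3 := by
  unfold inc3
  fun_prop

private theorem ax3_cont : Continuous ax3 := by
  unfold ax3
  fun_prop

theorem no_ball3 (hM : Surf M) {φ : EuclideanSpace ℝ (Fin 3) → M}
    (hφ : ContinuousOn φ (closedBall 0 1)) (hi : InjOn φ (closedBall 0 1)) : False := by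
  have hm : ∀ z ∈ ball (0 : ℂ) 1, inc3 z ∈ closedBall (0 : EuclideanSpace ℝ (Fin 3)) 1 := by
    intro z hz
    rw [mem_closedBall_zero_iff, norm_inc3]
    exact (mem_ball_zero_iff.1 hz).le
  have hO := invdom hM (O := ball 0 1) isOpen_ball (φ := fun z => φ (inc3 z))
    (hφ.comp inc3_cont.continuousOn hm)
    (fun z hz w hw h => inc3_inj (hi (hm z hz) (hm w hw) h))
  have h0 : inc3 0 = ax3 0 := by simp [inc3, ax3]
  have hc : ContinuousWithinAt (fun t => φ (ax3 t)) (Icc (-1) 1) 0 := by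
    refine (hφ.comp ax3_cont.continuousOn ?_) 0 (by constructor <;> norm_num)
    intro t ht
    rw [mem_closedBall_zero_iff, norm_ax3]
    exact abs_le.2 ht
  have hmem : (fun z => φ (inc3 z)) '' ball 0 1 ∈ 𝓝 (φ (ax3 0)) :=
    hO.mem_nhds ⟨0, mem_ball_self one_pos, by simp only [h0]⟩
  have h1 : ∀ᶠ t in 𝓝[Icc (-1) 1] (0 : ℝ), φ (ax3 t) ∈ (fun z => φ (inc3 z)) '' ball 0 1 :=
    hc hmem
  have h2 : ∀ᶠ t in 𝓝 (0 : ℝ), φ (ax3 t) ∈ (fun z => φ (inc3 z)) '' ball 0 1 := by
    have h3 : Icc (-1 : ℝ) 1 ∈ 𝓝 (0 : ℝ) := Icc_mem_nhds (by norm_num) (by norm_num)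
    rwa [nhdsWithin_eq_nhds.2 h3] at h1
  obtain ⟨ε, hε, hball⟩ := Metric.eventually_nhds_iff.1 h2
  obtain ⟨t, ht0, ht1⟩ : ∃ t : ℝ, 0 < t ∧ t < min ε 1 := exists_between (lt_min hε one_pos)
  have ht2 : t < ε := lt_of_lt_of_le ht1 (min_le_left _ _)
  have ht3 : t < 1 := lt_of_lt_of_le ht1 (min_le_right _ _)
  obtain ⟨z, hz, hzt⟩ := hball (y := t) (by
    rw [Real.dist_eq, sub_zero, abs_of_pos ht0]; exact ht2)
  have h5 : inc3 z = ax3 t := by
    refine hi (hm z hz) ?_ hzt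
    rw [mem_closedBall_zero_iff, norm_ax3, abs_of_pos ht0]
    exact ht3.le
  have h6 := congrArg (fun v : EuclideanSpace ℝ (Fin 3) => v 2) h5
  simp [inc3, ax3] at h6
  linarith

end Pool.Agent.H61.PO
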