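import Pool.Agent.H61.PO.CI
import Pool.Agent.H61.PO.InvDomB

/-!
# PO-34: charts of planes, openness of the map into a plane

`plane_chart`: pick `o ∈ A`; the direction `V = vectorSpan ℝ A` of `affineSpan ℝ A` has dimension `2`, so there is a continuous linear equivalence `ℂ ≃L[ℝ] V`
(`ContinuousLinearEquiv.ofFinrankEq`), `L z = o + e z`, and `P v = e⁻¹ (π (v - o))` with a continuous linear projection `π : E →L V` which is the identity on `V`
(`Submodule.exists_leftInverse`-like; finite dimension: every linear map is continuous).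
`open_in_plane`: `e : ℂ → M` open embedding with `e 0 = a`, `range e ⊆ N ∩ U ∩ N'`, `f` injective on `N'`.  `ψ = P ∘ f ∘ e : ℂ → ℂ` is continuous and injective
(`f (e z) ∈ affineSpan A`, where `P` is injective).  `invdom` (with `M = ℂ`, `surf_complex`, `O = univ`): `range ψ` is open.  `P ⁻¹' (range ψ)` is an open neighbourhood of
`f a`, and its points in `affineSpan A` are in `f '' N`: `P v = P (f (e z))`, so `v = f (e z)`.
-/

namespace Pool.Agent.H61.PO

open Set Filter Topology

variable {E : Type*} [NormedAddCommGroup E] [NormedSpace ℝ E] [FiniteDimensional ℝ E]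

theorem plane_chart {A : Set E} (hA : dimc A = 2) :
    ∃ (L : ℂ → E) (P : E → ℂ), Continuous L ∧ Continuous P ∧ (∀ z, P (L z) = z) ∧
      (∀ z, L z ∈ affineSpan ℝ A) ∧ ∀ v ∈ affineSpan ℝ A, L (P v) = v := by
  have hd : Module.finrank ℝ (vectorSpan ℝ A) = 2 := hA
  obtain ⟨o, ho⟩ : A.Nonempty := by
    rw [Set.nonempty_iff_ne_empty]
    rintro rfl
    rw [vectorSpan_empty, finrank_bot] at hd
    exact absurd hd (by norm_num)
  have hoA : o ∈ affineSpan ℝ A := subset_affineSpan ℝ A ho
  let e : ℂ ≃L[ℝ] vectorSpan ℝ A :=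
    ContinuousLinearEquiv.ofFinrankEq (by rw [Complex.finrank_real_complex, hd])
  obtain ⟨g, hg⟩ := LinearMap.exists_leftInverse_of_injective (vectorSpan ℝ A).subtype
    (Submodule.ker_subtype _)
  have hg' : ∀ x : vectorSpan ℝ A, g (x : E) = x := fun x => by
    have := LinearMap.congr_fun hg x
    simpa using this
  refine ⟨fun z => (e z : E) + o, fun v => e.symm (g (v - o)), ?_, ?_, ?_, ?_, ?_⟩
  · exact (continuous_subtype_val.comp e.continuous).add continuous_const
  · exact e.symm.continuous.comp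
      ((LinearMap.continuous_of_finiteDimensional g).comp (continuous_id.sub continuous_const))
  · intro z
    simp only [add_sub_cancel_right]
    rw [hg', ContinuousLinearEquiv.symm_apply_apply]
  · intro z
    have h1 : (e z : E) ∈ (affineSpan ℝ A).direction := by
      rw [direction_affineSpan]
      exact (e z).2
    have h2 := AffineSubspace.vadd_mem_of_mem_direction h1 hoA
    simpa using h2
  · intro v hv
    have h1 := AffineSubspace.vsub_mem_direction hv hoA
    rw [direction_affineSpan, vsub_eq_sub] at h1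
    have h2 : g (v - o) = ⟨v - o, h1⟩ := hg' ⟨v - o, h1⟩
    simp only
    rw [h2, ContinuousLinearEquiv.apply_symm_apply]
    simp

theorem open_in_plane {M : Type*} [TopologicalSpace M] [T2Space M] (hM : Surf M) {f : M → E}
    (hf : Continuous f) (hl : ∀ x, ∃ U ∈ 𝓝 x, InjOn f U) {A : Set E} (hA : dimc A = 2)
    {U : Set M} (hU : IsOpen U) (hUA : ∀ x ∈ U, f x ∈ affineSpan ℝ A) {a : M} (ha : a ∈ U)
    {N : Set M} (hN : N ∈ 𝓝 a) : ∃ O : Set E, IsOpen O ∧ f a ∈ O ∧
      ∀ v ∈ O, v ∈ affineSpan ℝ A → v ∈ f '' N := by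
  obtain ⟨L, P, -, hP, -, -, hLP⟩ := plane_chart hA
  obtain ⟨N', hN', hinj⟩ := hl a
  obtain ⟨e, he, he0, hr⟩ := hM a (N ∩ U ∩ N') (inter_mem (inter_mem hN (hU.mem_nhds ha)) hN')
  have hre : ∀ z, e z ∈ N ∧ e z ∈ U ∧ e z ∈ N' := fun z =>
    ⟨(hr ⟨z, rfl⟩).1.1, (hr ⟨z, rfl⟩).1.2, (hr ⟨z, rfl⟩).2⟩
  have hψ : Continuous fun z : ℂ => P (f (e z)) := hP.comp (hf.comp he.continuous)
  have hψi : InjOn (fun z : ℂ => P (f (e z))) univ := by
    intro z _ w _ hzw
    have h1 : L (P (f (e z))) = L (P (f (e w))) := congrArg L hzw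
    rw [hLP _ (hUA _ (hre z).2.1), hLP _ (hUA _ (hre w).2.1)] at h1
    exact he.injective (hinj (hre z).2.2 (hre w).2.2 h1)
  have hO := invdom surf_complex isOpen_univ hψ.continuousOn hψi
  refine ⟨P ⁻¹' ((fun z : ℂ => P (f (e z))) '' univ), hO.preimage hP, ⟨0, mem_univ _, ?_⟩, ?_⟩
  · simp only [he0]
  · rintro v ⟨z, -, hz⟩ hv
    refine ⟨e z, (hre z).1, ?_⟩
    have h1 : L (P (f (e z))) = L (P v) := congrArg L hz
    rwa [hLP _ (hUA _ (hre z).2.1), hLP _ hv] at h1

end Pool.Agent.H61.PO
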