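import Pool.Agent.H61.PO.PD
import Pool.Agent.H61.PO.PE1
import Pool.Agent.H61.PO.LocalB

/-!
# PO-35: a 2-face which is not essential is filled: all its points have exactly one preimage (P5)

Write `c = cv f F`, `T = f ⁻¹' F`.  `c` is compact (closed), `cᶜ` is not preconnected.  `T` and `Tᶜ` are preconnected (`good_face`, `Good.preconn`, `Good.compl`).
`Tᶜ` is nonempty (otherwise `range f ⊆ F` and the affine span has dimension `2 < 3`).  There is `u ∉ c` such that `U = connectedComponentIn cᶜ u` is disjoint from `Tᶜ`: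
`Tᶜ ⊆ cᶜ` is contained in the component of one of its points `w`; take `u ∈ cᶜ` not in this component (`cᶜ` not preconnected).
`U` is open (`comp_isOpen`), `closure U ⊆ U ∪ c` (`comp_closure`), `U ⊆ T`; for `a ∈ U`: `f a ∈ F \ rb F = ri F`.
(a) `f '' U` is open in `affineSpan F` (`open_in_plane`), and closed in `ri F` (limit of `f u_n`, `u_n → a ∈ U ∪ c`, `f a ∈ ri F` so `a ∉ c`).  `ri F` is convex so
preconnected; `U` is nonempty: `ri F ⊆ f '' U`.
(b) `B = {v | ∃ a b ∈ U, a ≠ b, f a = f b = v}` is open in `affineSpan F` (disjoint neighbourhoods of `a`, `b` in `U`, `open_in_plane` twice) and closed in `ri F`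
(`a_n, b_n` converge along a subsequence to `a, b ∈ U ∪ c`, `f a = f b = v ∈ ri F`, so `a, b ∈ U`; `a ≠ b` by local injectivity).  So `B = ∅` or `ri F ⊆ B`.
The second is impossible: take `v_n ∈ ri F` converging to `v ∈ rb F` (nonempty): limits `a, b` with `f a = f b = v`, so `a, b ∈ c`, `a = b` (`rb_uniq`), contradiction to local
injectivity at `a`.  So `f` is injective on `U`.
(c) `c` is open in `T \ U`: otherwise `a_n ∈ T \ U`, `a_n ∉ c`, `a_n → a ∈ c`.  `f a_n ∈ F`, so `f a_n = f u_n` with `u_n ∈ U ∪ c` (`ri F ⊆ f '' U`; `rb F ⊆ uniq f`);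
a limit point `a'` of `u_n` has `f a' = f a ∈ rb F`, so `a' = a`; local injectivity at `a`: `a_n = u_n` for large `n` (along a subsequence), contradiction.
(d) `U ∪ c` is closed, `T \ (U ∪ c)` is closed by (c) (and `U` open), `T` is the disjoint union of the two and is preconnected, `U` is nonempty: `T = U ∪ c`.
So a point of `F` has exactly one preimage: `rb F` by `rb_uniq`; `v ∈ ri F`: all preimages are in `U`, exactly one by (a), (b).
-/

namespace Pool.Agent.H61.PO

open Set Filter Topology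

variable {M : Type*} [MetricSpace M] [CompactSpace M] [Nonempty M]
  {E : Type*} [NormedAddCommGroup E] [NormedSpace ℝ E] [FiniteDimensional ℝ E] {f : M → E}
  {F : Set E}

/-- a preconnected set meeting a relatively open and relatively closed set is contained in it -/
private theorem PE2_conn {A S P : Set E} (hS : IsPreconnected S) (hSA : S ⊆ A)
    (hP : ∀ v ∈ P, ∃ O : Set E, IsOpen O ∧ v ∈ O ∧ ∀ w ∈ O, w ∈ A → w ∈ P)
    (hcl : ∀ v ∈ closure P, v ∈ S → v ∈ P) (hne : (S ∩ P).Nonempty) : S ⊆ P := by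
  choose! O hO hvO hOP using hP
  intro v hv
  by_contra hvP
  have hvc : v ∉ closure P := fun h => hvP (hcl v h hv)
  have hcov : S ⊆ (⋃ w ∈ P, O w) ∪ (closure P)ᶜ := by
    intro w hw
    by_cases h : w ∈ closure P
    · left
      exact mem_biUnion (hcl w h hw) (hvO w (hcl w h hw))
    · right; exact h
  obtain ⟨w0, hw0S, hw0P⟩ := hne
  obtain ⟨w, hw1, hw2, hw3⟩ := hS _ _ (isOpen_biUnion fun w hw => hO w hw)
    isClosed_closure.isOpen_compl hcov ⟨w0, hw0S, mem_biUnion hw0P (hvO w0 hw0P)⟩ ⟨v, hv, hvc⟩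
  rw [mem_iUnion₂] at hw2
  obtain ⟨x, hx, hwx⟩ := hw2
  exact hw3 (subset_closure (hOP x hx w hwx (hSA hw1)))

omit [Nonempty M] [NormedSpace ℝ E] [FiniteDimensional ℝ E] in
/-- uniform local injectivity -/
private theorem PE2_delta (hl : ∀ x, ∃ U ∈ 𝓝 x, InjOn f U) :
    ∃ δ > 0, ∀ a b : M, dist a b < δ → f a = f b → a = b := by
  choose U hU hUi using hl
  obtain ⟨δ, hδ, h⟩ := lebesgue_number_lemma_of_metric (s := (univ : Set M))
    (c := fun x : M => interior (U x)) isCompact_univ (fun x => isOpen_interior)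
    (fun x _ => mem_iUnion.2 ⟨x, mem_interior_iff_mem_nhds.2 (hU x)⟩)
  refine ⟨δ, hδ, fun a b hab hf => ?_⟩
  obtain ⟨x, hx⟩ := h a (mem_univ _)
  exact hUi x (interior_subset (hx (Metric.mem_ball_self hδ)))
    (interior_subset (hx (by rw [Metric.mem_ball, dist_comm]; exact hab))) hf

omit [Nonempty M] [NormedSpace ℝ E] [FiniteDimensional ℝ E] in
/-- the set of points with another far preimage in a closed set is closed -/
private theorem PE2_closed (hf : Continuous f) {X Y : Set M} (hX : IsClosed X) (hY : IsClosed Y)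
    (δ : ℝ) : IsClosed {x | x ∈ X ∧ ∃ y ∈ Y, f x = f y ∧ δ ≤ dist x y} := by
  have hc : IsCompact {q : M × M | (q.1 ∈ X ∧ q.2 ∈ Y) ∧ f q.1 = f q.2 ∧ δ ≤ dist q.1 q.2} := by
    refine IsClosed.isCompact ?_
    refine IsClosed.inter ?_ (IsClosed.inter ?_ ?_)
    · exact (hX.preimage continuous_fst).inter (hY.preimage continuous_snd)
    · exact isClosed_eq (hf.comp continuous_fst) (hf.comp continuous_snd)
    · exact isClosed_le continuous_const (continuous_fst.dist continuous_snd)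
  have h2 := (hc.image continuous_fst).isClosed
  have h3 : {x | x ∈ X ∧ ∃ y ∈ Y, f x = f y ∧ δ ≤ dist x y} = Prod.fst ''
      {q : M × M | (q.1 ∈ X ∧ q.2 ∈ Y) ∧ f q.1 = f q.2 ∧ δ ≤ dist q.1 q.2} := by
    ext x
    constructor
    · rintro ⟨hx, y, hy, h⟩
      exact ⟨(x, y), ⟨⟨hx, hy⟩, h⟩, rfl⟩
    · rintro ⟨⟨x', y⟩, ⟨⟨hx, hy⟩, h⟩, rfl⟩
      exact ⟨hx, y, hy, h⟩
  rw [h3]
  exact h2

theorem filled (hM : Surf M) (hf : Tight f) (hfull : affineSpan ℝ (range f) = ⊤)
    (hd : 3 ≤ Module.finrank ℝ E) (hF : Two f F) (h : ¬ Ess f F) : F ⊆ uniq f := by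
  have hc := hF.1.2.1
  have hk := hF.1.2.2.1
  have hfc := hf.cont
  -- relative boundary and interior
  have hrbF : rb F ⊆ F := intrinsicFrontier_subset hk.isClosed
  have hcc : IsClosed (cv f F) := (rb_compact hk).isClosed.preimage hfc
  have hTc : IsClosed (f ⁻¹' F) := hk.isClosed.preimage hfc
  have hcT : cv f F ⊆ f ⁻¹' F := fun x hx => hrbF hx
  have hri : ∀ v ∈ F, v ∉ rb F → v ∈ ri F := by
    intro v hv hvb
    rw [ri_iff hc hk]
    refine ⟨hv, ?_⟩
    by_contra hne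
    exact hvb ((rb_iff hc hk).2 ⟨hv, hne⟩)
  have hrib : ∀ v ∈ ri F, v ∉ rb F := fun v hv hb =>
    ((rb_iff hc hk).1 hb).2 ((ri_iff hc hk).1 hv).2
  have hnc : ¬ IsPreconnected (cv f F)ᶜ := fun h' => h ⟨hF, h'⟩
  have hg := good_face hf hF.1
  have hT1 : IsPreconnected (f ⁻¹' F) := hg.preconn
  have hT2 : IsPreconnected (f ⁻¹' F)ᶜ := hg.compl
  -- the complement of `T` is nonempty
  obtain ⟨w, hw⟩ : ∃ w, w ∉ f ⁻¹' F := by
    by_contra hcon
    push Not at hcon
    have h1 : range f ⊆ F := by rintro _ ⟨a, rfl⟩; exact hcon a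
    have h2 := dimc_mono h1
    have h3 : dimc (range f) = Module.finrank ℝ E := by
      unfold dimc
      rw [← direction_affineSpan, hfull, AffineSubspace.direction_top, finrank_top]
    rw [h3, hF.2] at h2
    omega
  have hwc : w ∈ (cv f F)ᶜ := fun h' => hw (hcT h')
  have hTW : (f ⁻¹' F)ᶜ ⊆ connectedComponentIn (cv f F)ᶜ w :=
    hT2.subset_connectedComponentIn hw (compl_subset_compl.2 hcT)
  obtain ⟨u, hu, huW⟩ : ∃ u ∈ (cv f F)ᶜ, u ∉ connectedComponentIn (cv f F)ᶜ w := by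
    by_contra hcon
    push Not at hcon
    apply hnc
    have : (cv f F)ᶜ = connectedComponentIn (cv f F)ᶜ w :=
      Subset.antisymm hcon (connectedComponentIn_subset _ _)
    rw [this]
    exact isPreconnected_connectedComponentIn
  set U := connectedComponentIn (cv f F)ᶜ u with hUdef
  have hUo : IsOpen U := comp_isOpen hM hcc u
  have hUcl : closure U ⊆ U ∪ cv f F := comp_closure hM hcc u
  have huU : u ∈ U := mem_connectedComponentIn hu
  have hUc : ∀ a ∈ U, a ∉ cv f F := fun a ha => connectedComponentIn_subset _ _ ha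
  have hUT : U ⊆ f ⁻¹' F := by
    intro a ha
    by_contra haT
    have h1 : a ∈ connectedComponentIn (cv f F)ᶜ w := hTW haT
    apply huW
    rw [connectedComponentIn_eq h1, ← connectedComponentIn_eq ha]
    exact huU
  have hUri : ∀ a ∈ U, f a ∈ ri F := fun a ha => hri _ (hUT ha) (hUc a ha)
  have hriA : ri F ⊆ (affineSpan ℝ F : Set E) := fun v hv =>
    subset_affineSpan ℝ F (intrinsicInterior_subset hv)
  have hUA : ∀ x ∈ U, f x ∈ affineSpan ℝ F := fun x hx => hriA (hUri x hx)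
  have hril : ∀ (a : M), f a ∈ ri F → a ∈ U ∪ cv f F → a ∈ U := by
    intro a ha h'
    rcases h' with h' | h'
    · exact h'
    · exact absurd h' (hrib _ ha)
  -- openness
  have hopen : ∀ a ∈ U, ∀ N ∈ 𝓝 a, ∃ O : Set E, IsOpen O ∧ f a ∈ O ∧
      ∀ v ∈ O, v ∈ affineSpan ℝ F → v ∈ f '' N := fun a ha N hN =>
    open_in_plane hM hfc hf.linj hF.2 hUo hUA ha hN
  -- the relative interior is preconnected
  have hseg : ∀ x ∈ ri F, ∀ v ∈ F, openSegment ℝ x v ⊆ ri F := by
    intro x hx v hvF y hy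
    have hxF : x ∈ F := intrinsicInterior_subset hx
    have hyF : y ∈ F := hc.openSegment_subset hxF hvF hy
    rw [ri_iff hc hk]
    refine ⟨hyF, ?_⟩
    have h2 : IsFace F (mf F y) := mf_face hc hk hyF
    have h3 : x ∈ mf F y := h2.1.left_mem_of_mem_openSegment hxF hvF mem_mf hy
    have h4 : mf F x ⊆ mf F y := mf_min h2 h3
    rw [((ri_iff hc hk).1 hx).2] at h4
    exact Subset.antisymm h2.subset h4
  have hriconn : IsPreconnected (ri F) := by
    refine Convex.isPreconnected ?_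
    rw [convex_iff_openSegment_subset]
    exact fun x hx y hy => hseg x hx y (intrinsicInterior_subset hy)
  -- (a)
  have hUclc : IsCompact (closure U) := isClosed_closure.isCompact
  have ha : ri F ⊆ f '' U := by
    refine PE2_conn hriconn hriA ?_ ?_ ⟨f u, hUri u huU, u, huU, rfl⟩
    · rintro _ ⟨a, haU, rfl⟩
      exact hopen a haU U (hUo.mem_nhds haU)
    · intro v hv hvr
      have h1 : closure (f '' U) ⊆ f '' closure U :=
        closure_minimal (image_mono subset_closure) (hUclc.image hfc).isClosed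
      obtain ⟨a, haU, rfl⟩ := h1 hv
      exact ⟨a, hril a hvr (hUcl haU), rfl⟩
  -- (b)
  obtain ⟨δ, hδ, hinj⟩ := PE2_delta hf.linj
  have hDcl := PE2_closed hfc (isClosed_closure (s := U)) (isClosed_closure (s := U)) δ
  set D := {x | x ∈ closure U ∧ ∃ y ∈ closure U, f x = f y ∧ δ ≤ dist x y} with hD
  set B : Set E := {v | ∃ a ∈ U, ∃ b ∈ U, a ≠ b ∧ f a = v ∧ f b = v} with hB
  have hBD : B ⊆ f '' D := by
    rintro v ⟨a, haU, b, hbU, hab, rfl, hfb⟩
    refine ⟨a, ⟨subset_closure haU, b, subset_closure hbU, hfb.symm, ?_⟩, rfl⟩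
    by_contra hlt
    exact hab (hinj a b (not_le.1 hlt) hfb.symm)
  have hBcl : closure B ⊆ f '' D :=
    closure_minimal hBD (hDcl.isCompact.image hfc).isClosed
  have hne : ∀ x y : M, δ ≤ dist x y → x ≠ y := by
    rintro x y hxy rfl
    rw [dist_self] at hxy
    exact absurd hxy (not_le.2 hδ)
  have hb1 : ∀ v ∈ closure B, v ∈ ri F → v ∈ B := by
    intro v hv hvr
    obtain ⟨x, ⟨hx, y, hy, hxy, hd'⟩, rfl⟩ := hBcl hv
    exact ⟨x, hril x hvr (hUcl hx), y, hril y (hxy ▸ hvr) (hUcl hy), hne x y hd', rfl, hxy.symm⟩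
  have hb2 : ∀ v ∈ closure B, v ∉ rb F := by
    intro v hv hvr
    obtain ⟨x, ⟨hx, y, hy, hxy, hd'⟩, rfl⟩ := hBcl hv
    exact hne x y hd' (uniq_eq (rb_uniq hf hF hvr) hxy)
  have hrb0 : (rb F).Nonempty := by
    obtain ⟨p, q, σ, τ, h1, -, -, h4⟩ := two_scc hc hk hF.2
    exact ⟨p, by rw [h4]; exact Or.inl h1.mem.1⟩
  have hclri : ∀ v ∈ rb F, v ∈ closure (ri F) := by
    intro v hv
    have hvF := hrbF hv
    have h1 : openSegment ℝ (f u) v ⊆ ri F := hseg _ (hUri u huU) v hvF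
    have h5 : v ∈ closure (openSegment ℝ (f u) v) := by
      rw [closure_openSegment]
      exact right_mem_segment ℝ _ _
    exact closure_mono h1 h5
  have hbB : ∀ a ∈ U, ∀ b ∈ U, f a = f b → a = b := by
    intro a haU b hbU hab
    by_contra hne'
    have h1 : ri F ⊆ B := by
      refine PE2_conn hriconn hriA ?_ hb1 ⟨f a, hUri a haU, a, haU, b, hbU, hne', rfl, hab.symm⟩
      rintro v ⟨a', ha', b', hb', hab', rfl, hfb'⟩
      obtain ⟨N1, N2, hN1, hN2, haN, hbN, hdis⟩ := t2_separation hab'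
      obtain ⟨O1, hO1, hm1, hs1⟩ := hopen a' ha' (U ∩ N1)
        (inter_mem (hUo.mem_nhds ha') (hN1.mem_nhds haN))
      obtain ⟨O2, hO2, hm2, hs2⟩ := hopen b' hb' (U ∩ N2)
        (inter_mem (hUo.mem_nhds hb') (hN2.mem_nhds hbN))
      refine ⟨O1 ∩ O2, hO1.inter hO2, ⟨hm1, hfb' ▸ hm2⟩, fun v hv hvA => ?_⟩
      obtain ⟨x, ⟨hxU, hxN⟩, hfx⟩ := hs1 v hv.1 hvA
      obtain ⟨y, ⟨hyU, hyN⟩, hfy⟩ := hs2 v hv.2 hvA
      exact ⟨x, hxU, y, hyU, fun hxy => Set.disjoint_left.1 hdis hxN (hxy ▸ hyN), hfx, hfy⟩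
    obtain ⟨v, hv⟩ := hrb0
    exact hb2 v (closure_mono h1 (hclri v hv)) hv
  -- (c)
  have hUcc : IsClosed (U ∪ cv f F) := by
    refine isClosed_of_closure_subset ?_
    rw [closure_union, hcc.closure_eq]
    exact union_subset hUcl subset_union_right
  have hRcl := PE2_closed hfc hTc hUcc δ
  have hR1 : f ⁻¹' F \ (U ∪ cv f F) ⊆
      {x | x ∈ f ⁻¹' F ∧ ∃ y ∈ U ∪ cv f F, f x = f y ∧ δ ≤ dist x y} := by
    rintro x ⟨hxT, hxn⟩
    have hxr : f x ∈ ri F := hri _ hxT fun h' => hxn (Or.inr h')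
    obtain ⟨y, hyU, hy⟩ := ha hxr
    refine ⟨hxT, y, Or.inl hyU, hy.symm, ?_⟩
    by_contra hlt
    exact hxn (Or.inl ((hinj x y (not_le.1 hlt) hy.symm) ▸ hyU))
  have hR2 : closure (f ⁻¹' F \ (U ∪ cv f F)) ∩ (U ∪ cv f F) = ∅ := by
    rw [Set.eq_empty_iff_forall_notMem]
    rintro x ⟨hx, hx'⟩
    rcases hx' with hxU | hxc
    · obtain ⟨y, hy1, hy2⟩ := mem_closure_iff.1 hx U hUo hxU
      exact hy2.2 (Or.inl hy1)
    · obtain ⟨-, y, -, hxy, hd'⟩ := closure_minimal hR1 hRcl hx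
      exact hne x y hd' (uniq_eq (rb_uniq hf hF hxc) hxy)
  -- (d)
  have hd1 : f ⁻¹' F ⊆ U ∪ cv f F := by
    intro x hx
    by_contra hxn
    have h1 := (isPreconnected_closed_iff.1 hT1) (U ∪ cv f F)
      (closure (f ⁻¹' F \ (U ∪ cv f F))) hUcc isClosed_closure (by
        intro y hy
        by_cases h' : y ∈ U ∪ cv f F
        · exact Or.inl h'
        · exact Or.inr (subset_closure ⟨hy, h'⟩))
      ⟨u, hUT huU, Or.inl huU⟩ ⟨x, hx, subset_closure ⟨hx, hxn⟩⟩
    obtain ⟨y, -, hy1, hy2⟩ := h1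
    have : y ∈ closure (f ⁻¹' F \ (U ∪ cv f F)) ∩ (U ∪ cv f F) := ⟨hy2, hy1⟩
    rw [hR2] at this
    exact this
  intro v hv
  by_cases hvb : v ∈ rb F
  · exact rb_uniq hf hF hvb
  · have hvr := hri v hv hvb
    obtain ⟨a, haU, rfl⟩ := ha hvr
    refine ⟨a, Subset.antisymm ?_ ?_⟩
    · intro b hb
      have hfb : f b = f a := hb
      have hbT : b ∈ f ⁻¹' F := by
        show f b ∈ F
        rw [hfb]; exact hv
      have hbU : b ∈ U := hril b (by rw [hfb]; exact hvr) (hd1 hbT)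
      exact hbB b hbU a haU hfb
    · rintro b rfl
      rfl

end Pool.Agent.H61.PO
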