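import Pool.Agent.H61.PO.FinA
import Pool.Agent.H61.PO.Circ

/-!
# PO-22: finiteness, uniform for the complements of all discs

`N` from `fin_data`; the new number is `2 * N` (or `N + N`, through `Fin N ⊕ Fin N` or `Bool × Fin N`).  `A = (e '' ball 0 1)ᶜ` closed,
`B = e '' closedBall 0 1` compact, `A ∪ B = univ`, `A ∩ B = S := e '' sphere 0 1`, a simple closed curve (`SCC.image`, `scc_sphere`).
(1) A cocycle `g` on `A` with `Cob S g` extends: `glue` with `g2 = 0` on `B`: `E g` with `Coc univ (E g)`, `Cob A (E g + g)`.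
(2) If `g, g0` are cocycles on `A` which are not coboundaries on `S`, then `g + g0` is a coboundary on `S` (`SCC.two`).
Fix `g0` with `Coc A g0`, not `Cob S g0`, if there is one.  `data g = (true, data0 (E g))` if `Cob S g`, `(false, data0 (E (g + g0)))` otherwise.
If `data g = data g'`: first case `Cob univ (E g + E g')`, so `Cob A (g + g')`.  Second case: `Cob A ((g + g0) + (g' + g0))`, `= g + g'`.
-/

namespace Pool.Agent.H61.PO

open Set Filter Topology Metric

theorem fin_disc {M : Type*} [MetricSpace M] [CompactSpace M] (hM : Surf M) :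
    ∃ N : ℕ, ∀ e : ℂ → M, IsOpenEmbedding e → ∃ data : (M → M → ZMod 2) → Fin N,
      ∀ g g' : M → M → ZMod 2, Coc (e '' ball 0 1)ᶜ g → Coc (e '' ball 0 1)ᶜ g' →
        data g = data g' → Cob (e '' ball 0 1)ᶜ (g + g') := by
  classical
  obtain ⟨N, data0, hd⟩ := fin_data hM
  refine ⟨N + N, fun e he => ?_⟩
  obtain ⟨A, hAdef⟩ : ∃ A : Set M, A = (e '' ball 0 1)ᶜ := ⟨_, rfl⟩
  obtain ⟨B, hBdef⟩ : ∃ B : Set M, B = e '' closedBall 0 1 := ⟨_, rfl⟩
  have hA : IsClosed A := by
    rw [hAdef]
    exact (he.isOpenMap _ isOpen_ball).isClosed_compl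
  have hB : IsClosed B := by
    rw [hBdef]
    exact ((isCompact_closedBall (0 : ℂ) 1).image he.continuous).isClosed
  have hAB : A ∪ B = univ := by
    rw [hAdef, hBdef]
    apply eq_univ_of_forall
    intro x
    by_cases hx : x ∈ e '' ball 0 1
    · exact Or.inr (image_mono ball_subset_closedBall hx)
    · exact Or.inl hx
  have hS : A ∩ B = e '' sphere 0 1 := by
    rw [hAdef, hBdef]
    ext x
    constructor
    · rintro ⟨hx, z, hz, rfl⟩
      refine ⟨z, ?_, rfl⟩
      have hz' : z ∉ ball (0 : ℂ) 1 := fun h => hx (mem_image_of_mem e h)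
      rw [mem_closedBall] at hz
      rw [mem_ball, not_lt] at hz'
      exact mem_sphere.2 (le_antisymm hz hz')
    · rintro ⟨z, hz, rfl⟩
      refine ⟨?_, mem_image_of_mem e (sphere_subset_closedBall hz)⟩
      rintro ⟨w, hw, hwz⟩
      rw [he.injective hwz] at hw
      rw [mem_ball] at hw
      rw [mem_sphere] at hz
      linarith
  have hSCC : SCC (A ∩ B) := by
    rw [hS]
    exact (scc_sphere one_pos).image he.continuous.continuousOn he.injective.injOn
  rw [← hAdef]
  have ex : ∀ g : M → M → ZMod 2, ∃ E : M → M → ZMod 2, Coc A g → Cob (A ∩ B) g →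
      Coc univ E ∧ Cob A (E + g) := by
    intro g
    by_cases h : Coc A g ∧ Cob (A ∩ B) g
    · have h0 : Cob (A ∩ B) (g + fun _ _ => 0) := by
        have h1 : (g + fun _ _ => 0) = g := by
          funext a b
          exact add_zero _
        rw [h1]
        exact h.2
      obtain ⟨E, hE1, hE2, -⟩ := glue hA hB h.1 (Coc.zero B) h0
      rw [hAB] at hE1
      exact ⟨E, fun _ _ => ⟨hE1, hE2⟩⟩
    · exact ⟨0, fun h1 h2 => absurd ⟨h1, h2⟩ h⟩
  choose E hE using ex
  have key : ∀ g g' : M → M → ZMod 2, Coc A g → Coc A g' → Cob (A ∩ B) g → Cob (A ∩ B) g' →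
      data0 (E g) = data0 (E g') → Cob A (g + g') := by
    intro g g' hg hg' h h' he
    obtain ⟨h1, h2⟩ := hE g hg h
    obtain ⟨h1', h2'⟩ := hE g' hg' h'
    have h3 : Cob A (E g + E g') := (hd _ _ h1 h1' he).mono (subset_univ A)
    exact (h2.symm.trans h3).trans h2'
  obtain ⟨g0, hg0, hg0'⟩ : ∃ g0 : M → M → ZMod 2, Coc A g0 ∧
      ∀ g, Coc A g → ¬ Cob (A ∩ B) g → Cob (A ∩ B) (g + g0) := by
    by_cases h : ∃ g0 : M → M → ZMod 2, Coc A g0 ∧ ¬ Cob (A ∩ B) g0
    · obtain ⟨g0, h1, h2⟩ := h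
      exact ⟨g0, h1, fun g hg hn => hSCC.two (hg.mono inter_subset_left)
        (h1.mono inter_subset_left) hn h2⟩
    · exact ⟨_, Coc.zero A, fun g hg hn => absurd ⟨g, hg, hn⟩ h⟩
  refine ⟨fun g => if Cob (A ∩ B) g then finSumFinEquiv (Sum.inl (data0 (E g))) else
    finSumFinEquiv (Sum.inr (data0 (E (g + g0)))), ?_⟩
  intro g g' hg hg' hgg
  simp only at hgg
  by_cases h : Cob (A ∩ B) g
  · by_cases h' : Cob (A ∩ B) g'
    · rw [if_pos h, if_pos h'] at hgg
      exact key g g' hg hg' h h' (Sum.inl_injective (finSumFinEquiv.injective hgg))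
    · rw [if_pos h, if_neg h'] at hgg
      exact absurd (finSumFinEquiv.injective hgg) Sum.inl_ne_inr
  · by_cases h' : Cob (A ∩ B) g'
    · rw [if_neg h, if_pos h'] at hgg
      exact absurd (finSumFinEquiv.injective hgg) Sum.inr_ne_inl
    · rw [if_neg h, if_neg h'] at hgg
      have h1 := key (g + g0) (g' + g0) (hg.add hg0) (hg'.add hg0) (hg0' g hg h) (hg0' g' hg' h')
        (Sum.inr_injective (finSumFinEquiv.injective hgg))
      have h2 : g + g0 + (g' + g0) = g + g' := by
        have h3 : g0 + g0 = 0 := by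
          rw [add_self]
          rfl
        calc g + g0 + (g' + g0) = g + g' + (g0 + g0) := by abel
          _ = g + g' := by rw [h3, add_zero]
      rw [← h2]
      exact h1

end Pool.Agent.H61.PO
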