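import Pool.Agent.H61.PO.LocalP
import Pool.Agent.H61.PO.Discs

/-!
# PO-17: free arcs on surfaces

`free_arc`: `X ⊆ M` closed, `x` an arc point: `α`.  `V = (X \ α '' (-1,1))ᶜ` is open and contains `x`, and not `α 1`, `α (-1)`.
`e : ℂ → M` open embedding with `e 0 = x`, `range e ⊆ V` (`Surf`).  So `range e ∩ X ⊆ α '' (-1,1)`.
`t2 = ` the least `t ≥ 0` with `α t ∉ e '' ball 0 1` (compactness:
`IsCompact.exists_isLeast` for `{t ∈ [0,1] | α t ∉ e '' ball 0 1}`; `α 1 ∉ range e`), so `0 < t2 < 1`, `α t ∈ e '' ball 0 1` for `0 ≤ t < t2`, `α t2 ∈ e '' closedBall 0 1`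
(closed), so `α t2 ∈ e '' sphere 0 1`; `t1 < 0` in the same way (greatest).  `σ = e ⁻¹' (α '' [t1,t2])` is an arc (in `ℂ`, image of `α '' [t1,t2]` under the inverse of
`e`, continuous on `range e`) with end points `p = e⁻¹ (α t1)`, `q = e⁻¹ (α t2)` on the unit circle `S`, `S ∩ σ = {p,q}`, `σ ⊆ closedBall 0 1`.
`Y' = S ∪ (closedBall 0 1 ∩ e ⁻¹' (X \ α '' (t1,t2)))` is compact: `X \ α '' (t1,t2) = (X \ α '' (-1,1)) ∪ α '' [-1,t1] ∪ α '' [t2,1]` is closed.
`Y = Y' ∪ σ ⊇ closedBall 0 1 ∩ e ⁻¹' X`, `Y' ∩ σ = {p, q}`.  `free_plane`: `δ`, `a'`, `b'`; `a = e a'`, `b = e b'`, `U = e '' ball 0 δ`.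
(`a, b ∉ X`: `e ⁻¹' X ∩ ball 0 δ ⊆ σ` as `ball 0 δ` misses `Y'`.)
A point `y = e z ∈ U \ X`: `z ∉ σ`, so `z` is in the component `K` of `a'` in `Yᶜ`, or of `b'`; `K ⊆ ball 0 1` (`comp_ball`), so
`e '' K` is connected and misses `X`: `y ∈ connectedComponentIn Xᶜ a` (`IsPreconnected.subset_connectedComponentIn`).
A point `y = e z ∈ U ∩ X`: `z ∈ ball 0 δ ∩ σ`, `z ∈ closure (K ∩ ball 0 δ)`, `e '' K ⊆ connectedComponentIn Xᶜ a`; so `y ∈ closure (connectedComponentIn Xᶜ a)`;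
the same for `b`.
-/

namespace Pool.Agent.H61.PO

open Set Filter Topology Metric

variable {M : Type*} [MetricSpace M]

/-- first exit time from a disc -/
private theorem local_side {α : ℝ → M} (hc : ContinuousOn α (Icc 0 1)) {e : ℂ → M}
    (he : IsOpenEmbedding e) (h0 : α 0 = e 0) (h1 : α 1 ∉ range e) :
    ∃ t2 : ℝ, 0 < t2 ∧ t2 < 1 ∧ (∀ t : ℝ, 0 ≤ t → t < t2 → α t ∈ e '' ball 0 1) ∧
      α t2 ∈ e '' sphere 0 1 := by
  have hopen : IsOpen (e '' ball 0 1) := he.isOpenMap _ isOpen_ball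
  have hclosed : IsClosed (Icc (0 : ℝ) 1 ∩ α ⁻¹' (e '' ball 0 1)ᶜ) :=
    hc.preimage_isClosed_of_isClosed isClosed_Icc hopen.isClosed_compl
  have hcomp : IsCompact (Icc (0 : ℝ) 1 ∩ α ⁻¹' (e '' ball 0 1)ᶜ) :=
    isCompact_Icc.of_isClosed_subset hclosed inter_subset_left
  have hne : (Icc (0 : ℝ) 1 ∩ α ⁻¹' (e '' ball 0 1)ᶜ).Nonempty := by
    refine ⟨1, ⟨zero_le_one, le_rfl⟩, ?_⟩
    rintro ⟨z, -, hz⟩
    exact h1 ⟨z, hz⟩
  obtain ⟨t2, ⟨ht2, hn⟩, hmin⟩ := hcomp.exists_isLeast hne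
  have hbelow : ∀ t : ℝ, 0 ≤ t → t < t2 → α t ∈ e '' ball 0 1 := by
    intro t h0t htt
    by_contra hcon
    exact absurd (hmin ⟨⟨h0t, htt.le.trans ht2.2⟩, hcon⟩) (not_le.2 htt)
  have hpos : 0 < t2 := by
    rcases ht2.1.eq_or_lt with h | h
    · exfalso
      apply hn
      rw [← h, h0]
      exact ⟨0, mem_ball_self one_pos, rfl⟩
    · exact h
  have hclB : IsClosed (e '' closedBall 0 1) :=
    ((isCompact_closedBall (0 : ℂ) 1).image he.continuous).isClosed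
  have hmem : α t2 ∈ e '' closedBall 0 1 := by
    have hcw : ContinuousWithinAt α (Ico 0 t2) t2 :=
      (hc t2 ht2).mono (fun t ht => ⟨ht.1, ht.2.le.trans ht2.2⟩)
    have hcl : t2 ∈ closure (Ico 0 t2) := by
      rw [closure_Ico hpos.ne]
      exact ⟨hpos.le, le_rfl⟩
    have h := hcw.mem_closure_image hcl
    refine hclB.closure_subset_iff.2 ?_ h
    rintro _ ⟨t, ht, rfl⟩
    exact image_mono ball_subset_closedBall (hbelow t ht.1 ht.2)
  have hlt : t2 < 1 := by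
    rcases ht2.2.eq_or_lt with h | h
    · exfalso
      apply h1
      rw [← h]
      exact image_subset_range _ _ hmem
    · exact h
  refine ⟨t2, hpos, hlt, hbelow, ?_⟩
  obtain ⟨z, hz, hze⟩ := hmem
  refine ⟨z, ?_, hze⟩
  rw [mem_closedBall] at hz
  rw [mem_sphere]
  refine le_antisymm hz (not_lt.1 fun hlt' => hn ⟨z, ?_, hze⟩)
  rw [mem_ball]
  exact hlt'

/-- the situation in the plane -/
private theorem local_plane (hM : Surf M) {X : Set M} {x : M}
    (hx : ArcPt X x) :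
    ∃ (e : ℂ → M) (p q : ℂ) (σ Y' : Set ℂ), IsOpenEmbedding e ∧ e 0 = x ∧ IsArc σ p q ∧
      σ ⊆ closedBall 0 1 ∧ sphere 0 1 ∩ σ = {p, q} ∧ (0 : ℂ) ∈ σ ∧ IsCompact Y' ∧
      sphere 0 1 ⊆ Y' ∧ Y' ⊆ closedBall 0 1 ∧ Y' ∩ σ = {p, q} ∧
      (∀ z ∈ σ, e z ∈ X) ∧ ∀ z ∈ closedBall (0 : ℂ) 1, e z ∈ X → z ∈ Y' ∨ z ∈ σ := by
  obtain ⟨α, hc, hi, h0, hsub, hcl⟩ := hx
  have hxV : x ∈ (X \ α '' Ioo (-1) 1)ᶜ := by
    rintro ⟨-, hn⟩
    exact hn ⟨0, ⟨by norm_num, by norm_num⟩, h0⟩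
  obtain ⟨e, he, he0, hrange⟩ := hM x _ (hcl.isOpen_compl.mem_nhds hxV)
  have hend : ∀ t : ℝ, t ∈ Icc (-1 : ℝ) 1 → t ∉ Ioo (-1 : ℝ) 1 → α t ∉ range e := by
    intro t ht hnt hr
    refine hrange hr ⟨hsub ⟨t, ht, rfl⟩, ?_⟩
    rintro ⟨u, hu, hut⟩
    have := hi ⟨hu.1.le, hu.2.le⟩ ht hut
    exact hnt (this ▸ hu)
  obtain ⟨t, ht0, ht1, htb, hts⟩ := local_side (α := α)
    (hc.mono (Icc_subset_Icc (by norm_num) le_rfl)) he (h0.trans he0.symm)
    (hend 1 ⟨by norm_num, le_rfl⟩ (fun h => lt_irrefl _ h.2))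
  obtain ⟨s, hs0, hs1, hsb, hss⟩ := local_side (α := fun u => α (-u))
    (by
      refine hc.comp continuous_neg.continuousOn ?_
      intro u hu
      exact ⟨by linarith [hu.2], by linarith [hu.1]⟩)
    he (by show α (-0) = e 0; rw [neg_zero]; exact h0.trans he0.symm)
    (hend (-1) ⟨le_rfl, by norm_num⟩ (fun h => lt_irrefl _ h.1))
  -- the interval
  have hI : Icc (-s) t ⊆ Icc (-1 : ℝ) 1 := Icc_subset_Icc (by linarith) ht1.le
  have hin : ∀ u ∈ Ioo (-s) t, α u ∈ e '' ball 0 1 := by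
    intro u hu
    rcases le_or_gt 0 u with h | h
    · exact htb u h hu.2
    · have := hsb (-u) (by linarith) (by linarith [hu.1])
      simpa using this
  have hcb : ∀ u ∈ Icc (-s) t, α u ∈ e '' closedBall 0 1 := by
    intro u hu
    rcases hu.1.eq_or_lt with h | h
    · rw [← h]
      exact image_mono sphere_subset_closedBall hss
    · rcases hu.2.eq_or_lt with h' | h'
      · rw [h']
        exact image_mono sphere_subset_closedBall hts
      · exact image_mono ball_subset_closedBall (hin u ⟨h, h'⟩)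
  -- the lift
  obtain ⟨β, hβ⟩ : ∃ β : ℝ → ℂ, ∀ u ∈ Icc (-s) t, e (β u) = α u := by
    refine ⟨fun u => Function.invFun e (α u), fun u hu => Function.invFun_eq ?_⟩
    obtain ⟨z, -, hz⟩ := hcb u hu
    exact ⟨z, hz⟩
  have hβc : ContinuousOn β (Icc (-s) t) := by
    rw [he.isInducing.continuousOn_iff]
    exact (hc.mono hI).congr fun u hu => hβ u hu
  have hβi : InjOn β (Icc (-s) t) := by
    intro u hu v hv huv
    apply hi (hI hu) (hI hv)
    rw [← hβ u hu, ← hβ v hv, huv]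
  have hβb : ∀ u ∈ Ioo (-s) t, β u ∈ ball (0 : ℂ) 1 := by
    intro u hu
    obtain ⟨z, hz, hze⟩ := hin u hu
    rw [← hβ u ⟨hu.1.le, hu.2.le⟩] at hze
    exact he.injective hze ▸ hz
  have hst : -s < t := by linarith
  have hms : -s ∈ Icc (-s) t := ⟨le_rfl, hst.le⟩
  have hmt : t ∈ Icc (-s) t := ⟨hst.le, le_rfl⟩
  have hβs : β (-s) ∈ sphere (0 : ℂ) 1 := by
    obtain ⟨z, hz, hze⟩ := hss
    have hze' : e z = α (-s) := hze
    rw [← hβ (-s) hms] at hze'
    exact he.injective hze' ▸ hz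
  have hβt : β t ∈ sphere (0 : ℂ) 1 := by
    obtain ⟨z, hz, hze⟩ := hts
    rw [← hβ t hmt] at hze
    exact he.injective hze ▸ hz
  have hm0 : (0 : ℝ) ∈ Icc (-s) t := ⟨by linarith, ht0.le⟩
  have hβ0 : β 0 = 0 := by
    apply he.injective
    rw [hβ 0 hm0, h0, he0]
  have htri : ∀ u ∈ Icc (-s) t, u = -s ∨ u = t ∨ u ∈ Ioo (-s) t := by
    intro u hu
    rcases hu.1.eq_or_lt with h | h
    · exact Or.inl h.symm
    · rcases hu.2.eq_or_lt with h' | h'
      · exact Or.inr (Or.inl h')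
      · exact Or.inr (Or.inr ⟨h, h'⟩)
  have hσcb : β '' Icc (-s) t ⊆ closedBall 0 1 := by
    rintro _ ⟨u, hu, rfl⟩
    rcases htri u hu with rfl | rfl | h
    · exact sphere_subset_closedBall hβs
    · exact sphere_subset_closedBall hβt
    · exact ball_subset_closedBall (hβb u h)
  have hsph : ∀ z, z ∈ sphere (0 : ℂ) 1 → z ∈ β '' Icc (-s) t → z = β (-s) ∨ z = β t := by
    rintro _ hz ⟨u, hu, rfl⟩
    rcases htri u hu with rfl | rfl | h
    · exact Or.inl rfl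
    · exact Or.inr rfl
    · exfalso
      have h1 := hβb u h
      rw [mem_ball] at h1
      rw [mem_sphere] at hz
      exact absurd hz h1.ne
  have hclX : IsClosed (X \ α '' Ioo (-s) t) := by
    have heq : X \ α '' Ioo (-s) t =
        (X \ α '' Ioo (-1) 1) ∪ (α '' Icc (-1) (-s) ∪ α '' Icc t 1) := by
      ext y
      constructor
      · rintro ⟨hyX, hyn⟩
        by_cases hy : y ∈ α '' Ioo (-1) 1
        · obtain ⟨u, hu, rfl⟩ := hy
          right
          rcases le_or_gt u (-s) with h | h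
          · exact Or.inl ⟨u, ⟨hu.1.le, h⟩, rfl⟩
          · rcases lt_or_ge u t with h' | h'
            · exact absurd ⟨u, ⟨h, h'⟩, rfl⟩ hyn
            · exact Or.inr ⟨u, ⟨h', hu.2.le⟩, rfl⟩
        · exact Or.inl ⟨hyX, hy⟩
      · rintro (⟨hyX, hyn⟩ | ⟨u, hu, rfl⟩ | ⟨u, hu, rfl⟩)
        · refine ⟨hyX, fun h => hyn ?_⟩
          obtain ⟨u, hu, rfl⟩ := h
          exact ⟨u, ⟨by linarith [hu.1], hu.2.trans ht1⟩, rfl⟩
        · have huI : u ∈ Icc (-1 : ℝ) 1 := ⟨hu.1, by linarith [hu.2]⟩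
          refine ⟨hsub ⟨u, huI, rfl⟩, ?_⟩
          rintro ⟨v, hv, hvu⟩
          have := hi (hI ⟨hv.1.le, hv.2.le⟩) huI hvu
          rw [this] at hv
          linarith [hv.1, hu.2]
        · have huI : u ∈ Icc (-1 : ℝ) 1 := ⟨by linarith [hu.1], hu.2⟩
          refine ⟨hsub ⟨u, huI, rfl⟩, ?_⟩
          rintro ⟨v, hv, hvu⟩
          have := hi (hI ⟨hv.1.le, hv.2.le⟩) huI hvu
          rw [this] at hv
          linarith [hv.2, hu.1]
    rw [heq]
    refine hcl.union (IsClosed.union ?_ ?_)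
    · exact (isCompact_Icc.image_of_continuousOn
        (hc.mono (Icc_subset_Icc le_rfl (by linarith)))).isClosed
    · exact (isCompact_Icc.image_of_continuousOn
        (hc.mono (Icc_subset_Icc (by linarith) le_rfl))).isClosed
  have harc : IsArc (β '' Icc (-s) t) (β (-s)) (β t) := by
    have hpos : 0 < t + s := by linarith
    have hmaps : ∀ u ∈ Icc (0 : ℝ) 1, -s + (t + s) * u ∈ Icc (-s) t := by
      intro u hu
      have h1 : 0 ≤ (t + s) * u := mul_nonneg hpos.le hu.1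
      have h2 : (t + s) * u ≤ (t + s) * 1 := mul_le_mul_of_nonneg_left hu.2 hpos.le
      exact ⟨by linarith, by linarith⟩
    refine ⟨fun u => β (-s + (t + s) * u), ?_, ?_, ?_, ?_, ?_⟩
    · refine hβc.comp ?_ hmaps
      exact (continuous_const.add (continuous_const.mul continuous_id)).continuousOn
    · intro u hu v hv huv
      have h := hβi (hmaps u hu) (hmaps v hv) huv
      have h' : (t + s) * u = (t + s) * v := by linarith
      exact mul_left_cancel₀ hpos.ne' h'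
    · ext z
      constructor
      · rintro ⟨u, hu, rfl⟩
        refine ⟨(u + s) / (t + s), ⟨div_nonneg (by linarith [hu.1]) hpos.le, ?_⟩, ?_⟩
        · rw [div_le_one hpos]
          linarith [hu.2]
        · show β (-s + (t + s) * ((u + s) / (t + s))) = β u
          rw [mul_div_cancel₀ _ hpos.ne']
          congr 1
          ring
      · rintro ⟨u, hu, rfl⟩
        exact ⟨_, hmaps u hu, rfl⟩
    · show β (-s + (t + s) * 0) = β (-s)
      rw [mul_zero, add_zero]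
    · show β (-s + (t + s) * 1) = β t
      congr 1
      ring
  refine ⟨e, β (-s), β t, β '' Icc (-s) t,
    sphere 0 1 ∪ (closedBall 0 1 ∩ e ⁻¹' (X \ α '' Ioo (-s) t)), he, he0, harc, hσcb, ?_,
    ⟨0, hm0, hβ0⟩, ?_, subset_union_left, ?_, ?_, ?_, ?_⟩
  · ext z
    constructor
    · rintro ⟨h1, h2⟩
      exact hsph z h1 h2
    · rintro (rfl | rfl)
      · exact ⟨hβs, ⟨_, hms, rfl⟩⟩
      · exact ⟨hβt, ⟨_, hmt, rfl⟩⟩
  · refine (isCompact_sphere (0 : ℂ) 1).union ?_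
    exact (isCompact_closedBall (0 : ℂ) 1).inter_right (hclX.preimage he.continuous)
  · exact union_subset sphere_subset_closedBall inter_subset_left
  · ext z
    constructor
    · rintro ⟨h1 | ⟨-, h1⟩, h2⟩
      · exact hsph z h1 h2
      · obtain ⟨u, hu, rfl⟩ := h2
        rcases htri u hu with rfl | rfl | h
        · exact Or.inl rfl
        · exact Or.inr rfl
        · exact absurd ⟨u, h, (hβ u hu).symm⟩ h1.2
    · rintro (rfl | rfl)
      · exact ⟨Or.inl hβs, ⟨_, hms, rfl⟩⟩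
      · exact ⟨Or.inl hβt, ⟨_, hmt, rfl⟩⟩
  · rintro _ ⟨u, hu, rfl⟩
    rw [hβ u hu]
    exact hsub ⟨u, hI hu, rfl⟩
  · intro z hz hzX
    by_cases h : e z ∈ α '' Ioo (-s) t
    · obtain ⟨u, hu, hue⟩ := h
      right
      have hu' : u ∈ Icc (-s) t := ⟨hu.1.le, hu.2.le⟩
      refine ⟨u, hu', he.injective ?_⟩
      rw [hβ u hu', hue]
    · exact Or.inl (Or.inr ⟨hz, hzX, h⟩)

theorem free_arc (hM : Surf M) {X : Set M} (hX : IsClosed X) {x : M} (hx : ArcPt X x) :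
    ∃ (U : Set M) (a b : M), IsOpen U ∧ x ∈ U ∧ a ∉ X ∧ b ∉ X ∧
      (∀ y ∈ U \ X, y ∈ connectedComponentIn Xᶜ a ∨ y ∈ connectedComponentIn Xᶜ b) ∧
      ∀ y ∈ U ∩ X, y ∈ closure (connectedComponentIn Xᶜ a) ∧
        y ∈ closure (connectedComponentIn Xᶜ b) := by
  obtain ⟨e, p, q, σ, Y', he, he0, harc, hσ1, hS, h0σ, hY, hSY, hY1, hYσ, hσX, hX1⟩ :=
    local_plane hM hx
  obtain ⟨δ, hδ, hball, a, b, ha, hb, hcov, hlim⟩ :=
    free_plane harc hσ1 hS h0σ hY hSY hY1 hYσ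
  -- outside `X`
  have hnot : ∀ z ∈ closedBall (0 : ℂ) 1, z ∈ (Y' ∪ σ)ᶜ → e z ∉ X := by
    intro z hz hn hzX
    exact hn (hX1 z hz hzX)
  have hin : ∀ c ∈ ball (0 : ℂ) δ \ σ, c ∈ (Y' ∪ σ)ᶜ := by
    rintro c ⟨hc, hcσ⟩ (h | h)
    · exact (hball hc).2 h
    · exact hcσ h
  have hcomp : ∀ c ∈ ball (0 : ℂ) δ \ σ, e '' connectedComponentIn (Y' ∪ σ)ᶜ c ⊆
      connectedComponentIn Xᶜ (e c) := by
    intro c hc
    have hK : connectedComponentIn (Y' ∪ σ)ᶜ c ⊆ ball 0 1 :=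
      comp_ball (hSY.trans subset_union_left) (hball hc.1).1
    refine (isPreconnected_connectedComponentIn.image e
      he.continuous.continuousOn).subset_connectedComponentIn ?_ ?_
    · exact ⟨c, mem_connectedComponentIn (hin c hc), rfl⟩
    · rintro _ ⟨z, hz, rfl⟩
      exact hnot z (ball_subset_closedBall (hK hz)) (connectedComponentIn_subset _ _ hz)
  have hoff : ∀ c ∈ ball (0 : ℂ) δ \ σ, e c ∉ X := fun c hc =>
    hnot c (ball_subset_closedBall (hball hc.1).1) (hin c hc)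
  refine ⟨e '' ball 0 δ, e a, e b, he.isOpenMap _ isOpen_ball,
    ⟨0, mem_ball_self hδ, he0⟩, hoff a ha, hoff b hb, ?_, ?_⟩
  · rintro _ ⟨⟨z, hz, rfl⟩, hzX⟩
    have hzσ : z ∉ σ := fun h => hzX (hσX z h)
    rcases hcov z ⟨hz, hzσ⟩ with h | h
    · exact Or.inl (hcomp a ha ⟨z, h, rfl⟩)
    · exact Or.inr (hcomp b hb ⟨z, h, rfl⟩)
  · rintro _ ⟨⟨z, hz, rfl⟩, hzX⟩
    have hzσ : z ∈ σ := by
      rcases hX1 z (ball_subset_closedBall (hball hz).1) hzX with h | h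
      · exact absurd h (hball hz).2
      · exact h
    have hpush : ∀ c ∈ ball (0 : ℂ) δ \ σ,
        z ∈ closure (connectedComponentIn (Y' ∪ σ)ᶜ c ∩ ball 0 δ) →
        e z ∈ closure (connectedComponentIn Xᶜ (e c)) := by
      intro c hc h
      have h2 := image_closure_subset_closure_image he.continuous ⟨z, h, rfl⟩
      refine closure_mono ?_ h2
      exact (image_mono inter_subset_left).trans (hcomp c hc)
    exact ⟨hpush a ha (hlim z ⟨hz, hzσ⟩).1, hpush b hb (hlim z ⟨hz, hzσ⟩).2⟩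

end Pool.Agent.H61.PO
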