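import Pool.Agent.H61.PO.Theta
import Pool.Agent.H61.PO.Taut

/-!
# PO-08: planar duality

`comp_ball`: the component is preconnected, misses the sphere, and meets the ball; ball and complement of the closed ball are
open, disjoint and cover the complement of the sphere.
`dual`: let `U = connectedComponentIn Yᶜ p`: open (`ℂ` is locally connected), `U ⊆ ball 0 R`, and it is clopen in `Yᶜ`: the closure
of `U` is contained in `U ∪ Y`.  Suppose `q ∉ U`.  `h = th p + th q` is a cocycle on the open set `{p,q}ᶜ ⊇ Y`;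
`taut2` gives an open `W' ⊇ Y` and a primitive `s` of `h` on `W'`.  Let `g a b = h a b + s a + s b` if `a, b ∈ U`, and `g a b = 0`
otherwise.  `Coc {p}ᶜ g`: near `x ∈ U`, `x ≠ p` (and `x ≠ q`) all points are in `U` and `h` is a cocycle; near `x ∈ Y`:
`h = ds`, so `g = 0`; near `x ∉ U ∪ Y` there are no points of `U`, `g = 0`.
Small circle `sphere p ε`, `closedBall p ε ⊆ U` (so `q ∉ closedBall p ε`): there `g + th p = th q + ds` is a coboundary (`th_out`), so `g` is
not a coboundary on `sphere p ε` (`th_not_cob`).  Homotopy `H a t = p + (1 + t * T) • (a - p)` in `{p}ᶜ`, `T` so large that `H a 1` is outside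
`closedBall 0 R`, where `g = 0` (`U ⊆ ball 0 R`): `homot` shows that `g` is a coboundary on `sphere p ε`: contradiction.
`conn_of_cob`: from `dual` and `comp_ball` (all points are in one component of `Yᶜ`, which is contained in `ball 0 R \ Y`).
-/

namespace Pool.Agent.H61.PO

open Set Filter Topology Metric

theorem comp_ball {Y : Set ℂ} {R : ℝ} (hS : sphere 0 R ⊆ Y) {p : ℂ} (hp : p ∈ ball (0 : ℂ) R) :
    connectedComponentIn Yᶜ p ⊆ ball 0 R := by
  by_cases hpY : p ∈ Yᶜ
  · refine IsPreconnected.subset_left_of_subset_union (v := (closedBall (0 : ℂ) R)ᶜ) isOpen_ball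
      isClosed_closedBall.isOpen_compl ?_ ?_ ⟨p, mem_connectedComponentIn hpY, hp⟩
      isPreconnected_connectedComponentIn
    · rw [Set.disjoint_left]
      intro x hx hx'
      exact hx' (ball_subset_closedBall hx)
    · intro x hx
      have hxY : x ∉ Y := connectedComponentIn_subset Yᶜ p hx
      have hxS : x ∉ sphere (0 : ℂ) R := fun h => hxY (hS h)
      by_cases hxc : x ∈ closedBall (0 : ℂ) R
      · left
        rw [mem_ball]
        exact lt_of_le_of_ne (mem_closedBall.1 hxc) (fun h => hxS (mem_sphere.2 h))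
      · right
        exact hxc
  · rw [connectedComponentIn_eq_empty hpY]
    exact empty_subset _

private theorem dual_sep {Y : Set ℂ} (hY : IsClosed Y) {p x : ℂ} (hx : x ∉ Y)
    (hxU : x ∉ connectedComponentIn Yᶜ p) :
    ∃ V ∈ 𝓝 x, ∀ a ∈ V, a ∉ connectedComponentIn Yᶜ p := by
  refine ⟨connectedComponentIn Yᶜ x,
    (hY.isOpen_compl.connectedComponentIn).mem_nhds (mem_connectedComponentIn hx), ?_⟩
  intro a ha haU
  have h1 := connectedComponentIn_eq ha
  have h2 := connectedComponentIn_eq haU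
  apply hxU
  rw [h2, ← h1]
  exact mem_connectedComponentIn hx

private theorem dual_z1 (u v a b c : ZMod 2) : (u + a + b) + (v + b + c) = (u + v) + a + c := by
  revert u v a b c; decide

private theorem dual_z2 (a b : ZMod 2) : (a + b) + a + b = 0 := by
  revert a b; decide

private theorem dual_z3 (u v a b : ZMod 2) : (u + v + a + b) + v + (a + b) = u := by
  revert u v a b; decide

theorem dual {Y : Set ℂ} (hY : IsCompact Y) {R : ℝ} (hS : sphere 0 R ⊆ Y)
    (hR : Y ⊆ closedBall 0 R) {p q : ℂ} (hp : p ∈ ball 0 R \ Y) (hq : q ∈ ball 0 R \ Y)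
    (h : Cob Y (th p + th q)) : q ∈ connectedComponentIn Yᶜ p := by
  classical
  by_contra hqU
  have hYc : IsClosed Y := hY.isClosed
  have hUo : IsOpen (connectedComponentIn Yᶜ p) := hYc.isOpen_compl.connectedComponentIn
  have hpU : p ∈ connectedComponentIn Yᶜ p := mem_connectedComponentIn hp.2
  have hUb : connectedComponentIn Yᶜ p ⊆ ball 0 R := comp_ball hS hp.1
  -- the primitive on a neighbourhood of `Y`
  have hW : IsOpen (({p, q} : Set ℂ)ᶜ) := (Set.toFinite ({p, q} : Set ℂ)).isClosed.isOpen_compl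
  have hYW : Y ⊆ ({p, q} : Set ℂ)ᶜ := by
    intro x hx hx'
    rcases hx' with rfl | hx'
    · exact hp.2 hx
    · rw [mem_singleton_iff] at hx'
      subst hx'
      exact hq.2 hx
  have hh : Coc (({p, q} : Set ℂ)ᶜ) (th p + th q) := by
    refine ((th_coc p).mono ?_).add ((th_coc q).mono ?_)
    · intro x hx hx'
      exact hx (Or.inl hx')
    · intro x hx hx'
      exact hx (Or.inr hx')
  obtain ⟨W', hW'o, hYW', hW'W, s, hs⟩ := taut2 hYc hW hYW hh h
  obtain ⟨g, hg⟩ : ∃ g : ℂ → ℂ → ZMod 2, g = fun a b =>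
    if a ∈ connectedComponentIn Yᶜ p ∧ b ∈ connectedComponentIn Yᶜ p then
      (th p + th q) a b + s a + s b else 0 := ⟨_, rfl⟩
  have hg1 : ∀ a ∈ connectedComponentIn Yᶜ p, ∀ b ∈ connectedComponentIn Yᶜ p,
      g a b = (th p + th q) a b + s a + s b := by
    intro a ha b hb
    rw [hg]
    exact if_pos ⟨ha, hb⟩
  have hg0 : ∀ a b, a ∉ connectedComponentIn Yᶜ p ∨ b ∉ connectedComponentIn Yᶜ p →
      g a b = 0 := by
    intro a b hab
    rw [hg]
    exact if_neg (fun h' => hab.elim (fun h => h h'.1) (fun h => h h'.2))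
  have hcoc : Coc ({p}ᶜ) g := by
    intro x hx
    by_cases hxU : x ∈ connectedComponentIn Yᶜ p
    · have hxpq : x ∈ ({p, q} : Set ℂ)ᶜ := by
        intro hx'
        rcases hx' with hx' | hx'
        · exact hx hx'
        · rw [mem_singleton_iff] at hx'
          subst hx'
          exact hqU hxU
      obtain ⟨N, hN, hNc⟩ := hh x hxpq
      refine ⟨N ∩ connectedComponentIn Yᶜ p, inter_mem hN (hUo.mem_nhds hxU), ?_⟩
      have hin : ∀ a ∈ (N ∩ connectedComponentIn Yᶜ p) ∩ {p}ᶜ, a ∈ N ∩ ({p, q} : Set ℂ)ᶜ := by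
        rintro a ⟨⟨haN, haU⟩, hap⟩
        refine ⟨haN, ?_⟩
        intro hx'
        rcases hx' with hx' | hx'
        · exact hap hx'
        · rw [mem_singleton_iff] at hx'
          subst hx'
          exact hqU haU
      intro a ha b hb c hc
      rw [hg1 a ha.1.2 b hb.1.2, hg1 b hb.1.2 c hc.1.2, hg1 a ha.1.2 c hc.1.2,
        ← hNc a (hin a ha) b (hin b hb) c (hin c hc)]
      exact dual_z1 _ _ _ _ _
    · by_cases hxY : x ∈ Y
      · obtain ⟨N, hN, hNs⟩ := hs x (hYW' hxY)
        have hz : ∀ a ∈ N ∩ W', ∀ b ∈ N ∩ W', g a b = 0 := by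
          intro a ha b hb
          by_cases hab : a ∈ connectedComponentIn Yᶜ p ∧ b ∈ connectedComponentIn Yᶜ p
          · rw [hg1 a hab.1 b hab.2, hNs a ha b hb]
            exact dual_z2 _ _
          · exact hg0 a b (not_and_or.1 hab)
        refine ⟨N ∩ W', inter_mem hN (hW'o.mem_nhds (hYW' hxY)), ?_⟩
        intro a ha b hb c hc
        rw [hz a ha.1 b hb.1, hz b hb.1 c hc.1, hz a ha.1 c hc.1, add_zero]
      · obtain ⟨V, hV, hVU⟩ := dual_sep hYc hxY hxU
        refine ⟨V, hV, ?_⟩
        intro a ha b hb c hc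
        rw [hg0 a b (Or.inl (hVU a ha.1)), hg0 b c (Or.inl (hVU b hb.1)),
          hg0 a c (Or.inl (hVU a ha.1)), add_zero]
  -- the small circle
  obtain ⟨ε, hε, hεU⟩ := Metric.nhds_basis_closedBall.mem_iff.1 (hUo.mem_nhds hpU)
  have hqε : q ∉ closedBall p ε := fun h' => hqU (hεU h')
  have hnot : ¬ Cob (sphere p ε) g := by
    intro hc
    apply th_not_cob p hε
    have h1 : Cob (sphere p ε) (th q) := (th_out hqε).mono sphere_subset_closedBall
    have h2 : Cob (sphere p ε) (fun a b => s a + s b) :=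
      ⟨s, fun x _ => ⟨univ, univ_mem, fun a _ b _ => rfl⟩⟩
    refine ((hc.add h1).add h2).of_eqOn ?_
    intro a ha b hb
    have haU := hεU (sphere_subset_closedBall ha)
    have hbU := hεU (sphere_subset_closedBall hb)
    simp only [Pi.add_apply]
    rw [hg1 a haU b hbU]
    simp only [Pi.add_apply]
    exact dual_z3 _ _ _ _
  -- the homotopy
  apply hnot
  have hR0 : 0 < R := by
    have := mem_ball.1 hp.1
    exact lt_of_le_of_lt dist_nonneg this
  have hT0 : 0 ≤ (R + ‖p‖) / ε := by positivity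
  have hhom := homot (isCompact_sphere p ε) hcoc
    (fun (a : ℂ) (t : ℝ) => p + (1 + t * ((R + ‖p‖) / ε)) • (a - p)) (by fun_prop) (by
      intro y hy t ht hmem
      rw [mem_singleton_iff] at hmem
      have h1 : (1 + t * ((R + ‖p‖) / ε)) • (y - p) = 0 := by
        have := sub_eq_zero.2 hmem
        rw [add_sub_cancel_left] at this
        exact this
      rcases smul_eq_zero.1 h1 with h2 | h2
      · have : 0 ≤ t * ((R + ‖p‖) / ε) := mul_nonneg ht.1 hT0
        linarith
      · have h3 : dist y p = ε := mem_sphere.1 hy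
        rw [dist_eq_norm, h2, norm_zero] at h3
        linarith)
  refine hhom.of_eqOn ?_
  intro a ha b hb
  have hout : ∀ a ∈ sphere p ε, p + (1 + 1 * ((R + ‖p‖) / ε)) • (a - p) ∉
      connectedComponentIn Yᶜ p := by
    intro a ha hmem
    have h1 := hUb hmem
    rw [mem_ball, dist_zero_right] at h1
    have h2 : ‖(1 + 1 * ((R + ‖p‖) / ε)) • (a - p)‖ = ε + (R + ‖p‖) := by
      have h3 : ‖a - p‖ = ε := by rw [← dist_eq_norm]; exact mem_sphere.1 ha
      rw [norm_smul, h3, Real.norm_of_nonneg (by linarith)]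
      field_simp
    have h4 : ‖(1 + 1 * ((R + ‖p‖) / ε)) • (a - p)‖ ≤
        ‖p + (1 + 1 * ((R + ‖p‖) / ε)) • (a - p)‖ + ‖p‖ := by
      have h5 := norm_sub_le (p + (1 + 1 * ((R + ‖p‖) / ε)) • (a - p)) p
      rw [add_sub_cancel_left] at h5
      exact h5
    linarith
  show g (p + (1 + 0 * ((R + ‖p‖) / ε)) • (a - p)) (p + (1 + 0 * ((R + ‖p‖) / ε)) • (b - p))
    + g (p + (1 + 1 * ((R + ‖p‖) / ε)) • (a - p)) (p + (1 + 1 * ((R + ‖p‖) / ε)) • (b - p))
    = g a b
  rw [hg0 _ _ (Or.inl (hout a ha)), add_zero, zero_mul, add_zero, one_smul, one_smul,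
    add_sub_cancel, add_sub_cancel]

theorem conn_of_cob {Y : Set ℂ} (hY : IsCompact Y) {R : ℝ} (hS : sphere 0 R ⊆ Y)
    (hR : Y ⊆ closedBall 0 R)
    (h : ∀ p ∈ ball 0 R \ Y, ∀ q ∈ ball 0 R \ Y, Cob Y (th p + th q)) :
    IsPreconnected (ball 0 R \ Y) := by
  rcases (ball (0 : ℂ) R \ Y).eq_empty_or_nonempty with he | ⟨p, hp⟩
  · rw [he]
    exact isPreconnected_empty
  · have he : ball (0 : ℂ) R \ Y = connectedComponentIn Yᶜ p := by
      apply Subset.antisymm
      · intro q hq
        exact dual hY hS hR hp hq (h p hp q hq)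
      · intro q hq
        exact ⟨comp_ball hS hp.1 hq, connectedComponentIn_subset Yᶜ p hq⟩
    rw [he]
    exact isPreconnected_connectedComponentIn

end Pool.Agent.H61.PO
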