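import Pool.Agent.H61.PO.Ext
import Pool.Agent.H61.PO.Discs

/-!
# PO-12: a class which is trivial on the circle disconnects

`disconn`: suppose `U = ball 0 R \ Y` is preconnected.  If `U` is empty then `Y = closedBall 0 R` (`closure (ball 0 R) = closedBall 0 R ⊆ Y`) is
trivial (`triv_star`), contradiction.
Otherwise take `c ∈ U`, `r > 0` with `closedBall c r ⊆ U`, `e z = c + r * z` (`affine_disc`).
`ext_main` (with `surf_complex`) with `Z = closedBall 0 R`: `Z \ U = Y`.  So there is `g'` with `Coc (closedBall 0 R \ ball c r) g'` and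
`Cob Y (g + g')`; `g'` is a coboundary on the circle, so by `ann_triv` on `closedBall 0 R \ ball c r ⊇ Y`; so `Cob Y g`: contradiction.
-/

namespace Pool.Agent.H61.PO

open Set Filter Topology Metric

theorem disconn {Y : Set ℂ} (hY : IsCompact Y) {R : ℝ} (h0 : 0 < R) (hS : sphere 0 R ⊆ Y)
    (hR : Y ⊆ closedBall 0 R) {g : ℂ → ℂ → ZMod 2} (hg : Coc Y g) (hgS : Cob (sphere 0 R) g)
    (hn : ¬ Cob Y g) : ¬ IsPreconnected (ball 0 R \ Y) := by
  intro hc
  have hU : IsOpen (ball (0 : ℂ) R \ Y) := isOpen_ball.sdiff hY.isClosed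
  have hUZ : ball (0 : ℂ) R \ Y ⊆ closedBall 0 R := sdiff_subset.trans ball_subset_closedBall
  have hZU : closedBall (0 : ℂ) R \ (ball 0 R \ Y) = Y := by
    ext z
    constructor
    · rintro ⟨h1, h2⟩
      by_contra h3
      apply h2
      refine ⟨?_, h3⟩
      rw [mem_closedBall] at h1
      rw [mem_ball]
      refine lt_of_le_of_ne h1 fun h4 => h3 (hS ?_)
      exact mem_sphere.2 h4
    · intro h1
      exact ⟨hR h1, fun h2 => h2.2 h1⟩
  rcases (ball (0 : ℂ) R \ Y).eq_empty_or_nonempty with hemp | ⟨c, hcU⟩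
  · rw [hemp, sdiff_empty] at hZU
    apply hn
    have ht : Triv (closedBall (0 : ℂ) R) := triv_star (isCompact_closedBall 0 R) (o := 0)
      (mem_closedBall_self h0.le)
      ((convex_closedBall (0 : ℂ) R).starConvex (mem_closedBall_self h0.le))
    rw [← hZU] at hg ⊢
    exact ht g hg
  · obtain ⟨r, hr, hrU⟩ := Metric.nhds_basis_closedBall.mem_iff.1 (hU.mem_nhds hcU)
    obtain ⟨h1, h2, h3, h4⟩ := affine_disc c hr
    obtain ⟨g', hg', hgg⟩ := ext_main surf_complex (isCompact_closedBall (0 : ℂ) R) hU hUZ hc h1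
      (by rw [h3]; exact hrU) (g := g) (by rw [hZU]; exact hg)
    rw [h2] at hg'
    rw [hZU] at hgg
    have hcb : closedBall c r ⊆ ball (0 : ℂ) R := hrU.trans sdiff_subset
    have hYs : Y ⊆ closedBall 0 R \ ball c r := fun z hz =>
      ⟨hR hz, fun hzb => (hrU (ball_subset_closedBall hzb)).2 hz⟩
    have hS' : Cob (sphere 0 R) g' := (Cob.congr (hgg.mono hS)).1 hgS
    have h5 := ann_triv hr hcb hg' hS'
    exact hn ((Cob.congr hgg).2 (h5.mono hYs))

end Pool.Agent.H61.PO
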