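import Pool.Agent.H61.PO.Homot

/-!
# PO-09: radial retraction of a disc minus a point onto the circle; cocycles on an annulus

`radial`: `K = closedBall 0 R` translated by `-o` is a convex bounded neighbourhood of `0`; `γ a = gauge (closedBall (-o) R) (a - o)` is
continuous (`continuous_gauge`), positive for `a ≠ o`, and `π a = o + (γ a)⁻¹ • (a - o)` (`gauge = 1` exactly on the frontier: convex, closed, `0` interior;
or solve the quadratic equation `‖o + τ (a - o)‖ = R` for the positive root and use its continuity).  For `a ∈ closedBall 0 R`: `γ a ≤ 1`.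
`ann_triv`: `A = closedBall 0 R \ ball c r` is compact, `H a t = (1 - t) • a + t • π a`, `π` from `c`: it is `c + (1 - t + t τ) • (a - c)` with `τ ≥ 1`,
so `dist (H a t) c ≥ dist a c ≥ r` and it is in the closed ball (convex).  `homot`: `g` and the pull back of `g` by `π` differ by a coboundary on `A`, and
the pull back is a coboundary (`Cob.pullback` from `sphere 0 R`).
-/

namespace Pool.Agent.H61.PO

open Set Filter Topology Metric

private noncomputable def radialD (R : ℝ) (o a : ℂ) : ℝ :=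
  (inner ℝ o (a - o)) ^ 2 + ‖a - o‖ ^ 2 * (R ^ 2 - ‖o‖ ^ 2)

private noncomputable def radialT (R : ℝ) (o a : ℂ) : ℝ :=
  (-(inner ℝ o (a - o)) + Real.sqrt (radialD R o a)) / ‖a - o‖ ^ 2

private theorem radial_expand (o v : ℂ) (τ : ℝ) :
    ‖o + τ • v‖ ^ 2 = ‖o‖ ^ 2 + 2 * τ * inner ℝ o v + τ ^ 2 * ‖v‖ ^ 2 := by
  rw [norm_add_sq_real, inner_smul_right, norm_smul, Real.norm_eq_abs, mul_pow, sq_abs]
  ring

theorem radial {R : ℝ} {o : ℂ} (ho : o ∈ ball (0 : ℂ) R) :
    ∃ π : ℂ → ℂ, ContinuousOn π ({o}ᶜ) ∧ (∀ a, a ≠ o → π a ∈ sphere (0 : ℂ) R) ∧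
      (∀ a ∈ sphere (0 : ℂ) R, π a = a) ∧
      ∀ a, a ≠ o → a ∈ closedBall (0 : ℂ) R → ∃ τ : ℝ, 1 ≤ τ ∧ π a = o + τ • (a - o) := by
  rw [mem_ball_zero_iff] at ho
  have hR : 0 < R := (norm_nonneg o).trans_lt ho
  have hC : 0 < R ^ 2 - ‖o‖ ^ 2 := by nlinarith [norm_nonneg o]
  have hA : ∀ a, a ≠ o → 0 < ‖a - o‖ ^ 2 := by
    intro a ha
    have : 0 < ‖a - o‖ := norm_pos_iff.mpr (sub_ne_zero.mpr ha)
    positivity
  have hD : ∀ a, 0 ≤ radialD R o a := by
    intro a
    unfold radialD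
    positivity
  have hmulT : ∀ a, a ≠ o → ‖a - o‖ ^ 2 * radialT R o a =
      -(inner ℝ o (a - o)) + Real.sqrt (radialD R o a) := by
    intro a ha
    unfold radialT
    rw [mul_div_cancel₀]
    exact (hA a ha).ne'
  have hle : ∀ a, a ≠ o → a ∈ closedBall (0 : ℂ) R → 1 ≤ radialT R o a := by
    intro a ha haR
    rw [mem_closedBall_zero_iff] at haR
    have h1 := radial_expand o (a - o) 1
    rw [one_smul, add_sub_cancel] at h1
    have h2 : ‖a‖ ^ 2 ≤ R ^ 2 := by nlinarith [norm_nonneg a]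
    have h3 := hA a ha
    have h4 : ‖a - o‖ ^ 2 + inner ℝ o (a - o) ≤ Real.sqrt (radialD R o a) := by
      apply Real.le_sqrt_of_sq_le
      unfold radialD
      nlinarith
    unfold radialT
    rw [le_div_iff₀ h3]
    linarith
  have heq : ∀ a ∈ sphere (0 : ℂ) R, radialT R o a = 1 := by
    intro a haR
    rw [mem_sphere_zero_iff_norm] at haR
    have ha : a ≠ o := by
      rintro rfl
      exact ho.ne haR
    have h1 := radial_expand o (a - o) 1
    rw [one_smul, add_sub_cancel, haR] at h1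
    have h3 := hA a ha
    have h4 : Real.sqrt (radialD R o a) = ‖a - o‖ ^ 2 + inner ℝ o (a - o) := by
      have h5 : radialD R o a = (‖a - o‖ ^ 2 + inner ℝ o (a - o)) ^ 2 := by
        unfold radialD
        have h6 : R ^ 2 - ‖o‖ ^ 2 = 2 * inner ℝ o (a - o) + ‖a - o‖ ^ 2 := by linarith
        rw [h6]
        ring
      rw [h5]
      exact Real.sqrt_sq (by linarith)
    unfold radialT
    rw [h4]
    rw [div_eq_one_iff_eq h3.ne']
    ring
  refine ⟨fun a => o + radialT R o a • (a - o), ?_, ?_, ?_, ?_⟩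
  · have hT : ContinuousOn (radialT R o) ({o}ᶜ) := by
      unfold radialT radialD
      refine ContinuousOn.div (Continuous.continuousOn (by fun_prop))
        (Continuous.continuousOn (by fun_prop)) ?_
      intro a ha
      exact (hA a ha).ne'
    exact continuousOn_const.add (hT.smul (Continuous.continuousOn (by fun_prop)))
  · intro a ha
    rw [mem_sphere_zero_iff_norm]
    have h1 := radial_expand o (a - o) (radialT R o a)
    have h2 := hmulT a ha
    have h3 := hA a ha
    have h4 := Real.sq_sqrt (hD a)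
    have h5 : (‖a - o‖ ^ 2 * radialT R o a + inner ℝ o (a - o)) ^ 2 = radialD R o a := by
      rw [h2]
      have h6 : (-(inner ℝ o (a - o)) + Real.sqrt (radialD R o a) + inner ℝ o (a - o)) ^ 2 =
          Real.sqrt (radialD R o a) ^ 2 := by ring
      rw [h6, h4]
    have h6 : ‖a - o‖ ^ 2 * (‖a - o‖ ^ 2 * radialT R o a ^ 2 +
        2 * radialT R o a * inner ℝ o (a - o)) = ‖a - o‖ ^ 2 * (R ^ 2 - ‖o‖ ^ 2) := by
      unfold radialD at h5
      linarith
    have h7 := mul_left_cancel₀ h3.ne' h6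
    have h8 : ‖o + radialT R o a • (a - o)‖ ^ 2 = R ^ 2 := by
      rw [h1]
      linarith
    have h9 : ‖o + radialT R o a • (a - o)‖ = R := by
      have := abs_eq_abs.mpr (sq_eq_sq_iff_eq_or_eq_neg.mp h8)
      rwa [abs_of_nonneg (norm_nonneg _), abs_of_pos hR] at this
    exact h9
  · intro a ha
    show o + radialT R o a • (a - o) = a
    rw [heq a ha, one_smul, add_sub_cancel]
  · intro a ha haR
    exact ⟨radialT R o a, hle a ha haR, rfl⟩

theorem ann_triv {R r : ℝ} {c : ℂ} (hr : 0 < r) (hc : closedBall c r ⊆ ball (0 : ℂ) R)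
    {g : ℂ → ℂ → ZMod 2} (hg : Coc (closedBall 0 R \ ball c r) g) (hS : Cob (sphere 0 R) g) :
    Cob (closedBall 0 R \ ball c r) g := by
  have hcR : c ∈ ball (0 : ℂ) R := hc (mem_closedBall_self hr.le)
  obtain ⟨π, hπc, hπs, hπe, hπt⟩ := radial hcR
  have hne : ∀ a ∈ closedBall (0 : ℂ) R \ ball c r, a ≠ c := by
    rintro a ha rfl
    exact ha.2 (mem_ball_self hr)
  have hcomp : IsCompact (closedBall (0 : ℂ) R \ ball c r) :=
    (isCompact_closedBall _ _).diff isOpen_ball
  have hπA : ContinuousOn π (closedBall (0 : ℂ) R \ ball c r) :=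
    hπc.mono fun a ha => hne a ha
  have h1 := homot hcomp hg (fun a t => (1 - t) • a + t • π a) (by
    have h2 : ContinuousOn (fun p : ℂ × ℝ => π p.1)
        ((closedBall (0 : ℂ) R \ ball c r) ×ˢ Icc (0 : ℝ) 1) :=
      hπA.comp continuousOn_fst fun p hp => hp.1
    have h3 : ContinuousOn (fun p : ℂ × ℝ => (1 - p.2) • p.1)
        ((closedBall (0 : ℂ) R \ ball c r) ×ˢ Icc (0 : ℝ) 1) :=
      Continuous.continuousOn (by fun_prop)
    have h4 : ContinuousOn (fun p : ℂ × ℝ => p.2)
        ((closedBall (0 : ℂ) R \ ball c r) ×ˢ Icc (0 : ℝ) 1) :=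
      Continuous.continuousOn (by fun_prop)
    exact h3.add (h4.smul h2)) (by
    intro a ha t ht
    obtain ⟨τ, hτ, hτe⟩ := hπt a (hne a ha) ha.1
    constructor
    · have h3 : π a ∈ closedBall (0 : ℂ) R := sphere_subset_closedBall (hπs a (hne a ha))
      exact (convex_closedBall (0 : ℂ) R) ha.1 h3 (sub_nonneg.2 ht.2) ht.1 (sub_add_cancel 1 t)
    · intro h4
      apply ha.2
      rw [mem_ball, dist_eq_norm] at h4 ⊢
      have h5 : (1 - t) • a + t • π a - c = (1 - t + t * τ) • (a - c) := by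
        rw [hτe]
        simp only [smul_add, smul_sub, sub_smul, add_smul, mul_smul, one_smul]
        abel
      rw [h5, norm_smul, Real.norm_eq_abs] at h4
      have h6 : 1 ≤ 1 - t + t * τ := by nlinarith [ht.1]
      have h7 : 1 ≤ |1 - t + t * τ| := h6.trans (le_abs_self _)
      refine lt_of_le_of_lt ?_ h4
      nlinarith [norm_nonneg (a - c)])
  have h2 : Cob (closedBall (0 : ℂ) R \ ball c r) (g + fun a b => g (π a) (π b)) := by
    refine h1.of_eqOn ?_
    intro a _ b _
    show g ((1 - 0 : ℝ) • a + (0 : ℝ) • π a) ((1 - 0 : ℝ) • b + (0 : ℝ) • π b) +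
      g ((1 - 1 : ℝ) • a + (1 : ℝ) • π a) ((1 - 1 : ℝ) • b + (1 : ℝ) • π b) =
      g a b + g (π a) (π b)
    simp only [sub_zero, one_smul, zero_smul, add_zero, sub_self, zero_add]
  have h3 : Cob (closedBall (0 : ℂ) R \ ball c r) (fun a b => g (π a) (π b)) :=
    hS.pullback hπA fun a ha => hπs a (hne a ha)
  exact (Cob.congr h2).2 h3

end Pool.Agent.H61.PO
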