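import Pool.Agent.H40.PC.Two
import Pool.Agent.H40.PC.Sup
import Pool.Agent.H40.PC.Scc
import Pool.Agent.H40.PC.Rbc

/-!
# Interface to the convexity part (part C): facts on faces of compact convex sets in finite dimension

`IsFace.trans`, `IsFace.inter` are in `Pool/Agent/H40/PC/Bas.lean`.
-/

namespace Pool.Agent.H61.PO

open Set Filter Topology

variable {E : Type*} [NormedAddCommGroup E] [NormedSpace ℝ E] [FiniteDimensional ℝ E]
  {K F G A B : Set E} {x y : E}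

omit [FiniteDimensional ℝ E] in
theorem IsFace.refl (hc : Convex ℝ K) (hk : IsCompact K) (hn : K.Nonempty) : IsFace K K :=
  ⟨IsExtreme.refl ℝ K, hc, hk, hn⟩

omit [FiniteDimensional ℝ E] in
theorem IsFace.subset (h : IsFace K F) : F ⊆ K := h.sub

omit [FiniteDimensional ℝ E] in
theorem IsFace.of_subset (hF : IsFace K F) (hG : IsFace K G) (h : G ⊆ F) : IsFace F G :=
  hG.mono hF.sub h

omit [FiniteDimensional ℝ E] in
theorem IsFace.exposed (hc : Convex ℝ K) (hk : IsCompact K) (z : E →L[ℝ] ℝ) {m : ℝ}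
    (hz : ∀ x ∈ K, z x ≤ m) (hn : ∃ x ∈ K, z x = m) : IsFace K (K ∩ {x | z x = m}) :=
  Pool.Agent.H40.PC.isFace_max ⟨hc, hk, hn.imp fun _ h => h.1⟩ hz hn

/-- a proper face lies in a supporting hyperplane which does not contain `K` -/
theorem IsFace.supp (hc : Convex ℝ K) (hF : IsFace K F) (hne : F ≠ K) :
    ∃ (z : E →L[ℝ] ℝ) (m : ℝ), (∀ x ∈ K, z x ≤ m) ∧ (∀ x ∈ F, z x = m) ∧ ∃ x ∈ K, z x < m := by
  obtain ⟨y, hy⟩ := Pool.Agent.H40.PC.ri_nonempty hF.2.1 hF.2.2.2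
  have hyF : y ∈ F := Pool.Agent.H40.PC.ri_sub hy
  have hyK : y ∈ K := hF.sub hyF
  have hyr : y ∉ ri K := fun h => hne (Subset.antisymm hF.sub
    (Pool.Agent.H40.PC.sub_of_ri hF subset_rfl hc h hyF))
  obtain ⟨η, h1, h2⟩ := Pool.Agent.H40.PC.exists_supp' hc hyK hyr
  exact ⟨η, η y, h1, Pool.Agent.H40.PC.eq_of_ri hF.2.1 hy (fun x hx => h1 x (hF.sub hx)) rfl, h2⟩

theorem dimc_mono (h : A ⊆ B) : dimc A ≤ dimc B := Pool.Agent.H40.PC.dimc_mono h

omit [FiniteDimensional ℝ E] in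
theorem dimc_singleton (x : E) : dimc ({x} : Set E) = 0 := by
  unfold dimc
  rw [vectorSpan_singleton, finrank_bot]

theorem IsFace.dim_lt (hc : Convex ℝ K) (hF : IsFace K F) (hne : F ≠ K) : dimc F < dimc K := by
  obtain ⟨z, m, -, h2, x, hx, h3⟩ := IsFace.supp hc hF hne
  exact Pool.Agent.H40.PC.dimc_lt hF.sub hF.2.2.2 h2 ⟨x, hx, ne_of_lt h3⟩

omit [FiniteDimensional ℝ E] in
theorem IsFace.of_ext (hx : x ∈ K.extremePoints ℝ) : IsFace K {x} :=
  Pool.Agent.H40.PC.isFace_singleton.2 hx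

theorem IsFace.dim_zero (hF : IsFace K F) (h : dimc F = 0) :
    ∃ x ∈ K.extremePoints ℝ, F = {x} := by
  obtain ⟨x, rfl⟩ := Pool.Agent.H40.PC.dimc_zero h hF.2.2.2
  exact ⟨x, Pool.Agent.H40.PC.isFace_singleton.1 hF, rfl⟩

theorem IsFace.ext_eq (hF : IsFace K F) : F.extremePoints ℝ = F ∩ K.extremePoints ℝ :=
  Pool.Agent.H40.PC.ext_face hF

theorem IsFace.dim_one (hF : IsFace K F) (h : dimc F = 1) :
    ∃ x y, x ∈ K.extremePoints ℝ ∧ y ∈ K.extremePoints ℝ ∧ x ≠ y ∧ F = segment ℝ x y := by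
  obtain ⟨x, y, hxy, h1, h2⟩ := Pool.Agent.H40.PC.edge_eq hF.body h
  rw [hF.ext_eq] at h2
  have hx : x ∈ F ∩ K.extremePoints ℝ := by rw [h2]; exact mem_insert _ _
  have hy : y ∈ F ∩ K.extremePoints ℝ := by rw [h2]; exact mem_insert_of_mem _ rfl
  exact ⟨x, y, hx.2, hy.2, hxy, h1⟩

/-- Minkowski (finite dimensional Krein-Milman, without closure) -/
theorem minkowski (hc : Convex ℝ K) (hk : IsCompact K) :
    convexHull ℝ (K.extremePoints ℝ) = K := by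
  rcases K.eq_empty_or_nonempty with rfl | hn
  · rw [extremePoints_empty, convexHull_empty]
  · exact Pool.Agent.H40.PC.hull_ext ⟨hc, hk, hn⟩

omit [FiniteDimensional ℝ E] in
theorem ext_of_conv (hc : Convex ℝ K) (hx : x ∈ K.extremePoints ℝ) (hA : A ⊆ K)
    (h : x ∈ convexHull ℝ A) : x ∈ A := Pool.Agent.H40.PC.ext_mem_of_hull hc hx hA h

/-- the smallest face containing `y` -/
def mf (K : Set E) (y : E) : Set E := ⋂₀ {F | IsFace K F ∧ y ∈ F}

theorem mf_face (hc : Convex ℝ K) (hk : IsCompact K) (hy : y ∈ K) : IsFace K (mf K y) :=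
  Pool.Agent.H40.PC.mface_isFace ⟨hc, hk, y, hy⟩ hy

omit [FiniteDimensional ℝ E] in
theorem mem_mf : y ∈ mf K y := fun _ h => h.2

omit [FiniteDimensional ℝ E] in
theorem mf_min (hF : IsFace K F) (hy : y ∈ F) : mf K y ⊆ F := fun _ h => h _ ⟨hF, hy⟩

theorem mf_of_face (hc : Convex ℝ K) (hk : IsCompact K) (hF : IsFace K F) (hy : y ∈ F) :
    mf F y = mf K y := Pool.Agent.H40.PC.mface_face hF hy

/-- a supporting hyperplane through `y` contains `mf K y` -/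
theorem mf_supp (hc : Convex ℝ K) (hk : IsCompact K) (hy : y ∈ K) (z : E →L[ℝ] ℝ) {m : ℝ}
    (hz : ∀ x ∈ K, z x ≤ m) (hzy : z y = m) : ∀ x ∈ mf K y, z x = m := by
  intro x hx
  rw [← hzy]
  exact Pool.Agent.H40.PC.mface_max ⟨hc, hk, y, hy⟩ hy (fun v hv => hzy ▸ hz v hv) x hx

theorem ri_iff (hc : Convex ℝ K) (hk : IsCompact K) : y ∈ ri K ↔ y ∈ K ∧ mf K y = K := by
  constructor
  · intro h
    have hy : y ∈ K := Pool.Agent.H40.PC.ri_sub h
    exact ⟨hy, Pool.Agent.H40.PC.mface_eq_of_ri (IsFace.refl hc hk ⟨y, hy⟩) h⟩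
  · rintro ⟨hy, h⟩
    have h1 := Pool.Agent.H40.PC.mem_ri_mface ⟨hc, hk, y, hy⟩ hy
    have h2 : Pool.Agent.H40.PC.mface K y = K := h
    rwa [h2] at h1

theorem rb_iff (hc : Convex ℝ K) (hk : IsCompact K) : y ∈ rb K ↔ y ∈ K ∧ mf K y ≠ K := by
  rw [Pool.Agent.H40.PC.rb_eq hk.isClosed, Set.mem_sdiff, ri_iff hc hk]
  tauto

theorem rb_compact (hk : IsCompact K) : IsCompact (rb K) := by
  have h1 : rb K ⊆ K := by
    rw [Pool.Agent.H40.PC.rb_eq hk.isClosed]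
    exact sdiff_subset
  have h2 : IsClosed (rb K) :=
    isClosed_intrinsicFrontier (AffineSubspace.closed_of_finiteDimensional _)
  exact hk.of_isClosed_subset h2 h1

theorem nonempty_of_two (hd : dimc F = 2) : F.Nonempty := by
  rw [Set.nonempty_iff_ne_empty]
  rintro rfl
  unfold dimc at hd
  rw [vectorSpan_empty, finrank_bot] at hd
  exact absurd hd (by norm_num)

/-- the relative boundary of a 2-dimensional compact convex set is a simple closed curve -/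
theorem two_scc (hc : Convex ℝ F) (hk : IsCompact F) (hd : dimc F = 2) : SCC (rb F) :=
  Pool.Agent.H40.PC.scc_rb ⟨hc, hk, nonempty_of_two hd⟩ hd

theorem two_rb_conn (hc : Convex ℝ F) (hk : IsCompact F) (hd : dimc F = 2) {a : Set E}
    (ha : IsFace F a) (hne : a ≠ F) : IsPreconnected (rb F \ a) :=
  (Pool.Agent.H40.PC.rb_conn ⟨hc, hk, nonempty_of_two hd⟩ hd.ge (Or.inr ⟨ha, hne⟩)).isPreconnected

theorem two_inter (hF : IsFace K F) (hG : IsFace K G) (hF2 : dimc F = 2) (hG2 : dimc G = 2)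
    (hne : F ≠ G) : F ∩ G = rb F ∩ rb G ∧ ((F ∩ G).Nonempty →
      IsFace K (F ∩ G) ∧ IsFace F (F ∩ G) ∧ IsFace G (F ∩ G) ∧ dimc (F ∩ G) ≤ 1 ∧
        F ∩ G ≠ F ∧ F ∩ G ≠ G) := by
  obtain ⟨h1, h2, h3⟩ := Pool.Agent.H40.PC.inter_dim hF hG (hF2.trans hG2.symm)
    (by rw [hF2]; norm_num) hne
  have key : (F ∩ G).Nonempty →
      IsFace K (F ∩ G) ∧ IsFace F (F ∩ G) ∧ IsFace G (F ∩ G) ∧ dimc (F ∩ G) ≤ 1 ∧
        F ∩ G ≠ F ∧ F ∩ G ≠ G := by
    intro hn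
    have h4 := hF.inter hG hn
    exact ⟨h4, h4.mono hF.sub inter_subset_left, h4.mono hG.sub inter_subset_right,
      by rw [hF2] at h3; omega, h1, h2⟩
  refine ⟨Subset.antisymm ?_ ?_, key⟩
  · intro z hz
    obtain ⟨-, k2, k3, -, k5, k6⟩ := key ⟨z, hz⟩
    exact ⟨Pool.Agent.H40.PC.face_sub_rb hF.body k2 k5 hz,
      Pool.Agent.H40.PC.face_sub_rb hG.body k3 k6 hz⟩
  · rintro z ⟨hz1, hz2⟩
    exact ⟨Pool.Agent.H40.PC.rb_sub hF.body hz1, Pool.Agent.H40.PC.rb_sub hG.body hz2⟩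

end Pool.Agent.H61.PO
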