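import Mathlib

/-!
# PO-31: a locally injective function with connected sublevel sets is injective

`T` compact Hausdorff, `g : T → ℝ` continuous, locally injective, `{g ≤ s}` preconnected for all `s`.  Then `g` is injective.
Proof.  `T` is preconnected (`s` large).  Let `B = {s | ∃ p ≠ q, g p = g q ∧ g p = s}` and suppose it is nonempty; `s0 = sInf B` (`B` is bounded below, `T` compact).
So `g` is injective on `{g < s0}`.
(1) the fibre over `s0` is finite (compact and discrete, as `g` is locally injective); it has at least one point: `s0 ∈ B`, or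
there are `p_n ≠ q_n` with `g p_n = g q_n = s_n → s0`, whose limit points are in the fibre.
(2) the fibre over `s0` does not consist of one point `p`: otherwise `s0 ∉ B`, and `p_n, q_n → p` (compactness), contradiction to local injectivity at `p`.
(3) the fibre is not `{p_1, .., p_k}` with `k ≥ 2`: each `p_i` is a limit of `A = {g < s0}`: otherwise `{p_i}` is open and closed in `{g ≤ s0}`, which is
preconnected and contains another point `p_j`.  In particular `A` is nonempty.  Let `m = min g`; `m < s0`.  `g` maps `A` bijectively onto `[m, s0)`: every value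
`v ∈ [m, s0)` is taken: the image of the preconnected set `{g ≤ s0}` is an interval.  And for `m ≤ u < s0` the set `A_u = {u < g < s0}` is preconnected:
it is the increasing union over `w ∈ (u, s0)` of ... simplest: for `u < w < s0` the set `{u ≤ g ≤ w}` is compact and `g` restricted to it is a continuous
bijection onto `[u,w]`, so a homeomorphism, so it is preconnected; directed union over `w ↑ s0` gives `{u ≤ g < s0}` preconnected.
Take disjoint open `N ∋ p_1` and `N' ⊇ {p_2, .., p_k}`; by compactness there is `u < s0` with `{u ≤ g ≤ s0} ⊆ N ∪ N'`.  `{u ≤ g < s0}` is preconnected, so it is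
contained in `N` or in `N'`; but `p_1` and `p_2` are both limits of it (limits of `A`, and `g → s0`).  Contradiction.
-/

namespace Pool.Agent.H61.PO

open Set Filter Topology

section aux

variable {T : Type*} [TopologicalSpace T] [CompactSpace T] {g : T → ℝ}

/-- slices of a compact sublevel set on which `g` is injective are preconnected -/
private theorem PB_slice (hc : Continuous g) {u w : ℝ} (hi : InjOn g {x | g x ≤ w})
    (hs : IsPreconnected {x | g x ≤ w}) : IsPreconnected {x | g x ≤ w ∧ u < g x} := by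
  have hcl : IsClosed {x | g x ≤ w} := isClosed_le hc continuous_const
  have : CompactSpace {x | g x ≤ w} := isCompact_iff_compactSpace.1 hcl.isCompact
  let f : {x | g x ≤ w} → ℝ := fun x => g x.1
  have hf : Continuous f := hc.comp continuous_subtype_val
  have hfi : Function.Injective f := fun a b h => Subtype.ext (hi a.2 b.2 h)
  have h1 : IsPreconnected (g '' {x | g x ≤ w} ∩ Ioi u) := by
    have h2 : OrdConnected (g '' {x | g x ≤ w}) := (hs.image g hc.continuousOn).ordConnected
    exact (h2.inter ordConnected_Ioi).isPreconnected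
  have h3 : g '' {x | g x ≤ w} ∩ Ioi u ⊆ range f := by
    rintro _ ⟨⟨x, hx, rfl⟩, -⟩
    exact ⟨⟨x, hx⟩, rfl⟩
  have h4 := h1.preimage_of_isClosedMap hfi hf.isClosedMap h3
  have h5 := h4.image _ continuous_subtype_val.continuousOn
  have h6 : (Subtype.val : {x | g x ≤ w} → T) '' (f ⁻¹' (g '' {x | g x ≤ w} ∩ Ioi u)) =
      {x | g x ≤ w ∧ u < g x} := by
    ext x
    constructor
    · rintro ⟨y, hy, rfl⟩
      exact ⟨y.2, hy.2⟩
    · rintro ⟨hx, hu⟩
      exact ⟨⟨x, hx⟩, ⟨⟨x, hx, rfl⟩, hu⟩, rfl⟩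
  rw [h6] at h5
  exact h5

private theorem PB_open (hc : Continuous g) {s0 u : ℝ}
    (hmin : ∀ a b, g a = g b → a ≠ b → s0 ≤ g a) (hs : ∀ s, IsPreconnected {x | g x ≤ s}) :
    IsPreconnected {x | u < g x ∧ g x < s0} := by
  rcases Set.eq_empty_or_nonempty {x | u < g x ∧ g x < s0} with h | ⟨x₀, h1, h2⟩
  · rw [h]
    exact isPreconnected_empty
  · refine isPreconnected_of_forall x₀ ?_
    rintro y ⟨h3, h4⟩
    refine ⟨{x | g x ≤ max (g x₀) (g y) ∧ u < g x}, ?_, ⟨le_max_left _ _, h1⟩,
      ⟨le_max_right _ _, h3⟩, PB_slice hc ?_ (hs _)⟩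
    · rintro x ⟨h5, h6⟩
      exact ⟨h6, h5.trans_lt (max_lt h2 h4)⟩
    · intro a ha b _ hab
      by_contra hne
      have h5 := hmin a b hab hne
      have h6 : g a ≤ max (g x₀) (g y) := ha
      exact absurd (h5.trans h6) (not_le.2 (max_lt h2 h4))

omit [CompactSpace T] in
/-- the points of a bad minimal fibre are limits of the set below -/
private theorem PB_lim [T2Space T] (hl : ∀ x, ∃ U ∈ 𝓝 x, InjOn g U) (hs : ∀ s, IsPreconnected {x | g x ≤ s})
    {p q : T} (hpq : p ≠ q) (he : g p = g q) {N : Set T} (hN : N ∈ 𝓝 p) : ∃ a ∈ N, g a < g p := by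
  by_contra hc
  push Not at hc
  obtain ⟨U, hU, hi⟩ := hl p
  have hV : p ∈ interior (N ∩ U) := mem_interior_iff_mem_nhds.2 (inter_mem hN hU)
  have key : ∀ a ∈ interior (N ∩ U), g a ≤ g p → a = p := by
    intro a ha hle
    have h1 := interior_subset ha
    exact hi h1.2 (mem_of_mem_nhds hU) (le_antisymm hle (hc a h1.1))
  obtain ⟨x, hx, hx1, hx2⟩ := hs (g p) (interior (N ∩ U)) {p}ᶜ isOpen_interior
    isOpen_compl_singleton (by
      intro a ha
      by_cases h : a = p
      · exact Or.inl (by rw [h]; exact hV)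
      · exact Or.inr h) ⟨p, le_refl (g p), hV⟩ ⟨q, he.symm.le, hpq.symm⟩
  exact hx2 (key x hx1 hx)

end aux

theorem inj_of_sublevels {T : Type*} [TopologicalSpace T] [CompactSpace T] [T2Space T] {g : T → ℝ}
    (hc : Continuous g) (hl : ∀ x, ∃ U ∈ 𝓝 x, InjOn g U) (hs : ∀ s, IsPreconnected {x | g x ≤ s}) :
    Function.Injective g := by
  intro a b hab
  by_contra hne
  have hP : IsClosed {z : T × T | g z.1 = g z.2 ∧ z.1 ≠ z.2} := by
    rw [← isOpen_compl_iff, isOpen_iff_mem_nhds]
    rintro ⟨x, y⟩ hz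
    by_cases hg : g x = g y
    · have hxy : x = y := by
        by_contra h
        exact hz ⟨hg, h⟩
      subst hxy
      obtain ⟨U, hU, hi⟩ := hl x
      filter_upwards [prod_mem_nhds hU hU] with w hw hw2
      exact hw2.2 (hi hw.1 hw.2 hw2.1)
    · have h1 : {w : T × T | g w.1 ≠ g w.2} ∈ 𝓝 (x, y) := by
        refine IsOpen.mem_nhds ?_ hg
        exact isOpen_ne_fun (hc.comp continuous_fst) (hc.comp continuous_snd)
      filter_upwards [h1] with w hw hw2
      exact hw hw2.1
  obtain ⟨⟨p, q⟩, ⟨he, hpq⟩, hm⟩ := hP.isCompact.exists_isMinOn ⟨(a, b), hab, hne⟩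
    (f := fun z : T × T => g z.1) (hc.comp continuous_fst).continuousOn
  have he' : g p = g q := he
  have hpq' : p ≠ q := hpq
  have hmin : ∀ a b, g a = g b → a ≠ b → g p ≤ g a := fun a b h1 h2 =>
    (isMinOn_iff.1 hm) (a, b) ⟨h1, h2⟩
  obtain ⟨U, hU, hi⟩ := hl p
  obtain ⟨C, hC, hCc, hCU⟩ := exists_mem_nhds_isClosed_subset
    (inter_mem hU (isOpen_compl_singleton.mem_nhds hpq' : ({q}ᶜ : Set T) ∈ 𝓝 p))
  have hpC : p ∈ interior C := mem_interior_iff_mem_nhds.2 hC
  have hqC : q ∉ C := fun h => (hCU h).2 rfl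
  obtain ⟨u, hu, hF⟩ : ∃ u, u < g p ∧ ∀ x ∈ C, x ∉ interior C → g x ≤ g p → g x ≤ u := by
    have hK : IsCompact (C ∩ (interior C)ᶜ ∩ {x | g x ≤ g p}) :=
      ((hCc.inter isOpen_interior.isClosed_compl).inter
        (isClosed_le hc continuous_const)).isCompact
    rcases Set.eq_empty_or_nonempty (C ∩ (interior C)ᶜ ∩ {x | g x ≤ g p}) with h | h
    · refine ⟨g p - 1, by linarith, fun x h1 h2 h3 => ?_⟩
      have h4 : x ∈ C ∩ (interior C)ᶜ ∩ {x | g x ≤ g p} := ⟨⟨h1, h2⟩, h3⟩
      rw [h] at h4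
      exact absurd h4 (Set.notMem_empty x)
    · obtain ⟨y, ⟨⟨hy1, hy2⟩, hy3⟩, hy4⟩ := hK.exists_isMaxOn h hc.continuousOn
      refine ⟨g y, lt_of_le_of_ne hy3 ?_, fun x h1 h2 h3 => (isMaxOn_iff.1 hy4) x ⟨⟨h1, h2⟩, h3⟩⟩
      intro h1
      have h2 : y = p := hi (hCU hy1).1 (mem_of_mem_nhds hU) h1
      rw [h2] at hy2
      exact hy2 hpC
  have hS := PB_open (u := u) hc hmin hs
  obtain ⟨a1, ⟨ha1, ha2⟩, ha3⟩ := PB_lim hl hs hpq' he' (inter_mem
    (isOpen_interior.mem_nhds hpC) ((isOpen_lt continuous_const hc).mem_nhds hu :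
      {x | u < g x} ∈ 𝓝 p))
  obtain ⟨b1, ⟨hb1, hb2⟩, hb3⟩ := PB_lim hl hs hpq'.symm he'.symm (inter_mem
    (hCc.isOpen_compl.mem_nhds hqC) ((isOpen_lt continuous_const hc).mem_nhds (show u < g q by rw [← he']; exact hu) :
      {x | u < g x} ∈ 𝓝 q))
  obtain ⟨x, hx, hx1, hx2⟩ := hS (interior C) Cᶜ isOpen_interior hCc.isOpen_compl (by
      rintro x ⟨h1, h2⟩
      by_cases h3 : x ∈ C
      · by_cases h4 : x ∈ interior C
        · exact Or.inl h4
        · exact absurd (hF x h3 h4 h2.le) (not_le.2 h1)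
      · exact Or.inr h3) ⟨a1, ⟨ha2, ha3⟩, ha1⟩ ⟨b1, ⟨hb2, by rw [he']; exact hb3⟩, hb1⟩
  exact hx2 (interior_subset hx1)

end Pool.Agent.H61.PO
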