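import Pool.Agent.H61.PO.Faces
import Pool.Agent.H61.PO.Triv

/-!
# PO-32: points with exactly one preimage, the continuous section

`sec f = Function.invFun f`.  `sec_cont`: `M` compact, `E` Hausdorff: for `v ∈ uniq f` and `O` an open neighbourhood of `sec f v`: `f '' Oᶜ` is compact and does not
contain `v`, so its complement is a neighbourhood of `v`, and for `w ∈ uniq f` in it `sec f w ∈ O`.
`preimage_eq`: direct.  `scc_preimage`: `SCC.image` for `sec f`.  `arc_preimage` similarly.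
`arcPt_of_scc`: `γ` a simple closed curve, `γ ⊆ X`, `x ∈ γ` and a neighbourhood `U` of `x` with `U ∩ X ⊆ γ` (wlog `U` open).  `γ = σ ∪ τ`, `σ = α '' [0,1]`, `τ = β '' [0,1]`,
`σ ∩ τ = {p, q}`, `α 0 = β 0 = p`, `α 1 = β 1 = q`.  If `x = α u`, `0 < u < 1`: arc `t ↦ α (u + ε t)`, `ε` small (image in `U`, `0 < u - ε`, `u + ε < 1`); the same for `β`.
If `x = p`: `t ↦ β (ε t)` for `t ≥ 0`, `α (-ε t)` for `t ≤ 0`; if `x = q` reverse both arcs.  `γ` minus the open arc is a union of at most three compact arcs, closed.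
`X` minus the open arc `I` is closed: let `y` be a limit of `X \ I`; `y ∈ X`; if `y ∈ I ⊆ U` then `y` is a limit of `(X \ I) ∩ U ⊆ γ \ I`, closed, so `y ∉ I`: contradiction.
-/

namespace Pool.Agent.H61.PO

open Set Filter Topology

/-- points of `E` with exactly one preimage -/
def uniq {M E : Type*} (f : M → E) : Set E := {v | ∃ a, f ⁻¹' {v} = {a}}

/-- the section -/
noncomputable def sec {M E : Type*} [Nonempty M] (f : M → E) : E → M := Function.invFun f

section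
variable {M E : Type*} [Nonempty M] {f : M → E} {v : E} {a b : M}

theorem uniq_eq (h : f a ∈ uniq f) (hab : f a = f b) : a = b := by
  obtain ⟨c, hc⟩ := h
  have h1 : a ∈ f ⁻¹' {f a} := rfl
  have h2 : b ∈ f ⁻¹' {f a} := hab.symm
  rw [hc] at h1 h2
  exact h1.trans h2.symm

theorem sec_spec (hv : v ∈ uniq f) : f (sec f v) = v := by
  obtain ⟨c, hc⟩ := hv
  have h1 : c ∈ f ⁻¹' {v} := by rw [hc]; rfl
  exact Function.invFun_eq ⟨c, h1⟩

theorem sec_f (h : f a ∈ uniq f) : sec f (f a) = a :=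
  (uniq_eq h (sec_spec h).symm).symm

theorem sec_injOn : InjOn (sec f) (uniq f) := by
  intro v hv w hw h
  rw [← sec_spec hv, ← sec_spec hw, h]

theorem preimage_eq {B : Set E} (hB : B ⊆ uniq f) : f ⁻¹' B = sec f '' B := by
  ext a
  constructor
  · intro ha
    exact ⟨f a, ha, sec_f (hB ha)⟩
  · rintro ⟨v, hv, rfl⟩
    rw [mem_preimage, sec_spec (hB hv)]
    exact hv

end

section
variable {M E : Type*} [TopologicalSpace M] [CompactSpace M] [Nonempty M] [TopologicalSpace E]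
  [T2Space E] {f : M → E}

theorem sec_cont (hf : Continuous f) : ContinuousOn (sec f) (uniq f) := by
  intro v hv O hO
  obtain ⟨O', hO', hOo, hvO⟩ := mem_nhds_iff.1 hO
  have hc : IsCompact (f '' O'ᶜ) := hOo.isClosed_compl.isCompact.image hf
  have hvc : v ∉ f '' O'ᶜ := by
    rintro ⟨a, ha, rfl⟩
    rw [sec_f hv] at hvO
    exact ha hvO
  rw [Filter.mem_map]
  have hn : (f '' O'ᶜ)ᶜ ∈ 𝓝 v := hc.isClosed.isOpen_compl.mem_nhds hvc
  filter_upwards [mem_nhdsWithin_of_mem_nhds hn, self_mem_nhdsWithin] with w hw hwu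
  apply hO'
  by_contra hne
  exact hw ⟨sec f w, hne, sec_spec hwu⟩

theorem scc_preimage (hf : Continuous f) {B : Set E} (hB : B ⊆ uniq f) (h : SCC B) :
    SCC (f ⁻¹' B) := by
  rw [preimage_eq hB]
  exact h.image ((sec_cont hf).mono hB) (sec_injOn.mono hB)

theorem arc_preimage (hf : Continuous f) {B : Set E} (hB : B ⊆ uniq f) {p q : E}
    (h : IsArc B p q) : IsArc (f ⁻¹' B) (sec f p) (sec f q) := by
  rw [preimage_eq hB]
  exact h.image ((sec_cont hf).mono hB) (sec_injOn.mono hB)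

theorem conn_preimage (hf : Continuous f) {B : Set E} (hB : B ⊆ uniq f) (h : IsPreconnected B) :
    IsPreconnected (f ⁻¹' B) := by
  rw [preimage_eq hB]
  exact h.image _ ((sec_cont hf).mono hB)

end

private theorem arcPt_core {M : Type*} [TopologicalSpace M] [T2Space M] {X : Set M} {ψ : ℝ → M}
    (hc : ContinuousOn ψ (Icc 0 2))
    (hi : ∀ s ∈ Ioo (0 : ℝ) 2, ∀ t ∈ Icc (0 : ℝ) 2, ψ s = ψ t → s = t) (hX : IsClosed X)
    (hγ : ψ '' Icc 0 2 ⊆ X) {t0 : ℝ} (ht : t0 ∈ Ioo (0 : ℝ) 2)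
    (hU : ∃ U ∈ 𝓝 (ψ t0), U ∩ X ⊆ ψ '' Icc 0 2) : ArcPt X (ψ t0) := by
  obtain ⟨U, hU, hUX⟩ := hU
  obtain ⟨O, hOU, hO, hxO⟩ := mem_nhds_iff.1 hU
  have hca : ContinuousAt ψ t0 := hc.continuousAt (Icc_mem_nhds ht.1 ht.2)
  have h1 : ψ ⁻¹' O ∈ 𝓝 t0 := hca (hO.mem_nhds hxO)
  have h2 : ψ ⁻¹' O ∩ Ioo 0 2 ∈ 𝓝 t0 := inter_mem h1 (Ioo_mem_nhds ht.1 ht.2)
  obtain ⟨δ, hδ, hball⟩ := Metric.mem_nhds_iff.1 h2
  set ε := δ / 2 with hε
  have hε0 : 0 < ε := by positivity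
  have hsub : ∀ s, |s - t0| ≤ ε → ψ s ∈ O ∧ s ∈ Ioo (0 : ℝ) 2 := by
    intro s hs
    refine hball ?_
    rw [Metric.mem_ball, Real.dist_eq]
    linarith
  have hmap : ∀ t ∈ Icc (-1 : ℝ) 1, |t0 + ε * t - t0| ≤ ε := by
    intro t ht'
    rw [add_sub_cancel_left, abs_mul, abs_of_pos hε0]
    have : |t| ≤ 1 := abs_le.2 ht'
    nlinarith
  set α : ℝ → M := fun t => ψ (t0 + ε * t) with hα
  have hα0 : α 0 = ψ t0 := by
    show ψ (t0 + ε * 0) = ψ t0
    rw [mul_zero, add_zero]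
  have hIoo : ∀ t ∈ Ioo (-1 : ℝ) 1, α t ∈ O := fun t ht' =>
    (hsub _ (hmap t (Ioo_subset_Icc_self ht'))).1
  refine ⟨α, ?_, ?_, hα0, ?_, ?_⟩
  · refine hc.comp (by fun_prop) ?_
    intro t ht'
    exact Ioo_subset_Icc_self (hsub _ (hmap t ht')).2
  · intro s hs t ht' hst
    have h3 := hi _ (hsub _ (hmap s hs)).2 _ (Ioo_subset_Icc_self (hsub _ (hmap t ht')).2) hst
    have h4 : ε * s = ε * t := by linarith
    exact mul_left_cancel₀ hε0.ne' h4
  · rintro _ ⟨t, ht', rfl⟩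
    exact hγ ⟨_, Ioo_subset_Icc_self (hsub _ (hmap t ht')).2, rfl⟩
  · have hm1 := (hsub (t0 - ε) (by rw [sub_sub_cancel_left, abs_neg, abs_of_pos hε0])).2
    have hm2 := (hsub (t0 + ε) (by rw [add_sub_cancel_left, abs_of_pos hε0])).2
    have hK : IsCompact (ψ '' (Icc 0 (t0 - ε) ∪ Icc (t0 + ε) 2)) := by
      refine (isCompact_Icc.union isCompact_Icc).image_of_continuousOn (hc.mono ?_)
      refine union_subset (Icc_subset_Icc le_rfl hm1.2.le) (Icc_subset_Icc hm2.1.le le_rfl)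
    have key : X \ α '' Ioo (-1) 1 = (X \ O) ∪ ψ '' (Icc 0 (t0 - ε) ∪ Icc (t0 + ε) 2) := by
      ext y
      constructor
      · rintro ⟨hy, hyI⟩
        by_cases hyO : y ∈ O
        · right
          obtain ⟨s, hs, rfl⟩ := hUX ⟨hOU hyO, hy⟩
          refine ⟨s, ?_, rfl⟩
          by_contra hcon
          rw [mem_union, not_or, mem_Icc, mem_Icc, not_and, not_and] at hcon
          have h5 : t0 - ε < s := not_le.1 (hcon.1 hs.1)
          have h6 : s < t0 + ε := by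
            by_contra h7
            exact hcon.2 (not_lt.1 h7) hs.2
          refine hyI ⟨(s - t0) / ε, ⟨?_, ?_⟩, ?_⟩
          · rw [lt_div_iff₀ hε0]
            linarith
          · rw [div_lt_iff₀ hε0]
            linarith
          · show ψ (t0 + ε * ((s - t0) / ε)) = ψ s
            congr 1
            field_simp
            ring
        · exact Or.inl ⟨hy, hyO⟩
      · rintro (⟨hy, hyO⟩ | ⟨s, hs, rfl⟩)
        · refine ⟨hy, ?_⟩
          rintro ⟨t, ht', rfl⟩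
          exact hyO (hIoo t ht')
        · have hs2 : s ∈ Icc (0 : ℝ) 2 := by
            rcases hs with hs | hs
            · exact ⟨hs.1, by linarith [hs.2, hm1.2]⟩
            · exact ⟨by linarith [hs.1, hm2.1], hs.2⟩
          refine ⟨hγ ⟨s, hs2, rfl⟩, ?_⟩
          rintro ⟨t, ht', hst⟩
          have h8 := hi _ (hsub _ (hmap t (Ioo_subset_Icc_self ht'))).2 _ hs2 hst
          have h9 : -ε < ε * t := by nlinarith [ht'.1]
          have h10 : ε * t < ε := by nlinarith [ht'.2]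
          rcases hs with hs | hs
          · linarith [hs.2]
          · linarith [hs.1]
    rw [key]
    exact (hX.sdiff hO).union hK.isClosed

private theorem arcPt_param {M : Type*} [TopologicalSpace M] {p q : M} {σ τ : Set M}
    (h1 : IsArc σ p q) (h2 : IsArc τ p q) (h3 : σ ∩ τ = {p, q}) {x : M} (hx : x ∈ σ ∪ τ)
    (hxp : x ≠ p) : ∃ ψ : ℝ → M, ContinuousOn ψ (Icc 0 2) ∧
      (∀ s ∈ Ioo (0 : ℝ) 2, ∀ t ∈ Icc (0 : ℝ) 2, ψ s = ψ t → s = t) ∧ ψ '' Icc 0 2 = σ ∪ τ ∧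
      ∃ t0 ∈ Ioo (0 : ℝ) 2, ψ t0 = x := by
  obtain ⟨α, a1, a2, rfl, a4, a5⟩ := h1
  obtain ⟨β, b1, b2, rfl, b4, b5⟩ := h2
  have m0 : (0 : ℝ) ∈ Icc (0 : ℝ) 1 := ⟨le_rfl, zero_le_one⟩
  have m1 : (1 : ℝ) ∈ Icc (0 : ℝ) 1 := ⟨zero_le_one, le_rfl⟩
  set ψ : ℝ → M := fun t => if t ≤ 1 then α t else β (2 - t) with hψ
  have e1 : ∀ t, t ≤ 1 → ψ t = α t := fun t ht => if_pos ht
  have e2 : ∀ t, 1 ≤ t → ψ t = β (2 - t) := by
    intro t ht
    rcases eq_or_lt_of_le ht with h | h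
    · rw [← h, e1 1 le_rfl, a5, ← b5]
      norm_num
    · exact if_neg (not_le.2 h)
  have hcross : ∀ s ∈ Icc (0 : ℝ) 1, ∀ t ∈ Icc (0 : ℝ) 1, α s = β t →
      (s = 0 ∧ t = 0) ∨ (s = 1 ∧ t = 1) := by
    intro s hs t ht hst
    have h4 : α s ∈ ({p, q} : Set M) := by
      rw [← h3]
      exact ⟨⟨s, hs, rfl⟩, ⟨t, ht, hst.symm⟩⟩
    rcases h4 with h4 | h4
    · left
      exact ⟨a2 hs m0 (h4.trans a4.symm), b2 ht m0 ((hst.symm.trans h4).trans b4.symm)⟩
    · right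
      exact ⟨a2 hs m1 (h4.trans a5.symm), b2 ht m1 ((hst.symm.trans h4).trans b5.symm)⟩
  refine ⟨ψ, ?_, ?_, ?_, ?_⟩
  · have h5 : ContinuousOn ψ (Icc 0 1) := a1.congr fun t ht => e1 t ht.2
    have h6 : ContinuousOn ψ (Icc 1 2) := by
      have : ContinuousOn (fun t => β (2 - t)) (Icc 1 2) := by
        refine b1.comp (by fun_prop) ?_
        intro t ht
        exact ⟨by linarith [ht.2], by linarith [ht.1]⟩
      exact this.congr fun t ht => e2 t ht.1
    have h7 := h5.union_of_isClosed h6 isClosed_Icc isClosed_Icc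
    rwa [Icc_union_Icc_eq_Icc zero_le_one one_le_two] at h7
  · intro s hs t ht hst
    rcases le_or_gt s 1 with hs1 | hs1
    · rw [e1 s hs1] at hst
      rcases le_or_gt t 1 with ht1 | ht1
      · rw [e1 t ht1] at hst
        exact a2 ⟨hs.1.le, hs1⟩ ⟨ht.1, ht1⟩ hst
      · rw [e2 t ht1.le] at hst
        rcases hcross s ⟨hs.1.le, hs1⟩ (2 - t) ⟨by linarith [ht.2], by linarith⟩ hst with h | h
        · linarith [hs.1, h.1]
        · linarith [h.2]
    · rw [e2 s hs1.le] at hst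
      rcases le_or_gt t 1 with ht1 | ht1
      · rw [e1 t ht1] at hst
        rcases hcross t ⟨ht.1, ht1⟩ (2 - s) ⟨by linarith [hs.2], by linarith⟩ hst.symm with h | h
        · linarith [hs.2, h.2]
        · linarith [h.2]
      · rw [e2 t ht1.le] at hst
        have := b2 ⟨by linarith [hs.2], by linarith⟩ ⟨by linarith [ht.2], by linarith⟩ hst
        linarith
  · ext y
    constructor
    · rintro ⟨t, ht, rfl⟩
      rcases le_or_gt t 1 with ht1 | ht1
      · rw [e1 t ht1]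
        exact Or.inl ⟨t, ⟨ht.1, ht1⟩, rfl⟩
      · rw [e2 t ht1.le]
        exact Or.inr ⟨2 - t, ⟨by linarith [ht.2], by linarith⟩, rfl⟩
    · rintro (⟨t, ht, rfl⟩ | ⟨t, ht, rfl⟩)
      · exact ⟨t, ⟨ht.1, by linarith [ht.2]⟩, e1 t ht.2⟩
      · refine ⟨2 - t, ⟨by linarith [ht.2], by linarith [ht.1]⟩, ?_⟩
        rw [e2 (2 - t) (by linarith [ht.2])]
        congr 1
        ring
  · rcases hx with ⟨t, ht, rfl⟩ | ⟨t, ht, rfl⟩
    · refine ⟨t, ⟨lt_of_le_of_ne ht.1 ?_, by linarith [ht.2]⟩, e1 t ht.2⟩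
      intro h
      rw [← h] at hxp
      exact hxp a4
    · refine ⟨2 - t, ⟨by linarith [ht.2], ?_⟩, ?_⟩
      · have : t ≠ 0 := by
          intro h
          rw [h] at hxp
          exact hxp b4
        have : 0 < t := lt_of_le_of_ne ht.1 (Ne.symm this)
        linarith
      · rw [e2 (2 - t) (by linarith [ht.2])]
        congr 1
        ring

theorem arcPt_of_scc {M : Type*} [TopologicalSpace M] [T2Space M] {γ X : Set M} (h : SCC γ)
    (hX : IsClosed X) (hγ : γ ⊆ X) {x : M} (hx : x ∈ γ) (hU : ∃ U ∈ 𝓝 x, U ∩ X ⊆ γ) :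
    ArcPt X x := by
  obtain ⟨p, q, σ, τ, h1, h2, h3, rfl⟩ := h
  by_cases hxp : x = p
  · have hxq : x ≠ q := by
      rw [hxp]
      exact h1.mem.2.2
    have h3' : σ ∩ τ = {q, p} := by
      rw [h3, pair_comm]
    obtain ⟨ψ, c1, c2, c3, t0, ht0, rfl⟩ := arcPt_param h1.symm h2.symm h3' hx hxq
    rw [← c3] at hγ hU
    exact arcPt_core c1 c2 hX hγ ht0 hU
  · obtain ⟨ψ, c1, c2, c3, t0, ht0, rfl⟩ := arcPt_param h1 h2 h3 hx hxp
    rw [← c3] at hγ hU
    exact arcPt_core c1 c2 hX hγ ht0 hU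

end Pool.Agent.H61.PO
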