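import Pool.Agent.H61.PO.PA
import Pool.Agent.H61.PO.PB
import Pool.Agent.H61.PO.PC

/-!
# PO-33: vertices and edges of the hull, curves of 2-faces (P2, P3, P4)

`ext_uniq`: `{x}` is a face, so `f ⁻¹' {x}` is preconnected (`good_face`, `Good.preconn`) and discrete (local injectivity), so it has at most one point; nonempty:
`x ∈ range f` (`extremePoints_convexHull_subset`).
`edge_uniq`: `F = segment x y` (`IsFace.dim_one`), `x ≠ y`.  `T = f ⁻¹' F` (compact subtype); a functional `z` with `z x ≠ z y` is injective on the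
segment; `g = z ∘ f` on `T` is continuous, locally injective, and `{g ≤ s}` is preconnected: it is `f ⁻¹' (F ∩ {-s ≤ -z})`, `good_face`; so `g` is
injective (`inj_of_sublevels`).  Surjectivity of `f : T → F`: `T` preconnected, contains the preimages of `x` and `y` (extreme points are in the range), so `g '' T` is an
interval containing `z x` and `z y`.
`low_uniq`: `dimc F = 0` or `1`: `IsFace.dim_zero`, `IsFace.dim_one`.
`rb_uniq`: `y ∈ rb F`: `mf F y ≠ F` (`rb_iff`), so `dimc (mf F y) < 2` (`IsFace.dim_lt`), a face of `hul f` (`mf_face`, `IsFace.trans`), contains `y`.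
`cv_scc`: `two_scc` and `scc_preimage`.
`cv_inter`: `two_inter` (`F ∩ G = rb F ∩ rb G`).  `cv_inter_triv`: if the intersection is empty `Triv.empty`; otherwise it is the preimage of a face of
dimension `0` (a point: trivial) or `1` (a segment: an arc, `arc_preimage`, `IsArc.triv`).
`cv_minus`: `cv f F \ f ⁻¹' a = f ⁻¹' (rb F \ a)`, `two_rb_conn`, `conn_preimage`.  `cv_ext`: `F = convexHull (ext F)` (`minkowski`), so not all extreme points of `F` are in
the proper face `a` (`a` is convex); extreme points of `F` are extreme points of `hul f` (`IsFace.ext_eq`) and are in `rb F` (`rb_iff`; `mf F x = {x} ≠ F`).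
`cv_arcPt`: `arcPt_of_scc` (`cv f F` is a simple closed curve).
-/

namespace Pool.Agent.H61.PO

open Set Filter Topology

variable {M : Type*} [TopologicalSpace M] [CompactSpace M] [T2Space M] [Nonempty M]
  {E : Type*} [NormedAddCommGroup E] [NormedSpace ℝ E] [FiniteDimensional ℝ E] {f : M → E}
  {F G : Set E}

private theorem pd_range {x : E} (hx : x ∈ (hul f).extremePoints ℝ) : ∃ a, f a = x := by
  have h : (convexHull ℝ (range f)).extremePoints ℝ ⊆ range f := extremePoints_convexHull_subset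
  exact h hx

theorem ext_uniq (hf : Tight f) : (hul f).extremePoints ℝ ⊆ uniq f := by
  intro x hx
  obtain ⟨a, ha⟩ := pd_range hx
  refine ⟨a, ?_⟩
  have hpre := (good_face hf (IsFace.of_ext hx)).preconn
  apply Subset.antisymm
  · intro b hb
    by_contra hab
    have hab' : b ≠ a := hab
    obtain ⟨U, hU, hUi⟩ := hf.linj a
    have h1 : f ⁻¹' {x} ⊆ interior U ∪ {a}ᶜ := by
      intro c _
      by_cases hc : c = a
      · left
        rw [hc]
        exact mem_interior_iff_mem_nhds.2 hU
      · right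
        exact hc
    obtain ⟨c, hc1, hc2, hc3⟩ := hpre (interior U) {a}ᶜ isOpen_interior isOpen_compl_singleton h1
      ⟨a, ha, mem_interior_iff_mem_nhds.2 hU⟩ ⟨b, hb, hab'⟩
    exact hc3 (hUi (interior_subset hc2) (mem_of_mem_nhds hU) (Eq.trans hc1 ha.symm))
  · rintro b rfl
    exact ha

private theorem pd_seg_inj {x y : E} {z : E →L[ℝ] ℝ} (hz : z x ≠ z y) :
    InjOn z (segment ℝ x y) := by
  rw [segment_eq_image]
  rintro _ ⟨s, hs, rfl⟩ _ ⟨t, ht, rfl⟩ hst
  have h1 : (1 - s) * z x + s * z y = (1 - t) * z x + t * z y := by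
    simpa using hst
  have h2 : (s - t) * (z y - z x) = 0 := by linarith
  have h3 : s = t := by
    rcases mul_eq_zero.1 h2 with h4 | h4
    · linarith
    · exact absurd (by linarith) hz
  rw [h3]

theorem edge_uniq (hf : Tight f) (hF : IsFace (hul f) F) (hd : dimc F = 1) : F ⊆ uniq f := by
  obtain ⟨x, y, hx, hy, hxy, rfl⟩ := hF.dim_one hd
  obtain ⟨z, hz⟩ := SeparatingDual.exists_separating_of_ne (R := ℝ) hxy
  have hzi := pd_seg_inj hz
  have hgood := good_face hf hF
  have hcl : IsClosed (f ⁻¹' segment ℝ x y) := hF.2.2.1.isClosed.preimage hf.cont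
  have hct : CompactSpace (f ⁻¹' segment ℝ x y) := isCompact_iff_compactSpace.1 hcl.isCompact
  have hinj : Function.Injective (fun t : (f ⁻¹' segment ℝ x y) => z (f t)) := by
    refine inj_of_sublevels (z.continuous.comp (hf.cont.comp continuous_subtype_val)) ?_ ?_
    · intro t
      obtain ⟨U, hU, hUi⟩ := hf.linj (t : M)
      refine ⟨Subtype.val ⁻¹' U, continuous_subtype_val.continuousAt.preimage_mem_nhds hU, ?_⟩
      intro a ha b hb hab
      have h1 : f a = f b := hzi a.2 b.2 hab
      exact Subtype.ext (hUi ha hb h1)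
    · intro s
      rw [← Topology.IsInducing.subtypeVal.isPreconnected_image]
      have h1 : Subtype.val '' {t : (f ⁻¹' segment ℝ x y) | z (f t) ≤ s} =
          f ⁻¹' (segment ℝ x y ∩ {v | -s ≤ (-z) v}) := by
        ext a
        constructor
        · rintro ⟨t, ht, rfl⟩
          refine ⟨t.2, ?_⟩
          show -s ≤ -(z (f t))
          have : z (f t) ≤ s := ht
          linarith
        · rintro ⟨ha1, ha2⟩
          refine ⟨⟨a, ha1⟩, ?_, rfl⟩
          show z (f a) ≤ s
          have : -s ≤ -(z (f a)) := ha2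
          linarith
      rw [h1]
      exact (hgood (-z) (-s)).1
  obtain ⟨a, ha⟩ := pd_range hx
  obtain ⟨b, hb⟩ := pd_range hy
  have hax : a ∈ f ⁻¹' segment ℝ x y := by
    show f a ∈ segment ℝ x y
    rw [ha]
    exact left_mem_segment ℝ x y
  have hby : b ∈ f ⁻¹' segment ℝ x y := by
    show f b ∈ segment ℝ x y
    rw [hb]
    exact right_mem_segment ℝ x y
  have hpre : IsPreconnected ((fun t => z (f t)) '' (f ⁻¹' segment ℝ x y)) :=
    hgood.preconn.image _ (z.continuous.comp hf.cont).continuousOn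
  have hord := hpre.ordConnected
  have hza : z x ∈ (fun t => z (f t)) '' (f ⁻¹' segment ℝ x y) := ⟨a, hax, by
    show z (f a) = z x
    rw [ha]⟩
  have hzb : z y ∈ (fun t => z (f t)) '' (f ⁻¹' segment ℝ x y) := ⟨b, hby, by
    show z (f b) = z y
    rw [hb]⟩
  intro v hv
  have hvz : z v ∈ segment ℝ (z x) (z y) := by
    have h1 : z v ∈ z '' segment ℝ x y := mem_image_of_mem z hv
    have h2 : z '' segment ℝ x y = segment ℝ (z x) (z y) :=
      image_segment ℝ z.toLinearMap.toAffineMap x y
    rwa [h2] at h1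
  obtain ⟨c, hc, hcv⟩ := (hord.convex.segment_subset hza hzb) hvz
  have hcv' : f c = v := hzi hc hv hcv
  refine ⟨c, ?_⟩
  apply Subset.antisymm
  · intro e he
    have he' : f e = v := he
    have he2 : e ∈ f ⁻¹' segment ℝ x y := by
      show f e ∈ segment ℝ x y
      rw [he']
      exact hv
    have h3 := @hinj ⟨e, he2⟩ ⟨c, hc⟩ (by
      show z (f e) = z (f c)
      rw [he', hcv'])
    exact congrArg Subtype.val h3
  · rintro e rfl
    exact hcv'

theorem low_uniq (hf : Tight f) (hF : IsFace (hul f) F) (hd : dimc F ≤ 1) : F ⊆ uniq f := by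
  rcases Nat.lt_or_ge (dimc F) 1 with h | h
  · obtain ⟨x, hx, rfl⟩ := hF.dim_zero (by omega)
    rintro v rfl
    exact ext_uniq hf hx
  · exact edge_uniq hf hF (by omega)

theorem rb_uniq (hf : Tight f) (hF : Two f F) : rb F ⊆ uniq f := by
  intro y hy
  have hc := hF.1.2.1
  have hk := hF.1.2.2.1
  obtain ⟨hyF, hne⟩ := (rb_iff hc hk).1 hy
  have h1 := mf_face hc hk hyF
  have h2 := IsFace.dim_lt hc h1 hne
  rw [hF.2] at h2
  exact low_uniq hf (hF.1.trans h1) (by omega) mem_mf

theorem cv_scc (hf : Tight f) (hF : Two f F) : SCC (cv f F) :=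
  scc_preimage hf.cont (rb_uniq hf hF) (two_scc hF.1.2.1 hF.1.2.2.1 hF.2)

theorem cv_inter (hf : Tight f) (hF : Two f F) (hG : Two f G) (hne : F ≠ G) :
    cv f F ∩ cv f G = f ⁻¹' (F ∩ G) := by
  have := hf.cont
  rw [(two_inter hF.1 hG.1 hF.2 hG.2 hne).1]
  rfl

private theorem pd_triv_singleton (a : M) : Triv ({a} : Set M) := by
  intro g hg
  refine ⟨fun _ => 0, ?_⟩
  rintro x hx
  obtain ⟨U, hU, h1⟩ := hg x hx
  refine ⟨U, hU, ?_⟩
  intro b hb c hc
  have hbc : c = b := (hc.2 : c = a).trans (hb.2 : b = a).symm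
  have h2 := h1 b hb b hb b hb
  rw [hbc]
  have h3 : ∀ u : ZMod 2, u + u = u → u = 0 + 0 := by decide
  exact h3 _ h2

private theorem pd_arc {x y : E} (hxy : x ≠ y) : IsArc (segment ℝ x y) x y := by
  refine ⟨fun t => (1 - t) • x + t • y, ?_, ?_, segment_eq_image ℝ x y, by simp, by simp⟩
  · exact Continuous.continuousOn (by fun_prop)
  · intro s _ t _ hst
    have h1 : (1 - s) • x + s • y = (1 - t) • x + t • y := hst
    have h2 : (s - t) • (y - x) = 0 := by
      have e : (s - t) • (y - x) = ((1 - s) • x + s • y) - ((1 - t) • x + t • y) := by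
        simp only [sub_smul, smul_sub, one_smul]
        abel
      rw [e, h1, sub_self]
    rcases smul_eq_zero.1 h2 with h3 | h3
    · linarith
    · exact absurd (sub_eq_zero.1 h3).symm hxy

theorem cv_inter_triv (hf : Tight f) (hF : Two f F) (hG : Two f G) (hne : F ≠ G) :
    Triv (cv f F ∩ cv f G) := by
  rw [cv_inter hf hF hG hne]
  rcases (F ∩ G).eq_empty_or_nonempty with h | h
  · rw [h, preimage_empty]
    exact Triv.empty
  · obtain ⟨h1, -, -, h2, -, -⟩ := (two_inter hF.1 hG.1 hF.2 hG.2 hne).2 h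
    rcases Nat.lt_or_ge (dimc (F ∩ G)) 1 with h3 | h3
    · obtain ⟨x, hx, h4⟩ := h1.dim_zero (by omega)
      obtain ⟨a, ha⟩ := ext_uniq hf hx
      rw [h4, ha]
      exact pd_triv_singleton a
    · have h5 : dimc (F ∩ G) = 1 := by omega
      obtain ⟨x, y, -, -, hxy, h4⟩ := h1.dim_one h5
      have h6 := edge_uniq hf h1 h5
      rw [h4] at h6 ⊢
      exact (arc_preimage hf.cont h6 (pd_arc hxy)).triv

theorem cv_conn (hf : Tight f) (hF : Two f F) : IsPreconnected (cv f F) := (cv_scc hf hF).preconn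

theorem cv_compact (hf : Tight f) (hF : Two f F) : IsCompact (cv f F) := (cv_scc hf hF).compact

theorem cv_minus (hf : Tight f) (hF : Two f F) {a : Set E} (ha : IsFace F a) (hne : a ≠ F) :
    IsPreconnected (cv f F \ f ⁻¹' a) :=
  conn_preimage hf.cont (sdiff_subset.trans (rb_uniq hf hF))
    (two_rb_conn hF.1.2.1 hF.1.2.2.1 hF.2 ha hne)

/-- a 2-face has an extreme point outside every proper face -/
theorem cv_ext (hf : Tight f) (hF : Two f F) {a : Set E} (ha : IsFace F a) (hne : a ≠ F) :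
    ∃ x, x ∈ (hul f).extremePoints ℝ ∧ x ∈ F ∧ x ∉ a ∧ sec f x ∈ cv f F := by
  have hc := hF.1.2.1
  have hk := hF.1.2.2.1
  have h1 : ∃ x ∈ F.extremePoints ℝ, x ∉ a := by
    by_contra hcon
    push Not at hcon
    have h2 : convexHull ℝ (F.extremePoints ℝ) ⊆ a := convexHull_min hcon ha.2.1
    rw [minkowski hc hk] at h2
    exact hne (Subset.antisymm ha.subset h2)
  obtain ⟨x, hx, hxa⟩ := h1
  have hx' := hx
  rw [hF.1.ext_eq] at hx'
  have hxf : IsFace F {x} := IsFace.of_ext hx
  have hmf : mf F x ≠ F := by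
    intro h
    have h2 : mf F x ⊆ {x} := mf_min hxf rfl
    rw [h] at h2
    have h3 := dimc_mono h2
    rw [dimc_singleton, hF.2] at h3
    omega
  refine ⟨x, hx'.2, hx'.1, hxa, ?_⟩
  show f (sec f x) ∈ rb F
  rw [sec_spec (ext_uniq hf hx'.2)]
  exact (rb_iff hc hk).2 ⟨hx'.1, hmf⟩

theorem cv_arcPt (hf : Tight f) (hF : Two f F) {X : Set M} (hX : IsClosed X) (hc : cv f F ⊆ X)
    {x : M} (hx : x ∈ cv f F) (hU : ∃ U ∈ 𝓝 x, U ∩ X ⊆ cv f F) : ArcPt X x :=
  arcPt_of_scc (cv_scc hf hF) hX hc hx hU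

end Pool.Agent.H61.PO
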