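import Pool.Agent.H61.PO.Dual
import Pool.Agent.H61.PO.Glue
import Pool.Agent.H61.PO.Triv

/-!
# PO-14: cross cuts of a disc (2): every point of the arc is a limit of every component

`cc_limit`: let `σ = α '' [0,1]`, `x = α u0`; `0 < u0 < 1` (`x` is in the open ball so it is not an end point).  Suppose
`x ∉ closure B0`, `B0 = connectedComponentIn Yᶜ b`, `Y = sphere 0 R ∪ σ`,
so an open `N ∋ x` misses `B0`; `0 < u1 < u0 < u2 < 1` with `α '' [u1,u2] ⊆ N`; `J = sphere 0 R ∪ α '' [0,u1] ∪ α '' [u2,1]`.  For all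
`p1, p2 ∈ ball 0 R \ J`: `th p1 + th p2` is a coboundary on the circle (`th_sphere`), on `α '' [0,u1]` (arc: `IsArc.triv` for the reparametrised arc or
`Triv.image` of the interval) and the intersection of the two is `{p}`; `glueCob_conn`; then the same with `α '' [u2,1]`, intersection `{q}`.
So `ball 0 R \ J` is preconnected (`conn_of_cob`).  `B0` is open, contained in `ball 0 R \ J` (`comp_ball`), and closed in it: a limit point
`y ∈ ball 0 R \ J` of `B0` is not in `α '' (u1,u2) ⊆ N`, so `y ∉ Y`, and then `y ∈ B0` (the component of `y` in the open set `Yᶜ` is open,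
so it meets `B0`).  So `B0 = ball 0 R \ J ∋ x`: contradiction.
-/

namespace Pool.Agent.H61.PO

open Set Filter Topology Metric

theorem cc_limit {R : ℝ} (h0 : 0 < R) {σ : Set ℂ} {p q : ℂ} (hσ : IsArc σ p q)
    (hR : σ ⊆ closedBall 0 R) (hS : sphere 0 R ∩ σ = {p, q}) {b : ℂ} (hb : b ∈ ball 0 R \ σ)
    {x : ℂ} (hx : x ∈ σ ∩ ball 0 R) : x ∈ closure (connectedComponentIn (sphere 0 R ∪ σ)ᶜ b) := by
  have hcomp : IsCompact σ := hσ.compact
  obtain ⟨α, hα, hinj, rfl, rfl, rfl⟩ := hσ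
  obtain ⟨⟨u0, hu0, rfl⟩, hxb⟩ := hx
  by_contra hcl
  have m0 : (0 : ℝ) ∈ Icc (0 : ℝ) 1 := ⟨le_rfl, zero_le_one⟩
  have m1 : (1 : ℝ) ∈ Icc (0 : ℝ) 1 := ⟨zero_le_one, le_rfl⟩
  have hp : α 0 ∈ sphere (0 : ℂ) R := by
    have : α 0 ∈ sphere (0 : ℂ) R ∩ α '' Icc 0 1 := by rw [hS]; exact Or.inl rfl
    exact this.1
  have hq : α 1 ∈ sphere (0 : ℂ) R := by
    have : α 1 ∈ sphere (0 : ℂ) R ∩ α '' Icc 0 1 := by rw [hS]; exact Or.inr rfl
    exact this.1
  have hbs : ∀ y : ℂ, y ∈ ball (0 : ℂ) R → y ∉ sphere (0 : ℂ) R := by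
    intro y hy hy'
    rw [mem_ball] at hy
    rw [mem_sphere] at hy'
    exact absurd hy' hy.ne
  have hu00 : 0 < u0 := by
    rcases eq_or_lt_of_le hu0.1 with h | h
    · exact absurd (h ▸ hp) (hbs _ hxb)
    · exact h
  have hu01 : u0 < 1 := by
    rcases eq_or_lt_of_le hu0.2 with h | h
    · exact absurd (h ▸ hq) (hbs _ hxb)
    · exact h
  -- points of the arc on the sphere
  have hsph : ∀ u ∈ Icc (0 : ℝ) 1, α u ∈ sphere (0 : ℂ) R → u = 0 ∨ u = 1 := by
    intro u hu h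
    have h1 : α u ∈ ({α 0, α 1} : Set ℂ) := hS ▸ ⟨h, mem_image_of_mem _ hu⟩
    rcases h1 with h1 | h1
    · exact Or.inl (hinj hu m0 h1)
    · exact Or.inr (hinj hu m1 h1)
  set Y : Set ℂ := sphere 0 R ∪ α '' Icc 0 1 with hY
  set B0 : Set ℂ := connectedComponentIn Yᶜ b with hB0
  have hYc : IsCompact Y := (isCompact_sphere _ _).union hcomp
  have hYo : IsOpen Yᶜ := hYc.isClosed.isOpen_compl
  have hB0o : IsOpen B0 := hYo.connectedComponentIn
  have hB0b : B0 ⊆ ball 0 R := comp_ball subset_union_left hb.1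
  have hB0Y : B0 ⊆ Yᶜ := connectedComponentIn_subset _ _
  have hbY : b ∈ Yᶜ := by
    rintro (h | h)
    · exact hbs b hb.1 h
    · exact hb.2 h
  have hbB : b ∈ B0 := mem_connectedComponentIn hbY
  -- choice of the interval
  have hat : ContinuousAt α u0 := hα.continuousAt (Icc_mem_nhds hu00 hu01)
  have hN : α ⁻¹' (closure B0)ᶜ ∈ 𝓝 u0 :=
    hat (isClosed_closure.isOpen_compl.mem_nhds hcl)
  obtain ⟨δ, hδ, hδN⟩ := Metric.mem_nhds_iff.1 hN
  obtain ⟨u1, hu1a, hu1b, hu1c⟩ : ∃ u1, 0 < u1 ∧ u1 < u0 ∧ u0 - δ < u1 :=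
    ⟨max (u0 / 2) (u0 - δ / 2), lt_max_of_lt_left (by linarith),
      max_lt (by linarith) (by linarith), lt_max_of_lt_right (by linarith)⟩
  obtain ⟨u2, hu2a, hu2b, hu2c⟩ : ∃ u2, u0 < u2 ∧ u2 < 1 ∧ u2 < u0 + δ :=
    ⟨min ((u0 + 1) / 2) (u0 + δ / 2), lt_min (by linarith) (by linarith),
      min_lt_of_left_lt (by linarith), min_lt_of_right_lt (by linarith)⟩
  have hmid : ∀ u, u1 < u → u < u2 → α u ∉ closure B0 := by
    intro u h1 h2
    have h3 : u ∈ ball u0 δ := by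
      rw [mem_ball, Real.dist_eq, abs_lt]
      constructor <;> linarith
    exact hδN h3
  have hs1 : Icc 0 u1 ⊆ Icc (0 : ℝ) 1 := Icc_subset_Icc le_rfl (by linarith)
  have hs2 : Icc u2 1 ⊆ Icc (0 : ℝ) 1 := Icc_subset_Icc (by linarith) le_rfl
  have hc1 : IsCompact (α '' Icc 0 u1) := isCompact_Icc.image_of_continuousOn (hα.mono hs1)
  have hc2 : IsCompact (α '' Icc u2 1) := isCompact_Icc.image_of_continuousOn (hα.mono hs2)
  have ht1 : Triv (α '' Icc 0 u1) :=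
    Triv.image isCompact_Icc (triv_real isCompact_Icc) (hα.mono hs1) (hinj.mono hs1)
  have ht2 : Triv (α '' Icc u2 1) :=
    Triv.image isCompact_Icc (triv_real isCompact_Icc) (hα.mono hs2) (hinj.mono hs2)
  have hJ1c : IsCompact (sphere 0 R ∪ α '' Icc 0 u1) := (isCompact_sphere _ _).union hc1
  have hJc : IsCompact ((sphere 0 R ∪ α '' Icc 0 u1) ∪ α '' Icc u2 1) := hJ1c.union hc2
  have hint1 : (sphere (0 : ℂ) R ∩ α '' Icc 0 u1) ⊆ {α 0} := by
    rintro _ ⟨h1, ⟨u, hu, rfl⟩⟩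
    rcases hsph u (hs1 hu) h1 with h | h
    · rw [h]; rfl
    · exact absurd hu.2 (by rw [h]; linarith)
  have hint2 : ((sphere (0 : ℂ) R ∪ α '' Icc 0 u1) ∩ α '' Icc u2 1) ⊆ {α 1} := by
    rintro _ ⟨h1, ⟨u, hu, rfl⟩⟩
    rcases h1 with h1 | ⟨v, hv, hvu⟩
    · rcases hsph u (hs2 hu) h1 with h | h
      · exact absurd hu.1 (by rw [h]; linarith)
      · rw [h]; rfl
    · have h3 := hinj (hs1 hv) (hs2 hu) hvu
      exact absurd hu.1 (by rw [← h3]; linarith [hv.2])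
  have hpre1 : IsPreconnected (sphere (0 : ℂ) R ∩ α '' Icc 0 u1) :=
    (subsingleton_singleton.anti hint1).isPreconnected
  have hpre2 : IsPreconnected ((sphere (0 : ℂ) R ∪ α '' Icc 0 u1) ∩ α '' Icc u2 1) :=
    (subsingleton_singleton.anti hint2).isPreconnected
  have hconn : IsPreconnected (ball 0 R \ ((sphere 0 R ∪ α '' Icc 0 u1) ∪ α '' Icc u2 1)) := by
    refine conn_of_cob hJc (fun y hy => Or.inl (Or.inl hy)) ?_ ?_
    · rintro y ((h | ⟨u, hu, rfl⟩) | ⟨u, hu, rfl⟩)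
      · exact sphere_subset_closedBall h
      · exact hR (mem_image_of_mem _ (hs1 hu))
      · exact hR (mem_image_of_mem _ (hs2 hu))
    · intro p1 hp1 p2 hp2
      have hg : Coc ((sphere 0 R ∪ α '' Icc 0 u1) ∪ α '' Icc u2 1) (th p1 + th p2) := by
        refine Coc.add ((th_coc p1).mono ?_) ((th_coc p2).mono ?_)
        · intro y hy h
          rw [mem_singleton_iff.1 h] at hy
          exact hp1.2 hy
        · intro y hy h
          rw [mem_singleton_iff.1 h] at hy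
          exact hp2.2 hy
      have hg1 : Cob (sphere 0 R ∪ α '' Icc 0 u1) (th p1 + th p2) :=
        glueCob_conn isClosed_sphere hc1.isClosed (hg.mono subset_union_left)
          (th_sphere hp1.1 hp2.1)
          (ht1 _ (hg.mono (subset_union_right.trans subset_union_left))) hpre1
      exact glueCob_conn hJ1c.isClosed hc2.isClosed hg hg1
        (ht2 _ (hg.mono subset_union_right)) hpre2
  have hJY : ((sphere 0 R ∪ α '' Icc 0 u1) ∪ α '' Icc u2 1) ⊆ Y := by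
    rintro y ((h | ⟨u, hu, rfl⟩) | ⟨u, hu, rfl⟩)
    · exact Or.inl h
    · exact Or.inr (mem_image_of_mem _ (hs1 hu))
    · exact Or.inr (mem_image_of_mem _ (hs2 hu))
  have hsub : ball 0 R \ ((sphere 0 R ∪ α '' Icc 0 u1) ∪ α '' Icc u2 1) ⊆ B0 := by
    refine hconn.subset_of_closure_inter_subset hB0o ⟨b, ⟨hb.1, fun h => hbY (hJY h)⟩, hbB⟩ ?_
    rintro y ⟨hyc, hyb, hyJ⟩
    have hyY : y ∈ Yᶜ := by
      rintro (h | ⟨u, hu, rfl⟩)
      · exact hyJ (Or.inl (Or.inl h))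
      · rcases le_or_gt u u1 with h1 | h1
        · exact hyJ (Or.inl (Or.inr ⟨u, ⟨hu.1, h1⟩, rfl⟩))
        · rcases le_or_gt u2 u with h2 | h2
          · exact hyJ (Or.inr ⟨u, ⟨h2, hu.2⟩, rfl⟩)
          · exact hmid u h1 h2 hyc
    have hyo : IsOpen (connectedComponentIn Yᶜ y) := hYo.connectedComponentIn
    obtain ⟨z, hz1, hz2⟩ := mem_closure_iff.1 hyc _ hyo (mem_connectedComponentIn hyY)
    have e1 := connectedComponentIn_eq hz1
    have e2 := connectedComponentIn_eq hz2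
    rw [hB0, e2, ← e1]
    exact mem_connectedComponentIn hyY
  have hxJ : α u0 ∈ ball 0 R \ ((sphere 0 R ∪ α '' Icc 0 u1) ∪ α '' Icc u2 1) := by
    refine ⟨hxb, ?_⟩
    rintro ((h | ⟨u, hu, h⟩) | ⟨u, hu, h⟩)
    · exact hbs _ hxb h
    · have h3 := hinj (hs1 hu) hu0 h
      exact absurd hu.2 (by rw [h3]; linarith)
    · have h3 := hinj (hs2 hu) hu0 h
      exact absurd hu.1 (by rw [h3]; linarith)
  exact hB0Y (hsub hxJ) (Or.inr (mem_image_of_mem _ hu0))

end Pool.Agent.H61.PO
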