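import Pool.Agent.H61.PO.CrossCut
import Pool.Agent.H61.PO.CCLimit

/-!
# PO-15: cross cuts of a disc (3)

`crosscut`: `Y = sphere 0 R ∪ σ`, `ball 0 R \ Y = ball 0 R \ σ`; not preconnected (`cc_not_conn`), so there are `a, b ∈ ball 0 R \ σ` with
`b ∉ connectedComponentIn Yᶜ a` (otherwise the set would be equal to one component: nonempty or empty, preconnected; note `comp_ball`).
`A`, `B` = the components of `a`, `b` in `Yᶜ`: open (`IsOpen.connectedComponentIn`, `ℂ` is locally connected), connected, disjoint,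
contained in `ball 0 R` (`comp_ball`), and by `cc_two` (with `p1 = a`, `p2 = b`) every `p3` is in one of them.  Limits: `cc_limit`.
-/

namespace Pool.Agent.H61.PO

open Set Filter Topology Metric

theorem crosscut {R : ℝ} (h0 : 0 < R) {σ : Set ℂ} {p q : ℂ} (hσ : IsArc σ p q)
    (hR : σ ⊆ closedBall 0 R) (hS : sphere 0 R ∩ σ = {p, q}) :
    ∃ A B : Set ℂ, IsOpen A ∧ IsOpen B ∧ IsConnected A ∧ IsConnected B ∧ Disjoint A B ∧
      A ∪ B = ball 0 R \ σ ∧ (∀ x ∈ σ ∩ ball 0 R, x ∈ closure A) ∧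
      ∀ x ∈ σ ∩ ball 0 R, x ∈ closure B := by
  have hσc : IsClosed σ := by
    obtain ⟨α, hα, -, e, -, -⟩ := hσ
    rw [e]
    exact (isCompact_Icc.image_of_continuousOn hα).isClosed
  have hYc : IsOpen (sphere (0:ℂ) R ∪ σ)ᶜ := (isClosed_sphere.union hσc).isOpen_compl
  have hmem : ∀ x, x ∈ ball (0:ℂ) R \ σ → x ∈ (sphere (0:ℂ) R ∪ σ)ᶜ := by
    rintro x ⟨hx1, hx2⟩ (h | h)
    · rw [mem_ball] at hx1
      rw [mem_sphere] at h
      exact absurd h hx1.ne
    · exact hx2 h
  have hcomp : ∀ x, x ∈ ball (0:ℂ) R \ σ →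
      connectedComponentIn (sphere (0:ℂ) R ∪ σ)ᶜ x ⊆ ball 0 R \ σ := by
    intro x hx y hy
    exact ⟨comp_ball subset_union_left hx.1 hy,
      fun h => connectedComponentIn_subset _ _ hy (Or.inr h)⟩
  obtain ⟨a, ha, b, hb, hab⟩ : ∃ a ∈ ball (0:ℂ) R \ σ, ∃ b ∈ ball (0:ℂ) R \ σ,
      b ∉ connectedComponentIn (sphere (0:ℂ) R ∪ σ)ᶜ a := by
    by_contra hno
    push Not at hno
    apply cc_not_conn h0 hσ hR hS
    rcases (ball (0:ℂ) R \ (sphere 0 R ∪ σ)).eq_empty_or_nonempty with he | ⟨a, ha1, ha2⟩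
    · rw [he]
      exact isPreconnected_empty
    · have ha : a ∈ ball (0:ℂ) R \ σ := ⟨ha1, fun h => ha2 (Or.inr h)⟩
      have e : ball (0:ℂ) R \ (sphere 0 R ∪ σ)
          = connectedComponentIn (sphere (0:ℂ) R ∪ σ)ᶜ a := by
        apply Subset.antisymm
        · rintro b ⟨hb1, hb2⟩
          exact hno a ha b ⟨hb1, fun h => hb2 (Or.inr h)⟩
        · intro b hb
          exact ⟨(hcomp a ha hb).1, connectedComponentIn_subset _ _ hb⟩
      rw [e]
      exact isPreconnected_connectedComponentIn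
  refine ⟨connectedComponentIn (sphere (0:ℂ) R ∪ σ)ᶜ a,
    connectedComponentIn (sphere (0:ℂ) R ∪ σ)ᶜ b, hYc.connectedComponentIn,
    hYc.connectedComponentIn,
    ⟨⟨a, mem_connectedComponentIn (hmem a ha)⟩, isPreconnected_connectedComponentIn⟩,
    ⟨⟨b, mem_connectedComponentIn (hmem b hb)⟩, isPreconnected_connectedComponentIn⟩,
    ?_, ?_, fun x hx => cc_limit h0 hσ hR hS ha hx, fun x hx => cc_limit h0 hσ hR hS hb hx⟩
  · rw [Set.disjoint_left]
    intro z hza hzb
    apply hab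
    rw [connectedComponentIn_eq hza, ← connectedComponentIn_eq hzb]
    exact mem_connectedComponentIn (hmem b hb)
  · apply Subset.antisymm
    · rintro z (hz | hz)
      · exact hcomp a ha hz
      · exact hcomp b hb hz
    · intro z hz
      rcases cc_two hσ hR hS ha hb hz with h | h | h
      · exact absurd h hab
      · exact Or.inl h
      · exact Or.inr h

end Pool.Agent.H61.PO
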