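import Pool.Agent.H61.PO.CI

/-!
# PO-50: convexity facts for part G

`IsFace.eq_of_dim`: `dim_lt` contraposed.
`faces_closed`: if `F` is a nonempty subset of `G`: `y ∈ G` lies in a proper face of `G` that contains `F` if and only if there is a continuous linear functional `φ` on
`V = vectorSpan ℝ G` with `‖φ‖ = 1`, `φ (v - y) ≤ 0` for all `v ∈ G` and `φ (w - y) = 0` for all `w ∈ F`.  (=>: `IsFace.supp` for the face `H`: `z ≤ m` on `G`, `z = m` on `H`, `z < m`
somewhere on `G`; so the restriction of `z` to `V` is not zero; normalise.  <=: extend `φ` to a functional `z` on `E` (finite dimension, or Hahn-Banach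
`exists_extension_norm_eq`); `G ∩ {z = z y}` is a face (`IsFace.exposed`), contains `y` and `F`; it is not `G`: otherwise `φ` vanishes on all differences of points of `G`, which
span `V`, so `φ = 0`.)  The unit sphere of the dual of `V` is compact (finite dimension), `G` is compact, and the conditions are closed in `(y, φ)`: the set is the projection
of a compact set, so compact, closed.
`dimc_hul`-type facts: `dimc_univ_of_span`: if `affineSpan ℝ A = ⊤` then `dimc A = finrank` (`direction_affineSpan`).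
`edge_ext_finite`: a face of dimension `≤ 1` has finitely many extreme points (`dim_zero`, `dim_one`; extreme points of a segment are its end points, `ext_eq`).
`near_point`: (`K` compact convex with nonempty interior, `x` extreme, `v ∈ K`, `v ≠ x`, `N` a neighbourhood of `x`).  `w ∈ interior K`; for `t > 0` `x_t = x + t (x - v) ∉ K`
(otherwise `x` is in the open segment from `v` to `x_t`, `x` extreme gives `v = x`).  Let `s_t` be the least `s ∈ [0,1]` with `(1 - s) x_t + s w ∈ K` (closed set, contains `s = 1`), `y_t` the point; `s_t > 0`,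
and `y_t` is not in the interior of `K` (otherwise smaller `s` possible), so `y_t ∈ frontier K = rb K` (see `rb_iff`, or: `mf K y ≠ K`).  For every `s0 ∈ (0,1]` the point `(1 - s0) x + s0 w` is interior, so for
`t` small `(1 - s0) x_t + s0 w ∈ K`, `s_t ≤ s0`; so `y_t → x` and `y_t ∈ N` for small `t`.  If a proper face `H` of `K` contains `y_t`, `x`, `v`: `IsFace.supp`: `z ≤ m` on `K`,
`z = m` on `H`, `z < m` somewhere; so `z w < m` (`w` interior, `z` not constant: a linear functional which attains its maximum at an interior point is constant).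
`z x_t = m`, `z y_t = (1 - s_t) m + s_t z w < m`: contradiction.
-/

namespace Pool.Agent.H61.PO

open Set Filter Topology

variable {E : Type*} [NormedAddCommGroup E] [NormedSpace ℝ E] [FiniteDimensional ℝ E]
  {K F G A B : Set E} {x y v : E}

omit [NormedSpace ℝ E] [FiniteDimensional ℝ E] in
private theorem CG_pos {U : Set E} (hU : IsOpen U) {f : ℝ → E} (hf : Continuous f)
    (h0 : f 0 ∈ U) : ∃ δ : ℝ, 0 < δ ∧ ∀ t, |t| < δ → f t ∈ U := by
  have h1 : f ⁻¹' U ∈ 𝓝 (0 : ℝ) := (hU.preimage hf).mem_nhds h0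
  obtain ⟨δ, hδ, hs⟩ := Metric.mem_nhds_iff.1 h1
  refine ⟨δ, hδ, fun t ht => hs ?_⟩
  rw [Metric.mem_ball, Real.dist_eq, sub_zero]
  exact ht

omit [FiniteDimensional ℝ E] in
private theorem CG_max {z : E →L[ℝ] ℝ} {m : ℝ} {w a : E} (hw : w ∈ interior K)
    (hz : ∀ x ∈ K, z x ≤ m) (ha : z a < m) : z w < m := by
  by_contra hcon
  have hwm : z w = m := le_antisymm (hz w (interior_subset hw)) (not_lt.1 hcon)
  obtain ⟨δ, hδ, hs⟩ := CG_pos (U := interior K) isOpen_interior
    (f := fun t : ℝ => w + t • (w - a)) (by fun_prop) (by simpa using hw)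
  have h1 := hz _ (interior_subset (hs (δ / 2) (by rw [abs_of_pos (by linarith)]; linarith)))
  rw [map_add, map_smul, map_sub, smul_eq_mul, hwm] at h1
  have h2 : 0 < δ / 2 * (m - z a) := mul_pos (by linarith) (by linarith)
  linarith

private theorem CG_rb (hc : Convex ℝ K) (hk : IsCompact K) {w y : E} (hw : w ∈ interior K)
    (hy : y ∈ K) (hyi : y ∉ interior K) : y ∈ rb K := by
  rw [rb_iff hc hk]
  refine ⟨hy, ?_⟩
  obtain ⟨f, hf⟩ := geometric_hahn_banach_open_point hc.interior isOpen_interior hyi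
  have hle : ∀ a ∈ K, f a ≤ f y := by
    intro a ha
    by_contra hcon
    have hlt : f y < f a := not_le.1 hcon
    have hcont : Continuous fun t : ℝ => f (t • w + (1 - t) • a) := by fun_prop
    obtain ⟨δ, hδ, hs⟩ := CG_pos (E := ℝ) (U := Ioi (f y)) isOpen_Ioi hcont
      (by simpa using hlt)
    have hmin : 0 < min (δ / 2) 1 := lt_min (by linarith) one_pos
    have h1 := hs (min (δ / 2) 1) (by
      rw [abs_of_pos hmin]; exact lt_of_le_of_lt (min_le_left _ _) (by linarith))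
    have h2 := hf _ (hc.combo_interior_self_mem_interior hw ha hmin
      (sub_nonneg.2 (min_le_right (δ / 2) 1)) (by ring))
    exact absurd h2 (not_lt.2 (le_of_lt h1))
  have hface := IsFace.exposed hc hk f hle ⟨y, hy, rfl⟩
  intro heq
  have hsub := mf_min hface (show y ∈ K ∩ {x | f x = f y} from ⟨hy, rfl⟩)
  rw [heq] at hsub
  exact absurd (hsub (interior_subset hw)).2 (ne_of_lt (hf w hw))

theorem IsFace.eq_of_dim (hc : Convex ℝ K) (hF : IsFace K F) (hd : dimc K ≤ dimc F) : F = K := by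
  by_contra hne
  exact absurd (IsFace.dim_lt hc hF hne) (not_lt.2 hd)

omit [FiniteDimensional ℝ E] in
private theorem CG_unit (ψ : E →L[ℝ] ℝ) (h : ψ ≠ 0) : ‖‖ψ‖⁻¹ • ψ‖ = 1 := by
  rw [norm_smul, norm_inv, norm_norm, inv_mul_cancel₀ (norm_pos_iff.2 h).ne']

theorem faces_closed (hc : Convex ℝ G) (hk : IsCompact G) (hF : F.Nonempty) (hFG : F ⊆ G) :
    IsClosed {y | ∃ H, IsFace G H ∧ H ≠ G ∧ F ⊆ H ∧ y ∈ H} := by
  obtain ⟨V, hV⟩ : ∃ V : Submodule ℝ E, V = vectorSpan ℝ G := ⟨_, rfl⟩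
  obtain ⟨P, hP⟩ := Submodule.ClosedComplemented.of_finiteDimensional V
  have : ProperSpace (V →L[ℝ] ℝ) := FiniteDimensional.proper ℝ (V →L[ℝ] ℝ)
  have hcl : IsClosed {q : E × (V →L[ℝ] ℝ) |
      (∀ v ∈ G, q.2 (P (v - q.1)) ≤ 0) ∧ ∀ w ∈ F, q.2 (P (w - q.1)) = 0} := by
    have hcont : ∀ v : E, Continuous fun q : E × (V →L[ℝ] ℝ) =>
        q.2 (P (v - q.1)) := fun v => by fun_prop
    have e : {q : E × (V →L[ℝ] ℝ) |
        (∀ v ∈ G, q.2 (P (v - q.1)) ≤ 0) ∧ ∀ w ∈ F, q.2 (P (w - q.1)) = 0} =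
        (⋂ v ∈ G, {q | q.2 (P (v - q.1)) ≤ 0}) ∩ ⋂ w ∈ F, {q | q.2 (P (w - q.1)) = 0} := by
      ext q
      simp only [mem_ofPred_eq, mem_inter_iff, mem_iInter]
    rw [e]
    exact (isClosed_biInter fun v _ => isClosed_le (hcont v) continuous_const).inter
      (isClosed_biInter fun w _ => isClosed_eq (hcont w) continuous_const)
  have hcomp := (hk.prod (isCompact_sphere (0 : V →L[ℝ] ℝ) 1)).inter_right hcl
  have himg := hcomp.image continuous_fst
  have hPz : ∀ a ∈ G, ∀ b ∈ G, (P (a - b) : E) = a - b := by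
    intro a ha b hb
    have h1 := hP ⟨a - b, hV ▸ vsub_mem_vectorSpan ℝ ha hb⟩
    exact congrArg Subtype.val h1
  have heq : {y | ∃ H, IsFace G H ∧ H ≠ G ∧ F ⊆ H ∧ y ∈ H} =
      Prod.fst '' ((G ×ˢ Metric.sphere (0 : V →L[ℝ] ℝ) 1) ∩
        {q : E × (V →L[ℝ] ℝ) |
          (∀ v ∈ G, q.2 (P (v - q.1)) ≤ 0) ∧ ∀ w ∈ F, q.2 (P (w - q.1)) = 0}) := by
    apply Subset.antisymm
    · rintro y ⟨H, hH, hne, hFH, hyH⟩
      have hyG : y ∈ G := hH.subset hyH
      obtain ⟨z, m, hz1, hz2, a, ha, hza⟩ := IsFace.supp hc hH hne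
      obtain ⟨ψ, hψ⟩ : ∃ ψ : V →L[ℝ] ℝ, ∀ x, ψ x = z x :=
        ⟨z.comp V.subtypeL, fun x => rfl⟩
      have hψP : ∀ v ∈ G, ψ (P (v - y)) = z v - m := by
        intro v hv
        rw [hψ, hPz v hv y hyG, map_sub, hz2 y hyH]
      have hψ0 : ψ ≠ 0 := by
        intro h0
        have h1 := hψP a ha
        rw [h0, zero_apply] at h1
        linarith
      have hn : 0 < ‖ψ‖ := (norm_pos_iff (E := V →L[ℝ] ℝ)).2 hψ0
      refine ⟨(y, ‖ψ‖⁻¹ • ψ), ⟨⟨hyG, ?_⟩, ?_, ?_⟩, rfl⟩
      · show ‖ψ‖⁻¹ • ψ ∈ Metric.sphere (0 : V →L[ℝ] ℝ) 1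
        exact (mem_sphere_zero_iff_norm (E := V →L[ℝ] ℝ)).2 (CG_unit ψ hψ0)
      · intro v hv
        show (‖ψ‖⁻¹ • ψ) (P (v - y)) ≤ 0
        rw [smul_apply, hψP v hv, smul_eq_mul]
        exact mul_nonpos_of_nonneg_of_nonpos (inv_nonneg.2 hn.le) (by linarith [hz1 v hv])
      · intro w hw
        show (‖ψ‖⁻¹ • ψ) (P (w - y)) = 0
        rw [smul_apply, hψP w (hFG hw), hz2 w (hFH hw), sub_self, smul_zero]
    · rintro y ⟨⟨y', φ⟩, ⟨⟨hyG, hφ⟩, h1, h2⟩, rfl⟩
      simp only at hyG hφ h1 h2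
      show ∃ H, IsFace G H ∧ H ≠ G ∧ F ⊆ H ∧ y' ∈ H
      obtain ⟨z, hz⟩ : ∃ z : E →L[ℝ] ℝ, ∀ x, z x = φ (P x) := ⟨φ.comp P, fun x => rfl⟩
      have hz1 : ∀ v ∈ G, z v ≤ z y' := by
        intro v hv
        have h3 := h1 v hv
        rw [← hz, map_sub] at h3
        linarith
      have hface := IsFace.exposed hc hk z hz1 ⟨y', hyG, rfl⟩
      refine ⟨G ∩ {x | z x = z y'}, hface, ?_, ?_, hyG, rfl⟩
      · intro heqG
        have h4 : ∀ v ∈ G, z v = z y' := fun v hv => by
          rw [← heqG] at hv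
          exact hv.2
        have hker : V ≤ LinearMap.ker (z : E →ₗ[ℝ] ℝ) := by
          rw [hV, vectorSpan_def, Submodule.span_le]
          rintro _ ⟨a, ha, b, hb, rfl⟩
          show z (a - b) = 0
          rw [map_sub, h4 a ha, h4 b hb, sub_self]
        have hφ0 : φ = 0 := by
          ext x
          have h5 : z x = 0 := hker x.2
          rw [hz, hP] at h5
          rw [h5, zero_apply]
        have h6 : ‖φ‖ = 1 := (mem_sphere_zero_iff_norm (E := V →L[ℝ] ℝ)).1 hφ
        rw [hφ0] at h6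
        exact zero_ne_one ((norm_zero (E := V →L[ℝ] ℝ)).symm.trans h6)
      · intro w hw
        refine ⟨hFG hw, ?_⟩
        have h3 := h2 w hw
        rw [← hz, map_sub] at h3
        show z w = z y'
        linarith
  rw [heq]
  exact himg.isClosed

theorem dimc_of_span (h : affineSpan ℝ A = ⊤) : dimc A = Module.finrank ℝ E := by
  unfold dimc
  rw [← direction_affineSpan, h, AffineSubspace.direction_top, finrank_top]

theorem edge_ext_finite (hF : IsFace K F) (hd : dimc F ≤ 1) :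
    (F ∩ K.extremePoints ℝ).Finite := by
  rcases Nat.lt_or_ge (dimc F) 1 with h0 | h1
  · obtain ⟨x, _, rfl⟩ := hF.dim_zero (by omega)
    exact (Set.finite_singleton x).subset inter_subset_left
  · obtain ⟨x, y, _, _, _, hseg⟩ := hF.dim_one (le_antisymm hd h1)
    refine (Set.toFinite {x, y}).subset ?_
    intro z hz
    rw [← hF.ext_eq] at hz
    by_contra hcon
    have hzx : x ≠ z := fun h => hcon (Or.inl h.symm)
    have hzy : y ≠ z := fun h => hcon (Or.inr h.symm)
    have hzF : z ∈ segment ℝ x y := by rw [← hseg]; exact hz.1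
    have hop := mem_openSegment_of_ne_left_right hzx hzy hzF
    have hxF : x ∈ F := by rw [hseg]; exact left_mem_segment ℝ x y
    have hyF : y ∈ F := by rw [hseg]; exact right_mem_segment ℝ x y
    exact hzx (hz.2 hxF hyF hop)

theorem near_point (hc : Convex ℝ K) (hk : IsCompact K) (hi : (interior K).Nonempty)
    (hx : x ∈ K.extremePoints ℝ) (hv : v ∈ K) (hvx : v ≠ x) {N : Set E} (hN : N ∈ 𝓝 x) :
    ∃ y ∈ rb K ∩ N, ∀ H, IsFace K H → H ≠ K → x ∈ H → v ∈ H → y ∉ H := by
  obtain ⟨w, hw⟩ := hi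
  have hxK : x ∈ K := hx.1
  have hpt : ∀ t : ℝ, 0 < t → x + t • (x - v) ∉ K := by
    intro t ht hmem
    have hop : x ∈ openSegment ℝ v (x + t • (x - v)) := by
      refine ⟨t / (1 + t), 1 / (1 + t), by positivity, by positivity, ?_, ?_⟩
      · field_simp
        ring
      · have h1 : (1 + t) ≠ 0 := by positivity
        rw [show x + t • (x - v) = (1 + t) • x - t • v by
          rw [smul_sub, add_smul, one_smul]; abel]
        rw [smul_sub, smul_smul, smul_smul, one_div_mul_cancel h1, one_smul,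
          show 1 / (1 + t) * t = t / (1 + t) by ring]
        abel
    exact hvx (hx.2 hv hmem hop)
  obtain ⟨Q, hQ⟩ : ∃ Q : ℝ → ℝ → E, Q = fun t s => (1 - s) • (x + t • (x - v)) + s • w := ⟨_, rfl⟩
  have hQc : Continuous fun p : ℝ × ℝ => Q p.1 p.2 := by
    rw [hQ]; fun_prop
  -- closeness
  have hQN : (fun p : ℝ × ℝ => Q p.1 p.2) ⁻¹' N ∈ 𝓝 ((0 : ℝ), (0 : ℝ)) := by
    refine hQc.continuousAt.preimage_mem_nhds ?_
    have : Q 0 0 = x := by rw [hQ]; simp
    show N ∈ 𝓝 (Q 0 0)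
    rw [this]; exact hN
  obtain ⟨δ, hδ, hball⟩ := Metric.mem_nhds_iff.1 hQN
  obtain ⟨s0, hs0⟩ : ∃ s0, s0 = min (δ / 2) 1 := ⟨_, rfl⟩
  have hs0p : 0 < s0 := by rw [hs0]; exact lt_min (by linarith) one_pos
  have hs0δ : s0 < δ := by
    rw [hs0]; exact lt_of_le_of_lt (min_le_left _ _) (by linarith)
  have hs01 : s0 ≤ 1 := by rw [hs0]; exact min_le_right _ _
  have hQ0 : Q 0 s0 ∈ interior K := by
    have h1 := hc.combo_self_interior_mem_interior hxK hw (sub_nonneg.2 hs01) hs0p (by ring)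
    rw [hQ]
    simpa using h1
  obtain ⟨δ2, hδ2, hball2⟩ := CG_pos (U := interior K) isOpen_interior
    (f := fun t => Q t s0) (by rw [hQ]; fun_prop) hQ0
  obtain ⟨t, ht⟩ : ∃ t, t = min δ δ2 / 2 := ⟨_, rfl⟩
  have hmin : 0 < min δ δ2 := lt_min hδ hδ2
  have ht0 : 0 < t := by rw [ht]; linarith
  have htδ : t < δ := by
    rw [ht]; linarith [min_le_left δ δ2]
  have htδ2 : t < δ2 := by
    rw [ht]; linarith [min_le_right δ δ2]
  have hQs0 : Q t s0 ∈ K := interior_subset (hball2 t (by rw [abs_of_pos ht0]; exact htδ2))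
  have hQtc : Continuous fun s => Q t s := hQc.comp (continuous_const.prodMk continuous_id)
  have hcomp : IsCompact (Icc (0 : ℝ) 1 ∩ (fun s => Q t s) ⁻¹' K) :=
    isCompact_Icc.inter_right (hk.isClosed.preimage hQtc)
  obtain ⟨s, hsl⟩ := hcomp.exists_isLeast ⟨s0, ⟨hs0p.le, hs01⟩, hQs0⟩
  have hsK : Q t s ∈ K := hsl.1.2
  have hs0' : 0 < s := by
    rcases hsl.1.1.1.lt_or_eq with h | h
    · exact h
    · exfalso
      apply hpt t ht0
      have h2 := hsK
      rw [← h, hQ] at h2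
      simpa using h2
  have hss0 : s ≤ s0 := hsl.2 ⟨⟨hs0p.le, hs01⟩, hQs0⟩
  have hni : Q t s ∉ interior K := by
    intro hint
    obtain ⟨δ3, hδ3, hb3⟩ := CG_pos (U := interior K) isOpen_interior
      (f := fun r => Q t (s - r)) (hQtc.comp (continuous_const.sub continuous_id))
      (by simpa using hint)
    have hm3 : 0 < min (δ3 / 2) s := lt_min (by linarith) hs0'
    have h4 := hb3 (min (δ3 / 2) s) (by
      rw [abs_of_pos hm3]; exact lt_of_le_of_lt (min_le_left _ _) (by linarith))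
    have h6 : Q t (s - min (δ3 / 2) s) ∈ K := interior_subset h4
    have h5 := hsl.2 (show s - min (δ3 / 2) s ∈ Icc (0 : ℝ) 1 ∩ (fun s => Q t s) ⁻¹' K from
      ⟨⟨sub_nonneg.2 (min_le_right _ _), by linarith [hsl.1.1.2]⟩, h6⟩)
    linarith
  refine ⟨Q t s, ⟨CG_rb hc hk hw hsK hni, ?_⟩, ?_⟩
  · apply hball (show (t, s) ∈ Metric.ball ((0 : ℝ), (0 : ℝ)) δ from ?_)
    rw [Metric.mem_ball, Prod.dist_eq, max_lt_iff]
    constructor
    · show dist t 0 < δ
      rw [Real.dist_eq, sub_zero, abs_of_pos ht0]; exact htδ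
    · show dist s 0 < δ
      rw [Real.dist_eq, sub_zero, abs_of_pos hs0']; linarith
  · intro H hH hHK hxH hvH hyH
    obtain ⟨z, m, hz1, hz2, a, _, hza⟩ := IsFace.supp hc hH hHK
    have hzw : z w < m := CG_max hw hz1 hza
    have h1 := hz2 _ hyH
    have h2 := hz2 _ hxH
    have h3 := hz2 _ hvH
    rw [hQ] at h1
    simp only [map_add, map_smul, map_sub, smul_eq_mul, h2, h3, sub_self, mul_zero,
      add_zero] at h1
    have h4 : s * (m - z w) > 0 := mul_pos hs0' (by linarith)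
    nlinarith

end Pool.Agent.H61.PO
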