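import Pool.Agent.H61.PO.CI

/-!
# PO-51: radial charts of the relative boundary

`G` compact convex, `m + 1 ≤ dimc G`, `x ∈ rb G`, `N` a neighbourhood of `x`.  `w ∈ ri G` (nonempty: `intrinsicInterior_nonempty` / `Set.Nonempty.intrinsicInterior`).
`V = vectorSpan ℝ G` (direction of `affineSpan ℝ G`), `S = {u : V | w + u ∈ G}` is convex, compact, a neighbourhood of `0` in `V` (`w ∈ ri G`).  `γ = gauge S : V → ℝ` is continuous
(`continuous_gauge`), positive for `u ≠ 0` (bounded set), `γ u < 1` iff `u ∈ interior S`, `γ u ≤ 1` iff `u ∈ S` (closed).  So `γ u = 1` iff `w + u ∈ rb G`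
(`intrinsicFrontier` corresponds to `frontier S` under the embedding of the affine span, or use `rb_iff`, `ri_iff`).  `u0 = x - w ∈ V`, `u0 ≠ 0`, `γ u0 = 1`.
Choose `u1, .., um ∈ V` such that `u0, u1, .., um` are linearly independent (`m + 1 ≤ dim V`).  For `z ∈ ℝ^m` let `u z = u0 + ∑ z i • u i` (not zero), `ρ z = w + (γ (u z))⁻¹ • u z ∈ rb G`.
`ρ` is continuous, `ρ 0 = x`, injective: comparing the coefficients of `u0`, then of `ui` (independence).  The range is in `w + span (u0, .., um)`, dimension `m + 1`.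
There is `δ > 0` with `ρ (ball 0 δ) ⊆ N`; `ι = ρ ∘ h` with `h = OpenPartialHomeomorph.univBall 0 δ` (injective, continuous, `h 0 = 0`, image `ball 0 δ`).
-/

namespace Pool.Agent.H61.PO

open Set Filter Topology

variable {E : Type*} [NormedAddCommGroup E] [NormedSpace ℝ E] [FiniteDimensional ℝ E]
  {G : Set E} {x : E}

private theorem ch_setup (hc : Convex ℝ G) (hk : IsCompact G) (hx : x ∈ rb G) :
    ∃ (w : E) (u0 : (affineSpan ℝ G).direction) (S : Set (affineSpan ℝ G).direction),
      Convex ℝ S ∧ S ∈ 𝓝 0 ∧ Bornology.IsBounded S ∧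
      (∀ u : (affineSpan ℝ G).direction, u ∈ frontier S → w + (u : E) ∈ rb G) ∧
      u0 ∈ frontier S ∧ w + (u0 : E) = x := by
  have hne : G.Nonempty := by
    rcases G.eq_empty_or_nonempty with h | h
    · rw [h, rb, intrinsicFrontier_empty] at hx
      exact absurd hx (notMem_empty _)
    · exact h
  obtain ⟨x', hx', rfl⟩ := hx
  obtain ⟨w, w', hw', rfl⟩ := hne.intrinsicInterior hc
  have : Nonempty (affineSpan ℝ G) := ⟨w'⟩
  let h : (affineSpan ℝ G).direction ≃ₜ affineSpan ℝ G :=
    (AffineIsometryEquiv.vaddConst ℝ w').toHomeomorph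
  have hh : ∀ u, ((h u : affineSpan ℝ G) : E) = (w' : E) + (u : E) := by
    intro u
    show ((u +ᵥ w' : affineSpan ℝ G) : E) = (w' : E) + (u : E)
    rw [AffineSubspace.coe_vadd, vadd_eq_add, add_comm]
  have h0 : h 0 = w' := by
    apply Subtype.ext
    rw [hh]
    simp
  refine ⟨w', h.symm x', h ⁻¹' ((↑) ⁻¹' G), ?_, ?_, ?_, ?_, ?_, ?_⟩
  · intro a ha b hb r s hr hs hrs
    show ((h (r • a + s • b) : affineSpan ℝ G) : E) ∈ G
    have ha' : ((h a : affineSpan ℝ G) : E) ∈ G := ha
    have hb' : ((h b : affineSpan ℝ G) : E) ∈ G := hb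
    rw [hh] at ha' hb' ⊢
    have := hc ha' hb' hr hs hrs
    have e : (w' : E) + ((r • a + s • b : (affineSpan ℝ G).direction) : E) =
        r • ((w' : E) + (a : E)) + s • ((w' : E) + (b : E)) := by
      rw [Submodule.coe_add, Submodule.coe_smul, Submodule.coe_smul]
      have : (w' : E) = (r + s) • (w' : E) := by rw [hrs, one_smul]
      rw [smul_add, smul_add]
      nth_rw 1 [this]
      rw [add_smul]
      abel
    rw [e]
    exact this
  · rw [← mem_interior_iff_mem_nhds, ← h.preimage_interior]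
    rw [mem_preimage, h0]
    exact hw'
  · obtain ⟨R, hR⟩ := hk.isBounded.exists_norm_le
    rw [isBounded_iff_forall_norm_le]
    refine ⟨R + ‖(w' : E)‖, ?_⟩
    intro u hu
    have hu' : ((h u : affineSpan ℝ G) : E) ∈ G := hu
    have h1 := hR _ hu'
    rw [hh] at h1
    have h2 : (u : E) = ((w' : E) + (u : E)) - (w' : E) := by abel
    calc ‖u‖ = ‖(u : E)‖ := rfl
      _ = ‖((w' : E) + (u : E)) - (w' : E)‖ := by rw [← h2]
      _ ≤ ‖(w' : E) + (u : E)‖ + ‖(w' : E)‖ := norm_sub_le _ _
      _ ≤ R + ‖(w' : E)‖ := by linarith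
  · intro u hu
    rw [← h.preimage_frontier] at hu
    exact ⟨h u, hu, hh u⟩
  · rw [← h.preimage_frontier]
    rw [mem_preimage, h.apply_symm_apply]
    exact hx'
  · rw [← hh, h.apply_symm_apply]

private theorem ch_linear {V : Type*} [NormedAddCommGroup V] [NormedSpace ℝ V]
    [FiniteDimensional ℝ V] {m : ℕ} (hd : m + 1 ≤ Module.finrank ℝ V) {u0 : V} (hu : u0 ≠ 0) :
    ∃ (W : Submodule ℝ V) (L : EuclideanSpace ℝ (Fin m) →ₗ[ℝ] V), Function.Injective L ∧
      (∀ z, L z ∈ W) ∧ ∀ r : ℝ, r • u0 ∈ W → r = 0 := by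
  obtain ⟨W, hW⟩ := Submodule.exists_isCompl (Submodule.span ℝ {u0})
  have h1 := Submodule.finrank_add_eq_of_isCompl hW
  rw [finrank_span_singleton hu] at h1
  have h2 : m ≤ Module.finrank ℝ W := by omega
  let b := Module.finBasis ℝ W
  have hb : LinearIndependent ℝ (fun i : Fin m => b (Fin.castLE h2 i)) :=
    b.linearIndependent.comp _ (Fin.castLE_injective h2)
  have hL := LinearIndependent.fintypeLinearCombination_injective hb
  refine ⟨W, W.subtype.comp ((Fintype.linearCombination ℝ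
    (fun i : Fin m => b (Fin.castLE h2 i))).comp
      (WithLp.linearEquiv 2 ℝ (Fin m → ℝ)).toLinearMap), ?_, ?_, ?_⟩
  · exact W.injective_subtype.comp (hL.comp (WithLp.linearEquiv 2 ℝ (Fin m → ℝ)).injective)
  · intro z
    exact Submodule.coe_mem _
  · intro r hr
    have h3 : r • u0 ∈ Submodule.span ℝ {u0} ⊓ W :=
      ⟨Submodule.smul_mem _ _ (Submodule.mem_span_singleton_self u0), hr⟩
    rw [hW.inf_eq_bot, Submodule.mem_bot] at h3
    exact (smul_eq_zero.1 h3).resolve_right hu

theorem radial_chart (hc : Convex ℝ G) (hk : IsCompact G) {m : ℕ} (hd : m + 1 ≤ dimc G)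
    (hx : x ∈ rb G) {N : Set E} (hN : N ∈ 𝓝 x) :
    ∃ ι : EuclideanSpace ℝ (Fin m) → E, Continuous ι ∧ Function.Injective ι ∧ ι 0 = x ∧
      (∀ z, ι z ∈ rb G ∩ N) ∧ dimc (range ι) ≤ m + 1 := by
  obtain ⟨w, u0, S, hSc, hS0, hSb, hSf, hu0, hwx⟩ := ch_setup hc hk hx
  have hd' : m + 1 ≤ Module.finrank ℝ (affineSpan ℝ G).direction := by
    rw [direction_affineSpan]
    exact hd
  have hg0 : gauge S u0 = 1 := (gauge_eq_one_iff_mem_frontier hSc hS0).2 hu0
  have hgc : Continuous (gauge S) := continuous_gauge hSc hS0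
  have hne : u0 ≠ 0 := by
    rintro rfl
    rw [gauge_zero] at hg0
    exact zero_ne_one hg0
  have hpos : ∀ v : (affineSpan ℝ G).direction, v ≠ 0 → 0 < gauge S v := by
    intro v hv
    exact (gauge_pos (absorbent_nhds_zero hS0) ((NormedSpace.isVonNBounded_iff ℝ).2 hSb)).2 hv
  obtain ⟨W, L, hLi, hLW, hW⟩ := ch_linear hd' hne
  have hLc : Continuous L := L.continuous_of_finiteDimensional
  -- the directions
  have huz : ∀ z, u0 + L z ≠ 0 := by
    intro z hz
    have h1 : (-1 : ℝ) • u0 ∈ W := by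
      have : (-1 : ℝ) • u0 = L z := by
        rw [neg_one_smul]
        exact (neg_eq_of_add_eq_zero_right hz)
      rw [this]
      exact hLW z
    have := hW _ h1
    norm_num at this
  have hgp : ∀ z, 0 < gauge S (u0 + L z) := fun z => hpos _ (huz z)
  let ρ : EuclideanSpace ℝ (Fin m) → E := fun z =>
    w + (((gauge S (u0 + L z))⁻¹ • (u0 + L z) : (affineSpan ℝ G).direction) : E)
  have hρc : Continuous ρ := by
    refine continuous_const.add (continuous_subtype_val.comp ?_)
    have h1 : Continuous fun z => u0 + L z := continuous_const.add hLc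
    exact ((hgc.comp h1).inv₀ fun z => (hgp z).ne').smul h1
  have hρ0 : ρ 0 = x := by
    show w + (((gauge S (u0 + L 0))⁻¹ • (u0 + L 0) : (affineSpan ℝ G).direction) : E) = x
    rw [map_zero, add_zero, hg0, inv_one, one_smul, hwx]
  have hρi : Function.Injective ρ := by
    intro z z' h
    have h1 : (gauge S (u0 + L z))⁻¹ • (u0 + L z) = (gauge S (u0 + L z'))⁻¹ • (u0 + L z') :=
      Subtype.ext (add_left_cancel h)
    set a := (gauge S (u0 + L z))⁻¹ with ha
    set b := (gauge S (u0 + L z'))⁻¹ with hb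
    have ha0 : a ≠ 0 := inv_ne_zero (hgp z).ne'
    have h2 : (a - b) • u0 = b • L z' - a • L z := by
      rw [smul_add, smul_add] at h1
      rw [sub_smul, sub_eq_sub_iff_add_eq_add, h1, add_comm]
    have h3 : a - b = 0 := by
      apply hW
      rw [h2]
      exact W.sub_mem (W.smul_mem _ (hLW z')) (W.smul_mem _ (hLW z))
    have h4 : a = b := sub_eq_zero.1 h3
    rw [h3, zero_smul, ← h4, ← smul_sub] at h2
    have h5 := (smul_eq_zero.1 h2.symm).resolve_left ha0
    exact (hLi (sub_eq_zero.1 h5)).symm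
  have hρr : ∀ z, ρ z ∈ rb G := by
    intro z
    apply hSf
    rw [← gauge_eq_one_iff_mem_frontier hSc hS0, gauge_smul_of_nonneg (inv_nonneg.2 (hgp z).le),
      smul_eq_mul, inv_mul_cancel₀ (hgp z).ne']
  have hρN : ρ ⁻¹' N ∈ 𝓝 (0 : EuclideanSpace ℝ (Fin m)) := by
    apply hρc.continuousAt
    rw [hρ0]
    exact hN
  obtain ⟨δ, hδ, hδN⟩ := Metric.mem_nhds_iff.1 hρN
  have hub : ∀ z, OpenPartialHomeomorph.univBall (0 : EuclideanSpace ℝ (Fin m)) δ z ∈
      Metric.ball (0 : EuclideanSpace ℝ (Fin m)) δ := by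
    intro z
    rw [← OpenPartialHomeomorph.univBall_target _ hδ]
    apply (OpenPartialHomeomorph.univBall (0 : EuclideanSpace ℝ (Fin m)) δ).map_source
    rw [OpenPartialHomeomorph.univBall_source]
    exact mem_univ z
  refine ⟨fun z => ρ (OpenPartialHomeomorph.univBall (0 : EuclideanSpace ℝ (Fin m)) δ z),
    hρc.comp (OpenPartialHomeomorph.continuous_univBall _ _), ?_, ?_, ?_, ?_⟩
  · intro z z' h
    refine (OpenPartialHomeomorph.univBall (0 : EuclideanSpace ℝ (Fin m)) δ).injOn ?_ ?_ (hρi h)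
    · rw [OpenPartialHomeomorph.univBall_source]
      exact mem_univ z
    · rw [OpenPartialHomeomorph.univBall_source]
      exact mem_univ z'
  · show ρ (OpenPartialHomeomorph.univBall (0 : EuclideanSpace ℝ (Fin m)) δ 0) = x
    rw [OpenPartialHomeomorph.univBall_apply_zero, hρ0]
  · intro z
    exact ⟨hρr _, hδN (hub z)⟩
  · -- the dimension
    let P : Submodule ℝ E := (Submodule.span ℝ {u0} ⊔ LinearMap.range L).map
      (affineSpan ℝ G).direction.subtype
    have hP : ∀ z, ρ z - w ∈ P := by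
      intro z
      refine ⟨(gauge S (u0 + L z))⁻¹ • (u0 + L z), ?_, ?_⟩
      · refine Submodule.smul_mem _ _ (Submodule.add_mem _ ?_ ?_)
        · exact Submodule.mem_sup_left (Submodule.mem_span_singleton_self u0)
        · exact Submodule.mem_sup_right ⟨z, rfl⟩
      · show _ = w + _ - w
        rw [add_sub_cancel_left]
        rfl
    have h1 : vectorSpan ℝ (range fun z =>
        ρ (OpenPartialHomeomorph.univBall (0 : EuclideanSpace ℝ (Fin m)) δ z)) ≤ P := by
      rw [vectorSpan_def, Submodule.span_le]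
      rintro v ⟨_, ⟨z, rfl⟩, _, ⟨z', rfl⟩, rfl⟩
      show _ - _ ∈ P
      have := P.sub_mem
        (hP (OpenPartialHomeomorph.univBall (0 : EuclideanSpace ℝ (Fin m)) δ z))
        (hP (OpenPartialHomeomorph.univBall (0 : EuclideanSpace ℝ (Fin m)) δ z'))
      rwa [sub_sub_sub_cancel_right] at this
    have h2 : Module.finrank ℝ P ≤ m + 1 := by
      refine (Submodule.finrank_map_le _ _).trans ?_
      refine (Submodule.finrank_add_le_finrank_add_finrank _ _).trans ?_
      rw [finrank_span_singleton hne]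
      have := LinearMap.finrank_range_le L
      rw [finrank_euclideanSpace, Fintype.card_fin] at this
      omega
    exact (Submodule.finrank_mono h1).trans h2

end Pool.Agent.H61.PO
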