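import Pool.Agent.H61.PO.Defs

/-!
# PO-01: basic facts on local cocycles

All are direct from the definitions (intersect neighbourhoods; `ZMod 2`: `x + x = 0`, `CharTwo.add_self_eq_zero`).
-/

namespace Pool.Agent.H61.PO

open Set Filter Topology

variable {X Y : Type*} [TopologicalSpace X] [TopologicalSpace Y]

private theorem coc_dbl (a : ZMod 2) : a + a = 0 := CharTwo.add_self_eq_zero a

private theorem coc_nhds {A : Set X} {B : Set Y} {φ : X → Y} (hφ : ContinuousOn φ A)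
    (hm : MapsTo φ A B) {x : X} (hx : x ∈ A) {U : Set Y} (hU : U ∈ 𝓝 (φ x)) :
    ∃ V ∈ 𝓝 x, ∀ a ∈ V ∩ A, φ a ∈ U ∩ B := by
  obtain ⟨V, hV, h⟩ := mem_nhdsWithin_iff_exists_mem_nhds_inter.1 ((hφ x hx).preimage_mem_nhdsWithin hU)
  exact ⟨V, hV, fun a ha => ⟨h ha, hm ha.2⟩⟩

theorem Coc.mono {A B : Set X} {g : X → X → ZMod 2} (h : Coc B g) (hAB : A ⊆ B) : Coc A g := by
  intro x hx
  obtain ⟨U, hU, h1⟩ := h x (hAB hx)
  exact ⟨U, hU, fun a ha b hb c hc => h1 a ⟨ha.1, hAB ha.2⟩ b ⟨hb.1, hAB hb.2⟩ c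
    ⟨hc.1, hAB hc.2⟩⟩

theorem LCob.mono {A B : Set X} {g : X → X → ZMod 2} {s : X → ZMod 2} (h : LCob B g s)
    (hAB : A ⊆ B) : LCob A g s := by
  intro x hx
  obtain ⟨U, hU, h1⟩ := h x (hAB hx)
  exact ⟨U, hU, fun a ha b hb => h1 a ⟨ha.1, hAB ha.2⟩ b ⟨hb.1, hAB hb.2⟩⟩

theorem Cob.mono {A B : Set X} {g : X → X → ZMod 2} (h : Cob B g) (hAB : A ⊆ B) : Cob A g := by
  obtain ⟨s, hs⟩ := h
  exact ⟨s, hs.mono hAB⟩

theorem Coc.zero (A : Set X) : Coc A (fun _ _ => 0) :=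
  fun _ _ => ⟨univ, univ_mem, fun _ _ _ _ _ _ => add_zero 0⟩

theorem Cob.zero (A : Set X) : Cob A (fun _ _ => 0) :=
  ⟨fun _ => 0, fun _ _ => ⟨univ, univ_mem, fun _ _ _ _ => (add_zero 0).symm⟩⟩

theorem Coc.add {A : Set X} {g h : X → X → ZMod 2} (hg : Coc A g) (hh : Coc A h) :
    Coc A (g + h) := by
  intro x hx
  obtain ⟨U, hU, h1⟩ := hg x hx
  obtain ⟨V, hV, h2⟩ := hh x hx
  refine ⟨U ∩ V, inter_mem hU hV, fun a ha b hb c hc => ?_⟩
  have e1 := h1 a ⟨ha.1.1, ha.2⟩ b ⟨hb.1.1, hb.2⟩ c ⟨hc.1.1, hc.2⟩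
  have e2 := h2 a ⟨ha.1.2, ha.2⟩ b ⟨hb.1.2, hb.2⟩ c ⟨hc.1.2, hc.2⟩
  show g a b + h a b + (g b c + h b c) = g a c + h a c
  rw [← e1, ← e2]
  ring

theorem LCob.add {A : Set X} {g h : X → X → ZMod 2} {s t : X → ZMod 2} (hg : LCob A g s)
    (hh : LCob A h t) : LCob A (g + h) (s + t) := by
  intro x hx
  obtain ⟨U, hU, h1⟩ := hg x hx
  obtain ⟨V, hV, h2⟩ := hh x hx
  refine ⟨U ∩ V, inter_mem hU hV, fun a ha b hb => ?_⟩
  have e1 := h1 a ⟨ha.1.1, ha.2⟩ b ⟨hb.1.1, hb.2⟩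
  have e2 := h2 a ⟨ha.1.2, ha.2⟩ b ⟨hb.1.2, hb.2⟩
  show g a b + h a b = s a + t a + (s b + t b)
  rw [e1, e2]
  ring

theorem Cob.add {A : Set X} {g h : X → X → ZMod 2} (hg : Cob A g) (hh : Cob A h) :
    Cob A (g + h) := by
  obtain ⟨s, hs⟩ := hg
  obtain ⟨t, ht⟩ := hh
  exact ⟨s + t, hs.add ht⟩

theorem LCob.coc {A : Set X} {g : X → X → ZMod 2} {s : X → ZMod 2} (h : LCob A g s) :
    Coc A g := by
  intro x hx
  obtain ⟨U, hU, h1⟩ := h x hx
  refine ⟨U, hU, fun a ha b hb c hc => ?_⟩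
  rw [h1 a ha b hb, h1 b hb c hc, h1 a ha c hc]
  have e := coc_dbl (s b)
  calc s a + s b + (s b + s c) = s a + s c + (s b + s b) := by ring
    _ = s a + s c := by rw [e, add_zero]

theorem Cob.coc {A : Set X} {g : X → X → ZMod 2} (h : Cob A g) : Coc A g := by
  obtain ⟨s, hs⟩ := h
  exact hs.coc

/-- `g + g = 0` -/
theorem add_self (g : X → X → ZMod 2) : g + g = fun _ _ => 0 := by
  funext a b
  exact coc_dbl (g a b)

/-- equivalence: symmetric -/
theorem Cob.symm {A : Set X} {g h : X → X → ZMod 2} (H : Cob A (g + h)) : Cob A (h + g) := by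
  rw [add_comm]
  exact H

/-- equivalence: transitive -/
theorem Cob.trans {A : Set X} {g h k : X → X → ZMod 2} (H : Cob A (g + h)) (H' : Cob A (h + k)) :
    Cob A (g + k) := by
  have h1 := H.add H'
  have h2 : g + h + (h + k) = g + k := by
    funext a b
    show g a b + h a b + (h a b + k a b) = g a b + k a b
    have e := coc_dbl (h a b)
    calc g a b + h a b + (h a b + k a b) = g a b + k a b + (h a b + h a b) := by ring
      _ = g a b + k a b := by rw [e, add_zero]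
  rw [h2] at h1
  exact h1

/-- equivalent cocycles are coboundaries together -/
theorem Cob.congr {A : Set X} {g h : X → X → ZMod 2} (H : Cob A (g + h)) : Cob A g ↔ Cob A h := by
  have key : ∀ g h : X → X → ZMod 2, Cob A (g + h) → Cob A g → Cob A h := by
    intro g h H hg
    have h1 := hg.add H
    have h2 : g + (g + h) = h := by
      funext a b
      show g a b + (g a b + h a b) = h a b
      rw [← add_assoc, coc_dbl, zero_add]
    rw [h2] at h1
    exact h1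
  exact ⟨key g h H, key h g H.symm⟩

/-- a cocycle plus a coboundary is a cocycle -/
theorem Coc.congr {A : Set X} {g h : X → X → ZMod 2} (H : Cob A (g + h)) (hg : Coc A g) :
    Coc A h := by
  have h1 := hg.add H.coc
  have h2 : g + (g + h) = h := by
    funext a b
    show g a b + (g a b + h a b) = h a b
    rw [← add_assoc, coc_dbl, zero_add]
  rw [h2] at h1
  exact h1

theorem Coc.pullback {A : Set X} {B : Set Y} {g : Y → Y → ZMod 2} (hg : Coc B g) {φ : X → Y}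
    (hφ : ContinuousOn φ A) (hm : MapsTo φ A B) : Coc A (fun a b => g (φ a) (φ b)) := by
  intro x hx
  obtain ⟨U, hU, h1⟩ := hg (φ x) (hm hx)
  obtain ⟨V, hV, h2⟩ := coc_nhds hφ hm hx hU
  exact ⟨V, hV, fun a ha b hb c hc => h1 _ (h2 a ha) _ (h2 b hb) _ (h2 c hc)⟩

theorem Cob.pullback {A : Set X} {B : Set Y} {g : Y → Y → ZMod 2} (hg : Cob B g) {φ : X → Y}
    (hφ : ContinuousOn φ A) (hm : MapsTo φ A B) : Cob A (fun a b => g (φ a) (φ b)) := by
  obtain ⟨s, hs⟩ := hg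
  refine ⟨fun a => s (φ a), fun x hx => ?_⟩
  obtain ⟨U, hU, h1⟩ := hs (φ x) (hm hx)
  obtain ⟨V, hV, h2⟩ := coc_nhds hφ hm hx hU
  exact ⟨V, hV, fun a ha b hb => h1 _ (h2 a ha) _ (h2 b hb)⟩

/-- only the values on `A` matter -/
theorem Coc.of_eqOn {A : Set X} {g h : X → X → ZMod 2} (hg : Coc A g)
    (he : ∀ a ∈ A, ∀ b ∈ A, g a b = h a b) : Coc A h := by
  intro x hx
  obtain ⟨U, hU, h1⟩ := hg x hx
  refine ⟨U, hU, fun a ha b hb c hc => ?_⟩
  rw [← he a ha.2 b hb.2, ← he b hb.2 c hc.2, ← he a ha.2 c hc.2]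
  exact h1 a ha b hb c hc

theorem Cob.of_eqOn {A : Set X} {g h : X → X → ZMod 2} (hg : Cob A g)
    (he : ∀ a ∈ A, ∀ b ∈ A, g a b = h a b) : Cob A h := by
  obtain ⟨s, hs⟩ := hg
  refine ⟨s, fun x hx => ?_⟩
  obtain ⟨U, hU, h1⟩ := hs x hx
  refine ⟨U, hU, fun a ha b hb => ?_⟩
  rw [← he a ha.2 b hb.2]
  exact h1 a ha b hb

/-- near a point of `A` a cocycle is reflexive and symmetric -/
theorem Coc.refl_symm {A : Set X} {g : X → X → ZMod 2} (hg : Coc A g) {x : X} (hx : x ∈ A) :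
    ∃ U ∈ 𝓝 x, (∀ a ∈ U ∩ A, g a a = 0) ∧ (∀ a ∈ U ∩ A, ∀ b ∈ U ∩ A, g a b = g b a) ∧
      ∀ a ∈ U ∩ A, ∀ b ∈ U ∩ A, ∀ c ∈ U ∩ A, g a b + g b c = g a c := by
  obtain ⟨U, hU, h1⟩ := hg x hx
  have h0 : ∀ a ∈ U ∩ A, g a a = 0 := by
    intro a ha
    have e := h1 a ha a ha a ha
    rw [coc_dbl] at e
    exact e.symm
  refine ⟨U, hU, h0, ?_, h1⟩
  intro a ha b hb
  have e := h1 a ha b hb a ha
  rw [h0 a ha] at e
  calc g a b = g a b + (g b a + g b a) := by rw [coc_dbl, add_zero]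
    _ = (g a b + g b a) + g b a := by rw [add_assoc]
    _ = g b a := by rw [e, zero_add]

/-- on a preconnected set two primitives differ by a constant -/
theorem LCob.const {A : Set X} {g : X → X → ZMod 2} {s t : X → ZMod 2} (hs : LCob A g s)
    (ht : LCob A g t) (hA : IsPreconnected A) : ∃ c : ZMod 2, ∀ x ∈ A, s x + t x = c := by
  rcases A.eq_empty_or_nonempty with rfl | ⟨x₀, hx₀⟩
  · exact ⟨0, fun x hx => absurd hx (Set.notMem_empty x)⟩
  refine ⟨s x₀ + t x₀, fun x hx => ?_⟩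
  have hc : ContinuousOn (fun y => decide (s y + t y = s x₀ + t x₀)) A := by
    intro y hy
    obtain ⟨U, hU, h1⟩ := hs y hy
    obtain ⟨V, hV, h2⟩ := ht y hy
    have h3 : (fun _ => decide (s y + t y = s x₀ + t x₀)) =ᶠ[𝓝[A] y]
        fun z => decide (s z + t z = s x₀ + t x₀) := by
      filter_upwards [inter_mem_nhdsWithin A (inter_mem hU hV)] with z hz
      have e1 := h1 y ⟨mem_of_mem_nhds hU, hy⟩ z ⟨hz.2.1, hz.1⟩
      have e2 := h2 y ⟨mem_of_mem_nhds hV, hy⟩ z ⟨hz.2.2, hz.1⟩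
      have e3 : ∀ a b c d : ZMod 2, a + b = c + d → a + c = b + d := by decide
      rw [e3 _ _ _ _ (e1.symm.trans e2)]
    exact tendsto_const_nhds.congr' h3
  have h4 := hA.constant hc hx hx₀
  simpa using h4

/-- a primitive may be changed by a constant -/
theorem LCob.add_const {A : Set X} {g : X → X → ZMod 2} {s : X → ZMod 2} (hs : LCob A g s)
    (c : ZMod 2) : LCob A g (fun x => s x + c) := by
  intro x hx
  obtain ⟨U, hU, h1⟩ := hs x hx
  refine ⟨U, hU, fun a ha b hb => ?_⟩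
  rw [h1 a ha b hb]
  have e := coc_dbl c
  calc s a + s b = s a + s b + (c + c) := by rw [e, add_zero]
    _ = s a + c + (s b + c) := by ring

theorem Triv.empty : Triv (∅ : Set X) :=
  fun _ _ => ⟨fun _ => 0, fun x hx => absurd hx (Set.notMem_empty x)⟩

end Pool.Agent.H61.PO
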