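import Pool.Agent.H61.PO.Disconn
import Pool.Agent.H61.PO.Dual
import Pool.Agent.H61.PO.Circ

/-!
# PO-13: cross cuts of a disc (1)

`Y = sphere 0 R ∪ σ` is compact; `ball 0 R \ σ = ball 0 R \ Y`.
`cc_two`: for `p1 p2 p3` in `ball 0 R \ σ`: `g = th p1 + th p2`, `g' = th p1 + th p3` are cocycles on `Y` and coboundaries on
the circle (`th_sphere`).  If neither is a coboundary on `Y` then `kernel` (with `A = sphere 0 R`): `g + g' = th p2 + th p3` (up to `x + x = 0`) is a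
coboundary on `Y`.  So one of the three sums is a coboundary on `Y`; `dual`.
`cc_not_conn`: `cross_class` with `A = A' = sphere 0 R` (preconnected, `SCC.preconn scc_sphere`) and `disconn`.
-/

namespace Pool.Agent.H61.PO

open Set Filter Topology Metric

private theorem crossCut_mem {R : ℝ} {σ : Set ℂ} {x : ℂ} (hx : x ∈ ball (0 : ℂ) R \ σ) :
    x ∉ sphere (0 : ℂ) R ∪ σ := by
  rintro (h | h)
  · exact absurd (mem_ball.1 hx.1) (by rw [mem_sphere.1 h]; exact lt_irrefl _)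
  · exact hx.2 h

theorem cc_two {R : ℝ} {σ : Set ℂ} {p q : ℂ} (hσ : IsArc σ p q) (hR : σ ⊆ closedBall 0 R)
    (hS : sphere 0 R ∩ σ = {p, q}) {p1 p2 p3 : ℂ} (h1 : p1 ∈ ball 0 R \ σ)
    (h2 : p2 ∈ ball 0 R \ σ) (h3 : p3 ∈ ball 0 R \ σ) :
    p2 ∈ connectedComponentIn (sphere 0 R ∪ σ)ᶜ p1 ∨
    p3 ∈ connectedComponentIn (sphere 0 R ∪ σ)ᶜ p1 ∨
    p3 ∈ connectedComponentIn (sphere 0 R ∪ σ)ᶜ p2 := by
  have hY : IsCompact (sphere (0 : ℂ) R ∪ σ) := (isCompact_sphere 0 R).union hσ.compact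
  have hSY : sphere (0 : ℂ) R ⊆ sphere 0 R ∪ σ := subset_union_left
  have hYR : sphere (0 : ℂ) R ∪ σ ⊆ closedBall 0 R := union_subset sphere_subset_closedBall hR
  have hm : ∀ {x : ℂ}, x ∈ ball (0 : ℂ) R \ σ → x ∈ ball (0 : ℂ) R \ (sphere 0 R ∪ σ) :=
    fun hx => ⟨hx.1, crossCut_mem hx⟩
  have hc : ∀ {x : ℂ}, x ∈ ball (0 : ℂ) R \ σ → Coc (sphere (0 : ℂ) R ∪ σ) (th x) :=
    fun {x} hx => (th_coc x).mono fun y hy he => crossCut_mem hx ((he : y = x) ▸ hy)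
  by_cases a : Cob (sphere 0 R ∪ σ) (th p1 + th p2)
  · exact Or.inl (dual hY hSY hYR (hm h1) (hm h2) a)
  by_cases b : Cob (sphere 0 R ∪ σ) (th p1 + th p3)
  · exact Or.inr (Or.inl (dual hY hSY hYR (hm h1) (hm h3) b))
  refine Or.inr (Or.inr (dual hY hSY hYR (hm h2) (hm h3) ?_))
  have k := kernel isClosed_sphere hσ hS ((hc h1).add (hc h2)) ((hc h1).add (hc h3))
    (th_sphere h1.1 h2.1) (th_sphere h1.1 h3.1) a b
  have e : th p1 + th p2 + (th p1 + th p3) = th p2 + th p3 := by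
    funext x y
    show th p1 x y + th p2 x y + (th p1 x y + th p3 x y) = th p2 x y + th p3 x y
    have e := CharTwo.add_self_eq_zero (th p1 x y)
    calc th p1 x y + th p2 x y + (th p1 x y + th p3 x y)
        = th p2 x y + th p3 x y + (th p1 x y + th p1 x y) := by ring
      _ = th p2 x y + th p3 x y := by rw [e, add_zero]
  rwa [e] at k

theorem cc_not_conn {R : ℝ} (h0 : 0 < R) {σ : Set ℂ} {p q : ℂ} (hσ : IsArc σ p q)
    (hR : σ ⊆ closedBall 0 R) (hS : sphere 0 R ∩ σ = {p, q}) :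
    ¬ IsPreconnected (ball 0 R \ (sphere 0 R ∪ σ)) := by
  obtain ⟨g, h1, h2, h3⟩ := cross_class isClosed_sphere hσ hS
  have hp : p ∈ sphere (0 : ℂ) R ∧ q ∈ sphere (0 : ℂ) R := by
    have h : p ∈ sphere (0 : ℂ) R ∩ σ := by rw [hS]; exact mem_insert _ _
    have h' : q ∈ sphere (0 : ℂ) R ∩ σ := by rw [hS]; exact mem_insert_of_mem _ rfl
    exact ⟨h.1, h'.1⟩
  exact disconn ((isCompact_sphere 0 R).union hσ.compact) h0 subset_union_left
    (union_subset sphere_subset_closedBall hR) h1 h2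
    (h3 _ subset_rfl (SCC.preconn (scc_sphere h0)) hp.1 hp.2)

end Pool.Agent.H61.PO
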