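import Mathlib

/-!
# Pohl's conjecture (MP_beb0a3_gt), helper61: definitions for part T (topology)

Paper proof: note 1388.  Cohomology `H^1( . ; Z/2)` by local cocycles (Alexander-Spanier):
`Coc A g` (`g` is a local cocycle on `A`), `LCob A g s` (`g` is locally on `A` the coboundary of `s`),
`Cob A g` (for some `s`), `Triv A` (every local cocycle on `A` is a coboundary).
`IsArc σ p q`: `σ` is an arc with end points `p`, `q`; `SCC γ`: simple closed curve;
`Surf M`: every point of `M` has arbitrarily small neighbourhoods which are open discs.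
-/

namespace Pool.Agent.H61.PO

open Set Filter Topology

variable {X : Type*} [TopologicalSpace X]

/-- local cocycle on `A` -/
def Coc (A : Set X) (g : X → X → ZMod 2) : Prop :=
  ∀ x ∈ A, ∃ U ∈ 𝓝 x, ∀ a ∈ U ∩ A, ∀ b ∈ U ∩ A, ∀ c ∈ U ∩ A, g a b + g b c = g a c

/-- `g` is locally on `A` the coboundary of `s` -/
def LCob (A : Set X) (g : X → X → ZMod 2) (s : X → ZMod 2) : Prop :=
  ∀ x ∈ A, ∃ U ∈ 𝓝 x, ∀ a ∈ U ∩ A, ∀ b ∈ U ∩ A, g a b = s a + s b

/-- `g` is a coboundary on `A` -/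
def Cob (A : Set X) (g : X → X → ZMod 2) : Prop := ∃ s : X → ZMod 2, LCob A g s

/-- every local cocycle on `A` is a coboundary -/
def Triv (A : Set X) : Prop := ∀ g : X → X → ZMod 2, Coc A g → Cob A g

/-- `σ` is an arc from `p` to `q` -/
def IsArc (σ : Set X) (p q : X) : Prop :=
  ∃ α : ℝ → X, ContinuousOn α (Icc 0 1) ∧ InjOn α (Icc 0 1) ∧ σ = α '' Icc 0 1 ∧
    α 0 = p ∧ α 1 = q

/-- simple closed curve: union of two arcs which meet exactly in their common end points -/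
def SCC (γ : Set X) : Prop :=
  ∃ (p q : X) (σ τ : Set X), IsArc σ p q ∧ IsArc τ p q ∧ σ ∩ τ = {p, q} ∧ γ = σ ∪ τ

/-- every point of `X` has arbitrarily small neighbourhoods which are open discs -/
def Surf (X : Type*) [TopologicalSpace X] : Prop :=
  ∀ x : X, ∀ V ∈ 𝓝 x, ∃ e : ℂ → X, IsOpenEmbedding e ∧ e 0 = x ∧ range e ⊆ V

/-- `x` is an arc point of `A` -/
def ArcPt (A : Set X) (x : X) : Prop :=
  ∃ α : ℝ → X, ContinuousOn α (Icc (-1) 1) ∧ InjOn α (Icc (-1) 1) ∧ α 0 = x ∧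
    α '' Icc (-1) 1 ⊆ A ∧ IsClosed (A \ α '' Ioo (-1) 1)

end Pool.Agent.H61.PO
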