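import Pool.Agent.H10.PO.Inst

/-!
# Interface to part E (helper10): finiteness of the set of essential 2-faces
-/

namespace Pool.Agent.H61.PO

open Set Filter Topology

theorem ess_finite {M : Type*} [MetricSpace M] [CompactSpace M] [ConnectedSpace M]
    {E : Type*} [NormedAddCommGroup E] [NormedSpace ℝ E] [FiniteDimensional ℝ E] {f : M → E}
    (hM : Surf M) (hf : Tight f) (hfull : affineSpan ℝ (range f) = ⊤)
    (hd : 6 ≤ Module.finrank ℝ E) : {F | Ess f F}.Finite :=
  Pool.Agent.H10.PO.ess_finite hM hf hfull hd

end Pool.Agent.H61.PO
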