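import Pool.Agent.H61.PO.Defs

/-!
# Pohl's conjecture (MP_beb0a3_gt): common definitions for the convexity part and for the map `f`

`E` is a finite dimensional real inner product space (in the end `EuclideanSpace ℝ (Fin d)`).
-/

namespace Pool.Agent.H61.PO

open Set Filter Topology

section faces

variable {E : Type*} [NormedAddCommGroup E] [NormedSpace ℝ E]

/-- `F` is a face of the compact convex set `K` (`K` itself is a face if it is nonempty) -/
def IsFace (K F : Set E) : Prop :=
  IsExtreme ℝ K F ∧ Convex ℝ F ∧ IsCompact F ∧ F.Nonempty

/-- dimension of (the affine span of) a set -/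
noncomputable def dimc (A : Set E) : ℕ := Module.finrank ℝ (vectorSpan ℝ A)

/-- relative boundary -/
def rb (F : Set E) : Set E := intrinsicFrontier ℝ F

/-- relative interior -/
def ri (F : Set E) : Set E := intrinsicInterior ℝ F

end faces

section maps

variable {M : Type*} [TopologicalSpace M] {E : Type*} [NormedAddCommGroup E] [NormedSpace ℝ E]

/-- a continuous, locally injective map with the two-piece property for closed half spaces -/
structure Tight (f : M → E) : Prop where
  cont : Continuous f
  linj : ∀ x, ∃ U ∈ 𝓝 x, InjOn f U
  tpp : ∀ (z : E →L[ℝ] ℝ) (c : ℝ), IsPreconnected {x | c ≤ z (f x)}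

/-- the convex hull of the image -/
def hul (f : M → E) : Set E := convexHull ℝ (range f)

/-- the curve of a 2-face -/
def cv (f : M → E) (F : Set E) : Set M := f ⁻¹' rb F

/-- `F` is a 2-face of the convex hull of the image -/
def Two (f : M → E) (F : Set E) : Prop := IsFace (hul f) F ∧ dimc F = 2

/-- essential 2-faces: `M` minus the curve is connected -/
def Ess (f : M → E) (F : Set E) : Prop := Two f F ∧ IsPreconnected (cv f F)ᶜ

/-- the pair is separating: `F ~ G` -/
def Sep (f : M → E) (F G : Set E) : Prop := ¬ IsPreconnected (cv f F ∪ cv f G)ᶜ

/-- the pair is flat: all points outside one component of the complement of the two curves are mapped into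
the convex hull of the two faces -/
def Flat (f : M → E) (F G : Set E) : Prop :=
  ∃ q, q ∉ cv f F ∪ cv f G ∧
    ∀ y, y ∉ connectedComponentIn (cv f F ∪ cv f G)ᶜ q → f y ∈ convexHull ℝ (F ∪ G)

end maps

end Pool.Agent.H61.PO
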