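import Pool.Agent.H61.PO.Coc

/-!
# PO-04: homotopy invariance, trivial sets

`homot`: `Y × [0,1]` is compact; for each of its points `(y,t)` there is a neighbourhood on which
`g (H .) (H .)` satisfies the cocycle identity; Lebesgue number (`lebesgue_number_lemma_of_metric`) `δ`.
Take `n` with `1/n < δ/2` and `s a = ∑ i < n, g (H a (i/n)) (H a ((i+1)/n))`.  For `a, b ∈ Y` at distance `< δ/2`, `u_i = H a (i/n)`,
`v_i = H b (i/n)`: the points `u_i, u_(i+1), v_i, v_(i+1)` come from a set of diameter `< δ`, so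
`g u_i u_(i+1) + g v_i v_(i+1) = g u_i v_i + g u_(i+1) v_(i+1)` (characteristic two, symmetry); sum over `i`.
`star`: `H a t = o + t • (a - o)`, `H a 0 = o`, `g o o = 0`.
`Triv.image`: `φ : K → φ '' K` is a homeomorphism (`K` compact, target Hausdorff), pull back by `φ`, push the
primitive forward by the inverse.
`triv_real`: `C` compact in `ℝ`: extend by `taut1` to an open `W ⊇ C` (or argue directly: by compactness `C` is covered by
finitely many pairwise disjoint compact sets `C ∩ [u,v]` on each of which the cocycle identity holds for all triples).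
`triv_circle`: `a ↦ arg (-a / z)` is continuous and injective on `sphere 0 1` minus `z`.
-/

namespace Pool.Agent.H61.PO

open Set Filter Topology

private theorem homot_tel {n : ℕ} (d e : ℕ → ZMod 2) (h : ∀ i < n, e i = d i + d (i + 1)) :
    ∑ i ∈ Finset.range n, e i = d 0 + d n := by
  induction n with
  | zero => rw [Finset.range_zero, Finset.sum_empty, CharTwo.add_self_eq_zero]
  | succ n ih =>
    rw [Finset.sum_range_succ, ih (fun i hi => h i (Nat.lt_succ_of_lt hi)), h n (Nat.lt_succ_self n)]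
    have h1 := CharTwo.add_self_eq_zero (d n)
    calc d 0 + d n + (d n + d (n + 1)) = d 0 + d (n + 1) + (d n + d n) := by ring
      _ = d 0 + d (n + 1) := by rw [h1, add_zero]

theorem homot {X Z : Type*} [MetricSpace X] [TopologicalSpace Z] {Y : Set X} (hY : IsCompact Y)
    {A : Set Z} {g : Z → Z → ZMod 2} (hg : Coc A g) (H : X → ℝ → Z)
    (hH : ContinuousOn (fun p : X × ℝ => H p.1 p.2) (Y ×ˢ Icc 0 1))
    (hm : ∀ y ∈ Y, ∀ t ∈ Icc (0 : ℝ) 1, H y t ∈ A) :
    Cob Y (fun a b => g (H a 0) (H b 0) + g (H a 1) (H b 1)) := by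
  have hK : IsCompact (Y ×ˢ Icc (0 : ℝ) 1) := hY.prod isCompact_Icc
  have hmaps : MapsTo (fun p : X × ℝ => H p.1 p.2) (Y ×ˢ Icc (0 : ℝ) 1) A :=
    fun p hp => hm p.1 hp.1 p.2 hp.2
  have hc := hg.pullback hH hmaps
  choose U hU hU1 using hc
  obtain ⟨δ, hδ, hL⟩ := lebesgue_number_lemma_of_metric (s := Y ×ˢ Icc (0 : ℝ) 1)
    (c := fun p : (Y ×ˢ Icc (0 : ℝ) 1 : Set (X × ℝ)) => interior (U p.1 p.2)) hK
    (fun p => isOpen_interior)
    (fun p hp => mem_iUnion.2 ⟨⟨p, hp⟩, mem_interior_iff_mem_nhds.2 (hU p hp)⟩)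
  obtain ⟨n, hn⟩ := exists_nat_gt (1 / δ)
  have hn0 : (0 : ℝ) < n := lt_trans (by positivity) hn
  have hnδ : 1 / (n : ℝ) < δ := by
    rw [div_lt_iff₀ hn0]
    rw [div_lt_iff₀ hδ] at hn
    linarith
  refine ⟨fun a => ∑ i ∈ Finset.range n, g (H a (i / n)) (H a ((i + 1 : ℕ) / n)), ?_⟩
  intro x hx
  refine ⟨Metric.ball x (δ / 2), Metric.ball_mem_nhds x (by positivity), ?_⟩
  intro a ha b hb
  have hab : dist b a < δ := by
    have h1 : dist a x < δ / 2 := ha.1
    have h2 : dist b x < δ / 2 := hb.1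
    have h3 := dist_triangle_right b a x
    linarith
  show g (H a 0) (H b 0) + g (H a 1) (H b 1) =
    ∑ i ∈ Finset.range n, g (H a (i / n)) (H a ((i + 1 : ℕ) / n)) +
    ∑ i ∈ Finset.range n, g (H b (i / n)) (H b ((i + 1 : ℕ) / n))
  rw [← Finset.sum_add_distrib, homot_tel (fun i => g (H a (i / n)) (H b (i / n)))]
  · simp only [Nat.cast_zero, zero_div]
    rw [div_self hn0.ne']
  · intro i hi
    have hmem : ∀ k : ℕ, k ≤ n → (k : ℝ) / n ∈ Icc (0 : ℝ) 1 := by
      intro k hk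
      refine ⟨by positivity, ?_⟩
      rw [div_le_one hn0]
      exact_mod_cast hk
    have h0 := hmem i hi.le
    have h1 := hmem (i + 1) hi
    obtain ⟨p, hp⟩ := hL (a, (i : ℝ) / n) ⟨ha.2, h0⟩
    have hd : dist (((i + 1 : ℕ) : ℝ) / n) ((i : ℝ) / n) < δ := by
      have h2 : ((i + 1 : ℕ) : ℝ) / n - (i : ℝ) / n = 1 / n := by
        push_cast
        ring
      rw [Real.dist_eq, h2, abs_of_pos (by positivity)]
      exact hnδ
    have hin : ∀ c ∈ Y, dist c a < δ → ∀ t ∈ Icc (0 : ℝ) 1, dist t ((i : ℝ) / n) < δ →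
        (c, t) ∈ U p.1 p.2 ∩ Y ×ˢ Icc (0 : ℝ) 1 := by
      intro c hc hca t ht htd
      refine ⟨interior_subset (hp ?_), hc, ht⟩
      rw [Metric.mem_ball, Prod.dist_eq]
      exact max_lt hca htd
    have haa : dist a a < δ := by
      rw [dist_self]
      exact hδ
    have h00 : dist ((i : ℝ) / n) ((i : ℝ) / n) < δ := by
      rw [dist_self]
      exact hδ
    have m1 := hin a ha.2 haa _ h0 h00
    have m2 := hin a ha.2 haa _ h1 hd
    have m3 := hin b hb.2 hab _ h0 h00
    have m4 := hin b hb.2 hab _ h1 hd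
    have e1 := hU1 p.1 p.2 _ m1 _ m2 _ m4
    have e2 := hU1 p.1 p.2 _ m1 _ m3 _ m4
    have e3 : ∀ u v w x y : ZMod 2, u + v = w → x + y = w → u + y = x + v := by decide
    exact e3 _ _ _ _ _ e1 e2

theorem triv_star {E : Type*} [NormedAddCommGroup E] [NormedSpace ℝ E] {Y : Set E}
    (hY : IsCompact Y) {o : E} (ho : o ∈ Y) (hs : StarConvex ℝ o Y) : Triv Y := by
  intro g hg
  have h1 := homot hY hg (fun a t => o + t • (a - o)) (by fun_prop) (by
    intro y hy t ht
    have h2 := hs hy (sub_nonneg.2 ht.2) ht.1 (sub_add_cancel 1 t)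
    have h3 : (1 - t) • o + t • y = o + t • (y - o) := by
      rw [sub_smul, one_smul, smul_sub]
      abel
    rwa [h3] at h2)
  refine h1.of_eqOn ?_
  intro a _ b _
  obtain ⟨U, hU, h0, -⟩ := hg.refl_symm ho
  have h4 := h0 o ⟨mem_of_mem_nhds hU, ho⟩
  simp only [zero_smul, add_zero, one_smul, add_sub_cancel, h4, zero_add]

theorem Triv.image {X Z : Type*} [TopologicalSpace X] [TopologicalSpace Z] [T2Space Z]
    {K : Set X} (hK : IsCompact K) (hT : Triv K) {φ : X → Z} (hφ : ContinuousOn φ K)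
    (hi : InjOn φ K) : Triv (φ '' K) := by
  intro g hg
  rcases K.eq_empty_or_nonempty with rfl | ⟨x₀, hx₀⟩
  · rw [image_empty]
    exact Triv.empty g (by
      rw [image_empty] at hg
      exact hg)
  have hne : Nonempty X := ⟨x₀⟩
  obtain ⟨s, hs⟩ := hT _ (hg.pullback hφ (mapsTo_image φ K))
  refine ⟨fun z => s (Function.invFunOn φ K z), ?_⟩
  rintro _ ⟨x, hx, rfl⟩
  obtain ⟨U, hU, h1⟩ := hs x hx
  have hcl : IsClosed (φ '' (K \ interior U)) := by
    have h2 : IsCompact (K \ interior U) := hK.diff isOpen_interior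
    exact (h2.image_of_continuousOn (hφ.mono sdiff_subset)).isClosed
  have hx' : φ x ∈ (φ '' (K \ interior U))ᶜ := by
    rintro ⟨y, hy, hyx⟩
    have h3 : y = x := hi hy.1 hx hyx
    rw [h3] at hy
    exact hy.2 (mem_interior_iff_mem_nhds.2 hU)
  refine ⟨(φ '' (K \ interior U))ᶜ, hcl.isOpen_compl.mem_nhds hx', ?_⟩
  have key : ∀ a, a ∈ (φ '' (K \ interior U))ᶜ ∩ φ '' K →
      Function.invFunOn φ K a ∈ U ∩ K ∧ φ (Function.invFunOn φ K a) = a := by
    rintro a ⟨ha, ha'⟩
    have h4 := Function.invFunOn_mem ha'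
    have h5 := Function.invFunOn_eq ha'
    refine ⟨⟨?_, h4⟩, h5⟩
    by_contra h6
    exact ha ⟨_, ⟨h4, fun h7 => h6 (interior_subset h7)⟩, h5⟩
  intro a ha b hb
  obtain ⟨a1, a2⟩ := key a ha
  obtain ⟨b1, b2⟩ := key b hb
  have h8 : g (φ (Function.invFunOn φ K a)) (φ (Function.invFunOn φ K b)) =
      s (Function.invFunOn φ K a) + s (Function.invFunOn φ K b) := h1 _ a1 _ b1
  rw [a2, b2] at h8
  exact h8

end Pool.Agent.H61.PO
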