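import Pool.Agent.H61.PO.Discs
import Pool.Agent.H61.PO.Homot

/-!
# PO-21: finiteness of the first cohomology of a compact surface

For every `x` an open embedding `e_x : ℂ → M` with `e_x 0 = x`.  `U_x = e_x '' ball 0 1`, `K_x = e_x '' closedBall 0 1`,
`V_x = e_x '' ball 0 2`, `L_x = e_x '' closedBall 0 2` (trivial: `triv_star`, `Triv.image`).  A finite set `t` of `x` such that the `U_x`, `x ∈ t`, cover `M`.
For `x, y ∈ t` the compact set `K_x ∩ K_y` is covered by finitely many preconnected open sets contained in `V_x ∩ V_y` (small discs, `Surf`):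
index them by a finite set of points `z ∈ F x y`, with `z ∈ O_z ⊆ V_x ∩ V_y`.
For a cocycle `g` on `M` choose primitives `s g x` of `g` on `L_x` (`Classical.choose`; `0` if `g` is not a coboundary).
`data g = ` the function `(x, y, z) ↦ s g x z + s g y z` on the finite type of triples, `x, y ∈ t`, `z ∈ F x y` (into `ZMod 2`; finite function space, equivalent to some
`Fin N`).  If `data g = data g'`: `u x = s g x + s g' x` is a primitive of `g + g'` on `L_x`, and `u x + u y` is constant on each `O_z` (`LCob.const`),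
equal to `0` at `z`; so `u x = u y` on `K_x ∩ K_y`.  Define `v a = u x a` for some `x ∈ t` with `a ∈ U_x`.  Near a point `a0 ∈ U_x`: `v a = u x a` for all `a ∈ U_x`,
so `v` is a primitive of `g + g'`.
-/

namespace Pool.Agent.H61.PO

open Set Filter Topology Metric

theorem fin_data {M : Type*} [MetricSpace M] [CompactSpace M] (hM : Surf M) :
    ∃ (N : ℕ) (data : (M → M → ZMod 2) → Fin N), ∀ g g' : M → M → ZMod 2,
      Coc univ g → Coc univ g' → data g = data g' → Cob univ (g + g') := by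
  classical
  -- the discs
  have h0 : ∀ x : M, ∃ e : ℂ → M, IsOpenEmbedding e ∧ e 0 = x := by
    intro x
    obtain ⟨e, he, he0, -⟩ := hM x univ univ_mem
    exact ⟨e, he, he0⟩
  choose e he he0 using h0
  have hUo : ∀ x, IsOpen (e x '' ball 0 1) := fun x => (he x).isOpenMap _ isOpen_ball
  have hVo : ∀ x, IsOpen (e x '' ball 0 2) := fun x => (he x).isOpenMap _ isOpen_ball
  have hUx : ∀ x, x ∈ e x '' ball 0 1 := fun x => ⟨0, mem_ball_self one_pos, he0 x⟩
  have hUK : ∀ x, e x '' ball 0 1 ⊆ e x '' closedBall 0 1 := fun x =>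
    image_mono ball_subset_closedBall
  have hKV : ∀ x, e x '' closedBall 0 1 ⊆ e x '' ball 0 2 := fun x =>
    image_mono (closedBall_subset_ball (by norm_num))
  have hVL : ∀ x, e x '' ball 0 2 ⊆ e x '' closedBall 0 2 := fun x =>
    image_mono ball_subset_closedBall
  have hKc : ∀ x, IsCompact (e x '' closedBall 0 1) := fun x =>
    (isCompact_closedBall 0 1).image (he x).continuous
  have hLt : ∀ x, Triv (e x '' closedBall 0 2) := fun x =>
    Triv.image (isCompact_closedBall 0 2)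
      (triv_star (isCompact_closedBall 0 2) (mem_closedBall_self (by norm_num))
        ((convex_closedBall (0 : ℂ) 2).starConvex (mem_closedBall_self (by norm_num))))
      (he x).continuous.continuousOn (he x).injective.injOn
  -- the finite cover
  obtain ⟨t, -, ht⟩ := (isCompact_univ (X := M)).elim_nhds_subcover
    (fun x => e x '' ball 0 1) (fun x _ => (hUo x).mem_nhds (hUx x))
  -- the small connected sets
  have h1 : ∀ x y : M, ∃ (F : Finset M) (O : M → Set M),
      (∀ z ∈ F, z ∈ O z ∧ IsPreconnected (O z) ∧ O z ⊆ e x '' ball 0 2 ∩ e y '' ball 0 2) ∧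
      e x '' closedBall 0 1 ∩ e y '' closedBall 0 1 ⊆ ⋃ z ∈ F, O z := by
    intro x y
    have h2 : ∀ z : M, ∃ O : Set M, z ∈ e x '' closedBall 0 1 ∩ e y '' closedBall 0 1 →
        O ∈ 𝓝 z ∧ IsPreconnected O ∧ O ⊆ e x '' ball 0 2 ∩ e y '' ball 0 2 := by
      intro z
      by_cases hz : z ∈ e x '' closedBall 0 1 ∩ e y '' closedBall 0 1
      · obtain ⟨f, hf, hf0, hfr⟩ := hM z (e x '' ball 0 2 ∩ e y '' ball 0 2)
          (((hVo x).inter (hVo y)).mem_nhds ⟨hKV x hz.1, hKV y hz.2⟩)
        refine ⟨range f, fun _ => ⟨hf.isOpen_range.mem_nhds ⟨0, hf0⟩, ?_, hfr⟩⟩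
        exact isPreconnected_range hf.continuous
      · exact ⟨∅, fun h => absurd h hz⟩
    choose O hO using h2
    obtain ⟨F, hF, hcov⟩ := ((hKc x).inter (hKc y)).elim_nhds_subcover O
      (fun z hz => (hO z hz).1)
    exact ⟨F, O, fun z hz => ⟨mem_of_mem_nhds (hO z (hF z hz)).1, (hO z (hF z hz)).2⟩, hcov⟩
  choose F O hO hcov using h1
  -- the primitives
  have h3 : ∀ (g : M → M → ZMod 2) (x : M), ∃ s : M → ZMod 2,
      Coc univ g → LCob (e x '' closedBall 0 2) g s := by
    intro g x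
    by_cases hg : Coc univ g
    · obtain ⟨s, hs⟩ := hLt x g (hg.mono (subset_univ _))
      exact ⟨s, fun _ => hs⟩
    · exact ⟨fun _ => 0, fun h => absurd h hg⟩
  choose s hs using h3
  let T : Finset M := t.biUnion fun x => t.biUnion fun y => F x y
  obtain ⟨N, ⟨φ⟩⟩ := Finite.exists_equiv_fin (t → t → T → ZMod 2)
  refine ⟨N, fun g => φ fun x y z => s g x z + s g y z, ?_⟩
  intro g g' hg hg' hdata
  have hd := φ.injective hdata
  have hd' : ∀ x ∈ t, ∀ y ∈ t, ∀ z ∈ F x y, s g x z + s g y z = s g' x z + s g' y z := by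
    intro x hx y hy z hz
    have hzT : z ∈ T := Finset.mem_biUnion.2 ⟨x, hx, Finset.mem_biUnion.2 ⟨y, hy, hz⟩⟩
    exact congrFun (congrFun (congrFun hd ⟨x, hx⟩) ⟨y, hy⟩) ⟨z, hzT⟩
  have hu : ∀ x, LCob (e x '' closedBall 0 2) (g + g') (s g x + s g' x) := fun x =>
    (hs g x hg).add (hs g' x hg')
  have hdbl : ∀ a : ZMod 2, a + a = 0 := fun a => CharTwo.add_self_eq_zero a
  have heq : ∀ x ∈ t, ∀ y ∈ t, ∀ a ∈ e x '' closedBall 0 1 ∩ e y '' closedBall 0 1,
      (s g x + s g' x) a = (s g y + s g' y) a := by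
    intro x hx y hy a ha
    obtain ⟨z, hz, haz⟩ := mem_iUnion₂.1 (hcov x y ha)
    obtain ⟨hz1, hz2, hz3⟩ := hO x y z hz
    obtain ⟨c, hc⟩ := LCob.const
      ((hu x).mono (hz3.trans (inter_subset_left.trans (hVL x))))
      ((hu y).mono (hz3.trans (inter_subset_right.trans (hVL y)))) hz2
    have e1 := hc z hz1
    have e2 := hc a haz
    have e3 := hd' x hx y hy z hz
    have e4 : (s g x + s g' x) z + (s g y + s g' y) z = 0 := by
      show s g x z + s g' x z + (s g y z + s g' y z) = 0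
      calc s g x z + s g' x z + (s g y z + s g' y z)
          = (s g x z + s g y z) + (s g' x z + s g' y z) := by ring
        _ = 0 := by rw [e3, hdbl]
    rw [← e1, e4] at e2
    calc (s g x + s g' x) a
        = (s g x + s g' x) a + (s g y + s g' y) a + (s g y + s g' y) a := by
          rw [add_assoc, hdbl, add_zero]
      _ = (s g y + s g' y) a := by rw [e2, zero_add]
  have h4 : ∀ a : M, ∃ x ∈ t, a ∈ e x '' ball 0 1 := fun a => by
    obtain ⟨x, hx, hax⟩ := mem_iUnion₂.1 (ht (mem_univ a))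
    exact ⟨x, hx, hax⟩
  choose p hp hpa using h4
  refine ⟨fun a => (s g (p a) + s g' (p a)) a, fun a0 _ => ?_⟩
  obtain ⟨W, hW, hW1⟩ := hu (p a0) a0 (hVL _ (hKV _ (hUK _ (hpa a0))))
  refine ⟨W ∩ e (p a0) '' ball 0 1, inter_mem hW ((hUo _).mem_nhds (hpa a0)), ?_⟩
  have hv : ∀ a ∈ e (p a0) '' ball 0 1,
      (s g (p a) + s g' (p a)) a = (s g (p a0) + s g' (p a0)) a := fun a ha =>
    heq _ (hp a) _ (hp a0) a ⟨hUK _ (hpa a), hUK _ ha⟩
  intro a ha b hb
  show (g + g') a b = (s g (p a) + s g' (p a)) a + (s g (p b) + s g' (p b)) b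
  rw [hv a ha.1.2, hv b hb.1.2]
  exact hW1 a ⟨ha.1.1, hVL _ (hKV _ (hUK _ ha.1.2))⟩ b ⟨hb.1.1, hVL _ (hKV _ (hUK _ hb.1.2))⟩

end Pool.Agent.H61.PO
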