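import Pool.Agent.H61.PO.PD

/-!
# PO-36: slices at extreme points; no neighbourhood of an extreme point is mapped into a hyperplane (P6)

`slice`: `x` extreme, `f a = x`, `V` a neighbourhood of `a`.  `A = f '' (interior V)ᶜ` is compact, `x ∉ A` (`ext_uniq`: `a` is the only preimage), `A ⊆ hul f`, so
`x ∉ convexHull A` (`ext_of_conv`), which is compact; separate (`geometric_hahn_banach_point_closed` or `..compact..`): `z`, `c` with `z < c` on `convexHull A` and `c < z x`.  So
`c ≤ z (f y)` implies `y ∈ interior V`.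
`ext_span`: wlog `V` open.  Suppose `affineSpan (f '' V) ≠ ⊤`.  There are a linear functional `η` and `κ` with `η = κ` on `f '' V`, not `η = κ` on `range f` (`hfull`):
(dimension: the direction of the span is a proper subspace, take a functional which vanishes on it and is not zero; it is not constant on `range f` because `range f` spans).
`q` with `η (f q) ≠ κ`; replacing `(η, κ)` by `(-η, -κ)` we have `κ < η (f q)`.  `slice`: `z`, `c`.  `m = max of z` on `hul f` `(= max of z ∘ f)`, `T0 = {y | z (f y) = m}`, nonempty,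
closed, `T0 ⊆ V` as `m ≥ z x > c`.  For `t ≥ 0` let `S_t = {y | m + t κ ≤ (z + t η) (f y)}`, preconnected (`tpp`).  `S_t ∩ V = T0` (on `V` `η ∘ f = κ`), so `T0` is open and closed in `S_t`;
for `t` large `q ∈ S_t`; `q ∉ V`, so `q ∉ T0`: contradiction.
-/

namespace Pool.Agent.H61.PO

open Set Filter Topology

variable {M : Type*} [TopologicalSpace M] [CompactSpace M] [T2Space M] [Nonempty M]
  {E : Type*} [NormedAddCommGroup E] [NormedSpace ℝ E] [FiniteDimensional ℝ E] {f : M → E}

/-- the convex hull of a compact set in a finite dimensional space is compact (Caratheodory) -/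
private theorem PF_hull_compact {A : Set E} (hA : IsCompact A) : IsCompact (convexHull ℝ A) := by
  classical
  rcases A.eq_empty_or_nonempty with rfl | ⟨a0, ha0⟩
  · rw [convexHull_empty]
    exact isCompact_empty
  set n := Module.finrank ℝ E with hn
  have hK : IsCompact (stdSimplex ℝ (Fin (n + 1)) ×ˢ
      (Set.pi univ fun _ : Fin (n + 1) => A)) :=
    (isCompact_stdSimplex ℝ (Fin (n + 1))).prod (isCompact_univ_pi fun _ => hA)
  have hΦ : Continuous fun p : (Fin (n + 1) → ℝ) × (Fin (n + 1) → E) => ∑ i, p.1 i • p.2 i := by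
    fun_prop
  have himg := hK.image hΦ
  have heq : (fun p : (Fin (n + 1) → ℝ) × (Fin (n + 1) → E) => ∑ i, p.1 i • p.2 i) ''
      (stdSimplex ℝ (Fin (n + 1)) ×ˢ (Set.pi univ fun _ : Fin (n + 1) => A)) =
        convexHull ℝ A := by
    apply Subset.antisymm
    · rintro _ ⟨⟨w, z⟩, ⟨⟨hw0, hw1⟩, hz⟩, rfl⟩
      refine (convex_convexHull ℝ A).sum_mem (fun i _ => hw0 i) hw1 fun i _ => ?_
      exact subset_convexHull ℝ A (hz i (mem_univ i))
    · intro x hx
      obtain ⟨ι, hι, z, w, hz, hind, hw0, hw1, rfl⟩ := eq_pos_convex_span_of_mem_convexHull hx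
      have hcard : Fintype.card ι ≤ Fintype.card (Fin (n + 1)) := by
        rw [Fintype.card_fin]
        refine hind.card_le_finrank_succ.trans ?_
        exact Nat.succ_le_succ (Submodule.finrank_le _)
      obtain ⟨e⟩ := Function.Embedding.nonempty_of_card_le hcard
      have hex : ∀ i, Function.extend e w 0 (e i) = w i := fun i => e.injective.extend_apply _ _ i
      have hez : ∀ i, Function.extend e z (fun _ => a0) (e i) = z i :=
        fun i => e.injective.extend_apply _ _ i
      have hex0 : ∀ j, j ∉ range e → Function.extend e w 0 j = 0 := by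
        intro j hj
        rw [Function.extend_apply' _ _ _ (fun ⟨i, hi⟩ => hj ⟨i, hi⟩)]
        rfl
      refine ⟨(Function.extend e w 0, Function.extend e z fun _ => a0), ⟨⟨?_, ?_⟩, ?_⟩, ?_⟩
      · intro j
        show 0 ≤ Function.extend e w 0 j
        by_cases hj : j ∈ range e
        · obtain ⟨i, rfl⟩ := hj
          rw [hex]
          exact (hw0 i).le
        · rw [hex0 j hj]
      · show ∑ j, Function.extend e w 0 j = 1
        rw [← hw1]
        exact (Fintype.sum_of_injective e e.injective w _ hex0 fun i => (hex i).symm).symm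
      · intro j _
        show Function.extend e z (fun _ => a0) j ∈ A
        by_cases hj : j ∈ range e
        · obtain ⟨i, rfl⟩ := hj
          rw [hez]
          exact hz ⟨i, rfl⟩
        · rw [Function.extend_apply' _ _ _ (fun ⟨i, hi⟩ => hj ⟨i, hi⟩)]
          exact ha0
      · refine (Fintype.sum_of_injective e e.injective (fun i => w i • z i) _ (fun j hj => ?_)
          fun i => ?_).symm
        · show Function.extend e w 0 j • _ = 0
          rw [hex0 j hj, zero_smul]
        · show _ = Function.extend e w 0 (e i) • Function.extend e z (fun _ => a0) (e i)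
          rw [hex, hez]
  rw [← heq]
  exact himg

theorem slice (hf : Tight f) {x : E} (hx : x ∈ (hul f).extremePoints ℝ) {a : M} (ha : f a = x)
    {V : Set M} (hV : V ∈ 𝓝 a) :
    ∃ (z : E →L[ℝ] ℝ) (c : ℝ), c < z x ∧ ∀ y, c ≤ z (f y) → y ∈ interior V := by
  have haV : a ∈ interior V := mem_interior_iff_mem_nhds.2 hV
  have hAc : IsCompact (f '' (interior V)ᶜ) :=
    (isOpen_interior.isClosed_compl.isCompact).image hf.cont
  have hA : f '' (interior V)ᶜ ⊆ hul f := by
    rintro _ ⟨b, -, rfl⟩
    exact mem_hul b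
  have hxA : x ∉ f '' (interior V)ᶜ := by
    rintro ⟨b, hb, hbx⟩
    have h1 : f a ∈ uniq f := by
      rw [ha]
      exact ext_uniq hf hx
    have h2 : a = b := uniq_eq h1 (ha.trans hbx.symm)
    exact hb (h2 ▸ haV)
  have hxc : x ∉ convexHull ℝ (f '' (interior V)ᶜ) := fun h => hxA (ext_of_conv hul_convex hx hA h)
  have hcc : IsCompact (convexHull ℝ (f '' (interior V)ᶜ)) := PF_hull_compact hAc
  obtain ⟨z, c, h1, h2⟩ := geometric_hahn_banach_closed_point (convex_convexHull ℝ _)
    hcc.isClosed hxc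
  refine ⟨z, c, h2, fun y hy => ?_⟩
  by_contra hyV
  have h3 := h1 (f y) (subset_convexHull ℝ _ ⟨y, hyV, rfl⟩)
  linarith

private theorem PF_functional {V : Set M} {a : M} (haV : a ∈ V)
    (hfull : affineSpan ℝ (range f) = ⊤) (hne : affineSpan ℝ (f '' V) ≠ ⊤) :
    ∃ (η : E →L[ℝ] ℝ) (κ : ℝ), (∀ y ∈ V, η (f y) = κ) ∧ ∃ q, κ < η (f q) := by
  have h0 : vectorSpan ℝ (f '' V) < ⊤ := by
    rw [lt_top_iff_ne_top]
    intro h
    apply hne
    rw [← direction_affineSpan] at h
    refine (AffineSubspace.direction_eq_top_iff_of_nonempty ?_).1 h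
    exact ⟨f a, subset_affineSpan ℝ _ ⟨a, haV, rfl⟩⟩
  obtain ⟨l, hl0, hl⟩ := Submodule.exists_le_ker_of_lt_top _ h0
  have h1 : ∀ y ∈ V, l (f y) = l (f a) := by
    intro y hy
    have h2 : f y -ᵥ f a ∈ vectorSpan ℝ (f '' V) :=
      vsub_mem_vectorSpan ℝ ⟨y, hy, rfl⟩ ⟨a, haV, rfl⟩
    have h3 : l (f y -ᵥ f a) = 0 := LinearMap.mem_ker.1 (hl h2)
    rw [vsub_eq_sub, map_sub] at h3
    linarith
  have h2 : ∃ q, l (f q) ≠ l (f a) := by
    by_contra hcon
    push Not at hcon
    apply hl0
    have h3 : vectorSpan ℝ (range f) = ⊤ := by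
      rw [← direction_affineSpan, hfull, AffineSubspace.direction_top]
    have h4 : vectorSpan ℝ (range f) ≤ LinearMap.ker l := by
      rw [vectorSpan_def, Submodule.span_le]
      rintro _ ⟨_, ⟨p, rfl⟩, _, ⟨q, rfl⟩, rfl⟩
      show f p -ᵥ f q ∈ LinearMap.ker l
      rw [LinearMap.mem_ker, vsub_eq_sub, map_sub, hcon p, hcon q, sub_self]
    rw [h3, top_le_iff] at h4
    exact LinearMap.ker_eq_top.1 h4
  obtain ⟨q, hq⟩ := h2
  rcases lt_or_gt_of_ne hq with h3 | h3
  · refine ⟨-(LinearMap.toContinuousLinearMap l), -(l (f a)), fun y hy => ?_, q, ?_⟩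
    · show -(l (f y)) = -(l (f a))
      rw [h1 y hy]
    · show -(l (f a)) < -(l (f q))
      linarith
  · exact ⟨LinearMap.toContinuousLinearMap l, l (f a), fun y hy => h1 y hy, q, h3⟩

theorem ext_span (hf : Tight f) (hfull : affineSpan ℝ (range f) = ⊤) {x : E}
    (hx : x ∈ (hul f).extremePoints ℝ) {a : M} (ha : f a = x) {V : Set M} (hV : V ∈ 𝓝 a) :
    affineSpan ℝ (f '' V) = ⊤ := by
  by_contra hne0
  have haV : a ∈ interior V := mem_interior_iff_mem_nhds.2 hV
  have hne : affineSpan ℝ (f '' interior V) ≠ ⊤ := by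
    intro h
    apply hne0
    rw [← top_le_iff, ← h]
    exact affineSpan_mono ℝ (image_mono interior_subset)
  obtain ⟨η, κ, hη, q, hq⟩ := PF_functional haV hfull hne
  obtain ⟨z, c, hcx, hz⟩ := slice hf hx ha (isOpen_interior.mem_nhds haV)
  rw [interior_interior] at hz
  have hzc : Continuous fun y => z (f y) := z.continuous.comp hf.cont
  obtain ⟨p, -, hp⟩ := isCompact_univ.exists_isMaxOn (univ_nonempty (α := M)) hzc.continuousOn
  have hp' : ∀ y, z (f y) ≤ z (f p) := fun y => hp (mem_univ y)
  set m := z (f p) with hm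
  have hcm : c < m := by
    have h1 := hp' a
    rw [ha] at h1
    linarith
  have hqκ : 0 < η (f q) - κ := by linarith
  set t := (m - z (f q)) / (η (f q) - κ) with ht
  have hT : ∀ y, z (f y) = m → y ∈ interior V := fun y hy => hz y (by linarith)
  have hpre := hf.tpp (z + t • η) (m + t * κ)
  have happ : ∀ y, (z + t • η) (f y) = z (f y) + t * η (f y) := fun y => rfl
  have hclosed : IsClosed {y | z (f y) = m} := isClosed_eq hzc continuous_const
  have hkey := hpre (interior V) {y | z (f y) = m}ᶜ isOpen_interior hclosed.isOpen_compl ?_ ?_ ?_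
  · obtain ⟨y, hy, hyV, hyT⟩ := hkey
    apply hyT
    have h1 : m + t * κ ≤ (z + t • η) (f y) := hy
    rw [happ, hη y hyV] at h1
    exact le_antisymm (hp' y) (by linarith)
  · intro y _
    by_cases hy : z (f y) = m
    · exact Or.inl (hT y hy)
    · exact Or.inr hy
  · refine ⟨p, ?_, hT p rfl⟩
    show m + t * κ ≤ (z + t • η) (f p)
    rw [happ, hη p (hT p rfl)]
  · refine ⟨q, ?_, fun h => ?_⟩
    · show m + t * κ ≤ (z + t • η) (f q)
      rw [happ]
      have h1 : t * (η (f q) - κ) = m - z (f q) := by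
        rw [ht]
        exact div_mul_cancel₀ _ (ne_of_gt hqκ)
      linarith
    · have h2 := hη q (hT q h)
      linarith

end Pool.Agent.H61.PO
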