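import Pool.Agent.H61.PO.CG
import Pool.Agent.H61.PO.CH
import Pool.Agent.H61.PO.PE2
import Pool.Agent.H61.PO.PF

/-!
# PO-52: every extreme point of a face of dimension at least three lies in an essential 2-face of this face (G1)

`small_uniq`: `y ∈ H`, `H` a face of `hul f` of dimension `≤ 2`, not essential: `y ∈ uniq f`: `low_uniq` if `dimc H ≤ 1`, `filled` if `dimc H = 2` (`Two f H`).
`g1_near`: hypotheses: `G` a face of `hul f`, `x` an extreme point of `hul f`, `x ∈ G`; `IH`: for every face `H ⊆ G`, `H ≠ G`, `3 ≤ dimc H` and every extreme `y ∈ H` there is an essential `F` with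
`y ∈ F ⊆ H`; `hno`: no essential `F ⊆ G` contains `x`.
(a) a proper face `H` of `G` containing `x` has dimension `≤ 2` (otherwise `IH` at `x` contradicts `hno`).
(b) for every essential `F ⊆ G`: `x` is not in `S_F = {y | ∃ H, IsFace G H ∧ H ≠ G ∧ F ⊆ H ∧ y ∈ H}`: otherwise `dimc H ≤ 2` by (a), `F ⊆ H`, `F` is a face of `H` (`IsFace.of_subset`) of dimension `2`, so
`F = H ∋ x` (`IsFace.eq_of_dim`), contradiction to `hno`.  `S_F` is closed (`faces_closed`), there are finitely many essential `F` (`hE`): `N` = the complement of the union of the `S_F`,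
open, contains `x`.
(c) for `y ∈ rb G ∩ N`: `H = mf G y` is a proper face of `G` (`rb_iff`), a face of `hul f` (`IsFace.trans`).  If `3 ≤ dimc H` take an extreme point of `hul f` in `H` (`H` is nonempty compact convex:
`minkowski` or `IsCompact.extremePoints_nonempty`, and `IsFace.ext_eq`) and `IH`: an essential `F ⊆ H`, so `y ∈ S_F`: contradiction.  If `H` is essential: `y ∈ S_H`: contradiction.  So `small_uniq`.
`g1_contra`: `x` is in `rb G`: `{x}` is a face of `hul f`, of `G` (`IsFace.of_subset`), so `mf G x ⊆ {x} ≠ G` (`rb_iff`; dimension).  `radial_chart` with `m = 2`: `ι`.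
`φ = sec f ∘ ι ∘ (ℂ ≃ ℝ²)` is continuous and injective on `ℂ` (`sec_cont`, `sec_injOn`), so `O = range φ` is open in `M` (`invdom` with `univ`) and contains `sec f x`.  `f '' O ⊆ range ι`
(`sec_spec`), so `affineSpan (f '' O)` has dimension `≤ 3 < finrank E`; but it is `⊤` by `ext_span` (`O` is a neighbourhood of `sec f x`, `f (sec f x) = x`): contradiction.
`g1`: strong induction on `dimc G`; by contradiction with `g1_near`, `g1_contra`.
-/

namespace Pool.Agent.H61.PO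

open Set Filter Topology

variable {M : Type*} [MetricSpace M] [CompactSpace M] [Nonempty M]
  {E : Type*} [NormedAddCommGroup E] [NormedSpace ℝ E] [FiniteDimensional ℝ E] {f : M → E}

theorem small_uniq (hM : Surf M) (hf : Tight f) (hfull : affineSpan ℝ (range f) = ⊤)
    (hd : 6 ≤ Module.finrank ℝ E) {H : Set E} (hH : IsFace (hul f) H) (h2 : dimc H ≤ 2)
    (hn : ¬ Ess f H) : H ⊆ uniq f := by
  by_cases h1 : dimc H ≤ 1
  · exact low_uniq hf hH h1
  · have h2' : Two f H := ⟨hH, by omega⟩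
    exact filled hM hf hfull (by omega) h2' hn

theorem g1_near (hM : Surf M) (hf : Tight f) (hfull : affineSpan ℝ (range f) = ⊤)
    (hd : 6 ≤ Module.finrank ℝ E) (hE : {F | Ess f F}.Finite) {G : Set E}
    (hG : IsFace (hul f) G) {x : E} (hx : x ∈ (hul f).extremePoints ℝ) (hxG : x ∈ G)
    (IH : ∀ H, IsFace (hul f) H → H ⊆ G → H ≠ G → 3 ≤ dimc H →
      ∀ y ∈ (hul f).extremePoints ℝ, y ∈ H → ∃ F, Ess f F ∧ y ∈ F ∧ F ⊆ H)
    (hno : ∀ F, Ess f F → x ∈ F → ¬ F ⊆ G) : ∃ N ∈ 𝓝 x, rb G ∩ N ⊆ uniq f := by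
  have hGc : Convex ℝ G := hG.2.1
  have hGk : IsCompact G := hG.2.2.1
  have hfin : {F | Ess f F ∧ F ⊆ G}.Finite := hE.subset (fun F h => h.1)
  have hclosed : IsClosed (⋃ F ∈ {F | Ess f F ∧ F ⊆ G},
      {y | ∃ H, IsFace G H ∧ H ≠ G ∧ F ⊆ H ∧ y ∈ H}) :=
    hfin.isClosed_biUnion (fun F hF => faces_closed hGc hGk hF.1.1.1.2.2.2 hF.2)
  have hxS : x ∉ ⋃ F ∈ {F | Ess f F ∧ F ⊆ G},
      {y | ∃ H, IsFace G H ∧ H ≠ G ∧ F ⊆ H ∧ y ∈ H} := by
    rw [mem_iUnion₂]
    rintro ⟨F, ⟨hFE, hFG⟩, H, hH, hHne, hFH, hxH⟩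
    have hHhul : IsFace (hul f) H := hG.trans hH
    have hd2 : dimc H ≤ 2 := by
      by_contra h
      obtain ⟨F', hF'E, hxF', hF'H⟩ := IH H hHhul hH.subset hHne (by omega) x hx hxH
      exact hno F' hF'E hxF' (hF'H.trans hH.subset)
    have hFH' : IsFace H F := hHhul.of_subset hFE.1.1 hFH
    have heq : F = H := IsFace.eq_of_dim hHhul.2.1 hFH' (by rw [hFE.1.2]; exact hd2)
    exact hno F hFE (heq ▸ hxH) hFG
  refine ⟨_, hclosed.isOpen_compl.mem_nhds hxS, ?_⟩
  rintro y ⟨hyrb, hyN⟩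
  rw [rb_iff hGc hGk] at hyrb
  obtain ⟨hyG, hmf⟩ := hyrb
  have hHG : IsFace G (mf G y) := mf_face hGc hGk hyG
  have hHhul : IsFace (hul f) (mf G y) := hG.trans hHG
  by_cases hd3 : 3 ≤ dimc (mf G y)
  · exfalso
    obtain ⟨e, he⟩ := hHhul.2.2.1.extremePoints_nonempty hHhul.2.2.2
    rw [hHhul.ext_eq] at he
    obtain ⟨F, hFE, heF, hFH⟩ := IH _ hHhul hHG.subset hmf hd3 e he.2 he.1
    exact hyN (mem_iUnion₂.2 ⟨F, ⟨hFE, hFH.trans hHG.subset⟩, mf G y, hHG, hmf, hFH, mem_mf⟩)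
  · by_cases hess : Ess f (mf G y)
    · exfalso
      exact hyN (mem_iUnion₂.2 ⟨mf G y, ⟨hess, hHG.subset⟩, mf G y, hHG, hmf, Subset.rfl,
        mem_mf⟩)
    · exact small_uniq hM hf hfull hd hHhul (by omega) hess mem_mf

theorem g1_contra (hM : Surf M) (hf : Tight f) (hfull : affineSpan ℝ (range f) = ⊤)
    (hd : 6 ≤ Module.finrank ℝ E) {G : Set E} (hG : IsFace (hul f) G) (h3 : 3 ≤ dimc G) {x : E}
    (hx : x ∈ (hul f).extremePoints ℝ) (hxG : x ∈ G) {N : Set E} (hN : N ∈ 𝓝 x)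
    (hu : rb G ∩ N ⊆ uniq f) : False := by
  have hxrb : x ∈ rb G := by
    rw [rb_iff hG.2.1 hG.2.2.1]
    refine ⟨hxG, fun h => ?_⟩
    have h1 : IsFace G {x} := hG.of_subset (IsFace.of_ext hx) (singleton_subset_iff.2 hxG)
    have h2 : G ⊆ {x} := by
      rw [← h]
      exact mf_min h1 rfl
    have h4 := dimc_mono h2
    rw [dimc_singleton] at h4
    omega
  obtain ⟨ι, hιc, hιi, hι0, hιN, hιd⟩ := radial_chart (m := 2) hG.2.1 hG.2.2.1 h3 hxrb hN
  let e : ℂ ≃ₗᵢ[ℝ] EuclideanSpace ℝ (Fin 2) := Complex.orthonormalBasisOneI.repr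
  have hU : ∀ z : ℂ, ι (e z) ∈ uniq f := fun z => hu (hιN _)
  have hφc : Continuous fun z : ℂ => sec f (ι (e z)) :=
    (sec_cont hf.cont).comp_continuous (hιc.comp e.continuous) hU
  have hφi : Function.Injective fun z : ℂ => sec f (ι (e z)) := fun z w hzw =>
    e.injective (hιi (sec_injOn (hU z) (hU w) hzw))
  have hO : IsOpen ((fun z : ℂ => sec f (ι (e z))) '' univ) :=
    invdom hM isOpen_univ hφc.continuousOn hφi.injOn
  have hx0 : ι (e 0) = x := by
    rw [map_zero]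
    exact hι0
  have hxu : x ∈ uniq f := by
    rw [← hx0]
    exact hU 0
  have hV : (fun z : ℂ => sec f (ι (e z))) '' univ ∈ 𝓝 (sec f x) :=
    hO.mem_nhds ⟨0, mem_univ _, by show sec f (ι (e 0)) = sec f x; rw [hx0]⟩
  have hsp := ext_span hf hfull hx (sec_spec hxu) hV
  have hsub : f '' ((fun z : ℂ => sec f (ι (e z))) '' univ) ⊆ range ι := by
    rintro _ ⟨_, ⟨z, -, rfl⟩, rfl⟩
    exact ⟨e z, (sec_spec (hU z)).symm⟩
  have htop : affineSpan ℝ (range ι) = ⊤ := top_le_iff.1 (hsp ▸ affineSpan_mono ℝ hsub)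
  have := dimc_of_span htop
  omega

theorem g1 (hM : Surf M) (hf : Tight f) (hfull : affineSpan ℝ (range f) = ⊤)
    (hd : 6 ≤ Module.finrank ℝ E) (hE : {F | Ess f F}.Finite) {G : Set E}
    (hG : IsFace (hul f) G) (h3 : 3 ≤ dimc G) {x : E} (hx : x ∈ (hul f).extremePoints ℝ)
    (hxG : x ∈ G) : ∃ F, Ess f F ∧ x ∈ F ∧ F ⊆ G := by
  induction hn : dimc G using Nat.strong_induction_on generalizing G x with
  | _ n ih =>
    by_contra hcon
    obtain ⟨N, hN, hu⟩ := g1_near hM hf hfull hd hE hG hx hxG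
      (fun H hH hHG hne hH3 y hy hyH => by
        have hlt : dimc H < n := by
          rw [← hn]
          exact IsFace.dim_lt hG.2.1 (hG.of_subset hH hHG) hne
        exact ih (dimc H) hlt hH hH3 hy hyH rfl)
      (fun F hF hxF hFG => hcon ⟨F, hF, hxF, hFG⟩)
    exact g1_contra hM hf hfull hd hG h3 hx hxG hN hu

end Pool.Agent.H61.PO
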