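import Pool.Agent.H61.PO.GA

/-!
# PO-53: there are only finitely many extreme points (G2)

`uniq_open_false`: if `O` is open in `E`, `rb (hul f) ∩ O` is nonempty and contained in `uniq f`: `radial_chart` with `G = hul f`, `m = 3` (`dimc (hul f) = finrank E ≥ 6`: `dimc_of_span`,
the affine span of the hull is the span of the range), `sec f ∘ ι` is continuous and injective: `no_ball3`: contradiction.
`g2`: suppose the set `X` of extreme points is infinite.  By `g1` for `G = hul f` (`IsFace.refl`, `dimc ≥ 3`) every `x ∈ X` is in an essential `F`; finitely many `F`: some essential `F1` contains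
infinitely many `x ∈ X`.  For essential `F ≠ F1`: `F ∩ F1` is empty or a face of dimension `≤ 1` (`two_inter`), so it contains finitely many extreme points (`edge_ext_finite`): there is `x ∈ X ∩ F1`
which is in no other essential `F`.  `Om` = complement of the union of the essential `F ≠ F1` (finite union of compact sets), open, contains `x`.  `C0 = convexHull (hul f \ Om)`
is compact and `x ∉ C0` (`ext_of_conv`).
CLAIM: if `y ∈ rb (hul f)`, `y ∉ C0` and no proper face of `hul f` contains `y` and `F1`, then `y ∈ uniq f`: `H = mf (hul f) y`, a proper face (`rb_iff`).  `H = convexHull (ext H)`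
(`minkowski`), `ext H = H ∩ X` (`IsFace.ext_eq`).  If all points of `ext H` were outside `Om` then `y ∈ C0`; so there is `x' ∈ X ∩ H ∩ Om`.  If `3 ≤ dimc H`: `g1` at `x'`: essential `F`, `x' ∈ F ⊆ H`;
`x' ∈ Om` so `F = F1`, so the proper face `H` contains `y` and `F1`: contradiction.  If `H` is essential: it contains `x'`, so `H = F1`: contradiction again.  So `small_uniq`.
Let `S1 = {y | ∃ H, IsFace (hul f) H ∧ H ≠ hul f ∧ F1 ⊆ H ∧ y ∈ H}`, closed (`faces_closed`).  `O = C0ᶜ ∩ S1ᶜ` is open and `rb (hul f) ∩ O ⊆ uniq f`.  It is nonempty: choose `v ∈ F1`, `v ≠ x`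
(dimension 2), `near_point` with `N = C0ᶜ`: `y ∈ rb ∩ N` in no proper face containing `x` and `v`, so `y ∉ S1`.  (`interior (hul f)` is nonempty: the affine span is `⊤`,
`interior_convexHull_nonempty_iff_affineSpan_eq_top`.)  `uniq_open_false`.
-/

namespace Pool.Agent.H61.PO

open Set Filter Topology

variable {M : Type*} [MetricSpace M] [CompactSpace M] [Nonempty M]
  {E : Type*} [NormedAddCommGroup E] [NormedSpace ℝ E] [FiniteDimensional ℝ E] {f : M → E}

theorem uniq_open_false (hM : Surf M) (hf : Tight f) (hfull : affineSpan ℝ (range f) = ⊤)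
    (hd : 6 ≤ Module.finrank ℝ E) {O : Set E} (hO : IsOpen O) (hne : (rb (hul f) ∩ O).Nonempty)
    (hu : rb (hul f) ∩ O ⊆ uniq f) : False := by
  obtain ⟨x, hxr, hxO⟩ := hne
  have hc : Convex ℝ (hul f) := hul_convex
  have hk : IsCompact (hul f) := hul_compact hf
  have hs : affineSpan ℝ (hul f) = ⊤ := by
    unfold hul
    rw [affineSpan_convexHull, hfull]
  have hdim : 3 + 1 ≤ dimc (hul f) := by
    rw [dimc_of_span hs]
    omega
  obtain ⟨ι, h1, h2, -, h4, -⟩ := radial_chart hc hk hdim hxr (hO.mem_nhds hxO)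
  refine no_ball3 hM (φ := fun z => sec f (ι z)) ?_ ?_
  · exact (sec_cont hf.cont).comp h1.continuousOn (fun z _ => hu (h4 z))
  · intro z _ w _ h
    exact h2 (sec_injOn (hu (h4 z)) (hu (h4 w)) h)

/-- the convex hull of a compact set in a finite dimensional space is compact (Caratheodory) -/
private theorem GB_hull_compact {A : Set E} (hA : IsCompact A) : IsCompact (convexHull ℝ A) := by
  classical
  rcases A.eq_empty_or_nonempty with rfl | ⟨a0, ha0⟩
  · rw [convexHull_empty]
    exact isCompact_empty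
  set n := Module.finrank ℝ E with hn
  have hK : IsCompact (stdSimplex ℝ (Fin (n + 1)) ×ˢ
      (Set.pi univ fun _ : Fin (n + 1) => A)) :=
    (isCompact_stdSimplex ℝ (Fin (n + 1))).prod (isCompact_univ_pi fun _ => hA)
  have hΦ : Continuous fun p : (Fin (n + 1) → ℝ) × (Fin (n + 1) → E) => ∑ i, p.1 i • p.2 i := by
    fun_prop
  have himg := hK.image hΦ
  have heq : (fun p : (Fin (n + 1) → ℝ) × (Fin (n + 1) → E) => ∑ i, p.1 i • p.2 i) ''
      (stdSimplex ℝ (Fin (n + 1)) ×ˢ (Set.pi univ fun _ : Fin (n + 1) => A)) =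
        convexHull ℝ A := by
    apply Subset.antisymm
    · rintro _ ⟨⟨w, z⟩, ⟨⟨hw0, hw1⟩, hz⟩, rfl⟩
      refine (convex_convexHull ℝ A).sum_mem (fun i _ => hw0 i) hw1 fun i _ => ?_
      exact subset_convexHull ℝ A (hz i (mem_univ i))
    · intro x hx
      obtain ⟨ι, hι, z, w, hz, hind, hw0, hw1, rfl⟩ := eq_pos_convex_span_of_mem_convexHull hx
      have hcard : Fintype.card ι ≤ Fintype.card (Fin (n + 1)) := by
        rw [Fintype.card_fin]
        refine hind.card_le_finrank_succ.trans ?_
        exact Nat.succ_le_succ (Submodule.finrank_le _)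
      obtain ⟨e⟩ := Function.Embedding.nonempty_of_card_le hcard
      have hex : ∀ i, Function.extend e w 0 (e i) = w i := fun i => e.injective.extend_apply _ _ i
      have hez : ∀ i, Function.extend e z (fun _ => a0) (e i) = z i :=
        fun i => e.injective.extend_apply _ _ i
      have hex0 : ∀ j, j ∉ range e → Function.extend e w 0 j = 0 := by
        intro j hj
        rw [Function.extend_apply' _ _ _ (fun ⟨i, hi⟩ => hj ⟨i, hi⟩)]
        rfl
      refine ⟨(Function.extend e w 0, Function.extend e z fun _ => a0), ⟨⟨?_, ?_⟩, ?_⟩, ?_⟩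
      · intro j
        show 0 ≤ Function.extend e w 0 j
        by_cases hj : j ∈ range e
        · obtain ⟨i, rfl⟩ := hj
          rw [hex]
          exact (hw0 i).le
        · rw [hex0 j hj]
      · show ∑ j, Function.extend e w 0 j = 1
        rw [← hw1]
        exact (Fintype.sum_of_injective e e.injective w _ hex0 fun i => (hex i).symm).symm
      · intro j _
        show Function.extend e z (fun _ => a0) j ∈ A
        by_cases hj : j ∈ range e
        · obtain ⟨i, rfl⟩ := hj
          rw [hez]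
          exact hz ⟨i, rfl⟩
        · rw [Function.extend_apply' _ _ _ (fun ⟨i, hi⟩ => hj ⟨i, hi⟩)]
          exact ha0
      · refine (Fintype.sum_of_injective e e.injective (fun i => w i • z i) _ (fun j hj => ?_)
          fun i => ?_).symm
        · show Function.extend e w 0 j • _ = 0
          rw [hex0 j hj, zero_smul]
        · show _ = Function.extend e w 0 (e i) • Function.extend e z (fun _ => a0) (e i)
          rw [hex, hez]
  rw [← heq]
  exact himg

theorem g2 (hM : Surf M) (hf : Tight f) (hfull : affineSpan ℝ (range f) = ⊤)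
    (hd : 6 ≤ Module.finrank ℝ E) (hE : {F | Ess f F}.Finite) :
    ((hul f).extremePoints ℝ).Finite := by
  classical
  have hc : Convex ℝ (hul f) := hul_convex
  have hk : IsCompact (hul f) := hul_compact hf
  have hKn : (hul f).Nonempty := by
    obtain ⟨a⟩ := (inferInstance : Nonempty M)
    exact ⟨f a, subset_convexHull ℝ _ ⟨a, rfl⟩⟩
  have hs : affineSpan ℝ (hul f) = ⊤ := by
    unfold hul
    rw [affineSpan_convexHull, hfull]
  have h3 : 3 ≤ dimc (hul f) := by
    rw [dimc_of_span hs]
    omega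
  have hKK : IsFace (hul f) (hul f) := IsFace.refl hc hk hKn
  by_contra hinf
  -- an essential face with infinitely many extreme points
  obtain ⟨F1, hF1, hF1i⟩ : ∃ F1, Ess f F1 ∧ ¬ (F1 ∩ (hul f).extremePoints ℝ).Finite := by
    by_contra hcon
    push Not at hcon
    refine hinf (Set.Finite.subset (hE.biUnion fun F hF => hcon F hF) ?_)
    intro x hx
    obtain ⟨F, hF, hxF, -⟩ := g1 hM hf hfull hd hE hKK h3 hx (extremePoints_subset hx)
    exact mem_biUnion hF ⟨hxF, hx⟩
  -- the other essential faces contain only finitely many of them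
  have hfin : (⋃ F ∈ {F | Ess f F}, if F = F1 then (∅ : Set E) else
      (F ∩ F1) ∩ (hul f).extremePoints ℝ).Finite := by
    refine hE.biUnion fun F hF => ?_
    split_ifs with hFF
    · exact Set.finite_empty
    · rcases (F ∩ F1).eq_empty_or_nonempty with h0 | h0
      · rw [h0, empty_inter]
        exact Set.finite_empty
      · have h1 := (two_inter hF.1.1 hF1.1.1 hF.1.2 hF1.1.2 hFF).2 h0
        exact edge_ext_finite h1.1 h1.2.2.2.1
  obtain ⟨x, ⟨hxF1, hx⟩, hxo⟩ := (Set.Infinite.sdiff hF1i hfin).nonempty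
  have hxF : ∀ F, Ess f F → F ≠ F1 → x ∉ F := by
    intro F hF hne hxF
    refine hxo (mem_biUnion hF ?_)
    rw [if_neg hne]
    exact ⟨⟨hxF, hxF1⟩, hx⟩
  -- the open set and the compact convex set
  have hUcl : IsClosed (⋃ F ∈ {F | Ess f F ∧ F ≠ F1}, F) :=
    Set.Finite.isClosed_biUnion (hE.subset fun F hF => hF.1) fun F hF => hF.1.1.1.2.2.1.isClosed
  set U : Set E := ⋃ F ∈ {F | Ess f F ∧ F ≠ F1}, F with hU
  have hxU : x ∉ U := by
    intro h
    rw [hU, mem_iUnion₂] at h
    obtain ⟨F, hF, hxF'⟩ := h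
    exact hxF F hF.1 hF.2 hxF'
  have hUF : ∀ F, Ess f F → ∀ y ∈ F, y ∉ U → F = F1 := by
    intro F hF y hy hyU
    by_contra hne
    exact hyU (mem_biUnion (show F ∈ {F | Ess f F ∧ F ≠ F1} from ⟨hF, hne⟩) hy)
  have hC0 : IsCompact (convexHull ℝ (hul f ∩ U)) := GB_hull_compact (hk.inter_right hUcl)
  have hxC0 : x ∉ convexHull ℝ (hul f ∩ U) := fun h =>
    hxU (ext_of_conv hul_convex hx inter_subset_left h).2
  -- the claim
  have claim : ∀ y ∈ rb (hul f), y ∉ convexHull ℝ (hul f ∩ U) →
      (∀ H, IsFace (hul f) H → H ≠ hul f → F1 ⊆ H → y ∉ H) → y ∈ uniq f := by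
    intro y hy hyC hyH
    obtain ⟨hyK, hmf⟩ := (rb_iff hc hk).1 hy
    have hH : IsFace (hul f) (mf (hul f) y) := mf_face hc hk hyK
    have hyF1 : ¬ F1 ⊆ mf (hul f) y := fun h => hyH _ hH hmf h mem_mf
    obtain ⟨x', hx'1, hx'2⟩ : ∃ x' ∈ mf (hul f) y ∩ (hul f).extremePoints ℝ, x' ∉ U := by
      by_contra hcon
      push Not at hcon
      apply hyC
      have h1 : y ∈ convexHull ℝ ((mf (hul f) y).extremePoints ℝ) := by
        rw [minkowski hH.2.1 hH.2.2.1]
        exact mem_mf
      rw [hH.ext_eq] at h1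
      refine convexHull_mono ?_ h1
      intro z hz
      exact ⟨extremePoints_subset hz.2, hcon z hz⟩
    have hEss : ∀ F, Ess f F → x' ∈ F → F ⊆ mf (hul f) y → False := by
      intro F hF hxF hFH
      rw [hUF F hF x' hxF hx'2] at hFH
      exact hyF1 hFH
    rcases Nat.lt_or_ge (dimc (mf (hul f) y)) 3 with hd2 | hd3
    · refine small_uniq hM hf hfull hd hH (by omega) ?_ mem_mf
      intro hHE
      exact hEss _ hHE hx'1.1 subset_rfl
    · exfalso
      obtain ⟨F, hF, hxF', hFH⟩ := g1 hM hf hfull hd hE hH hd3 hx'1.2 hx'1.1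
      exact hEss F hF hxF' hFH
  -- the open set on which everything is unique
  have hF1K : F1 ⊆ hul f := hF1.1.1.subset
  have hS1 := faces_closed (F := F1) hc hk hF1.1.1.2.2.2 hF1K
  refine uniq_open_false hM hf hfull hd
    (O := (convexHull ℝ (hul f ∩ U))ᶜ ∩
      {y | ∃ H, IsFace (hul f) H ∧ H ≠ hul f ∧ F1 ⊆ H ∧ y ∈ H}ᶜ)
    (hC0.isClosed.isOpen_compl.inter hS1.isOpen_compl) ?_ ?_
  · -- nonempty
    obtain ⟨v, hv, hvx⟩ : ∃ v ∈ F1, v ≠ x := by
      by_contra hcon
      push Not at hcon
      have h1 : F1 ⊆ {x} := fun v hv => hcon v hv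
      have h2 := dimc_mono h1
      rw [dimc_singleton, hF1.1.2] at h2
      omega
    have hint : (interior (hul f)).Nonempty :=
      interior_convexHull_nonempty_iff_affineSpan_eq_top.2 hfull
    obtain ⟨y, hy, hyn⟩ := near_point hc hk hint hx (hF1K hv) hvx
      (hC0.isClosed.isOpen_compl.mem_nhds hxC0)
    refine ⟨y, hy.1, hy.2, ?_⟩
    rintro ⟨H, hH, hHne, hFH, hyH⟩
    exact hyn H hH hHne (hFH hxF1) (hFH hv) hyH
  · rintro y ⟨hy1, hy2, hy3⟩
    refine claim y hy1 hy2 fun H hH hHne hFH hyH => hy3 ⟨H, hH, hHne, hFH, hyH⟩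

end Pool.Agent.H61.PO
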