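import Pool.Agent.H61.PO.Disconn
import Pool.Agent.H61.PO.Dual
import Pool.Agent.H61.PO.Circ

/-!
# PO-19: invariance of domain in dimension two (1): the plane

`φ` continuous and injective on `closedBall c r` in `ℂ`.  `P = φ '' closedBall c r`, `J = φ '' sphere c r`, `R` so large that `P ⊆ ball 0 R`.
(a) `ball 0 R \ (S ∪ P)`, `S = sphere 0 R`, is preconnected: `conn_of_cob`: for `p, q` in it `th p + th q` is a coboundary on `S` (`th_sphere`), on `P`
(`P` is trivial: `triv_star`, `Triv.image`), `S ∩ P = ∅`: `glueCob_conn`.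
(b) `ball 0 R \ (S ∪ J)` is not preconnected: `J` is a simple closed curve (`SCC.image`, `scc_sphere`), let `g` be a class on `J` which is not a coboundary
(`SCC.class`); `glue` it with `0` on `S` (disjoint): `Coc (S ∪ J) g'`, `Cob S g'`, not `Cob J g'`; `disconn`.
(c) `ball 0 R \ J = A1 ∪ A2`, `A1 = ball 0 R \ P`, `A2 = φ '' ball c r` (injectivity: `P \ J = A2`), both preconnected and nonempty (`A1`: `P` is contained in a smaller closed
ball, as `P` is compact), disjoint.  For `x ∈ A2` let `C = connectedComponentIn (ball 0 R \ J) x` (open, as `ball 0 R \ J` is open); `A2 ⊆ C`.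
If `C` meets `A1` then `A1 ⊆ C` and `C = ball 0 R \ J` is preconnected: contradiction to (b).  So `C = A2` is open.
-/

namespace Pool.Agent.H61.PO

open Set Filter Topology Metric

/-- (a) -/
private theorem invdom_conn {P : Set ℂ} (hP : IsCompact P) (hT : Triv P) {R : ℝ}
    (hPR : P ⊆ ball 0 R) : IsPreconnected (ball 0 R \ (sphere 0 R ∪ P)) := by
  have hSP : sphere 0 R ∩ P = (∅ : Set ℂ) := by
    rw [eq_empty_iff_forall_notMem]
    rintro x ⟨h1, h2⟩
    have h3 := hPR h2
    rw [mem_sphere] at h1
    rw [mem_ball] at h3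
    linarith
  refine conn_of_cob ((isCompact_sphere 0 R).union hP) subset_union_left
    (union_subset sphere_subset_closedBall (hPR.trans ball_subset_closedBall)) ?_
  rintro p ⟨hp, hp'⟩ q ⟨hq, hq'⟩
  have h1 : Coc (sphere 0 R ∪ P) (th p) :=
    (th_coc p).mono (fun x hx h => hp' (by rw [mem_singleton_iff] at h; rw [← h]; exact hx))
  have h2 : Coc (sphere 0 R ∪ P) (th q) :=
    (th_coc q).mono (fun x hx h => hq' (by rw [mem_singleton_iff] at h; rw [← h]; exact hx))
  have h3 := h1.add h2
  refine glueCob_conn isClosed_sphere hP.isClosed h3 (th_sphere hp hq)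
    (hT _ (h3.mono subset_union_right)) ?_
  rw [hSP]
  exact isPreconnected_empty

/-- (b) -/
private theorem invdom_disc {J : Set ℂ} (hJ : SCC J) {R : ℝ} (h0 : 0 < R)
    (hJR : J ⊆ ball 0 R) : ¬ IsPreconnected (ball 0 R \ (sphere 0 R ∪ J)) := by
  have hSJ : sphere 0 R ∩ J = (∅ : Set ℂ) := by
    rw [eq_empty_iff_forall_notMem]
    rintro x ⟨h1, h2⟩
    have h3 := hJR h2
    rw [mem_sphere] at h1
    rw [mem_ball] at h3
    linarith
  obtain ⟨g, hg, hn⟩ := hJ.class
  obtain ⟨g', h1, h2, h3⟩ := glue (A := sphere (0 : ℂ) R) (B := J) isClosed_sphere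
    hJ.compact.isClosed (Coc.zero _) hg
    (by rw [hSJ]; exact ⟨fun _ => 0, fun x hx => absurd hx (notMem_empty x)⟩)
  refine disconn ((isCompact_sphere 0 R).union hJ.compact) h0 subset_union_left
    (union_subset sphere_subset_closedBall (hJR.trans ball_subset_closedBall)) h1
    (h2.congr.2 (Cob.zero _)) ?_
  intro h4
  exact hn (h3.congr.1 (h4.mono subset_union_right))

theorem invdom_plane {φ : ℂ → ℂ} {c : ℂ} {r : ℝ} (hr : 0 < r)
    (hφ : ContinuousOn φ (closedBall c r)) (hi : InjOn φ (closedBall c r)) :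
    IsOpen (φ '' ball c r) := by
  have hPc : IsCompact (φ '' closedBall c r) :=
    (isCompact_closedBall c r).image_of_continuousOn hφ
  have hsub : sphere c r ⊆ closedBall c r := sphere_subset_closedBall
  obtain ⟨R, hR0, hPR⟩ := hPc.isBounded.subset_ball_lt 0 0
  have hT : Triv (φ '' closedBall c r) :=
    Triv.image (isCompact_closedBall c r)
      (triv_star (isCompact_closedBall c r) (mem_closedBall_self hr.le)
        ((convex_closedBall c r).starConvex (mem_closedBall_self hr.le))) hφ hi
  have hJ : SCC (φ '' sphere c r) := (scc_sphere hr).image (hφ.mono hsub) (hi.mono hsub)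
  have hJR : φ '' sphere c r ⊆ ball 0 R := (image_mono hsub).trans hPR
  have ha := invdom_conn hPc hT hPR
  have hb := invdom_disc hJ hR0 hJR
  have hrem : ∀ Q : Set ℂ, ball 0 R \ (sphere 0 R ∪ Q) = ball 0 R \ Q := by
    intro Q
    ext x
    simp only [Set.mem_sdiff, mem_union, mem_ball, mem_sphere]
    constructor
    · rintro ⟨h1, h2⟩
      exact ⟨h1, fun h3 => h2 (Or.inr h3)⟩
    · rintro ⟨h1, h2⟩
      refine ⟨h1, ?_⟩
      rintro (h3 | h3)
      · exact absurd h3 h1.ne
      · exact h2 h3
  rw [hrem] at ha hb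
  have hD : IsOpen (ball (0 : ℂ) R \ φ '' sphere c r) :=
    isOpen_ball.sdiff hJ.compact.isClosed
  have hA2D : φ '' ball c r ⊆ ball 0 R \ φ '' sphere c r := by
    rintro _ ⟨x, hx, rfl⟩
    refine ⟨hPR ⟨x, ball_subset_closedBall hx, rfl⟩, ?_⟩
    rintro ⟨y, hy, hyx⟩
    have h1 : y = x := hi (hsub hy) (ball_subset_closedBall hx) hyx
    rw [h1, mem_sphere] at hy
    rw [mem_ball] at hx
    linarith
  have hA1D : ball 0 R \ φ '' closedBall c r ⊆ ball 0 R \ φ '' sphere c r :=
    sdiff_subset_sdiff_right (image_mono hsub)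
  have hcov : ball 0 R \ φ '' sphere c r ⊆
      (ball 0 R \ φ '' closedBall c r) ∪ φ '' ball c r := by
    rintro x ⟨h1, h2⟩
    by_cases h3 : x ∈ φ '' closedBall c r
    · right
      obtain ⟨y, hy, rfl⟩ := h3
      refine ⟨y, ?_, rfl⟩
      rw [mem_ball]
      rw [mem_closedBall] at hy
      refine lt_of_le_of_ne hy fun h4 => h2 ⟨y, ?_, rfl⟩
      rw [mem_sphere]
      exact h4
    · exact Or.inl ⟨h1, h3⟩
  have hA2 : IsPreconnected (φ '' ball c r) :=
    (convex_ball c r).isPreconnected.image φ (hφ.mono ball_subset_closedBall)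
  rw [isOpen_iff_mem_nhds]
  intro x hx
  have hCo : IsOpen (connectedComponentIn (ball (0 : ℂ) R \ φ '' sphere c r) x) :=
    hD.connectedComponentIn
  have hxC : x ∈ connectedComponentIn (ball (0 : ℂ) R \ φ '' sphere c r) x :=
    mem_connectedComponentIn (hA2D hx)
  refine mem_of_superset (hCo.mem_nhds hxC) ?_
  intro y hy
  have hyD := connectedComponentIn_subset _ _ hy
  rcases hcov hyD with h1 | h1
  · exfalso
    have h2 : ball 0 R \ φ '' closedBall c r ⊆
        connectedComponentIn (ball (0 : ℂ) R \ φ '' sphere c r) x := by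
      have h3 := ha.subset_connectedComponentIn h1 hA1D
      rwa [← connectedComponentIn_eq hy] at h3
    have h4 : φ '' ball c r ⊆
        connectedComponentIn (ball (0 : ℂ) R \ φ '' sphere c r) x :=
      hA2.subset_connectedComponentIn hx hA2D
    have h5 : connectedComponentIn (ball (0 : ℂ) R \ φ '' sphere c r) x =
        ball (0 : ℂ) R \ φ '' sphere c r :=
      Subset.antisymm (connectedComponentIn_subset _ _) (hcov.trans (union_subset h2 h4))
    apply hb
    rw [← h5]
    exact isPreconnected_connectedComponentIn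
  · exact h1

end Pool.Agent.H61.PO
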