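import Pool.Agent.H61.PO.CCMain

/-!
# PO-16: a cross cut in the presence of other closed sets

`S = sphere 0 1 ⊆ Y'`, `Y = Y' ∪ σ`.  `0 ∈ σ`, `0 ∉ Y'` (`Y' ∩ σ = {p,q}`, and `p`, `q` are on `S` because `S ∩ σ = {p,q}`, see below).
NOTE: `S ∩ σ = {p, q}` is the hypothesis `hS`; so `p, q ∈ S` and `0 ≠ p`, `0 ≠ q`.
`δ > 0` with `ball 0 δ ⊆ ball 0 1 \ Y'`.  `crosscut` (`R = 1`) for `σ`: `A`, `B`.
CLAIM: if `p1, p2 ∈ A ∩ ball 0 δ` (or both in `B ∩ ball 0 δ`) then `p2 ∈ connectedComponentIn Yᶜ p1`: `h = th p1 + th p2` is a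
coboundary on `Y'` (`th_seg`, the segment is in `ball 0 δ`), on `S ∪ σ` (`th_same`: `A` is connected and misses `S ∪ σ`), and a cocycle on `Y`; `glue_arc`
(with its `A := Y'`, `A' := S`): coboundary on `Y`; `dual`.
Choose `a' ∈ A ∩ ball 0 δ`, `b' ∈ B ∩ ball 0 δ` (`0 ∈ σ ∩ ball 0 1` is in both closures).
First conclusion: `z ∈ ball 0 δ \ σ` is in `A` or in `B`; CLAIM.  Second: `z ∈ ball 0 δ ∩ σ` is in `closure A`; points of `A` near `z` are in `A ∩ ball 0 δ`, hence in the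
component of `a'` by the CLAIM.
-/

namespace Pool.Agent.H61.PO

open Set Filter Topology Metric

private theorem free_claim {σ Y' C : Set ℂ} {p q : ℂ} (hσ : IsArc σ p q)
    (hR : σ ⊆ closedBall 0 1) (hS : sphere 0 1 ∩ σ = {p, q}) (hY : IsCompact Y')
    (hSY : sphere 0 1 ⊆ Y') (hY1 : Y' ⊆ closedBall 0 1) (hYσ : Y' ∩ σ = {p, q}) {δ : ℝ}
    (hδ : ball (0 : ℂ) δ ⊆ ball 0 1 \ Y') (hC : IsPreconnected C) (hCs : C ⊆ ball 0 1 \ σ)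
    {p1 p2 : ℂ} (h1 : p1 ∈ C ∩ ball 0 δ) (h2 : p2 ∈ C ∩ ball 0 δ) :
    p2 ∈ connectedComponentIn (Y' ∪ σ)ᶜ p1 := by
  have hp : p ∈ sphere (0 : ℂ) 1 ∩ σ := by rw [hS]; exact Or.inl rfl
  have hq : q ∈ sphere (0 : ℂ) 1 ∩ σ := by rw [hS]; exact Or.inr rfl
  have key : ∀ z ∈ C ∩ ball (0 : ℂ) δ, z ∈ ball (0 : ℂ) 1 \ (Y' ∪ σ) := by
    intro z hz
    refine ⟨(hδ hz.2).1, ?_⟩
    rintro (hzY | hzσ)
    · exact (hδ hz.2).2 hzY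
    · exact (hCs hz.1).2 hzσ
  have hcoc : Coc (Y' ∪ σ) (th p1 + th p2) := by
    have e1 : Y' ∪ σ ⊆ ({p1}ᶜ : Set ℂ) := by
      intro z hz h
      rw [mem_singleton_iff] at h
      exact (key p1 h1).2 (h ▸ hz)
    have e2 : Y' ∪ σ ⊆ ({p2}ᶜ : Set ℂ) := by
      intro z hz h
      rw [mem_singleton_iff] at h
      exact (key p2 h2).2 (h ▸ hz)
    exact ((th_coc p1).mono e1).add ((th_coc p2).mono e2)
  have hco1 : Cob Y' (th p1 + th p2) := by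
    refine th_seg hY ?_
    intro x hx
    exact (hδ ((convex_ball (0 : ℂ) δ).segment_subset h1.2 h2.2 hx)).2
  have hco2 : Cob (sphere 0 1 ∪ σ) (th p1 + th p2) := by
    refine th_same ((isCompact_sphere (0 : ℂ) 1).union hσ.compact) ?_
    refine hC.subset_connectedComponentIn h1.1 ?_ h2.1
    intro z hz
    rintro (hzS | hzσ)
    · have := (hCs hz).1
      rw [mem_ball] at this
      rw [mem_sphere] at hzS
      exact absurd hzS this.ne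
    · exact (hCs hz).2 hzσ
  refine dual (hY.union hσ.compact) (hSY.trans subset_union_left) (union_subset hY1 hR)
    (key p1 h1) (key p2 h2) ?_
  exact glue_arc hY.isClosed hσ hYσ hSY (scc_sphere one_pos).preconn hp.1 hq.1 hcoc hco1 hco2

theorem free_plane {σ Y' : Set ℂ} {p q : ℂ} (hσ : IsArc σ p q) (hR : σ ⊆ closedBall 0 1)
    (hS : sphere 0 1 ∩ σ = {p, q}) (h0 : (0 : ℂ) ∈ σ) (hY : IsCompact Y')
    (hSY : sphere 0 1 ⊆ Y') (hY1 : Y' ⊆ closedBall 0 1) (hYσ : Y' ∩ σ = {p, q}) :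
    ∃ δ : ℝ, 0 < δ ∧ ball (0 : ℂ) δ ⊆ ball 0 1 \ Y' ∧ ∃ a b : ℂ, a ∈ ball 0 δ \ σ ∧
      b ∈ ball 0 δ \ σ ∧
      (∀ z ∈ ball 0 δ \ σ, z ∈ connectedComponentIn (Y' ∪ σ)ᶜ a ∨
        z ∈ connectedComponentIn (Y' ∪ σ)ᶜ b) ∧
      ∀ z ∈ ball 0 δ ∩ σ, z ∈ closure (connectedComponentIn (Y' ∪ σ)ᶜ a ∩ ball 0 δ) ∧
        z ∈ closure (connectedComponentIn (Y' ∪ σ)ᶜ b ∩ ball 0 δ) := by
  have hp : p ∈ sphere (0 : ℂ) 1 ∩ σ := by rw [hS]; exact Or.inl rfl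
  have hq : q ∈ sphere (0 : ℂ) 1 ∩ σ := by rw [hS]; exact Or.inr rfl
  have h01 : (0 : ℂ) ∉ sphere (0 : ℂ) 1 := by simp
  have h0Y : (0 : ℂ) ∉ Y' := by
    intro h
    have : (0 : ℂ) ∈ ({p, q} : Set ℂ) := by rw [← hYσ]; exact ⟨h, h0⟩
    rcases this with h | h
    · exact h01 (h ▸ hp.1)
    · exact h01 (h ▸ hq.1)
  have hopen : IsOpen (ball (0 : ℂ) 1 \ Y') := isOpen_ball.sdiff hY.isClosed
  have hmem : (0 : ℂ) ∈ ball (0 : ℂ) 1 \ Y' := ⟨mem_ball_self one_pos, h0Y⟩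
  obtain ⟨δ, hδ0, hδ⟩ := Metric.isOpen_iff.1 hopen 0 hmem
  obtain ⟨A, B, -, -, hAc, hBc, -, hAB, hAl, hBl⟩ := crosscut one_pos hσ hR hS
  have hAs : A ⊆ ball 0 1 \ σ := by rw [← hAB]; exact subset_union_left
  have hBs : B ⊆ ball 0 1 \ σ := by rw [← hAB]; exact subset_union_right
  have h0b : (0 : ℂ) ∈ σ ∩ ball (0 : ℂ) 1 := ⟨h0, mem_ball_self one_pos⟩
  obtain ⟨a, haδ, haA⟩ := _root_.mem_closure_iff.1 (hAl 0 h0b) (ball 0 δ) isOpen_ball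
    (mem_ball_self hδ0)
  obtain ⟨b, hbδ, hbB⟩ := _root_.mem_closure_iff.1 (hBl 0 h0b) (ball 0 δ) isOpen_ball
    (mem_ball_self hδ0)
  refine ⟨δ, hδ0, hδ, a, b, ⟨haδ, (hAs haA).2⟩, ⟨hbδ, (hBs hbB).2⟩, ?_, ?_⟩
  · intro z hz
    have hz1 : z ∈ A ∪ B := by
      rw [hAB]
      exact ⟨(hδ hz.1).1, hz.2⟩
    rcases hz1 with hzA | hzB
    · exact Or.inl (free_claim hσ hR hS hY hSY hY1 hYσ hδ hAc.isPreconnected hAs ⟨haA, haδ⟩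
        ⟨hzA, hz.1⟩)
    · exact Or.inr (free_claim hσ hR hS hY hSY hY1 hYσ hδ hBc.isPreconnected hBs ⟨hbB, hbδ⟩
        ⟨hzB, hz.1⟩)
  · intro z hz
    have hzb : z ∈ σ ∩ ball (0 : ℂ) 1 := ⟨hz.2, (hδ hz.1).1⟩
    constructor
    · rw [_root_.mem_closure_iff]
      intro o ho hzo
      obtain ⟨w, hw, hwA⟩ := _root_.mem_closure_iff.1 (hAl z hzb) (o ∩ ball 0 δ) (ho.inter isOpen_ball)
        ⟨hzo, hz.1⟩
      exact ⟨w, hw.1, free_claim hσ hR hS hY hSY hY1 hYσ hδ hAc.isPreconnected hAs ⟨haA, haδ⟩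
        ⟨hwA, hw.2⟩, hw.2⟩
    · rw [_root_.mem_closure_iff]
      intro o ho hzo
      obtain ⟨w, hw, hwB⟩ := _root_.mem_closure_iff.1 (hBl z hzb) (o ∩ ball 0 δ) (ho.inter isOpen_ball)
        ⟨hzo, hz.1⟩
      exact ⟨w, hw.1, free_claim hσ hR hS hY hSY hY1 hYσ hδ hBc.isPreconnected hBs ⟨hbB, hbδ⟩
        ⟨hwB, hw.2⟩, hw.2⟩

end Pool.Agent.H61.PO
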