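import Pool.Agent.H61.PO.GB
import Pool.Agent.H61.PO.EFin

/-!
# Pohl's conjecture, Q1 of MP_beb0a3_gt: assembly
-/

namespace Pool.Agent.H61.PO

open Set Filter Topology

open scoped RealInnerProductSpace

theorem polytope_metric {M : Type*} [MetricSpace M] [CompactSpace M] [ConnectedSpace M]
    {E : Type*} [NormedAddCommGroup E] [NormedSpace ℝ E] [FiniteDimensional ℝ E] {f : M → E}
    (hM : Surf M) (hf : Tight f) (hfull : affineSpan ℝ (range f) = ⊤)
    (hd : 6 ≤ Module.finrank ℝ E) :
    ∃ S : Set E, S.Finite ∧ convexHull ℝ (range f) = convexHull ℝ S :=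
  ⟨(hul f).extremePoints ℝ, g2 hM hf hfull hd (ess_finite hM hf hfull hd),
    (minkowski hul_convex (hul_compact hf)).symm⟩

theorem polytope_main {M : Type*} [TopologicalSpace M] [T2Space M] [CompactSpace M]
    [ConnectedSpace M] [ChartedSpace (EuclideanSpace ℝ (Fin 2)) M] {d : ℕ} (hd : 6 ≤ d)
    {f : M → EuclideanSpace ℝ (Fin d)} (hf : Continuous f)
    (hloc : ∀ x, ∃ U ∈ 𝓝 x, InjOn f U) (hfull : affineSpan ℝ (range f) = ⊤)
    (htight : ∀ (v : EuclideanSpace ℝ (Fin d)) (c : ℝ), IsPreconnected {x | c ≤ ⟪v, f x⟫}) :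
    ∃ S : Set (EuclideanSpace ℝ (Fin d)), S.Finite ∧
      convexHull ℝ (range f) = convexHull ℝ S := by
  haveI : SecondCountableTopology M :=
    ChartedSpace.secondCountable_of_sigmaCompact (EuclideanSpace ℝ (Fin 2)) M
  haveI : TopologicalSpace.MetrizableSpace M :=
    TopologicalSpace.metrizableSpace_of_t3_secondCountable M
  letI : MetricSpace M := TopologicalSpace.metrizableSpaceMetric M
  refine polytope_metric (f := f) surf_charted ⟨hf, hloc, fun z c => ?_⟩ hfull (by simpa using hd)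
  have h := htight ((InnerProductSpace.toDual ℝ _).symm z) c
  have e : {x | c ≤ z (f x)} = {x | c ≤ ⟪(InnerProductSpace.toDual ℝ _).symm z, f x⟫} := by
    ext x
    simp [InnerProductSpace.toDual_symm_apply]
  rw [e]
  exact h

end Pool.Agent.H61.PO
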