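import Pool.Agent.H61.PO.CI

/-!
# PO-30: good sets; all faces of the hull are good (P1)

`hul_compact`: `range f` is compact, `IsCompact.convexHull` (finite dimension).
`open_half`: `{z ∘ f < c}` is the increasing union over `n : ℕ` of `{z ∘ f ≤ c - 1/(n+1)} = {-(c - 1/(n+1)) ≤ (-z) ∘ f}`, each preconnected by `tpp`;
`IsPreconnected.sUnion_directed` (or `isPreconnected_of_forall_pair`).
`good_hul`: `f ⁻¹' (hul f ∩ {c ≤ z}) = {c ≤ z ∘ f}` since `f x ∈ hul f`; complement `open_half`.
`good_step`: `C' = C ∩ {η = m}`.  `C' ∩ {c ≤ z} = ⋂ n, C ∩ {c ≤ n * (η - m) + z}`, decreasing in `n` because `η ≤ m` on `C`; i.e.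
`{c + n * m ≤ (n • η + z)}`.  The preimages are closed (compact, `M` compact, `C` closed) preconnected and decreasing, so the intersection is preconnected
(compact Hausdorff: if `A ∩ B`-separation by disjoint closed sets `A`, `B` of the intersection, choose disjoint open `U ⊇ A`, `V ⊇ B`; by compactness some set of
the sequence is contained in `U ∪ V`); the complements are increasing: the union is preconnected (directed union).
`good_face`: by induction on `n` prove for all compact convex `C` with `Good f C`, `dimc C ≤ n` (or `< n`): every `F` with `IsFace C F` is good.  If `F ≠ C`: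
`IsFace.supp` gives `z, m`; `C' = C ∩ {z = m}` is a face of `C` (`IsFace.exposed`), `F ⊆ C'`, `IsFace C' F` (`IsFace.of_subset`), `dimc C' < dimc C`
(`IsFace.dim_lt`), `Good f C'` (`good_step`).
`Good.preconn`, `Good.compl`: take `z = 0`, `c = 0`: `C ∩ {0 ≤ 0} = C`.
-/

namespace Pool.Agent.H61.PO

open Set Filter Topology

variable {M : Type*} [TopologicalSpace M] [CompactSpace M] [T2Space M]
  {E : Type*} [NormedAddCommGroup E] [NormedSpace ℝ E] [FiniteDimensional ℝ E] {f : M → E}

/-- good sets -/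
def Good (f : M → E) (C : Set E) : Prop := ∀ (z : E →L[ℝ] ℝ) (c : ℝ),
  IsPreconnected (f ⁻¹' (C ∩ {v | c ≤ z v})) ∧ IsPreconnected (f ⁻¹' (C ∩ {v | c ≤ z v}))ᶜ

private theorem POPA_sum {ι κ V : Type*} [Fintype ι] [Fintype κ] [AddCommMonoid V] (e : ι ↪ κ)
    (q : κ → V) (hq : ∀ j, j ∉ Finset.univ.map e → q j = 0) : ∑ j, q j = ∑ i, q (e i) := by
  rw [← Finset.sum_map Finset.univ e q]
  symm
  apply Finset.sum_subset (Finset.subset_univ _)
  intro j _ hj
  exact hq j hj

private theorem POPA_hull_compact {s : Set E} (hs : IsCompact s) :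
    IsCompact (convexHull ℝ s) := by
  classical
  set d := Module.finrank ℝ E with hd
  have h1 : convexHull ℝ s = (fun p : (Fin (d + 1) → ℝ) × (Fin (d + 1) → E) =>
      ∑ i, p.1 i • p.2 i) '' (stdSimplex ℝ (Fin (d + 1)) ×ˢ Set.univ.pi fun _ => s) := by
    apply Set.Subset.antisymm
    · intro x hx
      obtain ⟨ι, hι, z, w, hz, ha, hw, hw1, hx1⟩ := eq_pos_convex_span_of_mem_convexHull hx
      have hcard : Fintype.card ι ≤ Fintype.card (Fin (d + 1)) := by
        rw [Fintype.card_fin]
        refine ha.card_le_finrank_succ.trans ?_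
        exact Nat.succ_le_succ (Submodule.finrank_le _)
      obtain ⟨e⟩ := Function.Embedding.nonempty_of_card_le hcard
      have hne : Nonempty ι := by
        by_contra h
        rw [not_nonempty_iff] at h
        rw [Finset.univ_eq_empty, Finset.sum_empty] at hw1
        exact zero_ne_one hw1
      obtain ⟨i0⟩ := hne
      let g : Fin (d + 1) → ι := fun j => if h : ∃ i, e i = j then h.choose else i0
      have hg : ∀ i, g (e i) = i := by
        intro i
        have h : ∃ i', e i' = e i := ⟨i, rfl⟩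
        have h2 : g (e i) = h.choose := dif_pos h
        rw [h2]
        exact e.injective h.choose_spec
      let w' : Fin (d + 1) → ℝ := fun j => if j ∈ Finset.univ.map e then w (g j) else 0
      have hwe : ∀ i, w' (e i) = w i := by
        intro i
        have : e i ∈ Finset.univ.map e := Finset.mem_map_of_mem e (Finset.mem_univ i)
        simp only [w', if_pos this, hg]
      refine ⟨(w', fun j => z (g j)), ⟨⟨?_, ?_⟩, ?_⟩, ?_⟩
      · intro j
        simp only [w']
        split_ifs
        · exact (hw _).le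
        · exact le_rfl
      · show ∑ j, w' j = 1
        rw [POPA_sum e w' (fun j hj => if_neg hj), ← hw1]
        exact Finset.sum_congr rfl fun i _ => hwe i
      · intro j _
        exact hz (mem_range_self _)
      · show ∑ j, w' j • z (g j) = x
        rw [POPA_sum e (fun j => w' j • z (g j)) (fun j hj => by
          simp only [w', if_neg hj, zero_smul]), ← hx1]
        exact Finset.sum_congr rfl fun i _ => by rw [hwe, hg]
    · rintro _ ⟨⟨w, z⟩, ⟨⟨hw0, hw1⟩, hz⟩, rfl⟩
      exact (convex_convexHull ℝ s).sum_mem (fun i _ => hw0 i) hw1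
        fun i _ => subset_convexHull ℝ s (hz i (Set.mem_univ i))
  rw [h1]
  apply ((isCompact_stdSimplex ℝ (Fin (d + 1))).prod (isCompact_univ_pi fun _ => hs)).image
  fun_prop

omit [CompactSpace M] [T2Space M] in
private theorem POPA_iUnion {S : ℕ → Set M} (h : ∀ n, IsPreconnected (S n)) (hm : Monotone S) :
    IsPreconnected (⋃ n, S n) := by
  apply isPreconnected_of_forall_pair
  intro x hx y hy
  obtain ⟨a, ha⟩ := mem_iUnion.1 hx
  obtain ⟨b, hb⟩ := mem_iUnion.1 hy
  exact ⟨S (max a b), subset_iUnion S _, hm (le_max_left a b) ha, hm (le_max_right a b) hb, h _⟩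

private theorem POPA_iInter {S : ℕ → Set M} (h : ∀ n, IsPreconnected (S n))
    (hcl : ∀ n, IsClosed (S n)) (hm : Antitone S) : IsPreconnected (⋂ n, S n) := by
  rw [isPreconnected_closed_iff]
  intro t t' ht ht' hcov hne hne'
  by_contra hcon
  have hSc : IsClosed (⋂ n, S n) := isClosed_iInter hcl
  have hdis : Disjoint ((⋂ n, S n) ∩ t) ((⋂ n, S n) ∩ t') := by
    rw [Set.disjoint_left]
    rintro x ⟨hx, hxt⟩ ⟨-, hxt'⟩
    exact hcon ⟨x, hx, hxt, hxt'⟩
  obtain ⟨U, V, hU, hV, hUt, hVt, hUV⟩ := SeparatedNhds.of_isCompact_isCompact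
    (hSc.inter ht).isCompact (hSc.inter ht').isCompact hdis
  obtain ⟨n, hn⟩ := exists_subset_nhds_of_isCompact' (V := S)
    (directed_of_isDirected_le fun a b hab => hm hab) (fun i => (hcl i).isCompact) hcl
    (U := U ∪ V) (fun x hx => by
      apply (hU.union hV).mem_nhds
      rcases hcov hx with h1 | h1
      · exact Or.inl (hUt ⟨hx, h1⟩)
      · exact Or.inr (hVt ⟨hx, h1⟩))
  obtain ⟨x, hx, hxt⟩ := hne
  obtain ⟨y, hy, hyt⟩ := hne'
  obtain ⟨w, -, hwU, hwV⟩ := h n U V hU hV hn ⟨x, mem_iInter.1 hx n, hUt ⟨hx, hxt⟩⟩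
    ⟨y, mem_iInter.1 hy n, hVt ⟨hy, hyt⟩⟩
  exact Set.disjoint_left.1 hUV hwU hwV

theorem hul_compact (hf : Tight f) : IsCompact (hul f) :=
  POPA_hull_compact (isCompact_range hf.cont)

theorem hul_convex : Convex ℝ (hul f) := convex_convexHull ℝ _

theorem mem_hul (a : M) : f a ∈ hul f := subset_convexHull ℝ _ (mem_range_self a)

theorem open_half (hf : Tight f) (z : E →L[ℝ] ℝ) (c : ℝ) : IsPreconnected {x | z (f x) < c} := by
  have h1 : {x | z (f x) < c} = ⋃ n : ℕ, {x | -(c - 1 / ((n : ℝ) + 1)) ≤ (-z) (f x)} := by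
    ext x
    rw [mem_iUnion]
    constructor
    · intro hx
      obtain ⟨n, hn⟩ := exists_nat_one_div_lt (sub_pos.2 (show z (f x) < c from hx))
      refine ⟨n, ?_⟩
      show -(c - 1 / ((n : ℝ) + 1)) ≤ (-z) (f x)
      rw [neg_apply]
      linarith
    · rintro ⟨n, hn⟩
      have h2 : -(c - 1 / ((n : ℝ) + 1)) ≤ (-z) (f x) := hn
      have h3 : (0 : ℝ) < 1 / ((n : ℝ) + 1) := Nat.one_div_pos_of_nat
      rw [neg_apply] at h2
      show z (f x) < c
      linarith
  rw [h1]
  apply POPA_iUnion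
  · intro n
    exact hf.tpp (-z) _
  · intro a b hab x hx
    have h2 : -(c - 1 / ((a : ℝ) + 1)) ≤ (-z) (f x) := hx
    have h3 : (1 : ℝ) / ((b : ℝ) + 1) ≤ 1 / ((a : ℝ) + 1) := Nat.one_div_le_one_div hab
    show -(c - 1 / ((b : ℝ) + 1)) ≤ (-z) (f x)
    linarith

theorem good_hul (hf : Tight f) : Good f (hul f) := by
  intro z c
  have h1 : f ⁻¹' (hul f ∩ {v | c ≤ z v}) = {x | c ≤ z (f x)} := by
    ext x
    exact ⟨fun h => h.2, fun h => ⟨mem_hul x, h⟩⟩
  rw [h1]
  refine ⟨hf.tpp z c, ?_⟩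
  have h2 : {x | c ≤ z (f x)}ᶜ = {x | z (f x) < c} := by
    ext x
    simp only [mem_compl_iff, mem_setOf_eq, not_le]
  rw [h2]
  exact open_half hf z c

private theorem POPA_triv (C : Set E) : C ∩ {v | (0 : ℝ) ≤ (0 : E →L[ℝ] ℝ) v} = C := by
  ext v
  exact ⟨fun h => h.1, fun h => ⟨h, le_refl (0 : ℝ)⟩⟩

theorem Good.preconn {C : Set E} (h : Good f C) : IsPreconnected (f ⁻¹' C) := by
  have := (h 0 0).1
  rwa [POPA_triv] at this

theorem Good.compl {C : Set E} (h : Good f C) : IsPreconnected (f ⁻¹' C)ᶜ := by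
  have := (h 0 0).2
  rwa [POPA_triv] at this

theorem good_step (hf : Tight f) {C : Set E} (hC : IsCompact C) (hg : Good f C)
    (η : E →L[ℝ] ℝ) {m : ℝ} (hm : ∀ v ∈ C, η v ≤ m) : Good f (C ∩ {v | η v = m}) := by
  intro z c
  set S : ℕ → Set M := fun n => f ⁻¹' (C ∩ {v | c + n * m ≤ ((n : ℝ) • η + z) v}) with hS
  have hval : ∀ (n : ℕ) (v : E), ((n : ℝ) • η + z) v = n * η v + z v := fun n v => rfl
  have hmem : ∀ n x, x ∈ S n ↔ f x ∈ C ∧ c + n * m ≤ n * η (f x) + z (f x) := fun n x => Iff.rfl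
  have hanti : Antitone S := by
    apply antitone_nat_of_succ_le
    intro n x hx
    rw [hmem] at hx ⊢
    refine ⟨hx.1, ?_⟩
    have h1 := hm _ hx.1
    have h2 := hx.2
    push_cast at h2
    linarith
  have hcl : ∀ n, IsClosed (S n) := by
    intro n
    apply IsClosed.preimage hf.cont
    exact hC.isClosed.inter (isClosed_le continuous_const ((n : ℝ) • η + z).continuous)
  have hint : f ⁻¹' (C ∩ {v | η v = m} ∩ {v | c ≤ z v}) = ⋂ n, S n := by
    ext x
    rw [mem_iInter]
    constructor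
    · rintro ⟨⟨h1, h2⟩, h3⟩ n
      have h2' : η (f x) = m := h2
      have h3' : c ≤ z (f x) := h3
      rw [hmem]
      refine ⟨h1, ?_⟩
      rw [h2']
      linarith
    · intro h
      have h0 := h 0
      rw [hmem] at h0
      have h0c : c ≤ z (f x) := by
        have := h0.2
        push_cast at this
        linarith
      refine ⟨⟨h0.1, ?_⟩, h0c⟩
      show η (f x) = m
      apply le_antisymm (hm _ h0.1)
      by_contra hlt
      push Not at hlt
      obtain ⟨n, hn⟩ := exists_nat_gt ((z (f x) - c) / (m - η (f x)))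
      rw [div_lt_iff₀ (sub_pos.2 hlt)] at hn
      have h1 := ((hmem n x).1 (h n)).2
      nlinarith
  rw [hint]
  refine ⟨POPA_iInter (fun n => (hg _ _).1) hcl hanti, ?_⟩
  rw [compl_iInter]
  apply POPA_iUnion (fun n => (hg _ _).2)
  intro a b hab
  exact compl_subset_compl.2 (hanti hab)

private theorem POPA_ind (hf : Tight f) (n : ℕ) : ∀ C : Set E, IsCompact C → Convex ℝ C →
    Good f C → dimc C < n → ∀ F, IsFace C F → Good f F := by
  induction n with
  | zero =>
    intro C _ _ _ h
    exact absurd h (Nat.not_lt_zero _)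
  | succ n ih =>
    intro C hC hc hg hd F hF
    by_cases hne : F = C
    · rwa [hne]
    · obtain ⟨z, m, h1, h2, x, hx, hxm⟩ := IsFace.supp hc hF hne
      obtain ⟨y, hy⟩ := hF.2.2.2
      have hC' : IsFace C (C ∩ {v | z v = m}) :=
        IsFace.exposed hc hC z h1 ⟨y, hF.subset hy, h2 y hy⟩
      have hne' : C ∩ {v | z v = m} ≠ C := by
        intro h
        rw [← h] at hx
        exact hxm.ne hx.2
      have hFC' : IsFace (C ∩ {v | z v = m}) F :=
        IsFace.of_subset hC' hF fun v hv => ⟨hF.subset hv, h2 v hv⟩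
      have hlt := IsFace.dim_lt hc hC' hne'
      exact ih _ hC'.2.2.1 hC'.2.1 (good_step hf hC hg z h1) (by omega) F hFC'

theorem good_face (hf : Tight f) {F : Set E} (hF : IsFace (hul f) F) : Good f F :=
  POPA_ind hf (dimc (hul f) + 1) _ (hul_compact hf) hul_convex (good_hul hf) (Nat.lt_succ_self _)
    F hF

end Pool.Agent.H61.PO
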