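import Pool.Agent.H61.PO.PD
import Pool.Agent.H61.PO.LocalB

/-!
# PO-37: separating pairs of 2-faces (S1, S4, S5)

`seg_meets` (S1): otherwise the compact convex sets `convexHull (F ∪ G)` and `segment (f p) (f q)` are disjoint: a functional `z` and `c` with `z < c` on the segment, `c < z` on the
hull of `F ∪ G` (`geometric_hahn_banach_compact_closed`).  `{z ∘ f < c}` is preconnected (`open_half`), misses both curves, contains `p` and `q`:
`IsPreconnected.subset_connectedComponentIn`.  (`convexHull (F ∪ G)` is compact: `F`, `G` are.)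
`comp_limits` (S4): `W` = component of `w`, open, `closure W ⊆ W ∪ cv f F ∪ cv f G` (`comp_isOpen`, `comp_closure` for the closed set `cv f F ∪ cv f G`).  If `closure W` misses
`cv f F \ cv f G` then `W` is open and closed in the preconnected set `(cv f G)ᶜ` (`Ess f G`), so `(cv f G)ᶜ ⊆ W ⊆ (cv f F ∪ cv f G)ᶜ`; so this last set is equal to
`W`, preconnected: contradiction to `Sep`.  The other one is symmetric.
`ext_conv` (S5): `ext_of_conv` with `A = F ∪ G`.
`sep_symm`: `union_comm`.
-/

namespace Pool.Agent.H61.PO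

open Set Filter Topology

variable {M : Type*} [MetricSpace M] [CompactSpace M] [Nonempty M]
  {E : Type*} [NormedAddCommGroup E] [NormedSpace ℝ E] [FiniteDimensional ℝ E] {f : M → E}
  {F G : Set E}

private theorem POSA_join_compact {A B : Set E} (hA : IsCompact A) (hB : IsCompact B) :
    IsCompact (convexJoin ℝ A B) := by
  have h1 : convexJoin ℝ A B =
      (fun p : ℝ × E × E => (1 - p.1) • p.2.1 + p.1 • p.2.2) '' (Icc (0:ℝ) 1 ×ˢ (A ×ˢ B)) := by
    ext x
    rw [mem_convexJoin]
    constructor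
    · rintro ⟨a, ha, b, hb, hx⟩
      rw [segment_eq_image] at hx
      obtain ⟨t, ht, hx⟩ := hx
      exact ⟨(t, a, b), ⟨ht, ha, hb⟩, hx⟩
    · rintro ⟨⟨t, a, b⟩, ⟨ht, ha, hb⟩, hx⟩
      refine ⟨a, ha, b, hb, ?_⟩
      rw [segment_eq_image]
      exact ⟨t, ht, hx⟩
  rw [h1]
  apply (isCompact_Icc.prod (hA.prod hB)).image
  fun_prop

private theorem POSA_hull_compact (hF : Two f F) (hG : Two f G) :
    IsCompact (convexHull ℝ (F ∪ G)) := by
  obtain ⟨⟨-, hFc, hFk, hFn⟩, -⟩ := hF
  obtain ⟨⟨-, hGc, hGk, hGn⟩, -⟩ := hG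
  rw [hFc.convexHull_union hGc hFn hGn]
  exact POSA_join_compact hFk hGk

private theorem POSA_cv_sub (hF : Two f F) {x : M} (hx : x ∈ cv f F) : f x ∈ F :=
  intrinsicFrontier_subset hF.1.2.2.1.isClosed hx

theorem seg_meets (hf : Tight f) (hF : Two f F) (hG : Two f G) {p q : M}
    (hp : p ∉ cv f F ∪ cv f G) (hq : q ∉ cv f F ∪ cv f G)
    (h : q ∉ connectedComponentIn (cv f F ∪ cv f G)ᶜ p) :
    (segment ℝ (f p) (f q) ∩ convexHull ℝ (F ∪ G)).Nonempty := by
  by_contra hcon
  have hdis : Disjoint (segment ℝ (f p) (f q)) (convexHull ℝ (F ∪ G)) := by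
    rw [Set.disjoint_iff_inter_eq_empty]
    exact Set.not_nonempty_iff_eq_empty.mp hcon
  have hsk : IsCompact (segment ℝ (f p) (f q)) := by
    rw [segment_eq_image]
    apply isCompact_Icc.image
    fun_prop
  obtain ⟨z, u, v, h1, h2, h3⟩ := geometric_hahn_banach_compact_closed
    (convex_segment (f p) (f q)) hsk (convex_convexHull ℝ (F ∪ G))
    (POSA_hull_compact hF hG).isClosed hdis
  have hU := open_half hf z u
  have hpU : p ∈ {x | z (f x) < u} := h1 _ (left_mem_segment ℝ _ _)
  have hqU : q ∈ {x | z (f x) < u} := h1 _ (right_mem_segment ℝ _ _)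
  have hsub : {x | z (f x) < u} ⊆ (cv f F ∪ cv f G)ᶜ := by
    intro x hx hmem
    have hx' : z (f x) < u := hx
    have : f x ∈ F ∪ G := by
      rcases hmem with hm | hm
      · exact Or.inl (POSA_cv_sub hF hm)
      · exact Or.inr (POSA_cv_sub hG hm)
    have h4 := h3 _ (subset_convexHull ℝ _ this)
    linarith
  exact h (hU.subset_connectedComponentIn hpU hsub hqU)

private theorem POSA_half (hM : Surf M) (hf : Tight f) (hF : Two f F) (hG : Ess f G)
    (hs : Sep f F G) {w : M} (hw : w ∉ cv f F ∪ cv f G) :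
    (closure (connectedComponentIn (cv f F ∪ cv f G)ᶜ w) ∩ (cv f F \ cv f G)).Nonempty := by
  have hX : IsClosed (cv f F ∪ cv f G) :=
    (cv_compact hf hF).isClosed.union (cv_compact hf hG.1).isClosed
  by_contra hcon
  rw [Set.not_nonempty_iff_eq_empty] at hcon
  set W := connectedComponentIn (cv f F ∪ cv f G)ᶜ w with hW
  have hWo : IsOpen W := comp_isOpen hM hX w
  have hWc : closure W ⊆ W ∪ (cv f F ∪ cv f G) := comp_closure hM hX w
  have hwW : w ∈ W := mem_connectedComponentIn hw
  have hWs : W ⊆ (cv f F ∪ cv f G)ᶜ := connectedComponentIn_subset _ _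
  have h1 : (cv f G)ᶜ ⊆ W := by
    apply hG.2.subset_of_closure_inter_subset hWo
    · exact ⟨w, fun h => hw (Or.inr h), hwW⟩
    · rintro x ⟨hx1, hx2⟩
      rcases hWc hx1 with h | h | h
      · exact h
      · exfalso
        have : x ∈ closure W ∩ (cv f F \ cv f G) := ⟨hx1, h, hx2⟩
        rw [hcon] at this
        exact this
      · exact absurd h hx2
  apply hs
  have h2 : (cv f F ∪ cv f G)ᶜ = W := by
    apply Set.Subset.antisymm _ hWs
    exact (Set.compl_subset_compl.mpr Set.subset_union_right).trans h1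
  rw [h2, hW]
  exact isPreconnected_connectedComponentIn

theorem sep_symm (h : Sep f F G) : Sep f G F := by
  unfold Sep at h ⊢
  rwa [Set.union_comm]

theorem comp_limits (hM : Surf M) (hf : Tight f) (hF : Ess f F) (hG : Ess f G)
    (hs : Sep f F G) {w : M} (hw : w ∉ cv f F ∪ cv f G) :
    (closure (connectedComponentIn (cv f F ∪ cv f G)ᶜ w) ∩ (cv f F \ cv f G)).Nonempty ∧
    (closure (connectedComponentIn (cv f F ∪ cv f G)ᶜ w) ∩ (cv f G \ cv f F)).Nonempty := by
  refine ⟨POSA_half hM hf hF.1 hG hs hw, ?_⟩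
  rw [Set.union_comm (cv f F)] at hw ⊢
  exact POSA_half hM hf hG.1 hF (sep_symm hs) hw

theorem ext_conv (hF : Two f F) (hG : Two f G) {x : E} (hx : x ∈ (hul f).extremePoints ℝ)
    (h : x ∈ convexHull ℝ (F ∪ G)) : x ∈ F ∨ x ∈ G := by
  have hA : F ∪ G ⊆ hul f := Set.union_subset hF.1.subset hG.1.subset
  have := ext_of_conv (K := hul f) (A := F ∪ G) hul_convex hx hA h
  exact this

theorem flat_symm (h : Flat f F G) : Flat f G F := by
  unfold Flat at h ⊢
  rwa [Set.union_comm (cv f G), Set.union_comm G]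

end Pool.Agent.H61.PO
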