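import Pool.Agent.H61.PO.Homot

/-!
# PO-07: the class `th p` of the punctured plane

`th0_coc`: near `x ≠ 0`: if `0 < re x` or `im x ≠ 0` then all points near `x` have positive real part resp. the same
sign of the imaginary part, so `th0 = 0` on pairs near `x`; if `re x < 0` then near `x` it is the coboundary of `a ↦ [0 ≤ im a]`.
`th_not_cob`: wlog (pull back by `z ↦ z + p`, `z ↦ r z`, or directly) `p = 0`.  Let `s` be a primitive on the circle.  On the upper
half circle `{0 ≤ im}` `th0 = 0`, so `s` is constant there (connected; locally constant).  On `{im < 0}` together with the point `r` (or on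
the set `{im ≤ 0}` minus `-r`, an arc, connected) `th0 = 0`, so `s` is constant there; hence `s (-r) = s r = s b` for all `b` on the lower half.
But for `b` on the lower half near `-r`: `1 = th0 (-r) b = s (-r) + s b = 0`.
`th_seg`: `homot` with `H a t = a - (p + t (q - p))` into the complement of `0`.
`th_ball`: `th_seg` for `p`, `c` (the segment is in the ball) and `th_not_cob`.
`th_out`: `closedBall c r` is star shaped, `triv_star`, `th_coc`.
`th_same`: `U = connectedComponentIn Yᶜ p` is preconnected; `{q ∈ U | Cob Y (th p + th q)}` contains `p`, and it and its complement in `U` are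
open: for `q ∉ Y` a ball around `q` misses `Y`, use `th_seg` and `Cob.trans`.
-/

namespace Pool.Agent.H61.PO

open Set Filter Topology Metric

open Classical in
noncomputable def th0 (a b : ℂ) : ZMod 2 :=
  if a.re < 0 ∧ b.re < 0 ∧ ¬ (0 ≤ a.im ↔ 0 ≤ b.im) then 1 else 0

noncomputable def th (p a b : ℂ) : ZMod 2 := th0 (a - p) (b - p)

private theorem th0_nn {a b : ℂ} (h : 0 ≤ a.im ↔ 0 ≤ b.im) : th0 a b = 0 := by
  unfold th0
  rw [if_neg]
  rintro ⟨-, -, h1⟩
  exact h1 h

private theorem th0_coc : Coc ({0}ᶜ) th0 := by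
  intro x hx
  have hx0 : x ≠ 0 := hx
  have key : 0 < x.re ∨ x.re < 0 ∨ 0 < x.im ∨ x.im < 0 := by
    by_contra h
    push Not at h
    obtain ⟨h1, h2, h3, h4⟩ := h
    exact hx0 (Complex.ext (le_antisymm h1 h2) (le_antisymm h3 h4))
  rcases key with h | h | h | h
  · refine ⟨{y : ℂ | 0 < y.re}, (isOpen_lt continuous_const Complex.continuous_re).mem_nhds h, ?_⟩
    have h0 : ∀ a b : ℂ, 0 < a.re → th0 a b = 0 := by
      intro a b ha
      unfold th0
      rw [if_neg]
      rintro ⟨h1, -⟩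
      exact absurd h1 (not_lt.2 ha.le)
    intro a ha b hb c hc
    rw [h0 a b ha.1, h0 b c hb.1, h0 a c ha.1, add_zero]
  · refine ⟨{y : ℂ | y.re < 0}, (isOpen_lt Complex.continuous_re continuous_const).mem_nhds h, ?_⟩
    intro a ha b hb c hc
    have ha' : a.re < 0 := ha.1
    have hb' : b.re < 0 := hb.1
    have hc' : c.re < 0 := hc.1
    unfold th0
    by_cases h1 : 0 ≤ a.im <;> by_cases h2 : 0 ≤ b.im <;> by_cases h3 : 0 ≤ c.im <;>
      simp [ha', hb', hc', h1, h2, h3] <;> decide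
  · refine ⟨{y : ℂ | 0 < y.im}, (isOpen_lt continuous_const Complex.continuous_im).mem_nhds h, ?_⟩
    intro a ha b hb c hc
    have ha' : 0 < a.im := ha.1
    have hb' : 0 < b.im := hb.1
    have hc' : 0 < c.im := hc.1
    rw [th0_nn (iff_of_true ha'.le hb'.le), th0_nn (iff_of_true hb'.le hc'.le),
      th0_nn (iff_of_true ha'.le hc'.le), add_zero]
  · refine ⟨{y : ℂ | y.im < 0}, (isOpen_lt Complex.continuous_im continuous_const).mem_nhds h, ?_⟩
    intro a ha b hb c hc
    have ha' : ¬ 0 ≤ a.im := not_le.2 ha.1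
    have hb' : ¬ 0 ≤ b.im := not_le.2 hb.1
    have hc' : ¬ 0 ≤ c.im := not_le.2 hc.1
    rw [th0_nn (iff_of_false ha' hb'), th0_nn (iff_of_false hb' hc'),
      th0_nn (iff_of_false ha' hc'), add_zero]

theorem th_coc (p : ℂ) : Coc ({p}ᶜ) (th p) := by
  refine th0_coc.pullback (φ := fun z : ℂ => z - p) (by fun_prop) ?_
  intro z hz
  exact sub_ne_zero.2 hz

private noncomputable def thE (r θ : ℝ) : ℂ := ⟨r * Real.cos θ, r * Real.sin θ⟩

private theorem thE_cont (r : ℝ) : Continuous (thE r) := by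
  have h : thE r = fun θ : ℝ => ((r * Real.cos θ : ℝ) : ℂ) + ((r * Real.sin θ : ℝ) : ℂ) * Complex.I := by
    funext θ
    rw [← Complex.mk_eq_add_mul_I]
    rfl
  rw [h]
  fun_prop

private theorem thE_mem {r : ℝ} (hr : 0 < r) (θ : ℝ) : thE r θ ∈ sphere (0 : ℂ) r := by
  rw [mem_sphere_zero_iff_norm]
  have h : ‖thE r θ‖ ^ 2 = r ^ 2 := by
    rw [Complex.sq_norm, Complex.normSq_apply]
    show r * Real.cos θ * (r * Real.cos θ) + r * Real.sin θ * (r * Real.sin θ) = r ^ 2
    have := Real.sin_sq_add_cos_sq θ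
    nlinarith
  exact (pow_left_inj₀ (norm_nonneg _) hr.le two_ne_zero).1 h

theorem th_not_cob (p : ℂ) {r : ℝ} (hr : 0 < r) : ¬ Cob (sphere p r) (th p) := by
  intro hcob
  have h0 : Cob (sphere (0 : ℂ) r) th0 := by
    have h1 := hcob.pullback (A := sphere (0 : ℂ) r) (φ := fun z : ℂ => z + p) (by fun_prop) (by
      intro z hz
      rw [mem_sphere_zero_iff_norm] at hz
      rw [mem_sphere_iff_norm, add_sub_cancel_right]
      exact hz)
    refine h1.of_eqOn ?_
    intro a _ b _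
    simp only [th, add_sub_cancel_right]
  obtain ⟨s, hs⟩ := h0
  have hpi := Real.pi_pos
  have hA1 : IsPreconnected (thE r '' Icc 0 Real.pi) :=
    isPreconnected_Icc.image _ (thE_cont r).continuousOn
  have hA2 : IsPreconnected (thE r '' Ioc (-Real.pi) 0) :=
    isPreconnected_Ioc.image _ (thE_cont r).continuousOn
  have hsub : ∀ I : Set ℝ, thE r '' I ⊆ sphere (0 : ℂ) r := by
    rintro I _ ⟨θ, -, rfl⟩
    exact thE_mem hr θ
  have hz1 : LCob (thE r '' Icc 0 Real.pi) th0 (fun _ => 0) := by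
    intro x _
    refine ⟨univ, univ_mem, ?_⟩
    rintro a ⟨-, θ, hθ, rfl⟩ b ⟨-, η, hη, rfl⟩
    rw [add_zero]
    apply th0_nn
    have e1 : 0 ≤ r * Real.sin θ := mul_nonneg hr.le (Real.sin_nonneg_of_mem_Icc hθ)
    have e2 : 0 ≤ r * Real.sin η := mul_nonneg hr.le (Real.sin_nonneg_of_mem_Icc hη)
    exact iff_of_true e1 e2
  have hz2 : LCob (thE r '' Ioc (-Real.pi) 0) th0 (fun _ => 0) := by
    intro x _
    refine ⟨univ, univ_mem, ?_⟩
    rintro a ⟨-, θ, hθ, rfl⟩ b ⟨-, η, hη, rfl⟩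
    rw [add_zero]
    have key : ∀ θ ∈ Ioc (-Real.pi) 0, (thE r θ).re < 0 → ¬ 0 ≤ (thE r θ).im := by
      intro θ hθ h1
      have h2 : θ ≠ 0 := by
        rintro rfl
        have h3 : r * Real.cos 0 < 0 := h1
        rw [Real.cos_zero, mul_one] at h3
        exact absurd h3 (not_lt.2 hr.le)
      have h4 : θ < 0 := lt_of_le_of_ne hθ.2 h2
      have h5 : Real.sin θ < 0 := Real.sin_neg_of_neg_of_neg_pi_lt h4 hθ.1
      exact not_le.2 (mul_neg_of_pos_of_neg hr h5)
    unfold th0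
    rw [if_neg]
    rintro ⟨h1, h2, h3⟩
    exact h3 (iff_of_false (key θ hθ h1) (key η hη h2))
  obtain ⟨c₁, hc₁⟩ := (hs.mono (hsub _)).const hz1 hA1
  obtain ⟨c₂, hc₂⟩ := (hs.mono (hsub _)).const hz2 hA2
  have hr1 := hc₁ (thE r 0) ⟨0, ⟨le_refl _, hpi.le⟩, rfl⟩
  have hr2 := hc₂ (thE r 0) ⟨0, ⟨by linarith, le_refl _⟩, rfl⟩
  rw [add_zero] at hr1 hr2
  have hc : c₁ = c₂ := hr1.symm.trans hr2
  have hend : thE r (-Real.pi) = thE r Real.pi := by
    apply Complex.ext
    · show r * Real.cos (-Real.pi) = r * Real.cos Real.pi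
      rw [Real.cos_neg]
    · show r * Real.sin (-Real.pi) = r * Real.sin Real.pi
      rw [Real.sin_neg, Real.sin_pi, neg_zero]
  have hr3 := hc₁ (thE r Real.pi) ⟨Real.pi, ⟨hpi.le, le_refl _⟩, rfl⟩
  rw [add_zero, ← hend] at hr3
  obtain ⟨U, hU, hU1⟩ := hs (thE r (-Real.pi)) (thE_mem hr _)
  have h5 : thE r ⁻¹' U ∈ 𝓝 (-Real.pi) := (thE_cont r).continuousAt hU
  have h6 : ∃ θ ∈ thE r ⁻¹' U, -Real.pi < θ ∧ θ < -(Real.pi / 2) := by
    have h7 : thE r ⁻¹' U ∩ Iio (-(Real.pi / 2)) ∈ 𝓝 (-Real.pi) :=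
      inter_mem h5 (Iio_mem_nhds (by linarith))
    have h8 : (thE r ⁻¹' U ∩ Iio (-(Real.pi / 2))) ∩ Ioi (-Real.pi) ∈ 𝓝[>] (-Real.pi) :=
      inter_mem (mem_nhdsWithin_of_mem_nhds h7) self_mem_nhdsWithin
    obtain ⟨θ, hθ, hθ1⟩ := Filter.nonempty_of_mem h8
    exact ⟨θ, hθ.1, hθ1, hθ.2⟩
  obtain ⟨θ, hθU, hθ1, hθ2⟩ := h6
  have e := hU1 (thE r (-Real.pi)) ⟨mem_of_mem_nhds hU, thE_mem hr _⟩ (thE r θ) ⟨hθU, thE_mem hr _⟩
  have hr4 := hc₂ (thE r θ) ⟨θ, ⟨hθ1, by linarith⟩, rfl⟩
  rw [add_zero] at hr4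
  rw [hr3, hr4, ← hc, CharTwo.add_self_eq_zero] at e
  have h9 : th0 (thE r (-Real.pi)) (thE r θ) = 1 := by
    unfold th0
    rw [if_pos]
    refine ⟨?_, ?_, ?_⟩
    · show r * Real.cos (-Real.pi) < 0
      rw [Real.cos_neg, Real.cos_pi]
      linarith
    · show r * Real.cos θ < 0
      apply mul_neg_of_pos_of_neg hr
      rw [← Real.cos_neg]
      exact Real.cos_neg_of_pi_div_two_lt_of_lt (by linarith) (by linarith)
    · have h10 : 0 ≤ (thE r (-Real.pi)).im := by
        show 0 ≤ r * Real.sin (-Real.pi)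
        rw [Real.sin_neg, Real.sin_pi, neg_zero, mul_zero]
      have h11 : ¬ 0 ≤ (thE r θ).im := by
        show ¬ 0 ≤ r * Real.sin θ
        exact not_le.2 (mul_neg_of_pos_of_neg hr
          (Real.sin_neg_of_neg_of_neg_pi_lt (by linarith) hθ1))
      intro h12
      exact h11 (h12.1 h10)
  rw [h9] at e
  exact absurd e (by decide)

theorem th_seg {Y : Set ℂ} (hY : IsCompact Y) {p q : ℂ} (h : ∀ x ∈ segment ℝ p q, x ∉ Y) :
    Cob Y (th p + th q) := by
  have h1 := homot hY th0_coc (fun a t => a - (p + (t : ℂ) * (q - p))) (by fun_prop) (by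
    intro y hy t ht
    show y - (p + (t : ℂ) * (q - p)) ≠ 0
    intro h2
    apply h y _ hy
    rw [segment_eq_image']
    refine ⟨t, ht, ?_⟩
    show p + t • (q - p) = y
    rw [Complex.real_smul]
    exact (sub_eq_zero.1 h2).symm)
  refine h1.of_eqOn ?_
  intro a _ b _
  simp [th]

theorem th_sphere {c p q : ℂ} {r : ℝ} (hp : p ∈ ball c r) (hq : q ∈ ball c r) :
    Cob (sphere c r) (th p + th q) := by
  refine th_seg (isCompact_sphere c r) ?_
  intro x hx hx2
  have h1 : x ∈ ball c r := (convex_ball c r).segment_subset hp hq hx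
  rw [mem_ball] at h1
  rw [mem_sphere] at hx2
  linarith

theorem th_ball {c p : ℂ} {r : ℝ} (hp : p ∈ ball c r) : ¬ Cob (sphere c r) (th p) := by
  have hr : 0 < r := pos_of_mem_ball hp
  rw [(th_sphere hp (mem_ball_self hr)).congr]
  exact th_not_cob c hr

theorem th_out {c p : ℂ} {r : ℝ} (hp : p ∉ closedBall c r) : Cob (closedBall c r) (th p) := by
  rcases lt_or_ge r 0 with hr | hr
  · rw [closedBall_eq_empty.2 hr]
    exact ⟨fun _ => 0, fun x hx => absurd hx (Set.notMem_empty x)⟩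
  · refine triv_star (isCompact_closedBall c r) (mem_closedBall_self hr)
      ((convex_closedBall c r).starConvex (mem_closedBall_self hr)) _ ((th_coc p).mono ?_)
    intro x hx hxp
    rw [mem_singleton_iff.1 hxp] at hx
    exact hp hx

theorem th_same {Y : Set ℂ} (hY : IsCompact Y) {p q : ℂ} (h : q ∈ connectedComponentIn Yᶜ p) :
    Cob Y (th p + th q) := by
  have hp : p ∈ Yᶜ := by
    by_contra hp
    rw [connectedComponentIn_eq_empty hp] at h
    exact h
  refine isPreconnected_connectedComponentIn.induction₂ (fun x y => Cob Y (th x + th y)) ?_ ?_ ?_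
    (mem_connectedComponentIn hp) h
  · intro x hx
    have hxY : x ∈ Yᶜ := connectedComponentIn_subset _ _ hx
    obtain ⟨ε, hε, hb⟩ := Metric.isOpen_iff.1 hY.isClosed.isOpen_compl x hxY
    filter_upwards [mem_nhdsWithin_of_mem_nhds (Metric.ball_mem_nhds x hε)] with y hy
    refine th_seg hY ?_
    intro z hz
    exact hb ((convex_ball x ε).segment_subset (mem_ball_self hε) hy hz)
  · intro x y z _ _ _ h1 h2
    exact h1.trans h2
  · intro x y _ _ h1
    exact h1.symm

end Pool.Agent.H61.PO
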